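import Pool.Agent.P.MP_2f6447_an.Q.Bas

/-! Abel summation of the slope at the wall. -/

open Set MeasureTheory Filter Topology Real

namespace Pool.Agent.L2Q

open Pool.Agent.L2K

variable {lam q ρ y t a b c m : ℝ} {j : ℕ} {ξ p : ℝ → ℝ}

/-- the conjugate Poisson kernel, differentiated -/
noncomputable def Abel_K (q y : ℝ) : ℝ :=
  q * (1 - q ^ 2) * sin y / (1 - 2 * q * cos y + q ^ 2) ^ 2

theorem Abel_den_pos (h0 : 0 ≤ q) (h1 : q < 1) (y : ℝ) : 0 < 1 - 2 * q * cos y + q ^ 2 := by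
  have := cos_le_one y
  nlinarith [mul_nonneg h0 (sub_nonneg.2 this), sq_pos_of_pos (sub_pos.2 h1)]

theorem Abel_hasSum (h0 : 0 ≤ q) (h1 : q < 1) (y : ℝ) :
    HasSum (fun j : ℕ => q ^ j * j * sin (j * y)) (Abel_K q y) := by
  set z : ℂ := (q : ℂ) * Complex.exp (y * Complex.I) with hz
  have hn : ‖z‖ < 1 := by
    rw [hz, norm_mul, Complex.norm_exp_ofReal_mul_I, Complex.norm_real, Real.norm_eq_abs,
      abs_of_nonneg h0]
    linarith
  have h := Complex.hasSum_im (hasSum_coe_mul_geometric_of_norm_lt_one hn)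
  have e1 : ∀ n : ℕ, ((n : ℂ) * z ^ n).im = q ^ n * n * sin (n * y) := by
    intro n
    have : z ^ n = ((q ^ n : ℝ) : ℂ) * Complex.exp (((n * y : ℝ) : ℂ) * Complex.I) := by
      rw [hz, mul_pow, ← Complex.exp_nat_mul]
      push_cast
      ring_nf
    rw [this]
    have h2 : ((n : ℂ)) = ((n : ℝ) : ℂ) := by push_cast; rfl
    rw [h2, Complex.im_ofReal_mul, Complex.im_ofReal_mul, Complex.exp_ofReal_mul_I_im]
    ring
  have hre : z.re = q * cos y := by
    rw [hz, Complex.re_ofReal_mul, Complex.exp_ofReal_mul_I_re]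
  have him : z.im = q * sin y := by
    rw [hz, Complex.im_ofReal_mul, Complex.exp_ofReal_mul_I_im]
  have hD := Abel_den_pos h0 h1 y
  have hs := sin_sq_add_cos_sq y
  have e2 : (z / (1 - z) ^ 2).im = Abel_K q y := by
    have hN : Complex.normSq ((1 - z) ^ 2) = (1 - 2 * q * cos y + q ^ 2) ^ 2 := by
      rw [map_pow, Complex.normSq_apply]
      simp only [Complex.sub_re, Complex.one_re, Complex.sub_im, Complex.one_im, hre, him]
      congr 1
      linear_combination q ^ 2 * hs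
    rw [Complex.div_im, hN, Abel_K, sq (1 - z)]
    simp only [Complex.mul_re, Complex.mul_im, Complex.sub_re, Complex.one_re, Complex.sub_im,
      Complex.one_im, hre, him]
    rw [← sub_div]
    congr 1
    linear_combination (-(q ^ 3 * sin y)) * hs
  rw [e2] at h
  simpa only [e1] using h

theorem Abel_K_nonneg (h0 : 0 ≤ q) (h1 : q < 1) (hy : y ∈ Icc 0 π) : 0 ≤ Abel_K q y := by
  have hs := sin_nonneg_of_mem_Icc hy
  have : 0 ≤ 1 - q ^ 2 := by nlinarith
  unfold Abel_K
  positivity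

theorem Abel_K_cont (h0 : 0 ≤ q) (h1 : q < 1) : Continuous (Abel_K q) := by
  unfold Abel_K
  refine Continuous.div (by fun_prop) (by fun_prop) fun y => ?_
  exact (pow_pos (Abel_den_pos h0 h1 y) 2).ne'

theorem Abel_repr {f : ℝ → ℝ} {C : ℝ} (hf : ContinuousOn f (Icc 0 π))
    (hC : ∀ y ∈ Icc 0 π, |f y| ≤ C) (h0 : 0 ≤ q) (h1 : q < 1) :
    HasSum (fun j : ℕ => q ^ j * j * sc f j) (2 / π * ∫ y in (0 : ℝ)..π, f y * Abel_K q y) := by
  have hpi := pi_pos
  have hI : Set.uIoc (0 : ℝ) π ⊆ Icc 0 π := by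
    rw [uIoc_of_le hpi.le]; exact Ioc_subset_Icc_self
  have hq : ‖q‖ < 1 := by rw [Real.norm_eq_abs, abs_of_nonneg h0]; exact h1
  have hsum : Summable fun n : ℕ => (n : ℝ) * q ^ n * C :=
    (hasSum_coe_mul_geometric_of_norm_lt_one hq).summable.mul_right C
  have h := intervalIntegral.hasSum_integral_of_dominated_convergence (μ := volume)
    (a := 0) (b := π) (F := fun (n : ℕ) (y : ℝ) => f y * (q ^ n * n * sin (n * y)))
    (f := fun y => f y * Abel_K q y) (fun n _ => (n : ℝ) * q ^ n * C)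
    (fun n => by
      refine ContinuousOn.aestronglyMeasurable ?_ measurableSet_uIoc
      exact (hf.mono hI).mul (Continuous.continuousOn (by fun_prop)))
    (fun n => Eventually.of_forall fun y hy => by
      have h2 := hC y (hI hy)
      have h3 := abs_sin_le_one (n * y)
      have h4 : 0 ≤ q ^ n * n := by positivity
      rw [Real.norm_eq_abs, abs_mul, abs_mul, abs_of_nonneg h4]
      have h5 : q ^ n * n * |sin (n * y)| ≤ q ^ n * n := by nlinarith
      calc |f y| * (q ^ n * n * |sin (n * y)|) ≤ C * (q ^ n * n) :=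
            mul_le_mul h2 h5 (by positivity) ((abs_nonneg _).trans h2)
        _ = _ := by ring)
    (Eventually.of_forall fun _ _ => hsum)
    (by simp)
    (Eventually.of_forall fun y _ => (Abel_hasSum h0 h1 y).mul_left (f y))
  have h' := h.mul_left (2 / π)
  refine h'.congr_fun ?_ 
  intro n
  simp only [sc]
  rw [← intervalIntegral.integral_const_mul, ← intervalIntegral.integral_const_mul,
    ← intervalIntegral.integral_const_mul]
  congr 1
  funext y
  ring

theorem Abel_int_cos (k : ℤ) (hk : k ≠ 0) : ∫ y in (0 : ℝ)..π, cos (k * y) = 0 := by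
  have hk' : (k : ℝ) ≠ 0 := by exact_mod_cast hk
  rw [intervalIntegral.integral_comp_mul_left (fun y => cos y) hk', integral_cos]
  simp [sin_int_mul_pi]

theorem Abel_sc_sin (j : ℕ) : sc sin j = if j = 1 then 1 else 0 := by
  have hpi := pi_pos
  have e : ∀ y : ℝ, sin y * sin (j * y) =
      (cos ((((j : ℤ) - 1 : ℤ) : ℝ) * y) - cos ((((j : ℤ) + 1 : ℤ) : ℝ) * y)) / 2 := by
    intro y
    push_cast
    rw [sub_mul, add_mul, one_mul, cos_sub, cos_add]
    ring
  have h2 : ∫ y in (0 : ℝ)..π, cos ((((j : ℤ) + 1 : ℤ) : ℝ) * y) = 0 :=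
    Abel_int_cos _ (by omega)
  unfold sc
  simp only [e]
  rw [intervalIntegral.integral_div, intervalIntegral.integral_sub
    (Continuous.intervalIntegrable (by fun_prop) _ _)
    (Continuous.intervalIntegrable (by fun_prop) _ _), h2]
  split_ifs with hj
  · subst hj
    simp
  · rw [Abel_int_cos _ (by omega)]
    simp

theorem Abel_mass (h0 : 0 ≤ q) (h1 : q < 1) :
    2 / π * ∫ y in (0 : ℝ)..π, sin y * Abel_K q y = q := by
  have h := Abel_repr (f := sin) (C := 1) continuous_sin.continuousOn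
    (fun y _ => abs_sin_le_one y) h0 h1
  have h2 : HasSum (fun j : ℕ => q ^ j * j * sc sin j) q := by
    have h3 := hasSum_single (f := fun j : ℕ => q ^ j * j * sc sin j) 1
      (fun j hj => by simp [Abel_sc_sin, hj])
    simpa [Abel_sc_sin] using h3
  exact h.unique h2

theorem Abel_far (h0 : 0 ≤ q) (h1 : q < 1) {δ : ℝ} (hδ : 0 < δ) (hδ1 : δ ≤ 1)
    (hy : y ∈ Icc δ π) : sin y * Abel_K q y ≤ (1 - q ^ 2) / (sin δ ^ 2) ^ 2 := by
  have hpi := pi_gt_three
  have hsδ : 0 < sin δ := sin_pos_of_pos_of_lt_pi hδ (by linarith)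
  have hc : cos y ≤ cos δ := cos_le_cos_of_nonneg_of_le_pi hδ.le hy.2 hy.1
  have hs := sin_sq_add_cos_sq δ
  have hD : sin δ ^ 2 ≤ 1 - 2 * q * cos y + q ^ 2 := by
    nlinarith [mul_nonneg h0 (sub_nonneg.2 hc), sq_nonneg (q - cos δ)]
  have hq2 : 0 ≤ 1 - q ^ 2 := by nlinarith
  have hs1 : sin y ^ 2 ≤ 1 := sin_sq_le_one y
  have hnum : sin y * (q * (1 - q ^ 2) * sin y) ≤ 1 - q ^ 2 := by
    have h3 : q * sin y ^ 2 ≤ 1 := by nlinarith [sq_nonneg (sin y)]
    nlinarith [mul_le_mul_of_nonneg_left h3 hq2]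
  unfold Abel_K
  rw [← mul_div_assoc]
  exact div_le_div₀ hq2 hnum (by positivity) (pow_le_pow_left₀ (by positivity) hD 2)

theorem Abel_near {f : ℝ → ℝ} {g : ℝ}
    (hg : Tendsto (fun y => f y / y) (𝓝[>] 0) (𝓝 g)) {ε : ℝ} (hε : 0 < ε) :
    ∃ δ, 0 < δ ∧ δ ≤ 1 ∧ ∀ y ∈ Ioc 0 δ, |f y - g * sin y| ≤ ε * sin y := by
  have hpi := pi_gt_three
  have h1 : Tendsto (fun y => sin y / y) (𝓝[>] 0) (𝓝 1) := by
    have := (hasDerivAt_sin 0).tendsto_slope_zero_right
    simp only [zero_add, sin_zero, sub_zero, smul_eq_mul, cos_zero] at this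
    refine this.congr fun y => ?_
    rw [div_eq_inv_mul]
  have h2 := hg.div h1 one_ne_zero
  rw [div_one] at h2
  obtain ⟨δ, hδ, h3⟩ := Metric.tendsto_nhdsWithin_nhds.1 h2 ε hε
  refine ⟨min (δ / 2) 1, by positivity, min_le_right _ _, fun y hy => ?_⟩
  have hy1 : y ≤ 1 := hy.2.trans (min_le_right _ _)
  have hy2 : y ≤ δ / 2 := hy.2.trans (min_le_left _ _)
  have hs : 0 < sin y := sin_pos_of_pos_of_lt_pi hy.1 (by linarith)
  have h4 := h3 (x := y) hy.1 (by rw [Real.dist_eq, sub_zero, abs_of_pos hy.1]; linarith)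
  have hy0 := hy.1.ne'
  have e : f y - g * sin y = ((f y / y) / (sin y / y) - g) * sin y := by
    field_simp
  rw [e, abs_mul, abs_of_pos hs]
  rw [Real.dist_eq] at h4
  exact mul_le_mul_of_nonneg_right h4.le hs.le

theorem abel {f : ℝ → ℝ} {g C : ℝ} (hf : ContinuousOn f (Icc 0 π))
    (hC : ∀ y ∈ Icc 0 π, |f y| ≤ C * sin y)
    (hg : Tendsto (fun y => f y / y) (𝓝[>] 0) (𝓝 g)) :
    Tendsto (fun q : ℝ => ∑' j : ℕ, q ^ j * j * sc f j) (𝓝[<] 1) (𝓝 g) := by
  have hpi := pi_pos
  have hC' : ∀ y ∈ Icc 0 π, |f y| ≤ |C| := fun y hy =>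
    (hC y hy).trans (by
      have h1 := sin_nonneg_of_mem_Icc hy
      have h2 := sin_le_one y
      have h3 := le_abs_self C
      have h4 := abs_nonneg C
      nlinarith)
  rw [Metric.tendsto_nhds]
  intro ε hε
  obtain ⟨δ, hδ, hδ1, hnear⟩ := Abel_near hg (half_pos hε)
  set M := |C| + |g| with hM
  have hM0 : 0 ≤ M := by positivity
  have hφ : Tendsto (fun q : ℝ => 2 * (M * ((1 - q ^ 2) / (sin δ ^ 2) ^ 2)) + |g| * (1 - q))
      (𝓝[<] 1) (𝓝 0) := by
    have hc : Continuous fun q : ℝ =>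
        2 * (M * ((1 - q ^ 2) / (sin δ ^ 2) ^ 2)) + |g| * (1 - q) := by fun_prop
    have := (hc.tendsto 1).mono_left (nhdsWithin_le_nhds (s := Iio 1))
    simpa using this
  have hev1 := hφ.eventually (gt_mem_nhds (half_pos hε))
  have hev2 : ∀ᶠ q in 𝓝[<] (1 : ℝ), q ∈ Ioo (0 : ℝ) 1 := Ioo_mem_nhdsLT one_pos
  filter_upwards [hev1, hev2] with q hq1 hq
  have h0 := hq.1.le
  have h1 := hq.2
  rw [(Abel_repr hf hC' h0 h1).tsum_eq, Real.dist_eq]
  have hK := Abel_K_cont h0 h1
  have hq2 : 0 ≤ 1 - q ^ 2 := by nlinarith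
  set B := M * ((1 - q ^ 2) / (sin δ ^ 2) ^ 2) with hB
  have hB0 : 0 ≤ B := by positivity
  have hfi : IntervalIntegrable (fun y => f y * Abel_K q y) volume 0 π := by
    refine ContinuousOn.intervalIntegrable ?_
    rw [uIcc_of_le hpi.le]
    exact hf.mul hK.continuousOn
  have hsi : IntervalIntegrable (fun y => sin y * Abel_K q y) volume 0 π :=
    Continuous.intervalIntegrable (by fun_prop) _ _
  have hpt : ∀ y ∈ Icc 0 π, |f y * Abel_K q y - g * (sin y * Abel_K q y)| ≤
      ε / 2 * (sin y * Abel_K q y) + B := by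
    intro y hy
    have hK0 := Abel_K_nonneg h0 h1 hy
    have hs0 := sin_nonneg_of_mem_Icc hy
    have e : f y * Abel_K q y - g * (sin y * Abel_K q y) = (f y - g * sin y) * Abel_K q y := by
      ring
    rw [e, abs_mul, abs_of_nonneg hK0]
    rcases eq_or_lt_of_le hy.1 with h | h
    · subst h
      simp [Abel_K, hB0]
    rcases le_total y δ with h' | h'
    · have := mul_le_mul_of_nonneg_right (hnear y ⟨h, h'⟩) hK0
      nlinarith
    · have h2 := Abel_far h0 h1 hδ hδ1 (y := y) ⟨h', hy.2⟩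
      have h3 : |f y - g * sin y| ≤ M * sin y := by
        have h4 := abs_sub (f y) (g * sin y)
        rw [abs_mul, abs_of_nonneg hs0] at h4
        have h5 := hC y hy
        have h6 := mul_le_mul_of_nonneg_right (le_abs_self C) hs0
        rw [hM]
        linarith
      have h4 := mul_le_mul_of_nonneg_right h3 hK0
      have h5 := mul_le_mul_of_nonneg_left h2 hM0
      have h6 : 0 ≤ ε / 2 * (sin y * Abel_K q y) := by positivity
      rw [hB]
      nlinarith
  have hmass := Abel_mass h0 h1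
  have hint : |(∫ y in (0 : ℝ)..π, f y * Abel_K q y) -
      g * ∫ y in (0 : ℝ)..π, sin y * Abel_K q y| ≤
      ε / 2 * (∫ y in (0 : ℝ)..π, sin y * Abel_K q y) + π * B := by
    rw [← intervalIntegral.integral_const_mul,
      ← intervalIntegral.integral_sub hfi (hsi.const_mul g)]
    refine (intervalIntegral.abs_integral_le_integral_abs hpi.le).trans ?_
    have h2 := intervalIntegral.integral_mono_on hpi.le (hfi.sub (hsi.const_mul g)).abs
      ((hsi.const_mul (ε / 2)).add (intervalIntegrable_const (c := B))) hpt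
    rw [intervalIntegral.integral_add (hsi.const_mul (ε / 2)) intervalIntegrable_const,
      intervalIntegral.integral_const_mul] at h2
    simpa using h2
  set I := ∫ y in (0 : ℝ)..π, f y * Abel_K q y
  set J := ∫ y in (0 : ℝ)..π, sin y * Abel_K q y
  have h2p : 0 < 2 / π := by positivity
  have e : 2 / π * I - g = 2 / π * (I - g * J) - g * (1 - q) := by
    linear_combination g * hmass
  have h3 : |2 / π * (I - g * J)| ≤ ε / 2 * q + 2 * B := by
    rw [abs_mul, abs_of_pos h2p]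
    have h4 := mul_le_mul_of_nonneg_left hint h2p.le
    have h5 : 2 / π * (ε / 2 * J + π * B) = ε / 2 * q + 2 * B := by
      have h6 : 2 / π * (π * B) = 2 * B := by field_simp
      linear_combination ε / 2 * hmass + h6
    linarith
  have h4 : |g * (1 - q)| = |g| * (1 - q) := by
    rw [abs_mul, abs_of_pos (sub_pos.2 h1)]
  have h5 := abs_sub (2 / π * (I - g * J)) (g * (1 - q))
  have h6 : ε / 2 * q ≤ ε / 2 := by nlinarith
  rw [e]
  linarith

end Pool.Agent.L2Q
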