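import Pool.Agent.P.MP_2f6447_an.Q.Bas

/-! Basic facts on concave arcs. -/

open Set MeasureTheory Filter Topology Real

namespace Pool.Agent.L2Q

open Pool.Agent.L2K

variable {lam q ρ y t a b c m : ℝ} {j : ℕ} {ξ p : ℝ → ℝ}

theorem one_le_sq1 (p : ℝ → ℝ) (y : ℝ) : 1 ≤ sq1 p y := by
  unfold sq1
  exact Real.one_le_sqrt.2 (by nlinarith [sq_nonneg (p y)])

theorem abs_le_sq1 (p : ℝ → ℝ) (y : ℝ) : |p y| ≤ sq1 p y := by
  unfold sq1
  exact Real.abs_le_sqrt (by linarith)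

theorem sq1_le (p : ℝ → ℝ) (y : ℝ) : sq1 p y ≤ 1 + |p y| := by
  unfold sq1
  refine Real.sqrt_le_iff.2 ⟨by positivity, ?_⟩
  have := sq_abs (p y)
  nlinarith [abs_nonneg (p y)]

theorem sq1_neg (p : ℝ → ℝ) : sq1 (fun y => -p y) = sq1 p := by
  funext y
  simp only [sq1, neg_sq]

theorem sq1_sq (p : ℝ → ℝ) (y : ℝ) : sq1 p y ^ 2 = 1 + p y ^ 2 := 
  Real.sq_sqrt (by positivity)

theorem Arc.p_nonneg (A : Arc ξ p t) (hy : y ∈ Ioc 0 t) : 0 ≤ p y := 
  A.pt ▸ A.anti ⟨hy.1, hy.2.trans_lt A.tmem.2⟩ A.tmem hy.2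

theorem Arc.p_nonpos (A : Arc ξ p t) (hy : y ∈ Ico t π) : p y ≤ 0 := 
  A.pt ▸ A.anti A.tmem ⟨A.tmem.1.trans_le hy.1, hy.2⟩ hy.1

theorem Arc.ii_p (A : Arc ξ p t) : IntervalIntegrable p volume 0 π := by
  have h0 := A.tmem.1
  have h1 := A.tmem.2
  have i1 : IntervalIntegrable p volume 0 t := by
    rw [intervalIntegrable_iff_integrableOn_Ioc_of_le h0.le]
    exact intervalIntegral.integrableOn_deriv_of_nonneg (g := ξ)
      (A.cont.mono (Icc_subset_Icc_right h1.le)) (fun x hx => A.der x ⟨hx.1, hx.2.trans h1⟩)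
      fun x hx => A.p_nonneg ⟨hx.1, hx.2.le⟩
  have i2 : IntervalIntegrable (fun y => -p y) volume t π := by
    rw [intervalIntegrable_iff_integrableOn_Ioc_of_le h1.le]
    exact intervalIntegral.integrableOn_deriv_of_nonneg (g := fun y => -ξ y)
      (A.cont.mono (Icc_subset_Icc_left h0.le)).neg
      (fun x hx => (A.der x ⟨h0.trans hx.1, hx.2⟩).neg)
      fun x hx => neg_nonneg.2 (A.p_nonpos ⟨hx.1.le, hx.2⟩)
  have i3 : IntervalIntegrable p volume t π := by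
    have := i2.neg
    have e : (-fun y => -p y) = p := by
      funext y
      simp
    rwa [e] at this
  exact i1.trans i3

theorem Arc.ii_sq1 (A : Arc ξ p t) : IntervalIntegrable (sq1 p) volume 0 π := by
  have h1 : IntervalIntegrable (fun y => 1 + |p y|) volume 0 π :=
    intervalIntegrable_const.add A.ii_p.abs
  rw [intervalIntegrable_iff_integrableOn_Ioo_of_le pi_pos.le] at h1 ⊢
  have hc : ContinuousOn (sq1 p) (Ioo 0 π) := (continuousOn_const.add (A.contp.pow 2)).sqrt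
  refine Integrable.mono' h1 (hc.aestronglyMeasurable measurableSet_Ioo)
    (Eventually.of_forall fun y => ?_)
  rw [Real.norm_eq_abs, abs_of_nonneg (zero_le_one.trans (one_le_sq1 p y))]
  exact sq1_le p y

theorem Arc_sub (ha : a ∈ Icc 0 π) (hb : b ∈ Icc 0 π) : uIcc a b ⊆ uIcc 0 π := by
  rw [uIcc_of_le pi_pos.le]
  exact uIcc_subset_Icc ha hb

theorem Arc.ii_mul (A : Arc ξ p t) {f : ℝ → ℝ} (ha : a ∈ Icc 0 π) (hb : b ∈ Icc 0 π)
    (hf : ContinuousOn f (uIcc a b)) : IntervalIntegrable (fun y => f y * sq1 p y) volume a b := 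
  (A.ii_sq1.mono_set (Arc_sub ha hb)).continuousOn_mul hf

theorem Arc.ii_mul_p (A : Arc ξ p t) {f : ℝ → ℝ} (ha : a ∈ Icc 0 π) (hb : b ∈ Icc 0 π)
    (hf : ContinuousOn f (uIcc a b)) : IntervalIntegrable (fun y => f y * p y) volume a b := 
  (A.ii_p.mono_set (Arc_sub ha hb)).continuousOn_mul hf

theorem Arc.ftc_comp (A : Arc ξ p t) {Φ D : ℝ → ℝ} (hΦ : ∀ s, HasDerivAt Φ (D s) s)
    (hD : Continuous D) (ha : a ∈ Icc 0 π) (hb : b ∈ Icc 0 π) :
    ∫ y in a..b, D (ξ y) * p y = Φ (ξ b) - Φ (ξ a) := by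
  have hΦc : Continuous Φ := continuous_iff_continuousAt.2 fun s => (hΦ s).continuousAt
  have key : ∀ a b, a ∈ Icc 0 π → b ∈ Icc 0 π → a ≤ b →
      ∫ y in a..b, D (ξ y) * p y = Φ (ξ b) - Φ (ξ a) := by
    intro a b ha hb hab
    have hs : Icc a b ⊆ Icc 0 π := Icc_subset_Icc ha.1 hb.2
    refine intervalIntegral.integral_eq_sub_of_hasDerivAt_of_le (f := fun y => Φ (ξ y)) hab
      (hΦc.comp_continuousOn (A.cont.mono hs)) (fun x hx => ?_) (A.ii_mul_p ha hb ?_)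
    · exact (hΦ (ξ x)).comp x (A.der x ⟨ha.1.trans_lt hx.1, hx.2.trans_le hb.2⟩)
    · rw [uIcc_of_le hab]
      exact hD.comp_continuousOn (A.cont.mono hs)
  rcases le_total a b with hab | hab
  · exact key a b ha hb hab
  · rw [intervalIntegral.integral_symm, key b a hb ha hab]
    ring

theorem Arc.mono (A : Arc ξ p t) : MonotoneOn ξ (Icc 0 t) := by
  refine monotoneOn_of_deriv_nonneg (convex_Icc _ _) (A.cont.mono (Icc_subset_Icc_right A.tmem.2.le))
    ?_ ?_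
  · rw [interior_Icc]
    exact fun x hx => (A.der x ⟨hx.1, hx.2.trans A.tmem.2⟩).differentiableAt.differentiableWithinAt
  · rw [interior_Icc]
    intro x hx
    rw [(A.der x ⟨hx.1, hx.2.trans A.tmem.2⟩).deriv]
    exact A.p_nonneg ⟨hx.1, hx.2.le⟩

theorem Arc.anti' (A : Arc ξ p t) : AntitoneOn ξ (Icc t π) := by
  refine antitoneOn_of_deriv_nonpos (convex_Icc _ _) (A.cont.mono (Icc_subset_Icc_left A.tmem.1.le))
    ?_ ?_
  · rw [interior_Icc]
    exact fun x hx => (A.der x ⟨A.tmem.1.trans hx.1, hx.2⟩).differentiableAt.differentiableWithinAt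
  · rw [interior_Icc]
    intro x hx
    rw [(A.der x ⟨A.tmem.1.trans hx.1, hx.2⟩).deriv]
    exact A.p_nonpos ⟨hx.1.le, hx.2⟩

theorem Arc.concave (A : Arc ξ p t) : ConcaveOn ℝ (Icc 0 π) ξ := by
  refine AntitoneOn.concaveOn_of_deriv (convex_Icc _ _) A.cont ?_ ?_
  · rw [interior_Icc]
    exact fun x hx => (A.der x hx).differentiableAt.differentiableWithinAt
  · rw [interior_Icc]
    intro x hx y hy hxy
    rw [(A.der x hx).deriv, (A.der y hy).deriv]
    exact A.anti hx hy hxy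

theorem Arc.tangent (A : Arc ξ p t) (hy : y ∈ Ioo 0 π) {x : ℝ} (hx : x ∈ Icc 0 π) :
    ξ x ≤ ξ y + p y * (x - y) := by
  have hy' := Ioo_subset_Icc_self hy
  rcases lt_trichotomy x y with h | h | h
  · have h1 := A.concave.le_slope_of_hasDerivAt hx hy' h (A.der y hy)
    rw [slope_def_field, le_div_iff₀ (sub_pos.2 h)] at h1
    linarith
  · rw [h]
    simp
  · have h1 := A.concave.slope_le_of_hasDerivAt hy' hx h (A.der y hy)
    rw [slope_def_field, div_le_iff₀ (sub_pos.2 h)] at h1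
    linarith

theorem Arc.min_le (A : Arc ξ p t) (hy : y ∈ Icc 0 π) : min (ξ 0) (ξ π) ≤ ξ y := by
  rcases le_total y t with h | h
  · exact (min_le_left _ _).trans (A.mono ⟨le_rfl, A.tmem.1.le⟩ ⟨hy.1, h⟩ hy.1)
  · exact (min_le_right _ _).trans (A.anti' ⟨h, hy.2⟩ ⟨A.tmem.2.le, le_rfl⟩ hy.2)

theorem Arc.le_tip (A : Arc ξ p t) (hy : y ∈ Icc 0 π) : ξ y ≤ ξ t := by
  have := A.tangent A.tmem hy
  rw [A.pt] at this
  linarith

theorem Arc.sq1_anti (A : Arc ξ p t) : AntitoneOn (sq1 p) (Ioc 0 t) := by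
  intro x hx y hy hxy
  have h1 := A.anti ⟨hx.1, hx.2.trans_lt A.tmem.2⟩ ⟨hy.1, hy.2.trans_lt A.tmem.2⟩ hxy
  have h2 := A.p_nonneg hy
  exact Real.sqrt_le_sqrt (by nlinarith)

theorem Arc.sq1_mono (A : Arc ξ p t) : MonotoneOn (sq1 p) (Ico t π) := by
  intro x hx y hy hxy
  have h1 := A.anti ⟨A.tmem.1.trans_le hx.1, hx.2⟩ ⟨A.tmem.1.trans_le hy.1, hy.2⟩ hxy
  have h2 := A.p_nonpos hx
  exact Real.sqrt_le_sqrt (by nlinarith)

theorem Arc.flip (A : Arc ξ p t) : Arc (fun y => ξ (π - y)) (fun y => -p (π - y)) (π - t) := by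
  have m1 : ∀ y ∈ Ioo 0 π, π - y ∈ Ioo 0 π := fun y hy => ⟨by linarith [hy.2], by linarith [hy.1]⟩
  have hc : Continuous fun y : ℝ => π - y := continuous_const.sub continuous_id
  refine ⟨A.cont.comp hc.continuousOn fun y hy => ⟨by linarith [hy.2], by linarith [hy.1]⟩,
    fun y hy => ?_, (A.contp.comp hc.continuousOn m1).neg, fun x hx y hy hxy => ?_, m1 t A.tmem, ?_⟩
  · have h := (A.der _ (m1 y hy)).comp y ((hasDerivAt_id y).const_sub π)
    refine h.congr_deriv ?_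
    ring
  · exact neg_le_neg (A.anti (m1 y hy) (m1 x hx) (by linarith))
  · rw [sub_sub_cancel, A.pt, neg_zero]

theorem Arc.sub_const (A : Arc ξ p t) (c : ℝ) : Arc (fun y => ξ y - c) p t := 
  ⟨A.cont.sub continuousOn_const, fun y hy => (A.der y hy).sub_const c, A.contp, A.anti, A.tmem,
    A.pt⟩

theorem Arc.const_sub {l : ℝ → ℝ} (A : Arc (fun y => -l y) p t) (c : ℝ) :
    Arc (fun y => c - l y) p t := by
  have e : (fun y => c - l y) = fun y => -l y - -c := by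
    funext y
    ring
  rw [e]
  exact A.sub_const (-c)

theorem Arc.ii_EI (A : Arc ξ p t) (lam : ℝ) (j : ℕ) (ha : a ∈ Icc 0 π) (hb : b ∈ Icc 0 π) :
    IntervalIntegrable (fun y => ee lam j |ξ y| * sin (j * y) * sq1 p y) volume a b := by
  refine A.ii_mul (f := fun y => ee lam j |ξ y| * sin (j * y)) ha hb ?_
  refine ContinuousOn.mul ((continuous_ee lam j).comp_continuousOn
    (A.cont.mono (uIcc_subset_Icc ha hb)).abs) ?_
  exact (by fun_prop : Continuous fun y : ℝ => sin (j * y)).continuousOn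

theorem Arc.EI_add (A : Arc ξ p t) (lam : ℝ) (j : ℕ) (ha : a ∈ Icc 0 π) (hb : b ∈ Icc 0 π)
    (hc : c ∈ Icc 0 π) : EI lam j ξ p a b + EI lam j ξ p b c = EI lam j ξ p a c := 
  intervalIntegral.integral_add_adjacent_intervals (A.ii_EI lam j ha hb) (A.ii_EI lam j hb hc)

theorem EI_flip (lam : ℝ) (j : ℕ) (ξ p : ℝ → ℝ) (a b : ℝ) :
    EI lam j (fun y => ξ (π - y)) (fun y => -p (π - y)) (π - b) (π - a) =
      (-1) ^ (j + 1) * EI lam j ξ p a b := by
  unfold EI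
  rw [← intervalIntegral.integral_comp_sub_left, ← intervalIntegral.integral_const_mul]
  refine intervalIntegral.integral_congr fun y _ => ?_
  simp only [sq1, sub_sub_cancel, neg_sq]
  rw [mul_sub, Real.sin_nat_mul_pi_sub]
  ring

theorem Arc.abs_EI_le (A : Arc ξ p t) (lam : ℝ) (j : ℕ) :
    |EI lam j ξ p 0 π| ≤ ∫ y in (0 : ℝ)..π, sq1 p y := by
  have h0 : (0 : ℝ) ∈ Icc 0 π := ⟨le_rfl, pi_pos.le⟩
  have h1 : π ∈ Icc 0 π := ⟨pi_pos.le, le_rfl⟩
  refine (intervalIntegral.abs_integral_le_integral_abs pi_pos.le).trans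
    (intervalIntegral.integral_mono_on pi_pos.le (A.ii_EI lam j h0 h1).abs A.ii_sq1 fun y _ => ?_)
  have a1 := ee_pos lam j |ξ y|
  have a2 := ee_le_one lam j (abs_nonneg (ξ y))
  have a3 := abs_sin_le_one (j * y)
  have a4 : 0 ≤ sq1 p y := zero_le_one.trans (one_le_sq1 p y)
  rw [abs_mul, abs_mul, abs_of_pos a1, abs_of_nonneg a4]
  have a5 : ee lam j |ξ y| * |sin (j * y)| ≤ 1 := mul_le_one₀ a2 (abs_nonneg _) a3
  nlinarith

theorem Arc.summable_KI (A : Arc ξ p t) (h2 : 2 ≤ lam) (hl : lam < 4) (hq : q ∈ Ioo (0 : ℝ) 1) :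
    Summable fun k : ℕ =>
      q ^ (k + 3) * (((k + 3 : ℕ) : ℝ) / mm lam (k + 3)) * EI lam (k + 3) ξ p 0 π := by
  refine Summable.of_norm_bounded (g := fun k : ℕ => (q ^ 3 * 2 * ∫ y in (0 : ℝ)..π, sq1 p y) * q ^ k)
    ((summable_geometric_of_lt_one hq.1.le hq.2).mul_left _) fun k => ?_
  have a1 := A.abs_EI_le lam (k + 3)
  have a2 := mm_add (j := 3) (by linarith) hl (by norm_num) k
  have a3 := (mm3_mem h2 hl).1
  have a4 : (0 : ℝ) ≤ k := Nat.cast_nonneg k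
  have a5 : 0 < mm lam (k + 3) := by linarith
  have a6 : ((k + 3 : ℕ) : ℝ) / mm lam (k + 3) ≤ 2 := by
    rw [div_le_iff₀ a5]
    push_cast
    linarith
  have a7 : 0 ≤ ((k + 3 : ℕ) : ℝ) / mm lam (k + 3) := by positivity
  have a8 : 0 < q ^ (k + 3) := pow_pos hq.1 _
  rw [Real.norm_eq_abs, abs_mul, abs_mul, abs_of_pos a8, abs_of_nonneg a7]
  have a9 : q ^ (k + 3) * (((k + 3 : ℕ) : ℝ) / mm lam (k + 3)) * |EI lam (k + 3) ξ p 0 π| ≤
      q ^ (k + 3) * 2 * ∫ y in (0 : ℝ)..π, sq1 p y := by gcongr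
  refine a9.trans (le_of_eq ?_)
  ring

end Pool.Agent.L2Q
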