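import Pool.Agent.P.MP_2f6447_an.Q.Defs
import Pool.Agent.P.MP_2f6447_an.H.Num

/-! Elementary facts on `mm`, `ee`, `S1`, `S2`, `hh`, `od`. -/

open Set MeasureTheory Filter Topology Real

namespace Pool.Agent.L2Q

open Pool.Agent.L2K

variable {lam q ρ y t a b c m : ℝ} {j : ℕ} {ξ p : ℝ → ℝ}

theorem mm_nonneg (lam : ℝ) (j : ℕ) : 0 ≤ mm lam j :=
  sqrt_nonneg _

theorem mm_pos (hl : lam < 4) (hj : 2 ≤ j) : 0 < mm lam j := by
  have : (2 : ℝ) ≤ j := by exact_mod_cast hj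
  exact sqrt_pos.2 (by nlinarith)

theorem mm_sq (hl : lam < 4) (hj : 2 ≤ j) : mm lam j ^ 2 = (j : ℝ) ^ 2 - lam := by
  have : (2 : ℝ) ≤ j := by exact_mod_cast hj
  exact sq_sqrt (by nlinarith)

theorem mm_le (h0 : 0 ≤ lam) (j : ℕ) : mm lam j ≤ j := by
  have : (0 : ℝ) ≤ j := Nat.cast_nonneg j
  exact sqrt_le_iff.2 ⟨this, by linarith⟩

theorem mm_succ (h0 : 0 ≤ lam) (hl : lam < 4) (hj : 2 ≤ j) : mm lam j + 1 ≤ mm lam (j + 1) := by
  have h1 := mm_sq hl hj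
  have h2 := mm_le h0 j
  have h3 := mm_nonneg lam j
  refine le_sqrt_of_sq_le ?_
  push_cast
  nlinarith

theorem mm_add (h0 : 0 ≤ lam) (hl : lam < 4) (hj : 2 ≤ j) (k : ℕ) :
    mm lam j + k ≤ mm lam (k + j) := by
  induction k with
  | zero => simp
  | succ k ih =>
    have h := mm_succ h0 hl (show 2 ≤ k + j by omega)
    rw [show k + 1 + j = k + j + 1 by omega]
    push_cast
    linarith

theorem mm_anti {lam' : ℝ} (h : lam ≤ lam') (j : ℕ) : mm lam' j ≤ mm lam j :=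
  sqrt_le_sqrt (by linarith)

theorem mm2_le (h2 : 2 ≤ lam) : mm lam 2 ≤ 1.415 :=
  sqrt_le_iff.2 ⟨by norm_num, by push_cast; linarith⟩

theorem mm3_mem (h2 : 2 ≤ lam) (hl : lam < 4) : mm lam 3 ∈ Icc (2.236 : ℝ) 2.646 :=
  ⟨le_sqrt_of_sq_le (by push_cast; linarith), sqrt_le_iff.2 ⟨by norm_num, by push_cast; linarith⟩⟩

theorem mm4_mem (h2 : 2 ≤ lam) (hl : lam < 4) : mm lam 4 ∈ Icc (3.464 : ℝ) 3.742 :=
  ⟨le_sqrt_of_sq_le (by push_cast; linarith), sqrt_le_iff.2 ⟨by norm_num, by push_cast; linarith⟩⟩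

theorem mm5_mem (h2 : 2 ≤ lam) (hl : lam < 4) : mm lam 5 ∈ Icc (4.582 : ℝ) 4.796 :=
  ⟨le_sqrt_of_sq_le (by push_cast; linarith), sqrt_le_iff.2 ⟨by norm_num, by push_cast; linarith⟩⟩

theorem mm10_mem (h2 : 2 ≤ lam) (hl : lam < 4) : mm lam 10 ∈ Icc (9.797 : ℝ) 9.9 :=
  ⟨le_sqrt_of_sq_le (by push_cast; linarith), sqrt_le_iff.2 ⟨by norm_num, by push_cast; linarith⟩⟩

theorem nu3_mem (h2 : 2 ≤ lam) (hl : lam < 4) : nu3 lam ∈ Icc (0.13 : ℝ) 0.342 := by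
  obtain ⟨h3, h4⟩ := mm3_mem h2 hl
  have hp : 0 < mm lam 3 := by linarith
  unfold nu3
  constructor
  · rw [le_sub_iff_add_le, le_div_iff₀ hp]; linarith
  · rw [sub_le_iff_le_add, div_le_iff₀ hp]; linarith

theorem ee_pos (lam : ℝ) (j : ℕ) (a : ℝ) : 0 < ee lam j a :=
  exp_pos _

theorem ee_zero (lam : ℝ) (j : ℕ) : ee lam j 0 = 1 := by simp [ee]

theorem ee_add (lam : ℝ) (j : ℕ) (a b : ℝ) : ee lam j (a + b) = ee lam j a * ee lam j b := by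
  unfold ee
  rw [← exp_add]
  congr 1
  ring

theorem ee_anti (lam : ℝ) (j : ℕ) : Antitone (ee lam j) :=
  fun x z h => by
  have := mul_le_mul_of_nonneg_left h (mm_nonneg lam j)
  exact exp_le_exp.2 (by linarith)

theorem ee_le_one (lam : ℝ) (j : ℕ) (ha : 0 ≤ a) : ee lam j a ≤ 1 := by
  have := ee_anti lam j ha
  rwa [ee_zero] at this

theorem ee_le_ee (h0 : 0 ≤ lam) (hl : lam < 4) {i : ℕ} (hi : 2 ≤ i) (hij : i ≤ j) (ha : 0 ≤ a) :
    ee lam j a ≤ ee lam i a := by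
  have h1 := mm_add h0 hl hi (j - i)
  rw [Nat.sub_add_cancel hij] at h1
  have h2 : (0 : ℝ) ≤ ((j - i : ℕ) : ℝ) := Nat.cast_nonneg _
  have := mul_le_mul_of_nonneg_right (show mm lam i ≤ mm lam j by linarith) ha
  exact exp_le_exp.2 (by linarith)

theorem ee_le (h0 : 0 ≤ lam) (hl : lam < 4) (hm : m ≤ mm lam 3) (ha : 0 ≤ a) (k : ℕ) :
    ee lam (k + 3) a ≤ exp (-(m * a)) * exp (-a) ^ k := by
  have h1 := mm_add h0 hl (show 2 ≤ 3 by norm_num) k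
  have := mul_le_mul_of_nonneg_right (show m + k ≤ mm lam (k + 3) by linarith) ha
  rw [← exp_nat_mul, ← exp_add]
  exact exp_le_exp.2 (by linarith)

theorem hasDerivAt_ee (lam : ℝ) (j : ℕ) (a : ℝ) :
    HasDerivAt (ee lam j) (-(mm lam j * ee lam j a)) a := by
  have h := (((hasDerivAt_id a).const_mul (mm lam j)).neg).exp
  refine h.congr_deriv ?_
  simp only [ee, id, Pi.neg_apply]
  ring

theorem continuous_ee (lam : ℝ) (j : ℕ) : Continuous (ee lam j) := by unfold ee; fun_prop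

theorem mu_mem (h2 : 2 ≤ lam) (hl : lam < 4) : mu lam ∈ Icc (1 : ℝ) 1.733 :=
  ⟨le_sqrt_of_sq_le (by linarith), sqrt_le_iff.2 ⟨by norm_num, by linarith⟩⟩

theorem mu_sq (h2 : 2 ≤ lam) : mu lam ^ 2 = lam - 1 :=
  sq_sqrt (by linarith)

theorem Bas_mu_pos (h2 : 2 ≤ lam) : 0 < mu lam := sqrt_pos.2 (by linarith)

theorem hasDerivAt_S1 (h2 : 2 ≤ lam) (t : ℝ) : HasDerivAt (S1 lam) (cos (mu lam * t)) t := by
  have hp := Bas_mu_pos h2
  have h := (((hasDerivAt_id t).const_mul (mu lam)).sin).div_const (mu lam)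
  refine h.congr_deriv ?_
  simp only [id]
  field_simp

theorem continuous_S1 (lam : ℝ) : Continuous (S1 lam) := by unfold S1; fun_prop

theorem S1_zero (lam : ℝ) : S1 lam 0 = 0 := by simp [S1]

theorem S1_neg (lam t : ℝ) : S1 lam (-t) = -S1 lam t := by simp [S1, neg_div]

theorem abs_S1_le (h2 : 2 ≤ lam) (t : ℝ) : |S1 lam t| ≤ |t| := by
  have hp := Bas_mu_pos h2
  have h := abs_sin_le_abs (x := mu lam * t)
  rw [abs_mul, abs_of_pos hp] at h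
  rw [S1, abs_div, abs_of_pos hp, div_le_iff₀ hp]
  linarith

theorem abs_S1_le' (h2 : 2 ≤ lam) {mu1 : ℝ} (h1 : 0 < mu1) (h : mu1 ^ 2 ≤ lam - 1) (t : ℝ) :
    |S1 lam t| ≤ 1 / mu1 := by
  have hp := Bas_mu_pos h2
  have hm : mu1 ≤ mu lam := le_sqrt_of_sq_le h
  rw [S1, abs_div, abs_of_pos hp]
  exact div_le_div₀ zero_le_one (abs_sin_le_one _) h1 hm

theorem S1_le_poly (h2 : 2 ≤ lam) {u1 : ℝ} (h0 : 0 ≤ u1) (h1 : u1 ≤ lam - 1) (ht : 0 ≤ t)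
    (h4 : u1 * t ^ 2 ≤ 4) : |S1 lam t| ≤ t - u1 * t ^ 3 / 6 + u1 ^ 2 * t ^ 5 / 120 := by
  have hp := Bas_mu_pos h2
  have hs := mu_sq h2
  have hθ : 0 ≤ mu lam * t := mul_nonneg hp.le ht
  have hv1 : 0 ≤ u1 * t ^ 2 := by positivity
  have hv : u1 * t ^ 2 ≤ (mu lam * t) ^ 2 := by
    rw [mul_pow, hs]; exact mul_le_mul_of_nonneg_right h1 (sq_nonneg t)
  have e : t - u1 * t ^ 3 / 6 + u1 ^ 2 * t ^ 5 / 120 =
      t * (1 - u1 * t ^ 2 / 6 + (u1 * t ^ 2) ^ 2 / 120) := by ring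
  rw [e, S1, abs_div, abs_of_pos hp, div_le_iff₀ hp]
  have e2 : t * (1 - u1 * t ^ 2 / 6 + (u1 * t ^ 2) ^ 2 / 120) * mu lam =
      (mu lam * t) * (1 - u1 * t ^ 2 / 6 + (u1 * t ^ 2) ^ 2 / 120) := by ring
  rw [e2]
  generalize mu lam * t = θ at hθ hv
  generalize u1 * t ^ 2 = v at hv1 hv h4
  rcases le_total θ π with hπ | hπ
  · rw [abs_of_nonneg (sin_nonneg_of_nonneg_of_le_pi hθ hπ)]
    have h5 := Pool.Agent.L2H.sin_le5 hθ
    have h6 : θ ^ 2 ≤ 16 := by nlinarith [pi_le_four]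
    have h7 : 1 - θ ^ 2 / 6 + (θ ^ 2) ^ 2 / 120 ≤ 1 - v / 6 + v ^ 2 / 120 := by
      have := mul_nonneg (sub_nonneg.2 hv) (show 0 ≤ 20 - θ ^ 2 - v by linarith)
      nlinarith
    have h8 := mul_le_mul_of_nonneg_left h7 hθ
    nlinarith
  · have h5 := abs_sin_le_one θ
    have h6 : 1 / 3 ≤ 1 - v / 6 + v ^ 2 / 120 := by nlinarith [sq_nonneg v]
    have h7 : 3 ≤ θ := by linarith [pi_gt_three]
    nlinarith

theorem S1_ge (h2 : 2 ≤ lam) {u2 : ℝ} (h1 : lam - 1 ≤ u2) (ht : 0 ≤ t) :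
    t - u2 * t ^ 3 / 6 ≤ S1 lam t := by
  have hp := Bas_mu_pos h2
  have hs := mu_sq h2
  have h3 := sin_ge_sub_cube (mul_nonneg hp.le ht)
  have h4 : mu lam ^ 2 * t ^ 3 ≤ u2 * t ^ 3 :=
    mul_le_mul_of_nonneg_right (by linarith) (by positivity)
  have h5 := mul_le_mul_of_nonneg_left h4 hp.le
  rw [S1, le_div_iff₀ hp]
  nlinarith

theorem cos_mu_ge (h2 : 2 ≤ lam) {u2 : ℝ} (h1 : lam - 1 ≤ u2) (t : ℝ) :
    1 - u2 * t ^ 2 / 2 ≤ cos (mu lam * t) := by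
  have hs := mu_sq h2
  have h3 := one_sub_sq_div_two_le_cos (x := mu lam * t)
  have h4 : mu lam ^ 2 * t ^ 2 ≤ u2 * t ^ 2 :=
    mul_le_mul_of_nonneg_right (by linarith) (by positivity)
  rw [mul_pow] at h3
  linarith

theorem hasDerivAt_S2 (hl : lam < 4) (t : ℝ) : HasDerivAt (S2 lam) (cosh (mm lam 2 * t)) t := by
  have hp : 0 < mm lam 2 := mm_pos hl le_rfl
  have h := (((hasDerivAt_id t).const_mul (mm lam 2)).sinh).div_const (mm lam 2)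
  refine h.congr_deriv ?_
  simp only [id]
  field_simp

theorem continuous_S2 (lam : ℝ) : Continuous (S2 lam) := by unfold S2; fun_prop

theorem S2_zero (lam : ℝ) : S2 lam 0 = 0 := by simp [S2]

theorem S2_neg (lam t : ℝ) : S2 lam (-t) = -S2 lam t := by simp [S2, neg_div]

theorem S2_mono (hl : lam < 4) : Monotone (S2 lam) :=
  fun x z h => by
  have hp : 0 < mm lam 2 := mm_pos hl le_rfl
  exact div_le_div_of_nonneg_right
    (sinh_strictMono.monotone (mul_le_mul_of_nonneg_left h hp.le)) hp.le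

theorem le_S2 (hl : lam < 4) (ht : 0 ≤ t) : t ≤ S2 lam t := by
  have hp : 0 < mm lam 2 := mm_pos hl le_rfl
  have h := self_le_sinh_iff.2 (mul_nonneg hp.le ht)
  rw [S2, le_div_iff₀ hp]
  linarith

theorem Bas_cosh1 {x : ℝ} (hx : x ^ 2 ≤ 1) : cosh x ≤ 1 + x ^ 2 / 2 + 0.0433 * (x ^ 2) ^ 2 := by
  have h1 : |x| ≤ 1 := (sq_le_one_iff_abs_le_one x).1 hx
  have h2 : |-x| ≤ 1 := by rwa [abs_neg]
  have a1 := (abs_le.1 (exp_bound h1 (n := 6) (by norm_num))).2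
  have a2 := (abs_le.1 (exp_bound h2 (n := 6) (by norm_num))).2
  have e6 : |x| ^ 6 = (x ^ 2) ^ 3 := by rw [← sq_abs x]; ring
  rw [abs_neg] at a2
  rw [e6] at a1 a2
  simp only [Finset.sum_range_succ, Finset.sum_range_zero, Nat.factorial] at a1 a2
  have h3 : (x ^ 2) ^ 3 ≤ (x ^ 2) ^ 2 := pow_le_pow_of_le_one (sq_nonneg x) hx (by norm_num)
  have h4 : 0 ≤ (x ^ 2) ^ 2 := by positivity
  rw [cosh_eq]
  norm_num at a1 a2
  nlinarith

theorem Bas_cosh {s : ℝ} (hs : s ^ 2 ≤ 4) : cosh s ≤ 1 + s ^ 2 / 2 + (s ^ 2) ^ 2 / 20 := by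
  have hw : (s / 2) ^ 2 ≤ 1 := by nlinarith
  have h1 := Bas_cosh1 hw
  have h2 := cosh_two_mul (s / 2)
  have h3 := cosh_sq (s / 2)
  have h4 := pow_le_pow_left₀ (cosh_pos (s / 2)).le h1 2
  have e : s ^ 2 = 4 * (s / 2) ^ 2 := by ring
  rw [show 2 * (s / 2) = s by ring] at h2
  rw [e]
  have h0 : 0 ≤ (s / 2) ^ 2 := sq_nonneg _
  generalize (s / 2) ^ 2 = w at h4 hw h0
  have h5 : w ^ 3 ≤ w ^ 2 := pow_le_pow_of_le_one h0 hw (by norm_num)
  have h6 : w ^ 4 ≤ w ^ 2 := pow_le_pow_of_le_one h0 hw (by norm_num)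
  have h7 : 0 ≤ w ^ 2 := by positivity
  nlinarith

theorem cosh_le (hl : lam < 4) {M2 : ℝ} (hM : 4 - lam ≤ M2) (h4 : M2 * t ^ 2 ≤ 4) :
    cosh (mm lam 2 * t) ≤ 1 + M2 * t ^ 2 / 2 + M2 ^ 2 * t ^ 4 / 20 := by
  have hs : mm lam 2 ^ 2 = 4 - lam := by rw [mm_sq hl le_rfl]; norm_num
  have h1 : (mm lam 2 * t) ^ 2 ≤ M2 * t ^ 2 := by
    rw [mul_pow, hs]; exact mul_le_mul_of_nonneg_right hM (sq_nonneg t)
  have h2 := Bas_cosh (h1.trans h4)
  have h3 := pow_le_pow_left₀ (sq_nonneg _) h1 2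
  have e : M2 ^ 2 * t ^ 4 = (M2 * t ^ 2) ^ 2 := by ring
  rw [e]
  linarith

theorem hh_pos (hl : lam < 4) (hj : 2 ≤ j) : 0 < hh lam j := by
  have h : (2 : ℝ) ≤ j := by exact_mod_cast hj
  have h1 : (0 : ℝ) < (j : ℝ) ^ 2 - lam := by nlinarith
  have h2 : (0 : ℝ) < j := by linarith
  unfold hh
  positivity

theorem rr_pos (hl : lam < 4) (hj : 2 ≤ j) : 0 < rr lam j := by
  have h : (2 : ℝ) ≤ j := by exact_mod_cast hj
  have h1 : (0 : ℝ) < (j : ℝ) ^ 2 - lam := by nlinarith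
  have h2 : (0 : ℝ) < j := by linarith
  unfold rr
  positivity

theorem od_nonneg (j : ℕ) : 0 ≤ od j := by unfold od; split_ifs <;> norm_num

theorem od_le_one (j : ℕ) : od j ≤ 1 := by unfold od; split_ifs <;> norm_num

theorem neg_one_pow_eq (j : ℕ) : (-1 : ℝ) ^ j = 1 - 2 * od j := by
  unfold od
  split_ifs with h
  · rw [h.neg_one_pow]; norm_num
  · rw [(Nat.not_odd_iff_even.1 h).neg_one_pow]; norm_num

theorem exp_neg_le_cube {s : ℝ} (hs : 0 ≤ s) : exp (-s) ≤ (1 - s / 3 + s ^ 2 / 18) ^ 3 := by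
  have hv : 0 ≤ s / 3 := by positivity
  have h1 := quadratic_le_exp_of_nonneg hv
  have h0 : 0 ≤ 1 - s / 3 + s ^ 2 / 18 := by nlinarith [sq_nonneg (s - 3)]
  have h2 : exp (-(s / 3)) ≤ 1 - s / 3 + s ^ 2 / 18 := by
    rw [exp_neg, inv_le_iff_one_le_mul₀ (exp_pos _)]
    have := mul_le_mul_of_nonneg_left h1 h0
    nlinarith [sq_nonneg (s ^ 2)]
  have e : exp (-s) = exp (-(s / 3)) ^ 3 := by
    rw [← exp_nat_mul]; congr 1; push_cast; ring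
  rw [e]
  exact pow_le_pow_left₀ (exp_pos _).le h2 3

theorem abs_sin_mul_le (j : ℕ) (hy : y ∈ Icc 0 π) : |sin (j * y)| ≤ j * sin y := by
  have hs : 0 ≤ sin y := sin_nonneg_of_nonneg_of_le_pi hy.1 hy.2
  induction j with
  | zero => simp
  | succ k ih =>
    have e : ((k + 1 : ℕ) : ℝ) * y = k * y + y := by push_cast; ring
    have h1 : |sin (k * y) * cos y| ≤ |sin (k * y)| := by
      rw [abs_mul]; exact mul_le_of_le_one_right (abs_nonneg _) (abs_cos_le_one _)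
    have h2 : |cos (k * y) * sin y| ≤ sin y := by
      rw [abs_mul, abs_of_nonneg hs]; exact mul_le_of_le_one_left hs (abs_cos_le_one _)
    have h3 := abs_add_le (sin (k * y) * cos y) (cos (k * y) * sin y)
    rw [e, sin_add]
    push_cast
    linarith

theorem abs_sin_even_le (k : ℕ) (hy : y ∈ Icc 0 (π / 2)) :
    |sin ((2 * k : ℕ) * y)| ≤ k * sin (2 * y) := by
  have h := abs_sin_mul_le (y := 2 * y) k ⟨by linarith [hy.1], by linarith [hy.2]⟩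
  have e : ((2 * k : ℕ) : ℝ) * y = k * (2 * y) := by push_cast; ring
  rwa [e]

end Pool.Agent.L2Q
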