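import Pool.Agent.P.MP_2f6447_an.Q.SerU

/-! Pointwise bounds in the window. Split off j = 0,1,2 (am1_eq, am2_eq, am1_deriv), abs_sin_mul_le, two_sided, repj, am_deriv3, ser_f + ser_g (bR = bf + bg), ser_1, ser_2.
bnd_uy: u = 0 gives G.im sin y = ∑ am j (j cos jy sin y - cos y sin jy); cot_le: the derivative of the bracket is -(j²-1) sin jy sin y, |·| ≤ (j³-j) y²; replace y by π - y for the other bound. j = 1 gives 0, j = 2 gives 2 min³.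
bnd_odd: ser_uy at y = 0 and π: gt + gb = ∑ j am j (1 - (-1)^j) = 2∑ od j · j am j; for odd j ≥ 3 π mm am = EI_L - EI_R ≥ -EI_R ≥ -2 hh ee a (EI_ge, EI_le), ser_g. -/

open Set MeasureTheory Filter Topology Real
open scoped ComplexConjugate

namespace Pool.Agent.L2Q

open Pool.Agent.L2K

variable {Ω : Set ℂ} {lam nT nB m a b x y : ℝ} {u : ℂ → ℝ} {G : ℂ → ℂ} {l r : ℝ → ℝ} {j : ℕ}

theorem cot_le (j : ℕ) (hy : y ∈ Icc 0 π) :
    |j * cos (j * y) * sin y - cos y * sin (j * y)| ≤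
      ((j : ℝ) ^ 3 - j) / 3 * min y (π - y) ^ 3 := by sorry

theorem QD.bnd_u (h : QD Ω lam u G l r nT nB) (hm : 2.236 ≤ m) (hm' : m ≤ mm lam 3) {xs d δ : ℝ} (h1 : xL l ≤ xs - d)
    (h2 : xs + d ≤ xR r) (hx : |x - xs| ≤ δ) (hδ : δ < d) (hy : y ∈ Icc 0 π) :
    |u ⟨x, y⟩ - UU lam r x * sin y| ≤
      (2 * |VV lam r x| + bR m (d - δ) + bR m (d + δ)) * sin y := by sorry

theorem QD.bnd_ux (h : QD Ω lam u G l r nT nB) (hm : 2.236 ≤ m) (hm' : m ≤ mm lam 3) {xs d δ : ℝ} (h1 : xL l ≤ xs - d)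
    (h2 : xs + d ≤ xR r) (hx : |x - xs| ≤ δ) (hδ : δ < d) (hy : y ∈ Icc 0 π) :
    |(G ⟨x, y⟩).re - deriv (UU lam r) x * sin y| ≤
      (2 * |deriv (VV lam r) x| + bR1 m (d - δ) + bR1 m (d + δ)) * sin y := by sorry

theorem QD.bnd_uy (h : QD Ω lam u G l r nT nB) (hm : 2.236 ≤ m) (hm' : m ≤ mm lam 3) {xs d δ : ℝ} (h1 : xL l ≤ xs - d)
    (h2 : xs + d ≤ xR r) (hx : |x - xs| ≤ δ) (hδ : δ < d) (hy : y ∈ Icc 0 π) (h0 : u ⟨x, y⟩ = 0) :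
    |(G ⟨x, y⟩).im| * sin y ≤
      (2 * |VV lam r x| + bR2 m (d - δ) + bR2 m (d + δ)) * min y (π - y) ^ 3 := by sorry

theorem QD.bnd_odd (h : QD Ω lam u G l r nT nB) (hm : 2.236 ≤ m) (hm' : m ≤ mm lam 3) (hx : x ∈ Ioo (xL l) (xR r))
    (ha : 0 < a) :
    (a ≤ xR r - x → UU lam r x - 2 * bg m a ≤ (gt G x + gb G x) / 2) ∧
      (a ≤ x - xL l → (gt G x + gb G x) / 2 ≤ UU lam r x + 2 * bg m a) := by sorry

end Pool.Agent.L2Q
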