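import Pool.Agent.P.MP_2f6447_an.Q.Geo2

/-! Maximum principle for zz = u(x,π-η) - u(x,η) in a box of height π/2. κ with √lam < κ < 2, c η = cos(κ(η - π/4)) ≥ c0 = cos(κπ/4) > 0 on [0,π/2], C = 1/c0. H = zz - F, g = H/c - δ C on the compact box; g ≤ 0 on the boundary (zz = 0 for η = 0, π/2).
If max g > 0 at P = ⟨x,η⟩ then P is interior and H P > 0, so x ≠ l(π-η), x ≠ r η (hk). Along the horizontal through P, s ↦ H ⟨s,η⟩ has a local max at x. Each of s ↦ u ⟨s,π-η⟩, s ↦ -u ⟨s,η⟩ has one-sided derivatives at x: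
differentiable if the point is in Ω or outside the closure; at x = r(π-η) left derivative G.re < 0 (Gr; limit of the derivative, `hasDerivWithinAt_Iic_of_tendsto_deriv` or mean value theorem), right derivative 0; at x = l η for -u: left 0, right -G.re > 0. A convex kink contradicts the local max.
Otherwise H is Helm near P (fy: `Helm.of_rf` / FlipY; zero outside the closure) and H/c has a positive local max: 0 = lap H + lam H = c lap g + (lam - κ²) H < 0 (`lap_nonpos_of_isLocalMax`, `grad_eq_zero_of_isLocalMax`, K.Hopf product rules). -/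

open Set MeasureTheory Filter Topology Real
open scoped ComplexConjugate

namespace Pool.Agent.L2Q

open Pool.Agent.L2K

variable {Ω : Set ℂ} {lam nT nB m a b x y : ℝ} {u : ℂ → ℝ} {G : ℂ → ℂ} {l r : ℝ → ℝ} {j : ℕ}

/-- odd part of `u` with respect to the midline -/
noncomputable def zz (u : ℂ → ℝ) (z : ℂ) : ℝ := u ⟨z.re, π - z.im⟩ - u z

theorem QD.box_max (h : QD Ω lam u G l r nT nB) : ∃ C : ℝ, ∀ (F : ℂ → ℝ) (x₁ x₂ δ : ℝ), Helm lam univ F → x₁ < x₂ →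
    0 ≤ δ → (∀ x ∈ Icc x₁ x₂, 0 ≤ F ⟨x, 0⟩ ∧ 0 ≤ F ⟨x, π / 2⟩) →
    (∀ η ∈ Icc 0 (π / 2), zz u ⟨x₁, η⟩ ≤ F ⟨x₁, η⟩ + δ ∧ zz u ⟨x₂, η⟩ ≤ F ⟨x₂, η⟩ + δ) →
    (∀ x ∈ Ioo x₁ x₂, ∀ η ∈ Ioo 0 (π / 2), x = l (π - η) ∨ x = r η → zz u ⟨x, η⟩ ≤ F ⟨x, η⟩) →
    ∀ x ∈ Icc x₁ x₂, ∀ η ∈ Icc 0 (π / 2), zz u ⟨x, η⟩ ≤ F ⟨x, η⟩ + C * δ := by sorry

end Pool.Agent.L2Q
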