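import Pool.Agent.P.MP_2f6447_an.Q.Defs

/-! Monotone weights (second mean value theorem in inequality form). -/

open Set MeasureTheory Filter Topology Real

namespace Pool.Agent.L2Q

open Pool.Agent.L2K

variable {lam q ρ y t a b c m : ℝ} {j : ℕ} {ξ p : ℝ → ℝ}

/-- the upper level set of a monotone weight is a tail of the interval -/
theorem MW_level {w k : ℝ → ℝ} (hab : a ≤ b) (hw : MonotoneOn w (Ioo a b)) (τ : ℝ) :
    ∃ c ∈ Icc a b, ∫ y in Ioo a b, {y | τ < w y}.indicator k y = ∫ s in c..b, k s := by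
  set S : Set ℝ := Ioo a b ∩ {y | τ < w y} with hS
  have hup : ∀ x ∈ S, ∀ y, x ≤ y → y < b → y ∈ S := fun x hx y hxy hy =>
    ⟨⟨lt_of_lt_of_le hx.1.1 hxy, hy⟩,
      lt_of_lt_of_le hx.2 (hw hx.1 ⟨lt_of_lt_of_le hx.1.1 hxy, hy⟩ hxy)⟩
  have hoc : OrdConnected S :=
    ⟨fun x hx z hz y hy => hup x hx y hy.1 (lt_of_le_of_lt hy.2 hz.1.2)⟩
  have hSm : MeasurableSet S := hoc.measurableSet
  have h1 : ∫ y in Ioo a b, {y | τ < w y}.indicator k y = ∫ y in S, k y := by
    have h2 : ∫ y in Ioo a b, {y | τ < w y}.indicator k y = ∫ y in Ioo a b, S.indicator k y := by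
      refine setIntegral_congr_fun measurableSet_Ioo fun y hy => ?_
      by_cases h : τ < w y
      · rw [indicator_of_mem (show y ∈ {y | τ < w y} from h), indicator_of_mem (show y ∈ S from ⟨hy, h⟩)]
      · rw [indicator_of_notMem (show y ∉ {y | τ < w y} from h),
          indicator_of_notMem (show y ∉ S from fun h' => h h'.2)]
    rw [h2, setIntegral_indicator hSm, inter_eq_self_of_subset_right inter_subset_left]
  rcases S.eq_empty_or_nonempty with he | hne
  · exact ⟨b, ⟨hab, le_rfl⟩, by rw [h1, he]; simp⟩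
  · have hbd : BddBelow S := ⟨a, fun x hx => hx.1.1.le⟩
    obtain ⟨x0, hx0⟩ := hne
    have hca : a ≤ sInf S := le_csInf ⟨x0, hx0⟩ fun x hx => hx.1.1.le
    have hcb : sInf S ≤ b := (csInf_le hbd hx0).trans hx0.1.2.le
    refine ⟨sInf S, ⟨hca, hcb⟩, ?_⟩
    have s1 : Ioo (sInf S) b ⊆ S := fun y hy => by
      obtain ⟨x, hx, hxy⟩ := exists_lt_of_csInf_lt ⟨x0, hx0⟩ hy.1
      exact hup x hx y hxy.le hy.2
    have s2 : S ⊆ Icc (sInf S) b := fun y hy => ⟨csInf_le hbd hy, hy.1.2.le⟩
    have hae : S =ᵐ[volume] Ioo (sInf S) b :=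
      (s2.eventuallyLE.trans Ioo_ae_eq_Icc.symm.le).antisymm s1.eventuallyLE
    rw [h1, setIntegral_congr_set hae, intervalIntegral.integral_of_le hcb, integral_Ioc_eq_integral_Ioo]

theorem mw_tail {β W : ℝ} {w k : ℝ → ℝ} (hab : a ≤ b) (hw : MonotoneOn w (Ioo a b))
    (h0 : ∀ y ∈ Ioo a b, 0 ≤ w y ∧ w y ≤ W) (hW : 0 ≤ W) (hk : IntervalIntegrable k volume a b)
    (hβ : 0 ≤ β) (ht : ∀ y ∈ Icc a b, -β ≤ ∫ s in y..b, k s) :
    -(β * W) ≤ ∫ y in a..b, w y * k y := by
  have hwm : AEMeasurable w (volume.restrict (Ioo a b)) :=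
    aemeasurable_restrict_of_monotoneOn measurableSet_Ioo hw
  have hk' : IntegrableOn k (Ioo a b) := (intervalIntegrable_iff_integrableOn_Ioo_of_le hab).1 hk
  set ν : Measure ℝ := volume.restrict (Ioc 0 W) with hν
  set F : ℝ → ℝ → ℝ := fun y τ => {y | τ < w y}.indicator k y with hF
  have hint : Integrable (Function.uncurry F) ((volume.restrict (Ioo a b)).prod ν) := by
    have h1 : Integrable (fun x : ℝ × ℝ => k x.1) ((volume.restrict (Ioo a b)).prod ν) :=
      Integrable.comp_fst hk' ν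
    have h2 : NullMeasurableSet {x : ℝ × ℝ | x.2 < w x.1} ((volume.restrict (Ioo a b)).prod ν) :=
      nullMeasurableSet_lt measurable_snd.aemeasurable hwm.comp_fst
    refine (h1.indicator₀ h2).congr (Eventually.of_forall fun x => ?_)
    simp only [Function.uncurry, hF, indicator, mem_ofPred_eq]
  have hsw := integral_integral_swap hint
  have hL : ∫ y in Ioo a b, ∫ τ, F y τ ∂ν = ∫ y in Ioo a b, w y * k y := by
    refine setIntegral_congr_fun measurableSet_Ioo fun y hy => ?_
    have e1 : (fun τ => F y τ) = (Iio (w y)).indicator fun _ => k y := by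
      funext τ; simp only [hF, indicator, mem_ofPred_eq, mem_Iio]
    have e2 : Iio (w y) ∩ Ioc 0 W = Ioo 0 (w y) := by
      ext τ
      exact ⟨fun h => ⟨h.2.1, h.1⟩, fun h => ⟨h.2, h.1, h.2.le.trans (h0 y hy).2⟩⟩
    show ∫ τ, F y τ ∂ν = w y * k y
    rw [e1, integral_indicator measurableSet_Iio, hν, Measure.restrict_restrict measurableSet_Iio, e2]
    simp [(h0 y hy).1]
  have hR : -(β * W) ≤ ∫ τ, (∫ y in Ioo a b, F y τ) ∂ν := by
    have e1 : -(β * W) = ∫ _τ, -β ∂ν := by
      simp [hν, hW, mul_comm]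
    rw [e1]
    refine integral_mono (integrable_const _) hint.integral_prod_right fun τ => ?_
    obtain ⟨c, hc, e⟩ := MW_level (k := k) hab hw τ
    show -β ≤ ∫ y in Ioo a b, F y τ
    simp only [hF]
    rw [e]; exact ht c hc
  rw [intervalIntegral.integral_of_le hab, integral_Ioc_eq_integral_Ioo, ← hL, hsw]
  exact hR

theorem mw_tail0 {w k : ℝ → ℝ} (hab : a ≤ b) (hw : MonotoneOn w (Ioo a b))
    (h0 : ∀ y ∈ Ioo a b, 0 ≤ w y) (hk : IntervalIntegrable k volume a b)
    (hwk : IntervalIntegrable (fun y => w y * k y) volume a b)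
    (ht : ∀ y ∈ Icc a b, 0 ≤ ∫ s in y..b, k s) : 0 ≤ ∫ y in a..b, w y * k y := by
  have hwm : AEMeasurable w (volume.restrict (Ioo a b)) :=
    aemeasurable_restrict_of_monotoneOn measurableSet_Ioo hw
  have hk' : IntegrableOn k (Ioo a b) := (intervalIntegrable_iff_integrableOn_Ioo_of_le hab).1 hk
  have hwk' : IntegrableOn (fun y => w y * k y) (Ioo a b) :=
    (intervalIntegrable_iff_integrableOn_Ioo_of_le hab).1 hwk
  have hn : ∀ n : ℕ, 0 ≤ ∫ y in Ioo a b, min (w y) n * k y := fun n => by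
    have h := mw_tail (β := 0) (W := n) (w := fun y => min (w y) n) (k := k) hab
      (fun x hx y hy hxy => min_le_min_right _ (hw hx hy hxy))
      (fun y hy => ⟨le_min (h0 y hy) (Nat.cast_nonneg n), min_le_right _ _⟩) (Nat.cast_nonneg n) hk
      le_rfl (fun y hy => by simpa using ht y hy)
    rw [intervalIntegral.integral_of_le hab, integral_Ioc_eq_integral_Ioo] at h
    simpa using h
  have hlim : Tendsto (fun n : ℕ => ∫ y in Ioo a b, min (w y) n * k y) atTop
      (𝓝 (∫ y in Ioo a b, w y * k y)) := by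
    refine tendsto_integral_of_dominated_convergence (fun y => ‖w y * k y‖) (fun n => ?_)
      hwk'.norm (fun n => ?_) ?_
    · exact ((hwm.min aemeasurable_const).mul hk'.aemeasurable).aestronglyMeasurable
    · refine (ae_restrict_iff' measurableSet_Ioo).2 (Eventually.of_forall fun y hy => ?_)
      rw [norm_mul, norm_mul]
      refine mul_le_mul_of_nonneg_right ?_ (norm_nonneg _)
      rw [Real.norm_of_nonneg (le_min (h0 y hy) (Nat.cast_nonneg n)), Real.norm_of_nonneg (h0 y hy)]
      exact min_le_left _ _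
    · refine Eventually.of_forall fun y => tendsto_const_nhds.congr' ?_
      filter_upwards [tendsto_natCast_atTop_atTop.eventually_ge_atTop (w y)] with n hn
      rw [min_eq_left hn]
  rw [intervalIntegral.integral_of_le hab, integral_Ioc_eq_integral_Ioo]
  exact ge_of_tendsto' hlim hn

theorem mw_head0 {w k : ℝ → ℝ} (hab : a ≤ b) (hw : AntitoneOn w (Ioo a b))
    (h0 : ∀ y ∈ Ioo a b, 0 ≤ w y) (hk : IntervalIntegrable k volume a b)
    (hwk : IntervalIntegrable (fun y => w y * k y) volume a b)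
    (ht : ∀ y ∈ Icc a b, 0 ≤ ∫ s in a..y, k s) : 0 ≤ ∫ y in a..b, w y * k y := by
  have hm : ∀ y ∈ Ioo a b, a + b - y ∈ Ioo a b := fun y hy => ⟨by linarith [hy.2], by linarith [hy.1]⟩
  have r : ∀ f : ℝ → ℝ, IntervalIntegrable f volume a b →
      IntervalIntegrable (fun y => f (a + b - y)) volume a b := fun f hf => by
    have h := (hf.comp_sub_left (a + b)).symm
    simpa using h
  have h := mw_tail0 (w := fun y => w (a + b - y)) (k := fun y => k (a + b - y)) hab
    (fun x hx y hy hxy => hw (hm y hy) (hm x hx) (by linarith)) (fun y hy => h0 _ (hm y hy))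
    (r k hk) (r _ hwk) (fun y hy => by
      rw [intervalIntegral.integral_comp_sub_left k (a + b)]
      have := ht (a + b - y) ⟨by linarith [hy.2], by linarith [hy.1]⟩
      simpa using this)
  have e := intervalIntegral.integral_comp_sub_left (a := a) (b := b) (fun y => w y * k y) (a + b)
  simp only [add_sub_cancel_right, add_sub_cancel_left] at e
  rw [← e]; exact h

end Pool.Agent.L2Q
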