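import Pool.Agent.P.MP_2f6447_an.Q.Arc
import Pool.Agent.P.MP_2f6447_an.Q.MW

/-! One monotone branch of an arc, termwise. -/

open Set MeasureTheory Filter Topology Real

namespace Pool.Agent.L2Q

open Pool.Agent.L2K

variable {lam q ρ y t a b c m : ℝ} {j : ℕ} {ξ p : ℝ → ℝ}

theorem Branch_exp {σ : ℝ} (hσ : 0 ≤ σ) : exp (-(0.42 * σ)) * √(1 + σ ^ 2) ≤ 1 := by
  have h1 : 1 + σ ^ 2 ≤ exp (0.84 * σ) := by
    have h := Real.sum_le_exp_of_nonneg (x := 0.84 * σ) (by positivity) 5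
    simp only [Finset.sum_range_succ, Finset.sum_range_zero, Nat.factorial] at h
    norm_num at h
    have h2 : 0 ≤ 0.84 - 0.6472 * σ + 0.098784 * σ ^ 2 + 0.02074464 * σ ^ 3 := by
      nlinarith [sq_nonneg (σ - 2), mul_nonneg hσ (sq_nonneg (σ - 2))]
    have h3 := mul_nonneg hσ h2
    have e : (0.84 : ℝ) * σ = 21 / 25 * σ := by norm_num
    rw [e]
    nlinarith
  have h2 : √(1 + σ ^ 2) ≤ exp (0.42 * σ) := by
    refine Real.sqrt_le_iff.2 ⟨(exp_pos _).le, ?_⟩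
    rw [sq (exp _), ← exp_add]
    have e : 0.42 * σ + 0.42 * σ = 0.84 * σ := by ring
    rw [e]
    exact h1
  calc exp (-(0.42 * σ)) * √(1 + σ ^ 2) ≤ exp (-(0.42 * σ)) * exp (0.42 * σ) := by gcongr
    _ = 1 := by rw [← exp_add]; simp

theorem weight_le {τ σ : ℝ} (hτ : 0 < τ) (hσ : 0 ≤ σ) :
    exp (-(τ * σ)) * √(1 + σ ^ 2) ≤ max 1 (0.42 / τ) := by
  rcases le_total 0.42 τ with h | h
  · refine le_trans ?_ (le_max_left _ _)
    refine le_trans ?_ (Branch_exp hσ)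
    gcongr
  · refine le_trans ?_ (le_max_right _ _)
    have hs : 0 ≤ τ * σ / 0.42 := by positivity
    have h1 := Branch_exp hs
    have e : 0.42 * (τ * σ / 0.42) = τ * σ := by field_simp
    rw [e] at h1
    have h2 : 1 ≤ 0.42 / τ := by rwa [le_div_iff₀ hτ, one_mul]
    have h3 : √(1 + σ ^ 2) ≤ 0.42 / τ * √(1 + (τ * σ / 0.42) ^ 2) := by
      refine Real.sqrt_le_iff.2 ⟨by positivity, ?_⟩
      rw [mul_pow, Real.sq_sqrt (by positivity)]
      have e2 : (0.42 / τ) ^ 2 * (1 + (τ * σ / 0.42) ^ 2) = (0.42 / τ) ^ 2 + σ ^ 2 := by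
        field_simp
      rw [e2]
      nlinarith
    calc exp (-(τ * σ)) * √(1 + σ ^ 2)
        ≤ exp (-(τ * σ)) * (0.42 / τ * √(1 + (τ * σ / 0.42) ^ 2)) := by gcongr
      _ = 0.42 / τ * (exp (-(τ * σ)) * √(1 + (τ * σ / 0.42) ^ 2)) := by ring
      _ ≤ 0.42 / τ * 1 := by gcongr
      _ = 0.42 / τ := mul_one _

theorem Branch_int_sin (hj : 2 ≤ j) (a b : ℝ) :
    ∫ s in a..b, sin (j * s) = (cos (j * a) - cos (j * b)) / j := by
  have hj0 : (j : ℝ) ≠ 0 := by positivity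
  rw [intervalIntegral.integral_comp_mul_left (fun s => sin s) hj0, integral_sin, smul_eq_mul]
  field_simp

theorem Branch_int_max {s : ℝ} (ha : 0 ≤ a) (hs : 0 ≤ s) :
    ∫ y in (0 : ℝ)..s, max (a - y) 0 ≤ a ^ 2 / 2 := by
  have key : ∀ u, 0 ≤ u → u ≤ a → ∫ y in (0 : ℝ)..u, max (a - y) 0 ≤ a ^ 2 / 2 := by
    intro u hu hua
    have e : ∫ y in (0 : ℝ)..u, max (a - y) 0 = ∫ y in (0 : ℝ)..u, (a - y) := by
      refine intervalIntegral.integral_congr fun y hy => ?_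
      rw [uIcc_of_le hu] at hy
      exact max_eq_left (by linarith [hy.2])
    rw [e, intervalIntegral.integral_sub intervalIntegrable_const intervalIntegral.intervalIntegrable_id,
      intervalIntegral.integral_const, integral_id, smul_eq_mul]
    nlinarith [sq_nonneg (a - u)]
  rcases le_total s a with h | h
  · exact key s hs h
  · have hc : Continuous fun y : ℝ => max (a - y) 0 := by fun_prop
    rw [← intervalIntegral.integral_add_adjacent_intervals (b := a) (hc.intervalIntegrable _ _)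
      (hc.intervalIntegrable _ _)]
    have e : ∫ y in a..s, max (a - y) 0 = ∫ _y in a..s, (0 : ℝ) := by
      refine intervalIntegral.integral_congr fun y hy => ?_
      rw [uIcc_of_le h] at hy
      exact max_eq_right (by linarith [hy.1])
    rw [e, intervalIntegral.integral_zero, add_zero]
    exact key a ha le_rfl

theorem Branch_w_anti (A : Arc ξ p t) (lam : ℝ) (j : ℕ) (h0 : 0 ≤ ξ 0) :
    AntitoneOn (fun y => ee lam j |ξ y| * sq1 p y) (Ioo 0 t) := by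
  intro x hx y hy hxy
  have z : (0 : ℝ) ∈ Icc 0 t := ⟨le_rfl, A.tmem.1.le⟩
  have hx' := Ioo_subset_Icc_self hx
  have hy' := Ioo_subset_Icc_self hy
  have a1 : 0 ≤ ξ x := h0.trans (A.mono z hx' hx'.1)
  have a2 : ξ x ≤ ξ y := A.mono hx' hy' hxy
  have a3 := A.sq1_anti (Ioo_subset_Ioc_self hx) (Ioo_subset_Ioc_self hy) hxy
  have a4 : ee lam j |ξ y| ≤ ee lam j |ξ x| := by
    rw [abs_of_nonneg a1, abs_of_nonneg (a1.trans a2)]
    exact ee_anti lam j a2
  exact mul_le_mul a4 a3 (zero_le_one.trans (one_le_sq1 p y)) (ee_pos lam j _).le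

theorem Branch_head (A : Arc ξ p t) (lam : ℝ) (j : ℕ) (h0 : 0 ≤ ξ 0) {s ε : ℝ} (hs : s ∈ Icc 0 t)
    (hh : ∀ y, 0 ≤ ε * ∫ x in s..y, sin (j * x)) : 0 ≤ ε * EI lam j ξ p s t := by
  have hc : Continuous fun y : ℝ => ε * sin (j * y) := by fun_prop
  have m1 : s ∈ Icc 0 π := ⟨hs.1, hs.2.trans A.tmem.2.le⟩
  have m2 : t ∈ Icc 0 π := Ioo_subset_Icc_self A.tmem
  have e : (fun y => ee lam j |ξ y| * sq1 p y * (ε * sin (j * y))) =
      fun y => ε * (ee lam j |ξ y| * sin (j * y) * sq1 p y) := by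
    funext y
    ring
  have h := mw_head0 (w := fun y => ee lam j |ξ y| * sq1 p y) (k := fun y => ε * sin (j * y)) hs.2
    ((Branch_w_anti A lam j h0).mono (Ioo_subset_Ioo_left hs.1))
    (fun y _ => mul_nonneg (ee_pos lam j _).le (zero_le_one.trans (one_le_sq1 p y)))
    (hc.intervalIntegrable _ _) (by rw [e]; exact (A.ii_EI lam j m1 m2).const_mul ε)
    (fun y _ => by rw [intervalIntegral.integral_const_mul]; exact hh y)
  rw [e, intervalIntegral.integral_const_mul] at h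
  exact h

theorem Branch_pt (A : Arc ξ p t) (hl : lam < 4) (hj : 2 ≤ j) (h0 : 0 ≤ ξ 0) (hy : y ∈ Ioo 0 t)
    (hy' : y ≤ π / j) : ee lam j |ξ y| * sin (j * y) * sq1 p y ≤
      ee lam j (ξ 0) * (sin (j * y) + j * max (0.42 / mm lam j - y) 0) := by
  have hj0 : (0 : ℝ) < j := by positivity
  have hm := mm_pos hl hj
  have z : (0 : ℝ) ∈ Icc 0 t := ⟨le_rfl, A.tmem.1.le⟩
  have a1 : 0 ≤ ξ y := h0.trans (A.mono z (Ioo_subset_Icc_self hy) hy.1.le)
  have a2 := A.tangent (y := y) ⟨hy.1, hy.2.trans A.tmem.2⟩ (x := 0) ⟨le_rfl, pi_pos.le⟩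
  have a3 := A.p_nonneg (Ioo_subset_Ioc_self hy)
  have a4 : ee lam j |ξ y| ≤ ee lam j (ξ 0) * exp (-(mm lam j * y * p y)) := by
    rw [abs_of_nonneg a1]
    refine (ee_anti lam j (show ξ 0 + y * p y ≤ ξ y by linarith)).trans (le_of_eq ?_)
    rw [ee_add, mul_assoc]
    rfl
  have a5 := weight_le (mul_pos hm hy.1) a3
  have s0 : 0 ≤ sin (j * y) := by
    refine sin_nonneg_of_nonneg_of_le_pi (mul_nonneg hj0.le hy.1.le) ?_
    rw [le_div_iff₀ hj0] at hy'
    linarith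
  have s1 : sin (j * y) ≤ j * y := sin_le (mul_nonneg hj0.le hy.1.le)
  have a6 : max 1 (0.42 / (mm lam j * y)) * sin (j * y) ≤
      sin (j * y) + j * max (0.42 / mm lam j - y) 0 := by
    rcases le_total 1 (0.42 / (mm lam j * y)) with h | h
    · rw [max_eq_right h]
      have b1 : (0.42 / (mm lam j * y) - 1) * sin (j * y) ≤ (0.42 / (mm lam j * y) - 1) * (j * y) :=
        mul_le_mul_of_nonneg_left s1 (sub_nonneg.2 h)
      have b2 : (0.42 / (mm lam j * y) - 1) * (j * y) = j * (0.42 / mm lam j - y) := by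
        have := hy.1.ne'
        field_simp
      have b3 : (j : ℝ) * (0.42 / mm lam j - y) ≤ j * max (0.42 / mm lam j - y) 0 :=
        mul_le_mul_of_nonneg_left (le_max_left _ _) hj0.le
      linarith
    · rw [max_eq_left h]
      have b3 : 0 ≤ (j : ℝ) * max (0.42 / mm lam j - y) 0 := mul_nonneg hj0.le (le_max_right _ _)
      linarith
  have q0 : 0 ≤ sq1 p y := zero_le_one.trans (one_le_sq1 p y)
  have e0 := (ee_pos lam j (ξ 0)).le
  calc ee lam j |ξ y| * sin (j * y) * sq1 p y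
      ≤ ee lam j (ξ 0) * exp (-(mm lam j * y * p y)) * sin (j * y) * sq1 p y := by gcongr
    _ = ee lam j (ξ 0) * (exp (-(mm lam j * y * p y)) * √(1 + p y ^ 2) * sin (j * y)) := by
      unfold sq1
      ring
    _ ≤ ee lam j (ξ 0) * (max 1 (0.42 / (mm lam j * y)) * sin (j * y)) := by gcongr
    _ ≤ _ := mul_le_mul_of_nonneg_left a6 e0

theorem Branch_od (j : ℕ) :
    (od j = 0 ∧ (-1 : ℝ) ^ (j + 1) = -1) ∨ (od j = 1 ∧ (-1 : ℝ) ^ (j + 1) = 1) := by
  have h := neg_one_pow_eq j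
  by_cases ho : Odd j
  · have e : od j = 1 := if_pos ho
    refine Or.inr ⟨e, ?_⟩
    rw [pow_succ, h, e]
    norm_num
  · have e : od j = 0 := if_neg ho
    refine Or.inl ⟨e, ?_⟩
    rw [pow_succ, h, e]
    norm_num

theorem Arc.EI_rise (A : Arc ξ p t) (hl : lam < 4) (hj : 2 ≤ j) (h0 : 0 ≤ ξ 0) :
    0 ≤ EI lam j ξ p 0 t ∧ EI lam j ξ p 0 t ≤ hh lam j * ee lam j (ξ 0) := by
  have hj0 : (0 : ℝ) < j := by positivity
  have hm := mm_pos hl hj
  have z : (0 : ℝ) ∈ Icc 0 t := ⟨le_rfl, A.tmem.1.le⟩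
  constructor
  · have h := Branch_head A lam j h0 (ε := 1) z fun y => by
      rw [Branch_int_sin hj, mul_zero, cos_zero, one_mul]
      exact div_nonneg (sub_nonneg.2 (cos_le_one _)) hj0.le
    rwa [one_mul] at h
  · have hpj : 0 < π / j := div_pos pi_pos hj0
    obtain ⟨s, hs, hs', hst⟩ : ∃ s ∈ Icc 0 t, s ≤ π / j ∧ EI lam j ξ p s t ≤ 0 := by
      rcases le_total t (π / j) with h | h
      · exact ⟨t, ⟨A.tmem.1.le, le_rfl⟩, h, by simp [EI]⟩
      · refine ⟨π / j, ⟨hpj.le, h⟩, le_rfl, ?_⟩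
        have h1 := Branch_head A lam j h0 (ε := -1) (s := π / j) ⟨hpj.le, h⟩ fun y => by
          have e : (j : ℝ) * (π / j) = π := by field_simp
          rw [Branch_int_sin hj, e, cos_pi]
          have : (-1 - cos (j * y)) / j ≤ 0 :=
            div_nonpos_of_nonpos_of_nonneg (by linarith [neg_one_le_cos (j * y)]) hj0.le
          linarith
        linarith
    have m0 : (0 : ℝ) ∈ Icc 0 π := ⟨le_rfl, pi_pos.le⟩
    have m1 : s ∈ Icc 0 π := ⟨hs.1, hs.2.trans A.tmem.2.le⟩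
    have m2 : t ∈ Icc 0 π := Ioo_subset_Icc_self A.tmem
    have hadd := A.EI_add lam j m0 m1 m2
    have c1 : Continuous fun y : ℝ => sin (j * y) := by fun_prop
    have c2 : Continuous fun y : ℝ => (j : ℝ) * max (0.42 / mm lam j - y) 0 := by fun_prop
    have h1 : EI lam j ξ p 0 s ≤
        ∫ y in (0 : ℝ)..s, ee lam j (ξ 0) * (sin (j * y) + j * max (0.42 / mm lam j - y) 0) := by
      refine intervalIntegral.integral_mono_on_of_le_Ioo hs.1 (A.ii_EI lam j m0 m1)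
        ((continuous_const.mul (c1.add c2)).intervalIntegrable _ _) fun y hy => ?_
      exact Branch_pt A hl hj h0 ⟨hy.1, hy.2.trans_le hs.2⟩ (hy.2.le.trans hs')
    rw [intervalIntegral.integral_const_mul, intervalIntegral.integral_add (c1.intervalIntegrable _ _)
      (c2.intervalIntegrable _ _), intervalIntegral.integral_const_mul, Branch_int_sin hj] at h1
    have h2 := Branch_int_max (a := 0.42 / mm lam j) (by positivity) hs.1
    have h3 : (cos (j * (0 : ℝ)) - cos (j * s)) / j ≤ 2 / j := by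
      refine div_le_div_of_nonneg_right ?_ hj0.le
      linarith [cos_le_one (j * (0 : ℝ)), neg_one_le_cos (j * s)]
    have h4 : (j : ℝ) * ((0.42 / mm lam j) ^ 2 / 2) = 0.0882 * j / ((j : ℝ) ^ 2 - lam) := by
      rw [← mm_sq hl hj]
      field_simp
      norm_num
    have h5 : (j : ℝ) * ∫ y in (0 : ℝ)..s, max (0.42 / mm lam j - y) 0 ≤
        j * ((0.42 / mm lam j) ^ 2 / 2) := mul_le_mul_of_nonneg_left h2 hj0.le
    have h6 : (cos (j * (0 : ℝ)) - cos (j * s)) / j +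
        j * ∫ y in (0 : ℝ)..s, max (0.42 / mm lam j - y) 0 ≤ hh lam j := by
      unfold hh
      linarith
    have h7 := mul_le_mul_of_nonneg_left h6 (ee_pos lam j (ξ 0)).le
    linarith

theorem Arc.EI_fall (A : Arc ξ p t) (hl : lam < 4) (hj : 2 ≤ j) (h0 : 0 ≤ ξ π) :
    0 ≤ (-1) ^ (j + 1) * EI lam j ξ p t π ∧
      (-1) ^ (j + 1) * EI lam j ξ p t π ≤ hh lam j * ee lam j (ξ π) := by
  have h := A.flip.EI_rise hl hj (by simpa using h0)
  have e := EI_flip lam j ξ p t π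
  rw [sub_self] at e
  rw [e, sub_zero] at h
  exact h

theorem Arc.EI_le (A : Arc ξ p t) (hl : lam < 4) (hj : 2 ≤ j) (ha : 0 ≤ a) (ha' : a ≤ ξ 0)
    (hb : 0 ≤ b) (hb' : b ≤ ξ π) :
    EI lam j ξ p 0 π ≤ hh lam j * ee lam j a + od j * (hh lam j * ee lam j b) := by
  have m0 : (0 : ℝ) ∈ Icc 0 π := ⟨le_rfl, pi_pos.le⟩
  have m1 : π ∈ Icc 0 π := ⟨pi_pos.le, le_rfl⟩
  have hadd := A.EI_add lam j m0 (Ioo_subset_Icc_self A.tmem) m1
  have hp := (hh_pos hl hj).le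
  obtain ⟨r1, r2⟩ := A.EI_rise hl hj (ha.trans ha')
  obtain ⟨f1, f2⟩ := A.EI_fall hl hj (hb.trans hb')
  have e1 := mul_le_mul_of_nonneg_left (ee_anti lam j ha') hp
  have e2 := mul_le_mul_of_nonneg_left (ee_anti lam j hb') hp
  rcases Branch_od j with ⟨o, s⟩ | ⟨o, s⟩ <;> rw [s] at f1 f2 <;> rw [o] <;> linarith

theorem Arc.EI_ge (A : Arc ξ p t) (hl : lam < 4) (hj : 2 ≤ j) (h0 : 0 ≤ ξ 0)
    (hb : 0 ≤ b) (hb' : b ≤ ξ π) :
    -((1 - od j) * (hh lam j * ee lam j b)) ≤ EI lam j ξ p 0 π := by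
  have m0 : (0 : ℝ) ∈ Icc 0 π := ⟨le_rfl, pi_pos.le⟩
  have m1 : π ∈ Icc 0 π := ⟨pi_pos.le, le_rfl⟩
  have hadd := A.EI_add lam j m0 (Ioo_subset_Icc_self A.tmem) m1
  have hp := (hh_pos hl hj).le
  obtain ⟨r1, r2⟩ := A.EI_rise hl hj h0
  obtain ⟨f1, f2⟩ := A.EI_fall hl hj (hb.trans hb')
  have e2 := mul_le_mul_of_nonneg_left (ee_anti lam j hb') hp
  rcases Branch_od j with ⟨o, s⟩ | ⟨o, s⟩ <;> rw [s] at f1 f2 <;> rw [o] <;> linarith

theorem Arc.EI_abs (A : Arc ξ p t) (hl : lam < 4) (hj : 2 ≤ j) (ha : 0 ≤ a) (h0 : a ≤ ξ 0)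
    (h1 : a ≤ ξ π) : |EI lam j ξ p 0 π| ≤ (1 + od j) * hh lam j * ee lam j a := by
  have u := A.EI_le hl hj ha h0 ha h1
  have l := A.EI_ge hl hj (ha.trans h0) ha h1
  have hp := mul_pos (hh_pos hl hj) (ee_pos lam j a)
  have o := mul_nonneg (od_nonneg j) hp.le
  rw [abs_le]
  constructor <;> nlinarith

theorem EI_prod {ζ p' : ℝ → ℝ} {t' : ℝ} (A : Arc ξ p t) (B : Arc ζ p' t') (hl : lam < 4) (hj : 2 ≤ j)
    (h1 : 0 ≤ ξ 0) (h2 : 0 ≤ ξ π) (h3 : 0 ≤ ζ 0) (h4 : 0 ≤ ζ π) (h5 : b ≤ ξ 0 + ζ π)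
    (h6 : b ≤ ξ π + ζ 0) :
    -(EI lam j ξ p 0 π * EI lam j ζ p' 0 π) ≤ (1 - od j) * hh lam j ^ 2 * ee lam j b := by
  have m0 : (0 : ℝ) ∈ Icc 0 π := ⟨le_rfl, pi_pos.le⟩
  have m1 : π ∈ Icc 0 π := ⟨pi_pos.le, le_rfl⟩
  have hadd := A.EI_add lam j m0 (Ioo_subset_Icc_self A.tmem) m1
  have hp := (hh_pos hl hj).le
  have hadd' := B.EI_add lam j m0 (Ioo_subset_Icc_self B.tmem) m1
  obtain ⟨r1, r2⟩ := A.EI_rise hl hj h1
  obtain ⟨f1, f2⟩ := A.EI_fall hl hj h2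
  obtain ⟨r3, r4⟩ := B.EI_rise hl hj h3
  obtain ⟨f3, f4⟩ := B.EI_fall hl hj h4
  have e1 := ee_anti lam j h5
  have e2 := ee_anti lam j h6
  rw [ee_add] at e1 e2
  have hb := (ee_pos lam j b).le
  rw [← hadd, ← hadd']
  rcases Branch_od j with ⟨o, s⟩ | ⟨o, s⟩ <;> rw [s] at f1 f2 f3 f4 <;> rw [o]
  · generalize EI lam j ξ p 0 t = X at *
    generalize EI lam j ξ p t π = Y at *
    generalize EI lam j ζ p' 0 t' = X' at *
    generalize EI lam j ζ p' t' π = Y' at *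
    have k1 : X * (-1 * Y') ≤ hh lam j ^ 2 * ee lam j b := by
      refine (mul_le_mul r2 f4 f3 (r1.trans r2)).trans ?_
      have := mul_le_mul_of_nonneg_left e1 (sq_nonneg (hh lam j))
      nlinarith
    have k2 : (-1 * Y) * X' ≤ hh lam j ^ 2 * ee lam j b := by
      refine (mul_le_mul f2 r4 r3 (f1.trans f2)).trans ?_
      have := mul_le_mul_of_nonneg_left e2 (sq_nonneg (hh lam j))
      nlinarith
    have k0 : 0 ≤ hh lam j ^ 2 * ee lam j b := by positivity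
    rcases le_total 0 (X + Y) with g | g <;> rcases le_total 0 (X' + Y') with g' | g'
    · nlinarith [mul_nonneg g g']
    · have : (X + Y) * -(X' + Y') ≤ X * (-1 * Y') :=
        mul_le_mul (by linarith) (by linarith) (by linarith) r1
      linarith
    · have : -(X + Y) * (X' + Y') ≤ (-1 * Y) * X' :=
        mul_le_mul (by linarith) (by linarith) g' f1
      linarith
    · nlinarith [mul_nonneg_of_nonpos_of_nonpos g g']
  · have := mul_nonneg (show 0 ≤ EI lam j ξ p 0 t + EI lam j ξ p t π by linarith)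
      (show 0 ≤ EI lam j ζ p' 0 t' + EI lam j ζ p' t' π by linarith)
    linarith

end Pool.Agent.L2Q
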