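import Pool.Agent.P.MP_2f6447_an.Q.Defs
import Pool.Agent.P.MP_2f6447_an.K.Num
import Pool.Agent.P.MP_2f6447_an.K.ArcD
import Pool.Agent.P.MP_2f6447_an.K.ChordV

/-! The soft part delivers the data of the quantitative part. -/

open Set MeasureTheory Filter Topology Real Metric

namespace Pool.Agent.L2Q

open Pool.Agent.L2K

variable {Ω : Set ℂ} {lam : ℝ} {u : ℂ → ℝ} {l r : ℝ → ℝ} {nT nB : ℝ}

theorem bridge_W {g : ℝ → ℝ} {a b : ℝ} (hab : a ≤ b) (hc : ContinuousOn g (Icc a b))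
    (hm : ∀ α β : ℝ, ∫ x in a..b, (g x ^ 2 - 1) * (α + β * x) = 0)
    (hw : ∀ c ∈ Icc a b, 0 ≤ ∫ x in c..b, (g x ^ 2 - 1) * (x - c)) (c : ℝ) :
    0 ≤ ∫ x in a..b, (g x ^ 2 - 1) * max (x - c) 0 := by
  rcases le_total c a with h1 | h1
  · have e : ∫ x in a..b, (g x ^ 2 - 1) * max (x - c) 0 =
        ∫ x in a..b, (g x ^ 2 - 1) * (-c + 1 * x) := by
      refine intervalIntegral.integral_congr fun x hx => ?_
      rw [uIcc_of_le hab] at hx
      have : max (x - c) 0 = -c + 1 * x := by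
        rw [max_eq_left (by linarith [hx.1])]; ring
      simp only [this]
    rw [e, hm]
  rcases le_total b c with h2 | h2
  · have e : ∫ x in a..b, (g x ^ 2 - 1) * max (x - c) 0 = ∫ _ in a..b, (0 : ℝ) := by
      refine intervalIntegral.integral_congr fun x hx => ?_
      rw [uIcc_of_le hab] at hx
      have : max (x - c) 0 = 0 := max_eq_right (by linarith [hx.2])
      simp only [this, mul_zero]
    rw [e]; simp
  have hcont : ContinuousOn (fun x => (g x ^ 2 - 1) * max (x - c) 0) (Icc a b) :=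
    ((hc.pow 2).sub continuousOn_const).mul
      ((continuous_id.sub continuous_const).max continuous_const).continuousOn
  have i1 : IntervalIntegrable (fun x => (g x ^ 2 - 1) * max (x - c) 0) volume a c :=
    (hcont.mono (Icc_subset_Icc_right h2)).intervalIntegrable_of_Icc h1
  have i2 : IntervalIntegrable (fun x => (g x ^ 2 - 1) * max (x - c) 0) volume c b :=
    (hcont.mono (Icc_subset_Icc_left h1)).intervalIntegrable_of_Icc h2
  rw [← intervalIntegral.integral_add_adjacent_intervals i1 i2]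
  have e1 : ∫ x in a..c, (g x ^ 2 - 1) * max (x - c) 0 = ∫ _ in a..c, (0 : ℝ) := by
    refine intervalIntegral.integral_congr fun x hx => ?_
    rw [uIcc_of_le h1] at hx
    have : max (x - c) 0 = 0 := max_eq_right (by linarith [hx.2])
    simp only [this, mul_zero]
  have e2 : ∫ x in c..b, (g x ^ 2 - 1) * max (x - c) 0 = ∫ x in c..b, (g x ^ 2 - 1) * (x - c) := by
    refine intervalIntegral.integral_congr fun x hx => ?_
    rw [uIcc_of_le h2] at hx
    have : max (x - c) 0 = x - c := max_eq_left (by linarith [hx.1])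
    simp only [this]
  rw [e1, e2]
  simpa using hw c ⟨h1, h2⟩

theorem bridge_wT (h : Pat Ω lam u l r nT nB) : Wall (gt (Gr Ω u)) (l π) (r π) nT := by
  have hs := h.toStr
  change Wall (gT Ω u) (l π) (r π) nT
  obtain ⟨α, β, h1, h2, h3, h4, h5, h6, h7⟩ := h.shapeT
  refine ⟨hs.continuousOn_gT, fun x hx => ?_, h.memT, h.zT, h.gT_left, h.gT_right, ?_, ?_,
    bridge_W hs.htop.le hs.continuousOn_gT hs.momT fun c hc => hs.wT hc,
    α, β, h1, h2.le, h3.le, h4, h5, h6.monotoneOn, h7⟩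
  · exact (hs.contDiffOn_gT.contDiffAt (isOpen_Ioo.mem_nhds hx)).differentiableAt (by simp)
  · simpa using hs.momT 1 0
  · simpa using hs.momT 0 1

theorem bridge_wB (h : Pat Ω lam u l r nT nB) : Wall (gb (Gr Ω u)) (l 0) (r 0) nB := by
  have hs := h.toStr
  change Wall (gB Ω u) (l 0) (r 0) nB
  obtain ⟨α, β, h1, h2, h3, h4, h5, h6, h7⟩ := h.shapeB
  refine ⟨hs.continuousOn_gB, fun x hx => ?_, h.memB, h.zB, h.gB_left, h.gB_right, ?_, ?_,
    bridge_W hs.hbot.le hs.continuousOn_gB hs.momB fun c hc => hs.wB hc,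
    α, β, h1, h2.le, h3.le, h4, h5, h6.monotoneOn, h7⟩
  · exact (hs.contDiffOn_gB.contDiffAt (isOpen_Ioo.mem_nhds hx)).differentiableAt (by simp)
  · simpa using hs.momB 1 0
  · simpa using hs.momB 0 1

theorem bridge_linT (h : Str Ω lam u l r) {x : ℝ} (hx : x ∈ Ioo (l π) (r π)) {ε : ℝ} (hε : 0 < ε) :
    ∀ᶠ z in 𝓝[Ω] (⟨x, π⟩ : ℂ),
      |(grad u z).re - deriv (gT Ω u) x * (π - z.im)| ≤ ε * ‖z - ⟨x, π⟩‖ := by
  obtain ⟨ρ₁, h1, k1⟩ := h.ux_lower hx (γ := deriv (gT Ω u) x - ε) (by linarith)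
  obtain ⟨ρ₂, h2, k2⟩ := h.ux_upper hx (γ := deriv (gT Ω u) x + ε) (by linarith)
  filter_upwards [self_mem_nhdsWithin, mem_nhdsWithin_of_mem_nhds (ball_mem_nhds _ h1),
    mem_nhdsWithin_of_mem_nhds (ball_mem_nhds _ h2)] with z hz b1 b2
  have hy : z.im < π := ((h.mem z).1 hz).1.2
  have a1 := (k1 z b1 hy).2
  have a2 := (k2 z b2 hy).2
  have a3 : π - z.im ≤ ‖z - ⟨x, π⟩‖ := by
    have := Complex.abs_im_le_norm (z - ⟨x, π⟩)
    have e : (z - (⟨x, π⟩ : ℂ)).im = z.im - π := by simp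
    rw [e] at this
    linarith [neg_abs_le (z.im - π)]
  have a4 := mul_le_mul_of_nonneg_left a3 hε.le
  rw [abs_le]
  constructor <;> nlinarith

theorem bridge_linB (h : Str Ω lam u l r) {x : ℝ} (hx : x ∈ Ioo (l 0) (r 0)) {ε : ℝ} (hε : 0 < ε) :
    ∀ᶠ z in 𝓝[Ω] (⟨x, 0⟩ : ℂ),
      |(grad u z).re - deriv (gB Ω u) x * z.im| ≤ ε * ‖z - ⟨x, 0⟩‖ := by
  obtain ⟨ρ₁, h1, k1⟩ := h.uxB_lower hx (γ := deriv (gB Ω u) x - ε) (by linarith)
  obtain ⟨ρ₂, h2, k2⟩ := h.uxB_upper hx (γ := deriv (gB Ω u) x + ε) (by linarith)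
  filter_upwards [self_mem_nhdsWithin, mem_nhdsWithin_of_mem_nhds (ball_mem_nhds _ h1),
    mem_nhdsWithin_of_mem_nhds (ball_mem_nhds _ h2)] with z hz b1 b2
  have hy : 0 < z.im := ((h.mem z).1 hz).1.1
  have a1 := (k1 z b1 hy).2
  have a2 := (k2 z b2 hy).2
  have a3 : z.im ≤ ‖z - ⟨x, 0⟩‖ := by
    have := Complex.abs_im_le_norm (z - ⟨x, 0⟩)
    have e : (z - (⟨x, 0⟩ : ℂ)).im = z.im := by simp
    rw [e] at this
    linarith [le_abs_self z.im]
  have a4 := mul_le_mul_of_nonneg_left a3 hε.le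
  rw [abs_le]
  constructor <;> nlinarith

theorem bridge_signs (h : Pat Ω lam u l r nT nB) : (∃ z, 0 < u z) ∧ ∃ z, u z < 0 := by
  have hs := h.toStr
  have hm := hs.toMn
  obtain ⟨a, ha, hg⟩ := h.oneT.1
  obtain ⟨b, hb, hg'⟩ := h.oneT.2
  obtain ⟨ρ, hρ, k⟩ := hs.slope_lower (x := a) (γ := 0) ⟨h.memT.1.trans ha.1, ha.2⟩ (by linarith)
  obtain ⟨ρ', hρ', k'⟩ := hs.slope_upper (x := b) (γ := 0) ⟨hb.1, hb.2.trans h.memT.2⟩ (by linarith)
  have key : ∀ x s : ℝ, 0 < s → (⟨x, π - s / 2⟩ : ℂ) ∈ ball (⟨x, π⟩ : ℂ) s := by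
    intro x s hs
    rw [mem_ball, dist_eq_norm]
    have e : (⟨x, π - s / 2⟩ : ℂ) - ⟨x, π⟩ = ((-(s / 2) : ℝ) : ℂ) * Complex.I := by
      apply Complex.ext <;> simp
    rw [e, norm_mul, Complex.norm_I, Complex.norm_real, Real.norm_eq_abs, abs_neg,
      abs_of_pos (by linarith)]
    linarith
  constructor
  · refine ⟨⟨a, π - ρ / 2⟩, ?_⟩
    have := (k _ (key a ρ hρ) (by show π - ρ / 2 < π; linarith)).2
    simpa using this
  · refine ⟨⟨b, π - ρ' / 2⟩, ?_⟩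
    have := (k' _ (key b ρ' hρ') (by show π - ρ' / 2 < π; linarith)).2
    simpa using this

theorem bridge_mem (hm : Mn Ω lam u) {z : ℂ} (hz : u z ≠ 0) : z ∈ Ω := by
  by_contra k
  exact hz (hm.lip.zero z k)

theorem _root_.Pool.Agent.L2K.Pat.qd (h : Pat Ω lam u l r nT nB) :
    QD Ω lam u (Gr Ω u) l r nT nB := by
  have hs := h.toStr
  have hm := hs.toMn
  have eP : {z ∈ Ω | 0 < u z} = {z | 0 < u z} := by
    ext z
    exact ⟨fun k => k.2, fun k => ⟨bridge_mem hm (ne_of_gt k), k⟩⟩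
  have eN : {z ∈ Ω | u z < 0} = {z | u z < 0} := by
    ext z
    exact ⟨fun k => k.2, fun k => ⟨bridge_mem hm (ne_of_lt k), k⟩⟩
  refine ⟨hs.toGeo, hs.two_le_lam, h.lam_lt_four, hm.lip, hm.helm, hm.continuousOn_Gr,
    fun z hz => hm.Gr_eq hz, ?_, ?_, fun y hy => ?_, fun y hy => ?_, fun x hx => ?_, fun x hx => ?_,
    bridge_wT h, bridge_wB h, fun x hx ε hε => bridge_linT hs hx hε,
    fun x hx ε hε => bridge_linB hs hx hε, hm.lam_area_le, hs.iso.1, hs.chord_all, ?_, ?_,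
    fun z hz h0 => ?_⟩
  · obtain ⟨t, ht, h0⟩ := hs.tip_r
    exact ⟨t, hs.contr, fun y hy => (hs.hasDerivAt_r hy).differentiableAt.hasDerivAt,
      hs.continuousOn_deriv_r, hs.antitoneOn_deriv_r, ht, h0⟩
  · obtain ⟨t, ht, h0⟩ := hs.tip_l
    exact ⟨t, hs.contl.neg, fun y hy => (hs.hasDerivAt_l hy).differentiableAt.hasDerivAt.neg,
      hs.continuousOn_deriv_l.neg, fun a ha b hb hab => neg_le_neg (hs.monotoneOn_deriv_l ha hb hab),
      ht, by simp [h0]⟩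
  · rw [h.sgR y (Ioo_subset_Icc_self hy), hs.nu_r_eq hy]
    apply Complex.ext <;> simp [sq1, neg_div]
  · rw [h.sgL y (Ioo_subset_Icc_self hy), hs.nu_l_eq hy]
    rfl
  · rw [hs.Gr_top hx]; simp
  · rw [hs.Gr_bot hx]; simp
  · rw [eP]; exact hm.preconn_pos (bridge_signs h).2
  · rw [eN]; exact hm.preconn_neg (bridge_signs h).1
  · obtain ⟨q, hq, hq0⟩ := hm.exists_ne
    obtain ⟨k1, k2⟩ := both_signs hm.helm hm.lam_pos.le hm.convex.isPreconnected hz hq hq0 h0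
    rw [eP, eN]
    exact ⟨mem_closure_iff_frequently.2 k1, mem_closure_iff_frequently.2 k2⟩

theorem loc_of_locQ (h : LocQ Ω u (Gr Ω u) nT nB) : Loc Ω u nT nB :=
  ⟨h.win, h.slope, h.disc, h.dT, h.dB⟩

end Pool.Agent.L2Q
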