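import Pool.Agent.P.MP_2f6447_an.Q.Branch

/-! Calibration for an arc that crosses the vertical at height `c`. -/

open Set MeasureTheory Filter Topology Real

namespace Pool.Agent.L2Q

open Pool.Agent.L2K

variable {lam q ρ y t a b c m : ℝ} {j : ℕ} {ξ p : ℝ → ℝ}

theorem Calib_rr_sq (hl : lam < 4) (hj : 2 ≤ j) :
    rr lam j ^ 2 = (1 / (j : ℝ)) ^ 2 + (1 / mm lam j) ^ 2 := by
  have hm := mm_pos hl hj
  have h1 : (0 : ℝ) < (j : ℝ) ^ 2 - lam := by rw [← mm_sq hl hj]; positivity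
  unfold rr
  rw [Real.sq_sqrt (by positivity), div_pow, div_pow, mm_sq hl hj, one_pow]

theorem Calib_cs (hl : lam < 4) (hj : 2 ≤ j) {s k : ℝ} (h : s ^ 2 + k ^ 2 ≤ 1) :
    s / mm lam j + k / j ≤ rr lam j := by
  refine (le_abs_self _).trans (abs_le_of_sq_le_sq ?_ (rr_pos hl hj).le)
  rw [Calib_rr_sq hl hj, div_eq_mul_one_div s, div_eq_mul_one_div k]
  generalize 1 / mm lam j = α
  generalize 1 / (j : ℝ) = β
  nlinarith [sq_nonneg (s * β - k * α), mul_le_mul_of_nonneg_right h (add_nonneg (sq_nonneg β) (sq_nonneg α))]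

theorem Calib_point (hl : lam < 4) (hj : 2 ≤ j) {s k P S : ℝ} (h : s ^ 2 + k ^ 2 ≤ 1)
    (hP : 0 ≤ P) (h1 : 1 ≤ S) (h2 : S ≤ 1 + P) :
    s * S ≤ s + mm lam j * P * (rr lam j - k / j) := by
  have hm := mm_pos hl hj
  rcases le_total 0 s with hs | hs
  · have h3 := Calib_cs hl hj h
    have h4 : s ≤ mm lam j * (rr lam j - k / j) := by
      rw [mul_comm, ← div_le_iff₀ hm]; linarith
    nlinarith [mul_le_mul_of_nonneg_left h2 hs, mul_le_mul_of_nonneg_left h4 hP]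
  · have h3 := Calib_cs hl hj (s := 0) (k := k) (by nlinarith [sq_nonneg s])
    have h4 : 0 ≤ rr lam j - k / j := by simpa using h3
    nlinarith [mul_nonneg (mul_nonneg hm.le hP) h4, mul_nonneg (neg_nonneg.mpr hs) (sub_nonneg.mpr h1)]

theorem Calib_piece (A : Arc ξ p t) (hl : lam < 4) (hj : 2 ≤ j) {σ ε : ℝ} (hσ : σ ^ 2 = 1)
    (hε : ε ^ 2 = 1) (hta : t ≤ a) (hab : a ≤ b) (hb : b ≤ π)
    (habs : ∀ y ∈ Ioo a b, |ξ y| = ε * ξ y) :
    σ * EI lam j ξ p a b ≤
      ε * (ee lam j (ε * ξ b) * (rr lam j - ε * σ * cos (j * b) / j)) -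
        ε * (ee lam j (ε * ξ a) * (rr lam j - ε * σ * cos (j * a) / j)) := by
  have hj0 : (j : ℝ) ≠ 0 := by positivity
  have ha0 : 0 ≤ a := A.tmem.1.le.trans hta
  have hsub : Icc a b ⊆ Icc 0 π := Icc_subset_Icc ha0 hb
  unfold EI
  rw [← intervalIntegral.integral_const_mul]
  refine intervalIntegral.integral_le_sub_of_hasDeriv_right_of_le
    (g := fun y => ε * (ee lam j (ε * ξ y) * (rr lam j - ε * σ * cos (j * y) / j)))
    (g' := fun y => ee lam j (ε * ξ y) * (σ * sin (j * y) +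
      mm lam j * (-p y) * (rr lam j - ε * σ * cos (j * y) / j))) hab ?_ ?_ ?_ ?_
  · refine continuousOn_const.mul (ContinuousOn.mul ?_ ?_)
    · exact (continuous_ee lam j).comp_continuousOn (continuousOn_const.mul (A.cont.mono hsub))
    · exact Continuous.continuousOn (by fun_prop)
  · intro y hy
    have hy' : y ∈ Ioo 0 π := ⟨ha0.trans_lt hy.1, hy.2.trans_le hb⟩
    have d1 : HasDerivAt (fun y => ee lam j (ε * ξ y))
        (-(mm lam j * ee lam j (ε * ξ y)) * (ε * p y)) y :=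
      HasDerivAt.comp (h₂ := ee lam j) (h := fun y => ε * ξ y) y
        (hasDerivAt_ee lam j (ε * ξ y)) ((A.der y hy').const_mul ε)
    have d2 : HasDerivAt (fun y : ℝ => cos (j * y)) (-sin (j * y) * (j * 1)) y :=
      ((hasDerivAt_id y).const_mul (j : ℝ)).cos
    have d3 := (d1.mul ((((d2.const_mul (ε * σ)).div_const (j : ℝ)).const_sub
      (rr lam j)))).const_mul ε
    refine (d3.congr_deriv ?_).hasDerivWithinAt
    field_simp
    linear_combination (ee lam j (ε * ξ y) * (j * σ * sin (j * y) -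
      mm lam j * p y * (rr lam j * j - ε * σ * cos (j * y)))) * hε
  · have h1 := (A.ii_EI lam j (hsub (left_mem_Icc.mpr hab)) (hsub (right_mem_Icc.mpr hab))).const_mul σ
    exact (intervalIntegrable_iff_integrableOn_Icc_of_le hab).mp h1
  · intro y hy
    have hy' : y ∈ Ico t π := ⟨hta.trans hy.1.le, hy.2.trans_le hb⟩
    have hp := A.p_nonpos hy'
    have h2 := sq1_le p y
    rw [abs_of_nonpos hp] at h2
    have h3 : (σ * sin (j * y)) ^ 2 + (ε * σ * cos (j * y)) ^ 2 ≤ 1 := by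
      rw [mul_pow, mul_pow, mul_pow, hσ, hε]
      linarith [sin_sq_add_cos_sq (j * y)]
    have h4 := Calib_point hl hj h3 (neg_nonneg.mpr hp) (one_le_sq1 p y) h2
    have h5 := mul_le_mul_of_nonneg_left h4 (ee_pos lam j (ε * ξ y)).le
    rw [habs y hy]
    linarith

theorem Calib_sign (A : Arc ξ p t) (hl : lam < 4) (hj : 2 ≤ j) (htc : t ≤ c) (hc : c ≤ π)
    (h0 : ξ c = 0) {σ : ℝ} (hσ : σ ^ 2 = 1) : σ * EI lam j ξ p t π ≤ 2 * rr lam j := by
  have hcm : c ∈ Icc t π := ⟨htc, hc⟩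
  have ht : t ∈ Icc 0 π := Ioo_subset_Icc_self A.tmem
  have h1 := Calib_piece A hl hj hσ (ε := 1) (by norm_num) le_rfl htc hc (fun y hy => by
    have := A.anti' ⟨hy.1.le, hy.2.le.trans hc⟩ hcm hy.2.le
    rw [h0] at this
    rw [abs_of_nonneg this, one_mul])
  have h2 := Calib_piece A hl hj hσ (ε := -1) (by norm_num) htc hc le_rfl (fun y hy => by
    have := A.anti' hcm ⟨htc.trans hy.1.le, hy.2.le⟩ hy.1.le
    rw [h0] at this
    rw [abs_of_nonpos this, neg_one_mul])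
  have hk : ∀ ε x : ℝ, ε ^ 2 = 1 → 0 ≤ rr lam j - ε * σ * cos x / j := by
    intro ε x hε
    have h3 := Calib_cs hl hj (s := 0) (k := ε * σ * cos x) (by
      rw [mul_pow, mul_pow, hσ, hε]; linarith [cos_sq_le_one x])
    simpa using h3
  have h3 := mul_nonneg (ee_pos lam j (1 * ξ t)).le (hk 1 (j * t) (by norm_num))
  have h4 := mul_nonneg (ee_pos lam j (-1 * ξ π)).le (hk (-1) (j * π) (by norm_num))
  rw [h0, mul_zero, ee_zero] at h1 h2
  rw [← A.EI_add lam j ht ⟨ht.1.trans htc, hc⟩ (right_mem_Icc.mpr pi_pos.le), mul_add]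
  have e : -1 * σ * cos (j * c) / j = -(1 * σ * cos (j * c) / j) := by ring
  rw [e] at h2
  linarith

theorem Arc.EI_cross (A : Arc ξ p t) (hl : lam < 4) (hj : 2 ≤ j) (htc : t ≤ c) (hc : c ≤ π)
    (h0 : ξ c = 0) : |EI lam j ξ p t π| ≤ 2 * rr lam j := by
  have h1 := Calib_sign A hl hj htc hc h0 (σ := 1) (by norm_num)
  have h2 := Calib_sign A hl hj htc hc h0 (σ := -1) (by norm_num)
  rw [abs_le]
  constructor <;> linarith

theorem Arc.EI_junc (A : Arc ξ p t) (hl : lam < 4) (hj : 2 ≤ j) (htc : t ≤ c) (hc : c ≤ π)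
    (h0 : ξ c = 0) (h1 : ξ 0 = 0) : |EI lam j ξ p 0 π| ≤ hh lam j + 2 * rr lam j := by
  have h2 := A.EI_cross hl hj htc hc h0
  have h3 := A.EI_rise hl hj h1.ge
  rw [h1, ee_zero, mul_one] at h3
  rw [← A.EI_add lam j (left_mem_Icc.mpr pi_pos.le) (Ioo_subset_Icc_self A.tmem)
    (right_mem_Icc.mpr pi_pos.le)]
  refine (abs_add_le _ _).trans (add_le_add ?_ h2)
  rw [abs_of_nonneg h3.1]
  exact h3.2

end Pool.Agent.L2Q
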