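import Pool.Agent.P.MP_2f6447_an.Q.Bas

/-! Series with `bet`. -/

open Set MeasureTheory Filter Topology Real

namespace Pool.Agent.L2Q

open Pool.Agent.L2K

variable {lam q ρ y t a b c m : ℝ} {j : ℕ} {ξ p : ℝ → ℝ}

theorem bet_pos (hl : lam < 4) (hj : 2 ≤ j) : 0 < bet lam j := by
  have h1 := hh_pos hl hj
  have h2 := rr_pos hl hj
  have h3 := od_nonneg j
  have h4 := ee_pos lam j 1.035
  unfold bet
  positivity

theorem Ser3_exp {x x0 E : ℝ} (n : ℕ) (h0 : 0 ≤ x0) (hx : x0 ≤ x) (hE : 0 < E)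
    (h : 1 ≤ E * ∑ i ∈ Finset.range n, x0 ^ i / (i.factorial : ℝ)) : exp (-x) ≤ E := by
  have h1 := Real.sum_le_exp_of_nonneg h0 n
  have h2 : exp x0 ≤ exp x := exp_le_exp.2 hx
  have h3 : 1 ≤ E * exp x := h.trans (mul_le_mul_of_nonneg_left (h1.trans h2) hE.le)
  rw [exp_neg, inv_le_iff_one_le_mul₀ (exp_pos x)]
  exact h3

theorem Ser3_mm (hl : lam < 4) (hj : 2 ≤ j) (hc : c ^ 2 ≤ (j : ℝ) ^ 2 - 4) : c ≤ mm lam j := by
  have h1 := mm_sq hl hj
  have h2 := mm_nonneg lam j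
  exact abs_le_of_sq_le_sq' (by linarith) h2 |>.2

theorem Ser3_gen (hl : lam < 4) (hj : 3 ≤ j) {R s E o : ℝ} (hR0 : 0 ≤ R)
    (hR : (j : ℝ) ^ 2 ≤ R * ((j : ℝ) ^ 2 - 4)) (hs0 : 0 ≤ s) (hs : 1 + R ≤ s ^ 2)
    (hE : ee lam j 1.035 ≤ E) (ho : od j ≤ o) :
    j * bet lam j ≤ (2 + 0.0882 * R) * (1 + (1 + o) * E) + 2 * s := by
  have hj' : (3 : ℝ) ≤ j := by exact_mod_cast hj
  have j0 : (0 : ℝ) < j := by linarith
  have hD : 0 < (j : ℝ) ^ 2 - lam := by nlinarith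
  have hρ : (j : ℝ) ^ 2 / ((j : ℝ) ^ 2 - lam) ≤ R := by
    rw [div_le_iff₀ hD]
    nlinarith
  have e1 : j * hh lam j = 2 + 0.0882 * ((j : ℝ) ^ 2 / ((j : ℝ) ^ 2 - lam)) := by
    unfold hh
    field_simp
  have k1 : j * hh lam j ≤ 2 + 0.0882 * R := by
    rw [e1]
    linarith
  have k2 : j * rr lam j ≤ s := by
    have : rr lam j ≤ s / j := by
      unfold rr
      rw [sqrt_le_iff]
      refine ⟨by positivity, ?_⟩
      have e2 : 1 / (j : ℝ) ^ 2 + 1 / ((j : ℝ) ^ 2 - lam) =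
          (1 + (j : ℝ) ^ 2 / ((j : ℝ) ^ 2 - lam)) / (j : ℝ) ^ 2 := by
        field_simp
      rw [e2, div_pow]
      exact div_le_div_of_nonneg_right (by linarith) (by positivity)
    rwa [le_div_iff₀' j0] at this
  have h3 := od_nonneg j
  have h4 := ee_pos lam j 1.035
  have h5 := hh_pos hl (by omega : 2 ≤ j)
  have k3 : (1 + od j) * ee lam j 1.035 ≤ (1 + o) * E :=
    mul_le_mul (by linarith) hE h4.le (by linarith)
  have k4 : j * hh lam j * (1 + (1 + od j) * ee lam j 1.035) ≤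
      (2 + 0.0882 * R) * (1 + (1 + o) * E) :=
    mul_le_mul k1 (by linarith) (by positivity) (by positivity)
  have e3 : j * bet lam j =
      j * hh lam j * (1 + (1 + od j) * ee lam j 1.035) + 2 * (j * rr lam j) := by
    unfold bet
    ring
  rw [e3]
  linarith

theorem Ser3_b3 (h2 : 2 ≤ lam) (hl : lam < 4) : bet lam 3 ≤ 1.98 := by
  have hm := (mm3_mem h2 hl).1
  have hE : ee lam 3 1.035 ≤ 0.1 :=
    Ser3_exp (x0 := 2.314) 8 (by norm_num) (by linarith) (by norm_num)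
      (by simp only [Finset.sum_range_succ, Finset.sum_range_zero, Nat.factorial]; norm_num)
  have := Ser3_gen hl (le_refl 3) (R := 1.8) (s := 1.6734) (by norm_num) (by norm_num)
    (by norm_num) (by norm_num) hE (od_le_one 3)
  norm_num at this ⊢
  linarith

theorem Ser3_b4 (h2 : 2 ≤ lam) (hl : lam < 4) : bet lam 4 ≤ 1.31 := by
  have hm := (mm4_mem h2 hl).1
  have hE : ee lam 4 1.035 ≤ 0.03 :=
    Ser3_exp (x0 := 3.585) 9 (by norm_num) (by linarith) (by norm_num)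
      (by simp only [Finset.sum_range_succ, Finset.sum_range_zero, Nat.factorial]; norm_num)
  have ho : od 4 ≤ 0 := by
    unfold od
    rw [if_neg (by decide)]
  have := Ser3_gen hl (by norm_num : 3 ≤ 4) (R := 1.3334) (s := 1.5276) (by norm_num)
    (by norm_num) (by norm_num) (by norm_num) hE ho
  norm_num at this ⊢
  linarith

theorem Ser3_b5 (h2 : 2 ≤ lam) (hl : lam < 4) : bet lam 5 ≤ 1.022 := by
  have hm := (mm5_mem h2 hl).1
  have hE : ee lam 5 1.035 ≤ 0.01 :=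
    Ser3_exp (x0 := 4.742) 9 (by norm_num) (by linarith) (by norm_num)
      (by simp only [Finset.sum_range_succ, Finset.sum_range_zero, Nat.factorial]; norm_num)
  have := Ser3_gen hl (by norm_num : 3 ≤ 5) (R := 1.1905) (s := 1.4801) (by norm_num)
    (by norm_num) (by norm_num) (by norm_num) hE (od_le_one 5)
  norm_num at this ⊢
  linarith

theorem Ser3_mm6 (hl : lam < 4) (hj : 6 ≤ j) : 5.656 ≤ mm lam j := by
  have hj' : (6 : ℝ) ≤ j := by exact_mod_cast hj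
  exact Ser3_mm hl (by omega) (by nlinarith)

theorem Ser3_b6 (hl : lam < 4) (hj : 6 ≤ j) : j * bet lam j ≤ 5.04 := by
  have hj' : (6 : ℝ) ≤ j := by exact_mod_cast hj
  have hm := Ser3_mm6 hl hj
  have hE : ee lam j 1.035 ≤ 0.004 :=
    Ser3_exp (x0 := 5.85) 10 (by norm_num) (by linarith) (by norm_num)
      (by simp only [Finset.sum_range_succ, Finset.sum_range_zero, Nat.factorial]; norm_num)
  have := Ser3_gen hl (by omega : 3 ≤ j) (R := 1.125) (s := 1.4578) (by norm_num)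
    (by nlinarith) (by norm_num) (by norm_num) hE (od_le_one j)
  norm_num at this ⊢
  linarith

theorem Ser3_b7 (hl : lam < 4) (hj : 7 ≤ j) : j * bet lam j ≤ 5 := by
  have hj' : (7 : ℝ) ≤ j := by exact_mod_cast hj
  have hm : 6.7 ≤ mm lam j := Ser3_mm hl (by omega) (by nlinarith)
  have hE : ee lam j 1.035 ≤ 0.002 :=
    Ser3_exp (x0 := 6.9) 10 (by norm_num) (by linarith) (by norm_num)
      (by simp only [Finset.sum_range_succ, Finset.sum_range_zero, Nat.factorial]; norm_num)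
  have := Ser3_gen hl (by omega : 3 ≤ j) (R := 1.089) (s := 1.4454) (by norm_num)
    (by nlinarith) (by norm_num) (by norm_num) hE (od_le_one j)
  norm_num at this ⊢
  linarith

theorem Ser3_six (h2 : 2 ≤ lam) (hl : lam < 4) (hj : 3 ≤ j) : bet lam j ≤ 6 / j := by
  have j0 : (0 : ℝ) < j := by exact_mod_cast (by omega : 0 < j)
  rw [le_div_iff₀' j0]
  rcases (by omega : j = 3 ∨ j = 4 ∨ j = 5 ∨ 6 ≤ j) with rfl | rfl | rfl | h
  · have := Ser3_b3 h2 hl
    push_cast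
    linarith
  · have := Ser3_b4 h2 hl
    push_cast
    linarith
  · have := Ser3_b5 h2 hl
    push_cast
    linarith
  · have := Ser3_b6 hl h
    linarith

theorem Ser3_summ (C : ℝ) : Summable fun k : ℕ => C * (1 / ((k + 3 : ℕ) : ℝ) ^ 2) :=
  ((summable_nat_add_iff 3).2 (Real.summable_one_div_nat_pow.2 one_lt_two)).mul_left C

theorem Ser3_tel (n : ℕ) :
    ∑ k ∈ Finset.range n, 25 / ((k : ℝ) + 7) ^ 2 ≤ 25 / 6.5 - 25 / ((n : ℝ) + 6.5) := by
  induction n with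
  | zero => simp
  | succ n ih =>
    rw [Finset.sum_range_succ]
    have h0 : (0 : ℝ) ≤ n := Nat.cast_nonneg n
    have : 25 / ((n : ℝ) + 7) ^ 2 ≤ 25 / ((n : ℝ) + 6.5) - 25 / ((n : ℝ) + 1 + 6.5) := by
      rw [div_sub_div _ _ (by positivity) (by positivity), div_le_div_iff₀ (by positivity)
        (by positivity)]
      nlinarith
    push_cast
    linarith

theorem ser_bet (h2 : 2 ≤ lam) (hl : lam < 4) :
    (Summable fun k : ℕ => bet lam (k + 3) ^ 2) ∧ ∑' k : ℕ, bet lam (k + 3) ^ 2 ≤ 1.14 * π ^ 2 := by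
  have hs : Summable fun k : ℕ => bet lam (k + 3) ^ 2 := by
    refine Summable.of_nonneg_of_le (fun k => sq_nonneg _) (fun k => ?_) (Ser3_summ 36)
    have h1 := Ser3_six h2 hl (by omega : 3 ≤ k + 3)
    have h3 := bet_pos hl (by omega : 2 ≤ k + 3)
    calc bet lam (k + 3) ^ 2 ≤ (6 / ((k + 3 : ℕ) : ℝ)) ^ 2 := pow_le_pow_left₀ h3.le h1 2
      _ = 36 * (1 / ((k + 3 : ℕ) : ℝ) ^ 2) := by rw [div_pow]; ring
  refine ⟨hs, ?_⟩
  rw [← hs.sum_add_tsum_nat_add 4]
  have ht : ∑' k : ℕ, bet lam (k + 4 + 3) ^ 2 ≤ 25 / 6.5 := by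
    refine Real.tsum_le_of_sum_range_le (fun k => sq_nonneg _) fun n => ?_
    have h0 : (0 : ℝ) ≤ n := Nat.cast_nonneg n
    have h1 : (0 : ℝ) ≤ 25 / ((n : ℝ) + 6.5) := by positivity
    refine le_trans (Finset.sum_le_sum fun k _ => ?_) ((Ser3_tel n).trans (by linarith))
    have k0 : (0 : ℝ) ≤ k := Nat.cast_nonneg k
    have h3 := Ser3_b7 hl (by omega : 7 ≤ k + 4 + 3)
    have h4 := bet_pos hl (by omega : 2 ≤ k + 4 + 3)
    have e : ((k + 4 + 3 : ℕ) : ℝ) = k + 7 := by push_cast; ring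
    rw [e] at h3
    rw [le_div_iff₀ (by positivity)]
    have h5 : 0 ≤ ((k : ℝ) + 7) * bet lam (k + 4 + 3) := by positivity
    nlinarith
  have b3 := Ser3_b3 h2 hl
  have b4 := Ser3_b4 h2 hl
  have b5 := Ser3_b5 h2 hl
  have b6 := Ser3_b6 hl (le_refl 6)
  have p3 := bet_pos hl (by norm_num : 2 ≤ 3)
  have p4 := bet_pos hl (by norm_num : 2 ≤ 4)
  have p5 := bet_pos hl (by norm_num : 2 ≤ 5)
  have p6 := bet_pos hl (by norm_num : 2 ≤ 6)
  have b6' : bet lam 6 ≤ 0.84 := by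
    push_cast at b6
    linarith
  have s3 := pow_le_pow_left₀ p3.le b3 2
  have s4 := pow_le_pow_left₀ p4.le b4 2
  have s5 := pow_le_pow_left₀ p5.le b5 2
  have s6 := pow_le_pow_left₀ p6.le b6' 2
  have hπ := pow_le_pow_left₀ (by norm_num) Real.pi_gt_d4.le 2
  simp only [Finset.sum_range_succ, Finset.sum_range_zero]
  norm_num at s3 s4 s5 s6 hπ ht ⊢
  linarith

theorem summable_bet (h2 : 2 ≤ lam) (hl : lam < 4) :
    Summable fun k : ℕ => bet lam (k + 3) / mm lam (k + 3) := by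
  refine Summable.of_nonneg_of_le
    (fun k => (div_pos (bet_pos hl (by omega)) (mm_pos hl (by omega))).le) (fun k => ?_)
    (Ser3_summ 12)
  have h1 := Ser3_six h2 hl (by omega : 3 ≤ k + 3)
  have hj : (3 : ℝ) ≤ ((k + 3 : ℕ) : ℝ) := by exact_mod_cast (by omega : 3 ≤ k + 3)
  have h3 : ((k + 3 : ℕ) : ℝ) / 2 ≤ mm lam (k + 3) := Ser3_mm hl (by omega) (by nlinarith)
  calc bet lam (k + 3) / mm lam (k + 3) ≤ (6 / ((k + 3 : ℕ) : ℝ)) / (((k + 3 : ℕ) : ℝ) / 2) :=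
        div_le_div₀ (by positivity) h1 (by positivity) h3
    _ = 12 * (1 / ((k + 3 : ℕ) : ℝ) ^ 2) := by field_simp; norm_num

theorem Ser3_geo (h2 : 2 ≤ lam) (hl : lam < 4) (ha : 0.785 ≤ a) (hj : 2 ≤ j) (k : ℕ) :
    ee lam (2 * k + j) a ≤ ee lam j a * 0.22 ^ k := by
  have h1 := mm_add (by linarith) hl hj (2 * k)
  have h3 : exp (-(2 * a)) ≤ 0.22 :=
    Ser3_exp (x0 := 1.57) 6 (by norm_num) (by linarith) (by norm_num)
      (by simp only [Finset.sum_range_succ, Finset.sum_range_zero, Nat.factorial]; norm_num)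
  have h4 : ee lam (2 * k + j) a ≤ ee lam j a * exp (-(2 * a)) ^ k := by
    unfold ee
    rw [← exp_nat_mul, ← exp_add]
    refine exp_le_exp.2 ?_
    push_cast at h1
    nlinarith
  exact h4.trans (mul_le_mul_of_nonneg_left (pow_le_pow_left₀ (exp_pos _).le h3 k)
    (ee_pos _ _ _).le)

theorem Ser3_coef (hl : lam < 4) (hj : 2 ≤ j) {B M C : ℝ} (hB : j * bet lam j ≤ B)
    (hM0 : 0 < M) (hM : M ≤ mm lam j) (hC0 : 0 ≤ C) (hC : B ≤ C * (3.1415 * M)) :
    j * (bet lam j / (π * mm lam j)) ≤ C := by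
  have h1 := mm_pos hl hj
  have h3 := Real.pi_gt_d4
  rw [← mul_div_assoc, div_le_iff₀ (by positivity)]
  have : 3.1415 * M ≤ π * mm lam j := mul_le_mul h3.le hM hM0.le (by positivity)
  exact hB.trans (hC.trans (mul_le_mul_of_nonneg_left this hC0))

theorem Ser3_tail (h2 : 2 ≤ lam) (hl : lam < 4) (ha : 0.785 ≤ a) :
    (Summable fun k : ℕ => ((2 * k + 4 : ℕ) : ℝ) *
      (bet lam (2 * k + 4) / (π * mm lam (2 * k + 4))) * ee lam (2 * k + 4) a) ∧
    ∑' k : ℕ, ((2 * k + 4 : ℕ) : ℝ) *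
      (bet lam (2 * k + 4) / (π * mm lam (2 * k + 4))) * ee lam (2 * k + 4) a ≤
        0.4816 * ee lam 4 a + 0.3654 * ee lam 6 a := by
  set T : ℕ → ℝ := fun k => ((2 * k + 4 : ℕ) : ℝ) *
    (bet lam (2 * k + 4) / (π * mm lam (2 * k + 4))) * ee lam (2 * k + 4) a with hT
  have pos : ∀ k, 0 ≤ T k := fun k => by
    have h1 := bet_pos hl (by omega : 2 ≤ 2 * k + 4)
    have h3 := mm_pos hl (by omega : 2 ≤ 2 * k + 4)
    have h4 := ee_pos lam (2 * k + 4) a
    simp only [hT]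
    positivity
  have t0 : T 0 ≤ 0.4816 * ee lam 4 a := by
    have b4 := Ser3_b4 h2 hl
    have := Ser3_coef hl (by norm_num : 2 ≤ 4) (B := 5.24) (M := 3.464) (C := 0.4816)
      (by push_cast; linarith) (by norm_num) (mm4_mem h2 hl).1 (by norm_num) (by norm_num)
    exact mul_le_mul_of_nonneg_right this (ee_pos _ _ _).le
  have t1 : ∀ k, T (k + 1) ≤ 0.285 * ee lam 6 a * 0.22 ^ k := fun k => by
    have h1 := Ser3_coef hl (by omega : 2 ≤ 2 * (k + 1) + 4) (B := 5.04) (M := 5.656) (C := 0.285)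
      (Ser3_b6 hl (by omega)) (by norm_num) (Ser3_mm6 hl (by omega)) (by norm_num) (by norm_num)
    have h3 := Ser3_geo h2 hl ha (by norm_num : 2 ≤ 6) k
    rw [show 2 * k + 6 = 2 * (k + 1) + 4 by ring] at h3
    rw [mul_assoc]
    exact mul_le_mul h1 h3 (ee_pos _ _ _).le (by norm_num)
  have hg : HasSum (fun k : ℕ => 0.285 * ee lam 6 a * (0.22 : ℝ) ^ k)
      (0.285 * ee lam 6 a * (1 - 0.22)⁻¹) :=
    (hasSum_geometric_of_lt_one (by norm_num) (by norm_num)).mul_left _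
  have s1 : Summable fun k => T (k + 1) :=
    Summable.of_nonneg_of_le (fun k => pos _) t1 hg.summable
  have hs : Summable T := (summable_nat_add_iff 1).1 s1
  refine ⟨hs, ?_⟩
  rw [hs.tsum_eq_zero_add]
  have h5 := s1.tsum_le_tsum t1 hg.summable
  rw [hg.tsum_eq] at h5
  have h6 := ee_pos lam 6 a
  have h7 : 0.285 * ee lam 6 a * (1 - 0.22)⁻¹ ≤ 0.3654 * ee lam 6 a := by
    norm_num
    linarith
  linarith

theorem ser_tail (h2 : 2 ≤ lam) (hl : lam < 4) (ha : 0.785 ≤ a) :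
    (Summable fun k : ℕ => ((2 * k + 4 : ℕ) : ℝ) *
      (bet lam (2 * k + 4) / (π * mm lam (2 * k + 4))) * ee lam (2 * k + 4) a) ∧
    2 * ∑' k : ℕ, ((2 * k + 4 : ℕ) : ℝ) *
      (bet lam (2 * k + 4) / (π * mm lam (2 * k + 4))) * ee lam (2 * k + 4) a ≤
        if 1.035 ≤ a then 0.031 else 0.074 := by
  obtain ⟨hs, h⟩ := Ser3_tail h2 hl ha
  refine ⟨hs, ?_⟩
  have m4 := (mm4_mem h2 hl).1
  have m6 := Ser3_mm6 hl (le_refl 6)
  split_ifs with h1
  · have e4 : ee lam 4 a ≤ 0.0285 :=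
      Ser3_exp (x0 := 3.585) 10 (by norm_num) (by nlinarith) (by norm_num)
        (by simp only [Finset.sum_range_succ, Finset.sum_range_zero, Nat.factorial]; norm_num)
    have e6 : ee lam 6 a ≤ 0.004 :=
      Ser3_exp (x0 := 5.85) 10 (by norm_num) (by nlinarith) (by norm_num)
        (by simp only [Finset.sum_range_succ, Finset.sum_range_zero, Nat.factorial]; norm_num)
    linarith
  · have e4 : ee lam 4 a ≤ 0.067 :=
      Ser3_exp (x0 := 2.719) 9 (by norm_num) (by nlinarith) (by norm_num)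
        (by simp only [Finset.sum_range_succ, Finset.sum_range_zero, Nat.factorial]; norm_num)
    have e6 : ee lam 6 a ≤ 0.0125 :=
      Ser3_exp (x0 := 4.439) 10 (by norm_num) (by nlinarith) (by norm_num)
        (by simp only [Finset.sum_range_succ, Finset.sum_range_zero, Nat.factorial]; norm_num)
    linarith

theorem ser_kink (h2 : 2 ≤ lam) (hl : lam < 4) (ha : 1.035 ≤ a) :
    ∑' k : ℕ, ((2 * k + 4 : ℕ) : ℝ) * (bet lam (2 * k + 4) / (π * mm lam (2 * k + 4))) *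
      ee lam (2 * k + 4) a ≤ 0.2 * ee lam 2 a := by
  have ha' : 0.785 ≤ a := by linarith
  obtain ⟨-, h⟩ := Ser3_tail h2 hl ha'
  have h1 := Ser3_geo h2 hl ha' (le_refl 2) 1
  have h3 := Ser3_geo h2 hl ha' (le_refl 2) 2
  have h4 := ee_pos lam 2 a
  norm_num at h1 h3
  linarith

end Pool.Agent.L2Q
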