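import Pool.Agent.P.MP_2f6447_an.Q.Bas
import Pool.Agent.P.MP_2f6447_an.Q.Ser3

/-! The comparison function. m = mm lam 2, W x = cosh(m(x - (x₁+x₂)/2))/cosh(m(x₂-x₁)/2), j = 2k+4, w1 k x = sinh(m_j(x₂-x))/sinh(m_j(x₂-x₁)) ∈ [0, ee j (x-x₁)], w2 k x = sinh(m_j(x-x₁))/sinh(m_j(x₂-x₁)) ∈ [0, ee j (x₂-x)].
F z = 2ψ W(re) sin(2 im) + ∑ k<N (A k w1 + B k w2) sin(j im). Helm: a(re) sin(j im) with a'' = (j²-lam) a (K.Basic `Helm.add`, `Helm.const_mul`; compute D 1, D I by `hasDerivAt_re`-type lemmas or fderiv).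
Sign: |sin jη| ≤ (j/2) sin 2η (abs_sin_even_le), W x ≥ ee 2 (x-x₁), W x ≥ ee 2 (x₂-x), ser_kink gives each sum ≤ 0.2 W sin 2η, 2ψ ≥ 0.4.
Upper bound: sin 2η ≤ 2η, |sin jη| ≤ jη, ser_tail; cosh(s-t)/cosh(s+t) = (1 - tanh s tanh t)/(1 + tanh s tanh t) decreases in s, t ≥ 0. -/

open Set MeasureTheory Filter Topology Real
open scoped ComplexConjugate

namespace Pool.Agent.L2Q

open Pool.Agent.L2K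

variable {Ω : Set ℂ} {lam nT nB m a b x y : ℝ} {u : ℂ → ℝ} {G : ℂ → ℂ} {l r : ℝ → ℝ} {j : ℕ}

theorem exists_cmp (h2 : 2 ≤ lam) (hl : lam < 4) {x₁ x₂ ψ : ℝ} (h12 : x₁ < x₂) (hψ : 0.2 ≤ ψ)
    {A B : ℕ → ℝ}
    (hA : ∀ k, |A k| ≤ 2 * (bet lam (2 * k + 4) / (π * mm lam (2 * k + 4))))
    (hB : ∀ k, |B k| ≤ 2 * (bet lam (2 * k + 4) / (π * mm lam (2 * k + 4)))) (N : ℕ) :
    ∃ F : ℂ → ℝ, Helm lam univ F ∧ (∀ x : ℝ, F ⟨x, 0⟩ = 0 ∧ F ⟨x, π / 2⟩ = 0) ∧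
      (∀ η : ℝ, F ⟨x₁, η⟩ = 2 * ψ * sin (2 * η) +
        ∑ k ∈ Finset.range N, A k * sin ((2 * k + 4 : ℕ) * η)) ∧
      (∀ η : ℝ, F ⟨x₂, η⟩ = 2 * ψ * sin (2 * η) +
        ∑ k ∈ Finset.range N, B k * sin ((2 * k + 4 : ℕ) * η)) ∧
      (∀ x ∈ Icc x₁ x₂, ∀ η ∈ Icc 0 (π / 2), ((∀ k, A k = 0) ∨ 1.035 ≤ x - x₁) →
        ((∀ k, B k = 0) ∨ 1.035 ≤ x₂ - x) → 0 ≤ F ⟨x, η⟩) ∧
      ∀ x α β : ℝ, 0.785 ≤ α → 0.785 ≤ β → α ≤ x - x₁ → β ≤ x₂ - x → ∀ η, 0 ≤ η → η ≤ π / 2 →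
        F ⟨x, η⟩ ≤ η * (4 * ψ * (cosh (mm lam 2 * (α - β) / 2) / cosh (mm lam 2 * (α + β) / 2)) +
          (if 1.035 ≤ α then 0.031 else 0.074) + if 1.035 ≤ β then 0.031 else 0.074) := by sorry

end Pool.Agent.L2Q
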