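import Pool.Agent.P.MP_2f6447_an.K.Defs

/-! Definitions for the quantitative part (localisation of the nodal line in the strip). -/

open Set MeasureTheory Filter Topology Real

namespace Pool.Agent.L2Q

open Pool.Agent.L2K

/-- a concave arc `x = ξ y` over `[0, π]` with slope `p` and tip `t` -/
structure Arc (ξ p : ℝ → ℝ) (t : ℝ) : Prop where
  cont : ContinuousOn ξ (Icc 0 π)
  der : ∀ y ∈ Ioo 0 π, HasDerivAt ξ (p y) y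
  contp : ContinuousOn p (Ioo 0 π)
  anti : AntitoneOn p (Ioo 0 π)
  tmem : t ∈ Ioo 0 π
  pt : p t = 0

/-- arclength factor -/
noncomputable def sq1 (p : ℝ → ℝ) (y : ℝ) : ℝ := √(1 + p y ^ 2)

/-- decay rate of mode `j` -/
noncomputable def mm (lam : ℝ) (j : ℕ) : ℝ := √((j : ℝ) ^ 2 - lam)

/-- frequency of the first mode -/
noncomputable def mu (lam : ℝ) : ℝ := √(lam - 1)

noncomputable def S1 (lam t : ℝ) : ℝ := sin (mu lam * t) / mu lam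

noncomputable def S2 (lam t : ℝ) : ℝ := sinh (mm lam 2 * t) / mm lam 2

/-- bound for one monotone branch -/
noncomputable def hh (lam : ℝ) (j : ℕ) : ℝ := 2 / j + 0.0882 * j / ((j : ℝ) ^ 2 - lam)

/-- calibration constant -/
noncomputable def rr (lam : ℝ) (j : ℕ) : ℝ := √(1 / (j : ℝ) ^ 2 + 1 / ((j : ℝ) ^ 2 - lam))

/-- indicator of odd numbers -/
def od (j : ℕ) : ℝ := if Odd j then 1 else 0

/-- `exp (-m_j a)` -/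
noncomputable def ee (lam : ℝ) (j : ℕ) (a : ℝ) : ℝ := exp (-(mm lam j * a))

/-- source of mode `j` on the part `a < y < b` of an arc -/
noncomputable def EI (lam : ℝ) (j : ℕ) (ξ p : ℝ → ℝ) (a b : ℝ) : ℝ :=
  ∫ y in a..b, ee lam j |ξ y| * sin (j * y) * sq1 p y

/-- Abel sum of the wall slope made by the modes `j ≥ 3` of an arc -/
noncomputable def KI (lam : ℝ) (ξ p : ℝ → ℝ) (q : ℝ) : ℝ :=
  1 / π * ∑' k : ℕ, q ^ (k + 3) * (((k + 3 : ℕ) : ℝ) / mm lam (k + 3)) * EI lam (k + 3) ξ p 0 π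

/-- retarded terms of the modes `1, 2` -/
noncomputable def Ret (lam : ℝ) (ξ p : ℝ → ℝ) : ℝ :=
  2 / π * ∫ y in (0 : ℝ)..π,
    (S1 lam (max (-ξ y) 0) * sin y + 2 * (S2 lam (max (-ξ y) 0) * sin (2 * y))) * sq1 p y

noncomputable def Fc (q y : ℝ) : ℝ :=
  ∑' k : ℕ, q ^ (k + 3) * (cos ((k + 3 : ℕ) * y) - (-1) ^ (k + 3))

noncomputable def Gc (q y : ℝ) : ℝ := ∑' k : ℕ, q ^ (k + 3) * sin ((k + 3 : ℕ) * y)

/-- closed form of `Fc / q ^ 3`, `c = cos y` -/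
noncomputable def Fr (q c : ℝ) : ℝ :=
  (1 + c) * ((1 - 2 * c) ^ 2 - (1 - (1 - 2 * c) - (1 - 2 * c) ^ 2) * q + (2 - 2 * c) * q ^ 2) /
    ((1 - 2 * q * c + q ^ 2) * (1 + q))

/-- closed form of `Gc / q ^ 3`, `c = cos y`, `s = sin y` -/
noncomputable def Gr' (q c s : ℝ) : ℝ := s * (4 * c ^ 2 - 1 - 2 * q * c) / (1 - 2 * q * c + q ^ 2)

noncomputable def Fh (lam q ρ y : ℝ) : ℝ :=
  ∑' k : ℕ, q ^ (k + 3) * ee lam (k + 3) ρ * (cos ((k + 3 : ℕ) * y) - (-1) ^ (k + 3))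

noncomputable def Gh (lam q ρ y : ℝ) : ℝ :=
  ∑' k : ℕ, q ^ (k + 3) * ee lam (k + 3) ρ *
    (((k + 3 : ℕ) : ℝ) / mm lam (k + 3) * sin ((k + 3 : ℕ) * y))

noncomputable def Ph (lam q ρ y : ℝ) : ℝ :=
  ∑' k : ℕ, q ^ (k + 3) * ee lam (k + 3) ρ *
    ((cos ((k + 3 : ℕ) * y) - (-1) ^ (k + 3)) / mm lam (k + 3))

noncomputable def P0 (lam q ρ y : ℝ) : ℝ :=
  ∑' k : ℕ, q ^ (k + 3) * ee lam (k + 3) ρ * ((1 - cos ((k + 3 : ℕ) * y)) / mm lam (k + 3))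

/-- bounded sequences on `j ≥ 2` with nonnegative power series on `(0, 1)` -/
def PosS (b : ℕ → ℝ) : Prop :=
  b 0 = 0 ∧ b 1 = 0 ∧ (∃ C, ∀ j, |b j| ≤ C) ∧ ∀ q ∈ Ioo (0 : ℝ) 1, 0 ≤ ∑' j, b j * q ^ j

noncomputable def nu3 (lam : ℝ) : ℝ := 3 / mm lam 3 - 1

noncomputable def D1 (lam ρ : ℝ) : ℝ :=
  (0.47 + nu3 lam) * ee lam 3 ρ + ee lam 4 ρ + 0.55 * ee lam 10 ρ

noncomputable def D2 (lam ρ : ℝ) : ℝ :=
  (0.45 + nu3 lam) * ee lam 3 ρ + 1.3 * ee lam 4 ρ - 0.65 * ee lam 5 ρ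

noncomputable def DA (lam ρ : ℝ) : ℝ := 2 * ee lam 3 ρ - ee lam 4 ρ

noncomputable def DB (lam ρ : ℝ) : ℝ := (2.44 + nu3 lam) * ee lam 3 ρ - 0.91 * ee lam 4 ρ

noncomputable def c03 (m : ℝ) : ℝ := 3 / m * (2 / 3 + 0.2646 / m ^ 2)

noncomputable def fE (x : ℝ) : ℝ := 0.612 * x + 0.372 * x ^ 3 / (1 - x ^ 2)

noncomputable def fO (x : ℝ) : ℝ := 0.46 * x ^ 2 + 0.313 * x ^ 4 / (1 - x ^ 2)

noncomputable def bf (m a : ℝ) : ℝ :=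
  exp (-(m * a)) * (c03 m + fE (exp (-a)) + fO (exp (-a))) / π

noncomputable def bg (m a : ℝ) : ℝ := exp (-(m * a)) * (c03 m + fO (exp (-a))) / π

noncomputable def bR (m a : ℝ) : ℝ := bf m a + bg m a

noncomputable def f1 (m x : ℝ) : ℝ :=
  2 * (2 + 0.7938 / m ^ 2) + 2.118 * (x + 2 * x ^ 2) / (1 - x ^ 2)

noncomputable def bR1 (m a : ℝ) : ℝ := exp (-(m * a)) * f1 m (exp (-a)) / π

noncomputable def f2 (m x : ℝ) : ℝ :=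
  16 / m * (2 / 3 + 0.2646 / m ^ 2) + 3.06 * x + 1.48 * x ^ 2 * (5 / (1 - x) + x / (1 - x) ^ 2)

noncomputable def bR2 (m a : ℝ) : ℝ := exp (-(m * a)) * f2 m (exp (-a)) / π

noncomputable def gE (x : ℝ) : ℝ := 0.281 * x + 0.125 * x ^ 3 / (1 - x ^ 2)

noncomputable def epsE (m a : ℝ) : ℝ := 4 / π ^ 2 * (exp (-(m * a)) * gE (exp (-a)))

noncomputable def gO (x : ℝ) : ℝ := 2.08 + (0.281 * x + 0.712 * x ^ 2) / (1 - x ^ 2)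

noncomputable def epsO (m a : ℝ) : ℝ := 4 / π ^ 2 * (exp (-(m * a)) * gO (exp (-a)))

/-- bound for `π m_j |a_j|` at a junction whose arc crosses the vertical -/
noncomputable def bet (lam : ℝ) (j : ℕ) : ℝ :=
  hh lam j + 2 * rr lam j + (1 + od j) * hh lam j * ee lam j 1.035

/-- threshold for the second mode at the outer junctions -/
noncomputable def psi (lam : ℝ) : ℝ :=
  0.232 * (1 + 2 * ((4 - lam) / lam) + 0.35 * ((4 - lam) / lam) ^ 2)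

/-- sine coefficient -/
noncomputable def sc (f : ℝ → ℝ) (j : ℕ) : ℝ := 2 / π * ∫ y in (0 : ℝ)..π, f y * sin (j * y)

/-- cosine coefficient -/
noncomputable def cc (f : ℝ → ℝ) (j : ℕ) : ℝ := 2 / π * ∫ y in (0 : ℝ)..π, f y * cos (j * y)

/-- mode `j` of `u` on the vertical through `x` -/
noncomputable def am (u : ℂ → ℝ) (j : ℕ) (x : ℝ) : ℝ := sc (fun y => u ⟨x, y⟩) j

/-- canonical first mode made by the arc `r` -/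
noncomputable def UU (lam : ℝ) (r : ℝ → ℝ) (x : ℝ) : ℝ :=
  2 / π * ∫ y in (0 : ℝ)..π, S1 lam (r y - x) * sin y * sq1 (deriv r) y

/-- canonical second mode made by the arc `r` -/
noncomputable def VV (lam : ℝ) (r : ℝ → ℝ) (x : ℝ) : ℝ :=
  2 / π * ∫ y in (0 : ℝ)..π, S2 lam (r y - x) * sin (2 * y) * sq1 (deriv r) y

noncomputable def gt (G : ℂ → ℂ) (x : ℝ) : ℝ := -(G ⟨x, π⟩).im

def gb (G : ℂ → ℂ) (x : ℝ) : ℝ := (G ⟨x, 0⟩).im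

/-- what is known about the slope `g` on a segment `[a, b]` with zero `n` -/
structure Wall (g : ℝ → ℝ) (a b n : ℝ) : Prop where
  cont : ContinuousOn g (Icc a b)
  diff : ∀ x ∈ Ioo a b, DifferentiableAt ℝ g x
  mem : n ∈ Ioo a b
  zero : g n = 0
  left : g a = -1
  right : g b = 1
  mom0 : ∫ x in a..b, (g x ^ 2 - 1) = 0
  mom1 : ∫ x in a..b, (g x ^ 2 - 1) * x = 0
  W : ∀ c, 0 ≤ ∫ x in a..b, (g x ^ 2 - 1) * max (x - c) 0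
  pat : ∃ s t, a ≤ s ∧ s ≤ n ∧ n ≤ t ∧ t ≤ b ∧ AntitoneOn g (Icc a s) ∧ MonotoneOn g (Icc s t) ∧
    AntitoneOn g (Icc t b)

/-- all the data that the quantitative part uses -/
structure QD (Ω : Set ℂ) (lam : ℝ) (u : ℂ → ℝ) (G : ℂ → ℂ) (l r : ℝ → ℝ) (nT nB : ℝ) : Prop
    extends Geo Ω l r where
  lam2 : 2 ≤ lam
  lam4 : lam < 4
  lip : Lip0 Ω u
  helm : Helm lam Ω u
  contG : ContinuousOn G (closure Ω)
  eqG : ∀ z ∈ Ω, G z = grad u z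
  arcr : ∃ t, Arc r (deriv r) t
  arcl : ∃ t, Arc (fun y => -l y) (fun y => -deriv l y) t
  Gr : ∀ y ∈ Ioo 0 π, G ⟨r y, y⟩ = ⟨-1 / sq1 (deriv r) y, deriv r y / sq1 (deriv r) y⟩
  Gl : ∀ y ∈ Ioo 0 π, G ⟨l y, y⟩ = ⟨-1 / sq1 (deriv l) y, deriv l y / sq1 (deriv l) y⟩
  reT : ∀ x ∈ Icc (l π) (r π), (G ⟨x, π⟩).re = 0
  reB : ∀ x ∈ Icc (l 0) (r 0), (G ⟨x, 0⟩).re = 0
  wT : Wall (gt G) (l π) (r π) nT
  wB : Wall (gb G) (l 0) (r 0) nB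
  linT : ∀ x ∈ Ioo (l π) (r π), ∀ ε > 0, ∀ᶠ z in 𝓝[Ω] (⟨x, π⟩ : ℂ),
    |(grad u z).re - deriv (gt G) x * (π - z.im)| ≤ ε * ‖z - ⟨x, π⟩‖
  linB : ∀ x ∈ Ioo (l 0) (r 0), ∀ ε > 0, ∀ᶠ z in 𝓝[Ω] (⟨x, 0⟩ : ℂ),
    |(grad u z).re - deriv (gb G) x * z.im| ≤ ε * ‖z - ⟨x, 0⟩‖
  area_le : lam * area Ω ≤ 38.34
  isox : ∫ z in Ω, (grad u z).re ^ 2 = area Ω / 2
  chord : ∀ x : ℝ, ∫ y in {y : ℝ | (⟨x, y⟩ : ℂ) ∈ Ω},
    ((grad u ⟨x, y⟩).re ^ 2 - (grad u ⟨x, y⟩).im ^ 2 + lam * u ⟨x, y⟩ ^ 2 - 1) = 0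
  connP : IsPreconnected {z ∈ Ω | 0 < u z}
  connN : IsPreconnected {z ∈ Ω | u z < 0}
  nod : ∀ z ∈ Ω, u z = 0 → z ∈ closure {w ∈ Ω | 0 < u w} ∧ z ∈ closure {w ∈ Ω | u w < 0}

/-- reflection in the midline -/
noncomputable def fy (z : ℂ) : ℂ := ⟨z.re, π - z.im⟩

/-- reflection in the imaginary axis -/
def fx (z : ℂ) : ℂ := ⟨-z.re, z.im⟩

/-- left end of the common range -/
noncomputable def xL (l : ℝ → ℝ) : ℝ := max (l 0) (l π)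

/-- right end of the common range -/
noncomputable def xR (r : ℝ → ℝ) : ℝ := min (r 0) (r π)

/-- both segments have length `≥ a`, both diagonals `≥ b` -/
structure Sz (l r : ℝ → ℝ) (a b : ℝ) : Prop where
  bpos : 0 < b
  ba : b ≤ a
  top : a ≤ r π - l π
  bot : a ≤ r 0 - l 0
  d1 : b ≤ r π - l 0
  d2 : b ≤ r 0 - l π

/-- junction inequalities for the canonical modes -/
structure JE (U V l r : ℝ → ℝ) (e0 e : ℝ) : Prop where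
  R0 : 1 - e0 ≤ U (xR r) + 2 * |V (xR r)|
  L0 : 1 - e0 ≤ -U (xL l) + 2 * |V (xL l)|
  bR : -2 * V (r 0) ≤ max 0 (U (r 0) - 1 + e)
  tR : 2 * V (r π) ≤ max 0 (U (r π) - 1 + e)
  bL : 2 * V (l 0) ≤ max 0 (-U (l 0) - 1 + e)
  tL : -2 * V (l π) ≤ max 0 (-U (l π) - 1 + e)

/-- the first mode has amplitude `B` and an upward zero `xs` at distance `≥ d` from both arcs -/
structure St (lam : ℝ) (l r : ℝ → ℝ) (xs B d : ℝ) : Prop where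
  hU : ∀ x, UU lam r x = B * S1 lam (x - xs)
  Bpos : 0 < B
  lt1 : xL l < xs
  lt2 : xs < xR r
  d0 : 0 ≤ d
  dl : xL l ≤ xs - d
  dr : xs + d ≤ xR r

/-- numerical data of a range of `lam` -/
structure Rg (lam m a0 b0 mlo M2 mu1 u1 u2 : ℝ) : Prop where
  hm1 : 2.236 ≤ m
  hm2 : m ≤ mm lam 3
  ha0 : a0 ≤ 2.07 / √lam
  hb0 : b0 ≤ 0.5 / √lam
  hb0pos : 0 < b0
  hba : b0 ≤ a0
  hmlo0 : 0 ≤ mlo
  hmlo : mlo ≤ mm lam 2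
  hM2 : 4 - lam ≤ M2
  hM22 : M2 ≤ 2
  hmu1 : 1 ≤ mu1
  hmu1' : mu1 ^ 2 ≤ u1
  hu1 : u1 ≤ lam - 1
  hu2 : lam - 1 ≤ u2

/-- the localisation, for an abstract boundary gradient -/
structure LocQ (Ω : Set ℂ) (u : ℂ → ℝ) (G : ℂ → ℂ) (nT nB : ℝ) : Prop where
  win : ∃ ξ₀ ξ₁ : ℝ, 0 ≤ ξ₀ ∧ ξ₀ < ξ₁ ∧ ξ₀ < 3 / 2 ∧
    (∀ z ∈ Ω, u z = 0 → |z.re - (nT + nB) / 2| ≤ ξ₀) ∧
    ∀ z : ℂ, 0 < z.im → z.im < π → |z.re - (nT + nB) / 2| ≤ ξ₁ → z ∈ Ω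
  slope : ∀ z ∈ Ω, u z = 0 → grad u z ≠ 0 →
    |dot (z - mid nT nB) (grad u z)| < π / 2 * ‖grad u z‖
  disc : ∀ z : ℂ, 0 < z.im → z.im < π →
    ‖z - mid nT nB‖ ≤ ‖(⟨nT, π⟩ : ℂ) - mid nT nB‖ → z ∈ Ω
  dT : 0 < deriv (gt G) nT
  dB : 0 < deriv (gb G) nB

end Pool.Agent.L2Q
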