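import Pool.Agent.P.MP_2f6447_an.Q.Geo2

/-! Divergence theorem on the strip domain for C¹ fields defined near the closure.
Fubini (`integral_eq_im_re` in K.Basic, indicator of Ω): ∫_Ω F = ∫ y in 0..π, ∫ x in l y..r y, F ⟨x,y⟩ for F continuous on the closure. div_x: FTC on each horizontal chord.
div_y: H y = ∫ x in l y..r y, Q ⟨x,y⟩ is continuous on [0,π] with derivative ∫ D I Q + Q(r) r' - Q(l) l' on (0,π), integrable (Arc.ii_mul_p). To avoid the open set U replace Q by χ Q with a smooth cutoff χ = 1 near closure Ω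
supported in U (`exists_contDiff_tsupport_subset`-type lemmas, `exists_contMDiff_...`; closure Ω is compact); then (a,b,y) ↦ ∫ x in a..b, Q ⟨x,y⟩: split H(y') - H(y) into the parametric part (`hasDerivAt_integral_of_dominated_loc_of_deriv_le`, or K.Polar `Polar_param`) and the two end parts (continuity of Q). -/

open Set MeasureTheory Filter Topology Real
open scoped ComplexConjugate

namespace Pool.Agent.L2Q

open Pool.Agent.L2K

variable {Ω : Set ℂ} {lam nT nB m a b x y : ℝ} {u : ℂ → ℝ} {G : ℂ → ℂ} {l r : ℝ → ℝ} {j : ℕ}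

theorem QD.fubini (h : QD Ω lam u G l r nT nB) {F : ℂ → ℝ} (hF : ContinuousOn F (closure Ω)) :
    ∫ z in Ω, F z = ∫ y in (0 : ℝ)..π, ∫ x in l y..r y, F ⟨x, y⟩ := by sorry

theorem QD.div_x (h : QD Ω lam u G l r nT nB) {U : Set ℂ} (hU : IsOpen U) (hs : closure Ω ⊆ U) {P : ℂ → ℝ}
    (hP : ContDiffOn ℝ 1 P U) :
    ∫ z in Ω, D 1 P z = ∫ y in (0 : ℝ)..π, (P ⟨r y, y⟩ - P ⟨l y, y⟩) := by sorry

theorem QD.div_y (h : QD Ω lam u G l r nT nB) {U : Set ℂ} (hU : IsOpen U) (hs : closure Ω ⊆ U) {Q : ℂ → ℝ}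
    (hQ : ContDiffOn ℝ 1 Q U) :
    ∫ z in Ω, D Complex.I Q z = (∫ x in l π..r π, Q ⟨x, π⟩) - (∫ x in l 0..r 0, Q ⟨x, 0⟩) -
      ∫ y in (0 : ℝ)..π, (Q ⟨r y, y⟩ * deriv r y - Q ⟨l y, y⟩ * deriv l y) := by sorry

end Pool.Agent.L2Q
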