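import Pool.Agent.P.MP_2f6447_an.Q.Par

/-! One-dimensional consequences of `Wall`. F = g² - 1.
Wall.sign: from pat (g ≤ g a = -1 on [a,s], monotone through the zero n on [s,t], ≥ g b = 1 on [t,b]).
Wall.wlem: |g (xs ± ξ)| ≤ φ ξ: if g(xs+ξ) < 0 then either s ≤ xs, xs+ξ ≤ t and -g(xs+ξ) ≤ -g xs ≤ φ 0, or xs < s and -g xs ≥ 1 > φ 0, false; symmetric on the left. If b = xs+d use W (xs-d): 0 ≤ ∫ F (x-xs+d) over [xs-d,xs+d] ≤ ∫ (φ|ξ|²-1)(ξ+d) = 2d ∫ 0..d (φ²-1).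
If a = xs-d use W c - ∫ F (x-c) = ∫ F (c-x)₊ with c = xs+d (mom0, mom1).
Wall.reach: |g x| ≤ K|x-n| (mean value inequality and sign); α = n-a, β = b-n; W n gives K²β² ≥ 2, the mirrored form K²α² ≥ 2, mom0 gives K²(α³+β³) ≥ 3(α+β); with A = Kα, B = Kβ ≥ √2, A²-AB+B² ≥ 3, (A-√2)(B-√2) ≥ 0 one gets s² - 3√2 s + 3 ≥ 0 for s = A+B ≥ 2√2, so s ≥ 3.346. -/

open Set MeasureTheory Filter Topology Real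
open scoped ComplexConjugate

namespace Pool.Agent.L2Q

open Pool.Agent.L2K

variable {Ω : Set ℂ} {lam nT nB m a b x y : ℝ} {u : ℂ → ℝ} {G : ℂ → ℂ} {l r : ℝ → ℝ} {j : ℕ}

theorem Wall.neg {g : ℝ → ℝ} {n : ℝ} (w : Wall g a b n) :
    Wall (fun x => -g (-x)) (-b) (-a) (-n) := by sorry

theorem Wall.congr {g g' : ℝ → ℝ} {n : ℝ} (w : Wall g a b n) (e : g' = g) : Wall g' a b n := by sorry

theorem Wall.nonneg {g : ℝ → ℝ} {n : ℝ} (w : Wall g a b n) (hx : x ∈ Icc n b) : 0 ≤ g x := by sorry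

theorem Wall.nonpos {g : ℝ → ℝ} {n : ℝ} (w : Wall g a b n) (hx : x ∈ Icc a n) : g x ≤ 0 := by sorry

theorem Wall.wlem {g φ : ℝ → ℝ} {n xs d : ℝ} (w : Wall g a b n) (hd : 0 < d) (h1 : a ≤ xs - d)
    (h2 : xs + d ≤ b) (he : a = xs - d ∨ b = xs + d) (hc : ContinuousOn φ (Icc 0 d)) (h0 : φ 0 < 1)
    (hb : ∀ ξ ∈ Icc 0 d, g (xs + ξ) ≤ φ ξ ∧ -g (xs - ξ) ≤ φ ξ ∧ φ 0 ≤ φ ξ) :
    0 ≤ ∫ ξ in (0 : ℝ)..d, (φ ξ ^ 2 - 1) := by sorry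

theorem Wall.slope {g : ℝ → ℝ} {n K : ℝ} (w : Wall g a b n) (hK : ∀ x ∈ Ioo a b, deriv g x ≤ K)
    (hx : x ∈ Icc a b) : g x ≤ -1 + K * (x - a) := by sorry

theorem Wall.reach {g : ℝ → ℝ} {n K : ℝ} (w : Wall g a b n) (hK : ∀ x ∈ Ioo a b, deriv g x ≤ K) :
    3.346 ≤ K * (b - a) := by sorry

theorem cap_neg {φ : ℝ → ℝ} {c0 c1 c2 c3 c4 c5 c6 t1 D M d : ℝ} (hc : ContinuousOn φ (Icc 0 d))
    (hd : 0 < d) (hD : d ≤ D) (ht : 0 < t1) (h0 : ∀ t ∈ Icc 0 d, 0 ≤ φ t)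
    (h1 : ∀ t ∈ Icc 0 d, t ≤ t1 → φ t ≤ pp c0 c1 c2 c3 c4 c5 c6 t)
    (h2 : ∀ t ∈ Icc 0 d, t1 ≤ t → φ t ≤ M) (hQ : ∀ t ∈ Icc 0 t1, QQ c0 c1 c2 c3 c4 c5 c6 t < 0)
    (hM : t1 * QQ c0 c1 c2 c3 c4 c5 c6 t1 + (D - t1) * (M ^ 2 - 1) < 0) :
    ∫ ξ in (0 : ℝ)..d, (φ ξ ^ 2 - 1) < 0 := by sorry

end Pool.Agent.L2Q
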