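import Pool.Agent.P.MP_2f6447_an.Q.Arc
import Pool.Agent.P.MP_2f6447_an.Q.Wst

/-! Reflection in the imaginary axis together with u ↦ -u. fx z = -conj z = rf 0 1 z. grad (-u ∘ fx) z = conj (grad u (fx z)). deriv (fun y => -l y) = -deriv l (`deriv.neg`), sq1_neg, Wall.neg. Import K.HelmD, K.Basic. -/

open Set MeasureTheory Filter Topology Real
open scoped ComplexConjugate

namespace Pool.Agent.L2Q

open Pool.Agent.L2K

variable {Ω : Set ℂ} {lam nT nB m a b x y : ℝ} {u : ℂ → ℝ} {G : ℂ → ℂ} {l r : ℝ → ℝ} {j : ℕ}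

theorem gt_flipX (G : ℂ → ℂ) : gt (fun z => conj (G (fx z))) = fun x => -gt G (-x) := by sorry

theorem gb_flipX (G : ℂ → ℂ) : gb (fun z => conj (G (fx z))) = fun x => -gb G (-x) := by sorry

theorem QD.flipX (h : QD Ω lam u G l r nT nB) : QD (fx ⁻¹' Ω) lam (fun z => -u (fx z)) (fun z => conj (G (fx z)))
    (fun y => -r y) (fun y => -l y) (-nT) (-nB) := by sorry

theorem UU_neg (lam : ℝ) (l : ℝ → ℝ) (x : ℝ) : UU lam (fun y => -l y) x = -UU lam l (-x) := by sorry

theorem VV_neg (lam : ℝ) (l : ℝ → ℝ) (x : ℝ) : VV lam (fun y => -l y) x = -VV lam l (-x) := by sorry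

theorem am_flipX (u : ℂ → ℝ) (j : ℕ) (x : ℝ) : am (fun z => -u (fx z)) j x = -am u j (-x) := by sorry

theorem xL_neg (r : ℝ → ℝ) : xL (fun y => -r y) = -xR r := by sorry

theorem xR_neg (l : ℝ → ℝ) : xR (fun y => -l y) = -xL l := by sorry

theorem Sz.flipX (s : Sz l r a b) : Sz (fun y => -r y) (fun y => -l y) a b := by sorry

end Pool.Agent.L2Q
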