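import Pool.Agent.P.MP_2f6447_an.Q.Defs

/-! Sine and cosine series on `[0, π]`. -/

open Set MeasureTheory Filter Topology Real

namespace Pool.Agent.L2Q

open Pool.Agent.L2K

variable {lam q ρ y t a b c m : ℝ} {j : ℕ} {ξ p : ℝ → ℝ}

theorem Four_split {k K : ℝ → ℂ} {k' : ℝ → ℂ} (hk : IntervalIntegrable k volume 0 π)
    (hk' : IntervalIntegrable k' volume 0 π)
    (h1 : ∀ x ∈ Ioo 0 π, K x = k x) (h2 : ∀ x ∈ Ioo (-π) 0, K x = k' (-x)) :
    ∫ x in (-π)..π, K x = ∫ x in (0 : ℝ)..π, (k x + k' x) := by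
  have hp : (0 : ℝ) ≤ π := pi_pos.le
  have hn : -π ≤ (0 : ℝ) := by linarith
  have A : IntervalIntegrable K volume 0 π := by
    rw [intervalIntegrable_iff_integrableOn_Ioo_of_le hp] at hk ⊢
    exact hk.congr_fun (fun x hx => (h1 x hx).symm) measurableSet_Ioo
  have B0 : IntervalIntegrable (fun x => k' (-x)) volume (-π) 0 := by
    have := (IntervalIntegrable.iff_comp_neg (f := k') (a := 0) (b := π)).1 hk'
    simpa using this.symm
  have B : IntervalIntegrable K volume (-π) 0 := by
    rw [intervalIntegrable_iff_integrableOn_Ioo_of_le hn] at B0 ⊢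
    exact B0.congr_fun (fun x hx => (h2 x hx).symm) measurableSet_Ioo
  rw [← intervalIntegral.integral_add_adjacent_intervals B A, intervalIntegral.integral_add hk hk',
    intervalIntegral.integral_congr_Ioo_of_le hp h1,
    intervalIntegral.integral_congr_Ioo_of_le hn h2, intervalIntegral.integral_comp_neg]
  simp [add_comm]

theorem Four_fourier {T : ℝ} (hT : T = 2 * π) (n : ℤ) (x : ℝ) :
    fourier n (x : AddCircle T) = (cos (n * x) : ℝ) + (sin (n * x) : ℝ) * Complex.I := by
  rw [fourier_coe_apply, hT]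
  have hp : (π : ℂ) ≠ 0 := Complex.ofReal_ne_zero.2 pi_ne_zero
  have : 2 * (π : ℂ) * Complex.I * n * x / ((2 * π : ℝ) : ℂ) = ((n * x : ℝ) : ℂ) * Complex.I := by
    push_cast; field_simp
  rw [this, Complex.exp_mul_I]
  push_cast; rfl

theorem Four_coef {f F : ℝ → ℝ} {e β : ℝ} (hβ : β = π) (hab : -π < β)
    (hf : IntervalIntegrable f volume 0 π)
    (h1 : ∀ x ∈ Ioo 0 π, F x = f x) (h2 : ∀ x ∈ Ioo (-π) 0, F x = e * f (-x)) (n : ℤ) :
    fourierCoeffOn hab (fun x => (F x : ℂ)) n =
      ((1 + e) / (2 * π) * ∫ x in (0 : ℝ)..π, f x * cos (n * x) : ℝ) -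
        ((1 - e) / (2 * π) * ∫ x in (0 : ℝ)..π, f x * sin (n * x) : ℝ) * Complex.I := by
  subst hβ
  have hT : π - -π = 2 * π := by ring
  have hfc : IntervalIntegrable (fun x => (f x : ℂ)) volume 0 π := ⟨hf.1.ofReal, hf.2.ofReal⟩
  have hc : IntervalIntegrable (fun x => f x * cos (n * x)) volume 0 π :=
    hf.mul_continuousOn (by fun_prop)
  have hs : IntervalIntegrable (fun x => f x * sin (n * x)) volume 0 π :=
    hf.mul_continuousOn (by fun_prop)
  have hcc : IntervalIntegrable (fun x => ((f x * cos (n * x) : ℝ) : ℂ)) volume 0 π :=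
    ⟨hc.1.ofReal, hc.2.ofReal⟩
  have hsc : IntervalIntegrable (fun x => ((f x * sin (n * x) : ℝ) : ℂ)) volume 0 π :=
    ⟨hs.1.ofReal, hs.2.ofReal⟩
  rw [fourierCoeffOn_eq_integral]
  simp_rw [Four_fourier hT]
  rw [Four_split
    (k := fun x => ((f x * cos (n * x) : ℝ) : ℂ) - ((f x * sin (n * x) : ℝ) : ℂ) * Complex.I)
    (k' := fun x => (e : ℂ) * (((f x * cos (n * x) : ℝ) : ℂ) +
      ((f x * sin (n * x) : ℝ) : ℂ) * Complex.I))
    (hcc.sub (hsc.mul_const _)) ((hcc.add (hsc.mul_const _)).const_mul _)]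
  · rw [intervalIntegral.integral_add (hcc.sub (hsc.mul_const _))
      ((hcc.add (hsc.mul_const _)).const_mul _), intervalIntegral.integral_sub hcc (hsc.mul_const _),
      intervalIntegral.integral_const_mul, intervalIntegral.integral_add hcc (hsc.mul_const _),
      intervalIntegral.integral_mul_const, intervalIntegral.integral_ofReal,
      intervalIntegral.integral_ofReal, hT, Complex.real_smul]
    push_cast
    ring
  · intro x hx
    have e1 : ((-n : ℤ) : ℝ) * x = -(n * x) := by push_cast; ring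
    simp only [h1 x hx, e1, cos_neg, sin_neg, smul_eq_mul]
    push_cast
    ring
  · intro x hx
    have e1 : ((-n : ℤ) : ℝ) * x = n * -x := by push_cast; ring
    simp only [h2 x hx, e1, smul_eq_mul]
    push_cast
    ring

theorem Four_ext {f : ℝ → ℝ} (hf : MemLp f 2 (volume.restrict (Ioc 0 π))) {e : ℝ}
    (he : e ^ 2 = 1) :
    HasSum (fun n : ℤ => ((1 + e) / (2 * π) * ∫ x in (0 : ℝ)..π, f x * cos (n * x)) ^ 2 +
      ((1 - e) / (2 * π) * ∫ x in (0 : ℝ)..π, f x * sin (n * x)) ^ 2)
      (1 / π * ∫ y in (0 : ℝ)..π, f y ^ 2) := by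
  have hp : (0 : ℝ) < π := pi_pos
  have hab : -π < π := by linarith
  set g : ℝ → ℝ := (Ioc 0 π).indicator f with hg
  have hgL : MemLp g 2 volume := (memLp_indicator_iff_restrict measurableSet_Ioc).2 hf
  have hgN : MemLp (fun x => g (-x)) 2 volume :=
    hgL.comp_measurePreserving (Measure.measurePreserving_neg volume)
  set F : ℝ → ℝ := fun x => g x + e * g (-x) with hF
  have hFL : MemLp F 2 volume := hgL.add (hgN.const_mul e)
  have hFC : MemLp (fun x => (F x : ℂ)) 2 (volume.restrict (Ioc (-π) π)) :=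
    (hFL.restrict _).ofReal
  have h1 : ∀ x ∈ Ioo 0 π, F x = f x := by
    intro x hx
    have a1 : x ∈ Ioc 0 π := Ioo_subset_Ioc_self hx
    have a2 : -x ∉ Ioc 0 π := fun h => by linarith [h.1, hx.1]
    simp only [hF, hg, indicator_of_mem a1, indicator_of_notMem a2, mul_zero, add_zero]
  have h2 : ∀ x ∈ Ioo (-π) 0, F x = e * f (-x) := by
    intro x hx
    have a1 : -x ∈ Ioc 0 π := ⟨by linarith [hx.2], by linarith [hx.1]⟩
    have a2 : x ∉ Ioc 0 π := fun h => by linarith [h.1, hx.2]
    simp only [hF, hg, indicator_of_mem a1, indicator_of_notMem a2, zero_add]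
  have hfi : IntervalIntegrable f volume 0 π := by
    rw [intervalIntegrable_iff_integrableOn_Ioc_of_le hp.le]
    exact hf.integrable one_le_two
  have hf2 : IntervalIntegrable (fun x => f x ^ 2) volume 0 π := by
    rw [intervalIntegrable_iff_integrableOn_Ioc_of_le hp.le]
    exact hf.integrable_sq
  have hf2c : IntervalIntegrable (fun x => ((f x ^ 2 : ℝ) : ℂ)) volume 0 π :=
    ⟨hf2.1.ofReal, hf2.2.ofReal⟩
  have H := hasSum_sq_fourierCoeffOn hab hFC
  have hI : ∫ x in (-π)..π, ‖(F x : ℂ)‖ ^ 2 = 2 * ∫ y in (0 : ℝ)..π, f y ^ 2 := by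
    apply Complex.ofReal_injective
    rw [← intervalIntegral.integral_ofReal, Four_split hf2c hf2c,
      intervalIntegral.integral_add hf2c hf2c, intervalIntegral.integral_ofReal]
    · push_cast; ring
    · intro x hx
      simp only [h1 x hx, Complex.norm_real, Real.norm_eq_abs, sq_abs]
    · intro x hx
      simp only [h2 x hx, Complex.norm_real, Real.norm_eq_abs, sq_abs, mul_pow, he, one_mul]
  rw [hI] at H
  convert! H using 1
  · funext n
    rw [Four_coef rfl hab hfi h1 h2 n, Complex.sq_norm, Complex.normSq_apply]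
    simp only [Complex.sub_re, Complex.ofReal_re, Complex.mul_re, Complex.I_re, mul_zero,
      Complex.ofReal_im, Complex.I_im, mul_one, sub_self, sub_zero, Complex.sub_im, Complex.mul_im,
      add_zero, zero_sub]
    ring
  · rw [smul_eq_mul]
    have : π - -π = 2 * π := by ring
    rw [this]
    field_simp

theorem parseval_sin {f : ℝ → ℝ} (hf : MemLp f 2 (volume.restrict (Ioc 0 π))) :
    HasSum (fun j : ℕ => sc f (j + 1) ^ 2) (2 / π * ∫ y in (0 : ℝ)..π, f y ^ 2) := by
  have H := ((Four_ext hf (e := -1) (by norm_num)).nat_add_neg).mul_left 2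
  have H2 : HasSum (fun j : ℕ => sc f j ^ 2) (2 / π * ∫ y in (0 : ℝ)..π, f y ^ 2) := by
    convert! H using 1
    · funext n
      simp only [sc, Int.cast_neg, Int.cast_natCast, neg_mul, sin_neg, mul_neg,
        intervalIntegral.integral_neg]
      ring
    · simp
      ring
  have := (hasSum_nat_add_iff' 1).2 H2
  simpa [sc] using this

theorem parseval_cos {f : ℝ → ℝ} (hf : MemLp f 2 (volume.restrict (Ioc 0 π))) :
    HasSum (fun j : ℕ => cc f (j + 1) ^ 2)
      (2 / π * (∫ y in (0 : ℝ)..π, f y ^ 2) - cc f 0 ^ 2 / 2) := by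
  have H := ((Four_ext hf (e := 1) (by norm_num)).nat_add_neg).mul_left 2
  have H2 : HasSum (fun j : ℕ => cc f j ^ 2)
      (2 / π * (∫ y in (0 : ℝ)..π, f y ^ 2) + cc f 0 ^ 2 / 2) := by
    convert! H using 1
    · funext n
      simp only [cc, Int.cast_neg, Int.cast_natCast, neg_mul, cos_neg]
      ring
    · simp only [cc, Int.cast_zero, Nat.cast_zero]
      ring
  have := (hasSum_nat_add_iff' 1).2 H2
  convert! this using 1
  simp only [Finset.range_one, Finset.sum_singleton]
  ring

theorem sine_inv {f : ℝ → ℝ} (hf : ContinuousOn f (Icc 0 π)) (h0 : f 0 = 0) (h1 : f π = 0)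
    (hs : Summable fun j : ℕ => |sc f j|) (hy : y ∈ Icc 0 π) :
    HasSum (fun j : ℕ => sc f j * sin (j * y)) (f y) := by
  have hp : (0 : ℝ) < π := pi_pos
  haveI hT : Fact (0 < 2 * π) := ⟨by linarith⟩
  have hβ : -π + 2 * π = π := by ring
  set F : ℝ → ℝ := fun x => f (max x 0) - f (max (-x) 0) with hF
  have hFc : ContinuousOn F (Icc (-π) π) := by
    apply ContinuousOn.sub
    · exact hf.comp (by fun_prop) fun x hx => ⟨le_max_right _ _, max_le hx.2 hp.le⟩
    · exact hf.comp (by fun_prop) fun x hx => ⟨le_max_right _ _, max_le (by linarith [hx.1]) hp.le⟩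
  have a1 : ∀ x, 0 ≤ x → F x = f x := by
    intro x hx
    simp only [hF, max_eq_left hx, max_eq_right (neg_nonpos.2 hx), h0, sub_zero]
  have a2 : ∀ x, x ≤ 0 → F x = -1 * f (-x) := by
    intro x hx
    simp only [hF, max_eq_right hx, max_eq_left (neg_nonneg.2 hx), h0]
    ring
  have hfi : IntervalIntegrable f volume 0 π := hf.intervalIntegrable_of_Icc hp.le
  let Φ : C(AddCircle (2 * π), ℂ) := ⟨AddCircle.liftIoc (2 * π) (-π) fun x => (F x : ℂ),
    AddCircle.liftIoc_continuous (by
      rw [hβ, a1 π hp.le, a2 (-π) (by linarith), neg_neg, h1]; simp)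
      (by rw [hβ]; exact Complex.continuous_ofReal.comp_continuousOn hFc)⟩
  have hco : ∀ n : ℤ, fourierCoeff Φ n =
      -((1 / π * ∫ x in (0 : ℝ)..π, f x * sin (n * x) : ℝ) : ℂ) * Complex.I := by
    intro n
    have := fourierCoeff_liftIoc_eq (T := 2 * π) (a := -π) (fun x => (F x : ℂ)) n
    rw [Four_coef hβ _ hfi (fun x hx => a1 x hx.1.le) (fun x hx => a2 x hx.2.le)] at this
    refine this.trans ?_
    have hp' : (π : ℂ) ≠ 0 := Complex.ofReal_ne_zero.2 pi_ne_zero
    push_cast
    field_simp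
    ring
  have hpos : ∀ n : ℕ, fourierCoeff Φ n = -((sc f n / 2 : ℝ) : ℂ) * Complex.I := by
    intro n
    rw [hco]
    congr 3
    simp only [sc, Int.cast_natCast]
    ring
  have hneg : ∀ n : ℕ, fourierCoeff Φ (-n) = ((sc f n / 2 : ℝ) : ℂ) * Complex.I := by
    intro n
    rw [hco, ← Complex.ofReal_neg]
    congr 2
    simp only [sc, Int.cast_neg, Int.cast_natCast, neg_mul, sin_neg, mul_neg,
      intervalIntegral.integral_neg]
    ring
  have hsum : Summable (fourierCoeff Φ) := by
    have hs' : Summable fun n : ℕ => ((sc f n / 2 : ℝ) : ℂ) :=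
      Complex.summable_ofReal.2 (hs.of_abs.div_const 2)
    apply Summable.of_nat_of_neg
    · simp_rw [hpos]; exact hs'.neg.mul_right _
    · simp_rw [hneg]; exact hs'.mul_right _
  have H := (has_pointwise_sum_fourier_series_of_summable hsum (y : AddCircle (2 * π))).nat_add_neg
  have hΦ : Φ (y : AddCircle (2 * π)) = f y := by
    have : y ∈ Ioc (-π) (-π + 2 * π) := ⟨by linarith [hy.1], by linarith [hy.2]⟩
    change AddCircle.liftIoc (2 * π) (-π) (fun x => (F x : ℂ)) (y : AddCircle (2 * π)) = _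
    rw [AddCircle.liftIoc_coe_apply this, a1 y hy.1]
  have hz : fourierCoeff Φ 0 = 0 := by rw [hco]; simp
  rw [hΦ, hz, zero_smul, add_zero] at H
  apply Complex.hasSum_ofReal.1
  convert! H using 1
  funext n
  rw [hpos, hneg, Four_fourier rfl, Four_fourier rfl]
  simp only [Int.cast_neg, Int.cast_natCast, neg_mul, sin_neg, cos_neg, smul_eq_mul]
  push_cast
  linear_combination (sc f n * Complex.sin (n * y) : ℂ) * Complex.I_sq

theorem cc_deriv {f f' : ℝ → ℝ} (hf : ContinuousOn f (Icc 0 π)) (h0 : f 0 = 0) (h1 : f π = 0)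
    (hi : IntervalIntegrable f' volume 0 π) {S : Set ℝ} (hS : S.Countable)
    (hd : ∀ y ∈ Ioo 0 π \ S, HasDerivAt f (f' y) y) (j : ℕ) : cc f' j = j * sc f j := by
  have hp : (0 : ℝ) < π := pi_pos
  have hfi : IntervalIntegrable f volume 0 π := hf.intervalIntegrable_of_Icc hp.le
  have A : IntervalIntegrable (fun y => f' y * cos (j * y)) volume 0 π :=
    hi.mul_continuousOn (by fun_prop)
  have B : IntervalIntegrable (fun y => (j : ℝ) * (f y * sin (j * y))) volume 0 π :=
    (hfi.mul_continuousOn (by fun_prop)).const_mul _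
  have H := integral_eq_of_hasDerivAt_off_countable_of_le (fun y => f y * cos (j * y))
    (fun y => f' y * cos (j * y) - j * (f y * sin (j * y))) hp.le hS
    (hf.mul (by fun_prop)) (fun y hy => by
      have c1 : HasDerivAt (fun y : ℝ => cos (j * y)) (-sin (j * y) * (j * 1)) y :=
        ((hasDerivAt_id y).const_mul (j : ℝ)).cos
      convert! (hd y hy).mul c1 using 1
      ring) (A.sub B)
  rw [intervalIntegral.integral_sub A B, intervalIntegral.integral_const_mul] at H
  simp only [h0, h1, zero_mul, sub_zero] at H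
  simp only [cc, sc]
  rw [sub_eq_zero.1 H]
  ring

end Pool.Agent.L2Q
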