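import Pool.Agent.P.MP_2f6447_an.Q.Rep
import Pool.Agent.P.MP_2f6447_an.Q.Four

/-! Parseval on vertical chords. am_deriv: differentiate under the integral (the closed rectangle [x-ε,x+ε]×[0,π] lies in closure Ω, G is bounded there, `hasDerivAt_re`, eqG).
am_deriv3: near x, repj with |r y - x'| = r y - x' and |x' - l y| = x' - l y, so EI_R x' = exp(m(x'-x)) EI_R x, EI_L x' = exp(-m(x'-x)) EI_L x.
flux_id: parseval_sin for u and for y ↦ (G ⟨x,y⟩).re, parseval_cos and cc_deriv for y ↦ (G ⟨x,y⟩).im, the field chord (the set is Ioo 0 π), times 2/π.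
flux_end: f' = indicator (Ioo 0 c) of (grad u).im, exceptional set {c}; chord gives ∫ (lam u² - u_y²) ≤ c; ∑ (lam - j²) a_j² = (2/π)∫(lam u² - u_y²); (j² - lam) a_j² = (mm a_j)² ≤ β²/π². -/

open Set MeasureTheory Filter Topology Real
open scoped ComplexConjugate

namespace Pool.Agent.L2Q

open Pool.Agent.L2K

variable {Ω : Set ℂ} {lam nT nB m a b x y : ℝ} {u : ℂ → ℝ} {G : ℂ → ℂ} {l r : ℝ → ℝ} {j : ℕ}

theorem QD.am_deriv (h : QD Ω lam u G l r nT nB) (hx : x ∈ Ioo (xL l) (xR r)) (j : ℕ) :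
    HasDerivAt (am u j) (sc (fun y => (G ⟨x, y⟩).re) j) x := by sorry

theorem QD.am_deriv3 (h : QD Ω lam u G l r nT nB) (hx : x ∈ Ioo (xL l) (xR r)) (hj : 2 ≤ j) :
    HasDerivAt (am u j) (-(1 / π * (EI lam j (fun y => x - l y) (fun y => -deriv l y) 0 π +
      EI lam j (fun y => r y - x) (deriv r) 0 π))) x := by sorry

theorem QD.am1_deriv (h : QD Ω lam u G l r nT nB) (hx : x ∈ Ioo (xL l) (xR r)) :
    deriv (am u 1) x = deriv (UU lam r) x ∧ deriv (am u 2) x = deriv (VV lam r) x := by sorry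

theorem QD.flux_id (h : QD Ω lam u G l r nT nB) (hx : x ∈ Ioo (xL l) (xR r)) :
    HasSum (fun k : ℕ => deriv (am u (k + 1)) x ^ 2 +
      (lam - ((k + 1 : ℕ) : ℝ) ^ 2) * am u (k + 1) x ^ 2) 2 := by sorry

theorem QD.flux_end (h : QD Ω lam u G l r nT nB) {c : ℝ} (hc : c ∈ Ioc 0 π) (hx : ∀ y, (⟨x, y⟩ : ℂ) ∈ Ω ↔ y ∈ Ioo 0 c)
    {β : ℕ → ℝ} (hβ : ∀ k, |π * mm lam (k + 3) * am u (k + 3) x| ≤ β k)
    (hs : Summable fun k => β k ^ 2) :
    (lam - 1) * am u 1 x ^ 2 ≤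
      2 * c / π + (4 - lam) * am u 2 x ^ 2 + (∑' k, β k ^ 2) / π ^ 2 := by sorry

end Pool.Agent.L2Q
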