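import Pool.Agent.P.MP_2f6447_an.Q.Bas

/-! Series bounds, part 1. -/

open Set MeasureTheory Filter Topology Real

namespace Pool.Agent.L2Q

open Pool.Agent.L2K

variable {lam q ρ y t a b c m : ℝ} {j : ℕ} {ξ p : ℝ → ℝ}

/-- coefficient pattern: three initial values, then one value for even and one for odd indices -/
noncomputable def Ser1_cf (c0 c1 c2 ce co : ℝ) : ℕ → ℝ
  | 0 => c0
  | 1 => c1
  | 2 => c2
  | (i + 3) => ce * (1 - od i) + co * od i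

theorem Ser1_od_six (i : ℕ) : od (i + 3 + 3) = od i := by
  unfold od
  have : Odd (i + 3 + 3) ↔ Odd i := by
    rw [Nat.odd_iff, Nat.odd_iff]
    omega
  simp only [this]

theorem Ser1_od_cases (i : ℕ) : (od i = 1 ∧ 1 ≤ i) ∨ od i = 0 := by
  unfold od
  by_cases h : Odd i
  · left
    refine ⟨if_pos h, ?_⟩
    rw [Nat.odd_iff] at h
    omega
  · right
    exact if_neg h

theorem Ser1_od3 : od (0 + 3) = 1 := by
  unfold od
  exact if_pos (by decide)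

theorem Ser1_od4 : od (1 + 3) = 0 := by
  unfold od
  exact if_neg (by decide)

theorem Ser1_od5 : od (2 + 3) = 1 := by
  unfold od
  exact if_pos (by decide)

theorem Ser1_hasSum (c0 c1 c2 ce co : ℝ) {x : ℝ} (h0 : 0 < x) (h1 : x < 1) :
    HasSum (fun k => Ser1_cf c0 c1 c2 ce co k * x ^ k)
      (c0 + c1 * x + c2 * x ^ 2 + (ce * x ^ 3 + co * x ^ 4) / (1 - x ^ 2)) := by
  have g1 := hasSum_geometric_of_lt_one h0.le h1
  have g2 : HasSum (fun n : ℕ => (-x) ^ n) (1 - -x)⁻¹ :=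
    hasSum_geometric_of_norm_lt_one (by rw [norm_neg, Real.norm_eq_abs, abs_of_pos h0]; exact h1)
  have g3 := ((g1.mul_left ((ce + co) / 2 * x ^ 3)).add (g2.mul_left ((ce - co) / 2 * x ^ 3)))
  have e : (fun i : ℕ => Ser1_cf c0 c1 c2 ce co (i + 3) * x ^ (i + 3)) =
      fun i : ℕ => (ce + co) / 2 * x ^ 3 * x ^ i + (ce - co) / 2 * x ^ 3 * (-x) ^ i := by
    funext i
    rw [neg_pow x i, neg_one_pow_eq]
    show (ce * (1 - od i) + co * od i) * x ^ (i + 3) = _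
    ring
  rw [← e] at g3
  have g4 := (hasSum_nat_add_iff (f := fun k => Ser1_cf c0 c1 c2 ce co k * x ^ k) 3).1 g3
  have a1 : 1 - x ≠ 0 := by linarith
  have a2 : 1 - -x ≠ 0 := by linarith
  have a3 : 1 - x ^ 2 ≠ 0 := by nlinarith
  have e2 : (ce + co) / 2 * x ^ 3 * (1 - x)⁻¹ + (ce - co) / 2 * x ^ 3 * (1 - -x)⁻¹ +
      ∑ i ∈ Finset.range 3, Ser1_cf c0 c1 c2 ce co i * x ^ i =
      c0 + c1 * x + c2 * x ^ 2 + (ce * x ^ 3 + co * x ^ 4) / (1 - x ^ 2) := by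
    simp only [Finset.sum_range_succ, Finset.sum_range_zero, Ser1_cf]
    field_simp
    ring
  rw [← e2]
  exact g4

theorem Ser1_cmp (h2 : 2 ≤ lam) (hl : lam < 4) (hm' : m ≤ mm lam 3) (ha : 0 < a) {w : ℕ → ℝ}
    {c0 c1 c2 ce co : ℝ} (hw0 : ∀ k, 0 ≤ w k) (hw : ∀ k, w k ≤ Ser1_cf c0 c1 c2 ce co k) :
    (Summable fun k : ℕ => w k * ee lam (k + 3) a) ∧
      ∑' k : ℕ, w k * ee lam (k + 3) a ≤ exp (-(m * a)) * (c0 + c1 * exp (-a) + c2 * exp (-a) ^ 2 +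
        (ce * exp (-a) ^ 3 + co * exp (-a) ^ 4) / (1 - exp (-a) ^ 2)) := by
  have hx1 : exp (-a) < 1 := Real.exp_lt_one_iff.2 (by linarith)
  have hs := (Ser1_hasSum c0 c1 c2 ce co (exp_pos (-a)) hx1).mul_left (exp (-(m * a)))
  have hle : ∀ k, w k * ee lam (k + 3) a ≤
      exp (-(m * a)) * (Ser1_cf c0 c1 c2 ce co k * exp (-a) ^ k) := by
    intro k
    calc w k * ee lam (k + 3) a ≤
          Ser1_cf c0 c1 c2 ce co k * (exp (-(m * a)) * exp (-a) ^ k) :=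
          mul_le_mul (hw k) (ee_le (by linarith) hl hm' ha.le k) (ee_pos _ _ _).le
            ((hw0 k).trans (hw k))
      _ = _ := by ring
  have hsum : Summable fun k : ℕ => w k * ee lam (k + 3) a :=
    Summable.of_nonneg_of_le (fun k => mul_nonneg (hw0 k) (ee_pos _ _ _).le) hle hs.summable
  exact ⟨hsum, hasSum_le hle hsum.hasSum hs⟩

theorem Ser1_gen (hl : lam < 4) {J s : ℝ} (hJ : 3 ≤ J) (hs : 0 < s)
    (hsJ : s ^ 2 * J ^ 2 ≤ J ^ 2 - 4) (hj : J ≤ j) :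
    (j : ℝ) / mm lam j ≤ 1 / s ∧ (j : ℝ) * hh lam j ≤ 2 + 0.0882 / s ^ 2 := by
  have hj0 : (0 : ℝ) < j := by linarith
  have h1 : 0 ≤ 1 - s ^ 2 := by
    by_contra hc
    have : 0 < (s ^ 2 - 1) * J ^ 2 := mul_pos (by linarith) (by positivity)
    nlinarith
  have h2 : J ^ 2 ≤ (j : ℝ) ^ 2 := pow_le_pow_left₀ (by linarith) hj 2
  have h3 : s ^ 2 * (j : ℝ) ^ 2 ≤ (j : ℝ) ^ 2 - lam := by
    nlinarith [mul_le_mul_of_nonneg_left h2 h1]
  have hp : 0 < s ^ 2 * (j : ℝ) ^ 2 := by positivity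
  constructor
  · have h4 : s * j ≤ mm lam j := by
      unfold mm
      apply Real.le_sqrt_of_sq_le
      rw [mul_pow]
      exact h3
    calc (j : ℝ) / mm lam j ≤ j / (s * j) :=
          div_le_div_of_nonneg_left hj0.le (by positivity) h4
      _ = 1 / s := by field_simp
  · unfold hh
    have h5 : 0.0882 * (j : ℝ) / ((j : ℝ) ^ 2 - lam) ≤ 0.0882 * j / (s ^ 2 * (j : ℝ) ^ 2) :=
      div_le_div_of_nonneg_left (by positivity) hp h3
    calc (j : ℝ) * (2 / j + 0.0882 * j / ((j : ℝ) ^ 2 - lam))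
        ≤ j * (2 / j + 0.0882 * j / (s ^ 2 * (j : ℝ) ^ 2)) :=
          mul_le_mul_of_nonneg_left (by linarith) hj0.le
      _ = 2 + 0.0882 / s ^ 2 := by field_simp

theorem Ser1_cf_le (hl : lam < 4) {J s C : ℝ} (hJ : 3 ≤ J) (hs : 0 < s)
    (hsJ : s ^ 2 * J ^ 2 ≤ J ^ 2 - 4) (hC : 1 / s * ((2 + 0.0882 / s ^ 2) / J) ≤ C) (hj : J ≤ j) :
    (j : ℝ) / mm lam j * hh lam j ≤ C := by
  obtain ⟨h1, h2⟩ := Ser1_gen hl hJ hs hsJ hj
  have hj0 : (0 : ℝ) < j := by linarith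
  have hj2 : 2 ≤ j := by
    have : (2 : ℝ) ≤ j := by linarith
    exact_mod_cast this
  have hh0 := hh_pos hl hj2
  have h3 : hh lam j ≤ (2 + 0.0882 / s ^ 2) / J := by
    rw [le_div_iff₀ (by linarith)]
    nlinarith [mul_le_mul_of_nonneg_left hj hh0.le]
  exact (mul_le_mul h1 h3 hh0.le (by positivity)).trans hC

theorem Ser1_hh3 (hl : lam < 4) (hm : 2.236 ≤ m) (hm' : m ≤ mm lam 3) :
    hh lam 3 ≤ 2 / 3 + 0.2646 / m ^ 2 := by
  have hm0 : 0 < m := by linarith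
  have h1 : m ^ 2 ≤ mm lam 3 ^ 2 := pow_le_pow_left₀ hm0.le hm' 2
  rw [mm_sq hl (by norm_num)] at h1
  unfold hh
  have h2 : (0.2646 : ℝ) / (((3 : ℕ) : ℝ) ^ 2 - lam) ≤ 0.2646 / m ^ 2 :=
    div_le_div_of_nonneg_left (by norm_num) (by positivity) h1
  have e : (0.0882 : ℝ) * ((3 : ℕ) : ℝ) = 0.2646 := by norm_num
  rw [e]
  have e2 : (2 : ℝ) / ((3 : ℕ) : ℝ) = 2 / 3 := by norm_num
  rw [e2]
  linarith

theorem Ser1_c3 (hl : lam < 4) (hm : 2.236 ≤ m) (hm' : m ≤ mm lam 3) :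
    ((3 : ℕ) : ℝ) / mm lam 3 * hh lam 3 ≤ c03 m := by
  have hm0 : 0 < m := by linarith
  unfold c03
  refine mul_le_mul ?_ (Ser1_hh3 hl hm hm') (hh_pos hl (by norm_num)).le (by positivity)
  have e : ((3 : ℕ) : ℝ) = 3 := by norm_num
  rw [e]
  exact div_le_div_of_nonneg_left (by norm_num) hm0 hm'

theorem Ser1_c4 (hl : lam < 4) (hj : 4 ≤ j) : (j : ℝ) / mm lam j * hh lam j ≤ 0.612 :=
  Ser1_cf_le hl (J := 4) (s := 0.866) (by norm_num) (by norm_num) (by norm_num) (by norm_num)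
    (by exact_mod_cast hj)

theorem Ser1_c5 (hl : lam < 4) (hj : 5 ≤ j) : (j : ℝ) / mm lam j * hh lam j ≤ 0.46 :=
  Ser1_cf_le hl (J := 5) (s := 0.9165) (by norm_num) (by norm_num) (by norm_num) (by norm_num)
    (by exact_mod_cast hj)

theorem Ser1_c6 (hl : lam < 4) (hj : 6 ≤ j) : (j : ℝ) / mm lam j * hh lam j ≤ 0.372 :=
  Ser1_cf_le hl (J := 6) (s := 0.9428) (by norm_num) (by norm_num) (by norm_num) (by norm_num)
    (by exact_mod_cast hj)

theorem Ser1_c7 (hl : lam < 4) (hj : 7 ≤ j) : (j : ℝ) / mm lam j * hh lam j ≤ 0.313 :=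
  Ser1_cf_le hl (J := 7) (s := 0.9583) (by norm_num) (by norm_num) (by norm_num) (by norm_num)
    (by exact_mod_cast hj)

theorem Ser1_d4 (hl : lam < 4) (hj : 4 ≤ j) : (j : ℝ) * hh lam j ≤ 2.118 := by
  have h := (Ser1_gen (j := j) hl (J := 4) (s := 0.866) (by norm_num) (by norm_num) (by norm_num)
    (by exact_mod_cast hj)).2
  refine h.trans ?_
  norm_num

theorem Ser1_w0 (hl : lam < 4) (k : ℕ) :
    0 ≤ ((k + 3 : ℕ) : ℝ) / mm lam (k + 3) * hh lam (k + 3) :=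
  mul_nonneg (div_nonneg (Nat.cast_nonneg _) (mm_nonneg _ _)) (hh_pos hl (by omega)).le

theorem ser_f (h2 : 2 ≤ lam) (hl : lam < 4) (hm : 2.236 ≤ m) (hm' : m ≤ mm lam 3) (ha : 0 < a) :
    (Summable fun k : ℕ => ((k + 3 : ℕ) : ℝ) / mm lam (k + 3) * (hh lam (k + 3) * ee lam (k + 3) a)) ∧
    ∑' k : ℕ, ((k + 3 : ℕ) : ℝ) / mm lam (k + 3) * (hh lam (k + 3) * ee lam (k + 3) a) ≤
      π * bf m a := by
  have hw : ∀ k : ℕ, ((k + 3 : ℕ) : ℝ) / mm lam (k + 3) * hh lam (k + 3) ≤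
      Ser1_cf (c03 m) 0.612 0.46 0.372 0.313 k := by
    intro k
    match k with
    | 0 => exact Ser1_c3 hl hm hm'
    | 1 => exact Ser1_c4 hl (by norm_num)
    | 2 => exact Ser1_c5 hl (by norm_num)
    | (i + 3) =>
      show _ ≤ 0.372 * (1 - od i) + 0.313 * od i
      rcases Ser1_od_cases i with ⟨h, hi⟩ | h
      · rw [h]
        have := Ser1_c7 (j := i + 3 + 3) hl (by omega)
        linarith
      · rw [h]
        have := Ser1_c6 (j := i + 3 + 3) hl (by omega)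
        linarith
  have h := Ser1_cmp h2 hl hm' ha (Ser1_w0 hl) hw
  simp only [mul_assoc] at h
  refine ⟨h.1, h.2.trans (le_of_eq ?_)⟩
  unfold bf fE fO
  have := pi_pos.ne'
  field_simp
  ring

theorem ser_g (h2 : 2 ≤ lam) (hl : lam < 4) (hm : 2.236 ≤ m) (hm' : m ≤ mm lam 3) (ha : 0 < a) :
    (Summable fun k : ℕ => ((k + 3 : ℕ) : ℝ) / mm lam (k + 3) *
      (od (k + 3) * (hh lam (k + 3) * ee lam (k + 3) a))) ∧
    ∑' k : ℕ, ((k + 3 : ℕ) : ℝ) / mm lam (k + 3) *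
      (od (k + 3) * (hh lam (k + 3) * ee lam (k + 3) a)) ≤ π * bg m a := by
  have hw0 : ∀ k : ℕ, 0 ≤ ((k + 3 : ℕ) : ℝ) / mm lam (k + 3) * (od (k + 3) * hh lam (k + 3)) :=
    fun k => mul_nonneg (div_nonneg (Nat.cast_nonneg _) (mm_nonneg _ _))
      (mul_nonneg (od_nonneg _) (hh_pos hl (by omega)).le)
  have hw : ∀ k : ℕ, ((k + 3 : ℕ) : ℝ) / mm lam (k + 3) * (od (k + 3) * hh lam (k + 3)) ≤
      Ser1_cf (c03 m) 0 0.46 0 0.313 k := by
    intro k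
    match k with
    | 0 =>
      rw [Ser1_od3, one_mul]
      exact Ser1_c3 hl hm hm'
    | 1 =>
      rw [Ser1_od4, zero_mul, mul_zero]
      exact le_rfl
    | 2 =>
      rw [Ser1_od5, one_mul]
      exact Ser1_c5 hl (by norm_num)
    | (i + 3) =>
      show _ ≤ 0 * (1 - od i) + 0.313 * od i
      rw [Ser1_od_six]
      rcases Ser1_od_cases i with ⟨h, hi⟩ | h
      · rw [h, one_mul]
        have := Ser1_c7 (j := i + 3 + 3) hl (by omega)
        linarith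
      · rw [h]
        simp
  have h := Ser1_cmp h2 hl hm' ha hw0 hw
  simp only [mul_assoc] at h
  refine ⟨h.1, h.2.trans (le_of_eq ?_)⟩
  unfold bg fO
  have := pi_pos.ne'
  field_simp
  ring

theorem ser_1 (h2 : 2 ≤ lam) (hl : lam < 4) (hm : 2.236 ≤ m) (hm' : m ≤ mm lam 3) (ha : 0 < a) :
    (Summable fun k : ℕ => ((k + 3 : ℕ) : ℝ) *
      ((1 + od (k + 3)) * hh lam (k + 3) * ee lam (k + 3) a)) ∧
    ∑' k : ℕ, ((k + 3 : ℕ) : ℝ) * ((1 + od (k + 3)) * hh lam (k + 3) * ee lam (k + 3) a) ≤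
      π * bR1 m a := by
  have hw0 : ∀ k : ℕ, 0 ≤ ((k + 3 : ℕ) : ℝ) * ((1 + od (k + 3)) * hh lam (k + 3)) :=
    fun k => mul_nonneg (Nat.cast_nonneg _)
      (mul_nonneg (by linarith [od_nonneg (k + 3)]) (hh_pos hl (by omega)).le)
  have hw : ∀ k : ℕ, ((k + 3 : ℕ) : ℝ) * ((1 + od (k + 3)) * hh lam (k + 3)) ≤
      Ser1_cf (2 * (2 + 0.7938 / m ^ 2)) 2.118 4.236 2.118 4.236 k := by
    intro k
    match k with
    | 0 =>
      rw [Ser1_od3]
      show ((3 : ℕ) : ℝ) * ((1 + 1) * hh lam 3) ≤ 2 * (2 + 0.7938 / m ^ 2)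
      have h := Ser1_hh3 hl hm hm'
      have e : (0.7938 : ℝ) / m ^ 2 = 3 * (0.2646 / m ^ 2) := by ring
      rw [e]
      push_cast
      linarith
    | 1 =>
      rw [Ser1_od4]
      have := Ser1_d4 (j := 1 + 3) hl (by norm_num)
      show _ ≤ (2.118 : ℝ)
      linarith
    | 2 =>
      rw [Ser1_od5]
      have := Ser1_d4 (j := 2 + 3) hl (by norm_num)
      show _ ≤ (4.236 : ℝ)
      linarith
    | (i + 3) =>
      show _ ≤ 2.118 * (1 - od i) + 4.236 * od i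
      rw [Ser1_od_six]
      have := Ser1_d4 (j := i + 3 + 3) hl (by omega)
      rcases Ser1_od_cases i with ⟨h, hi⟩ | h
      · rw [h]
        linarith
      · rw [h]
        linarith
  have h := Ser1_cmp h2 hl hm' ha hw0 hw
  simp only [mul_assoc] at h ⊢
  refine ⟨h.1, h.2.trans (le_of_eq ?_)⟩
  unfold bR1 f1
  have := pi_pos.ne'
  have hx1 : exp (-a) < 1 := Real.exp_lt_one_iff.2 (by linarith)
  have hx0 := exp_pos (-a)
  have a3 : 1 - exp (-a) ^ 2 ≠ 0 := by nlinarith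
  have hm0 : m ≠ 0 := by linarith
  field_simp
  ring

end Pool.Agent.L2Q
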