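import Pool.Agent.P.MP_2f6447_an.Q.Branch
import Pool.Agent.P.MP_2f6447_an.Q.Ser1

/-! Upper bound for the far arc. -/

open Set MeasureTheory Filter Topology Real

namespace Pool.Agent.L2Q

open Pool.Agent.L2K

variable {lam q ρ y t a b c m : ℝ} {j : ℕ} {ξ p : ℝ → ℝ}

theorem Arc.KB (A : Arc ξ p t) (h2 : 2 ≤ lam) (hl : lam < 4) (hq : q ∈ Ioo (0 : ℝ) 1)
    (hm : 2.236 ≤ m) (hm' : m ≤ mm lam 3) (ha : 0 < a) (ha' : a ≤ ξ 0) (hb : 0 < b) (hb' : b ≤ ξ π) :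
    KI lam ξ p q ≤ bf m a + bg m b := by
  obtain ⟨sf, hf⟩ := ser_f h2 hl hm hm' ha
  obtain ⟨sg, hg⟩ := ser_g h2 hl hm hm' hb
  have hterm : ∀ k : ℕ,
      q ^ (k + 3) * (((k + 3 : ℕ) : ℝ) / mm lam (k + 3)) * EI lam (k + 3) ξ p 0 π ≤
        ((k + 3 : ℕ) : ℝ) / mm lam (k + 3) * (hh lam (k + 3) * ee lam (k + 3) a) +
        ((k + 3 : ℕ) : ℝ) / mm lam (k + 3) *
          (od (k + 3) * (hh lam (k + 3) * ee lam (k + 3) b)) := by
    intro k
    have hj : 2 ≤ k + 3 := by omega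
    have h1 := A.EI_le (lam := lam) hl hj ha.le ha' hb.le hb'
    have hr : 0 ≤ ((k + 3 : ℕ) : ℝ) / mm lam (k + 3) :=
      div_nonneg (Nat.cast_nonneg _) (mm_nonneg _ _)
    have hq0 : 0 ≤ q ^ (k + 3) := pow_nonneg hq.1.le _
    have hq1 : q ^ (k + 3) ≤ 1 := pow_le_one₀ hq.1.le hq.2.le
    have hh0 := (hh_pos (lam := lam) hl hj).le
    have hB : 0 ≤ hh lam (k + 3) * ee lam (k + 3) a +
        od (k + 3) * (hh lam (k + 3) * ee lam (k + 3) b) :=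
      add_nonneg (mul_nonneg hh0 (ee_pos _ _ _).le)
        (mul_nonneg (od_nonneg _) (mul_nonneg hh0 (ee_pos _ _ _).le))
    rw [← mul_add]
    calc q ^ (k + 3) * (((k + 3 : ℕ) : ℝ) / mm lam (k + 3)) * EI lam (k + 3) ξ p 0 π
        ≤ q ^ (k + 3) * (((k + 3 : ℕ) : ℝ) / mm lam (k + 3)) *
            (hh lam (k + 3) * ee lam (k + 3) a +
              od (k + 3) * (hh lam (k + 3) * ee lam (k + 3) b)) :=
          mul_le_mul_of_nonneg_left h1 (mul_nonneg hq0 hr)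
      _ = q ^ (k + 3) * ((((k + 3 : ℕ) : ℝ) / mm lam (k + 3)) *
            (hh lam (k + 3) * ee lam (k + 3) a +
              od (k + 3) * (hh lam (k + 3) * ee lam (k + 3) b))) := by ring
      _ ≤ _ := mul_le_of_le_one_left (mul_nonneg hr hB) hq1
  have hs := A.summable_KI h2 hl hq
  have hle := hs.tsum_le_tsum hterm (sf.add sg)
  rw [sf.tsum_add sg] at hle
  unfold KI
  have hpi := pi_pos
  rw [one_div, inv_mul_le_iff₀ hpi, mul_add]
  linarith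

end Pool.Agent.L2Q
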