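import Pool.Agent.P.MP_2f6447_an.Q.KCn

/-! The three cases of KC, from `KC_gen`. -/

open Set MeasureTheory Filter Topology Real

namespace Pool.Agent.L2Q

open Pool.Agent.L2K

variable {lam q ρ y t a b c m : ℝ} {j : ℕ} {ξ p : ℝ → ℝ}

theorem KC_der (hl : lam < 4) (hj : 2 ≤ j) (k s : ℝ) :
    HasDerivAt (fun s => k * ee lam j s / mm lam j) (-(k * ee lam j s)) s := by
  have hm := (mm_pos hl hj).ne'
  have h := ((hasDerivAt_ee lam j s).const_mul k).div_const (mm lam j)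
  have e : k * -(mm lam j * ee lam j s) / mm lam j = -(k * ee lam j s) := by
    field_simp
  rw [e] at h
  exact h

theorem KC_fin {K L l0 x z n κ e : ℝ} (hq : q ∈ Ioo (0 : ℝ) 1) (hm : 2 ≤ m)
    (he1 : e ≤ 1) (h : -L - max (x - 2 * q ^ 3 * e / m) z ≤ π * K) (hL : L ≤ l0)
    (hx : x - 2 * e / m ≤ n) (hz : z ≤ n) (hκ0 : 0 ≤ κ) (hκ : l0 + n ≤ κ * 3.14) :
    -κ - (1 - q ^ 3) ≤ K := by
  have hπ : (3.14 : ℝ) < π := pi_gt_d2
  have hq3 : q ^ 3 ≤ 1 := pow_le_one₀ hq.1.le hq.2.le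
  have hm0 : 0 < m := by linarith
  have h1 : 2 * e / m ≤ 1 := by
    rw [div_le_one hm0]; linarith
  have h2 : x - 2 * q ^ 3 * e / m = x - 2 * e / m + (1 - q ^ 3) * (2 * e / m) := by ring
  have h3 : (1 - q ^ 3) * (2 * e / m) ≤ 1 - q ^ 3 := by
    have := mul_le_mul_of_nonneg_left h1 (sub_nonneg.2 hq3)
    linarith
  have h4 : max (x - 2 * q ^ 3 * e / m) z ≤ n + (1 - q ^ 3) :=
    max_le (by linarith) (by linarith)
  have h5 : κ * 3.14 ≤ κ * π := mul_le_mul_of_nonneg_left hπ.le hκ0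
  have h6 : 1 - q ^ 3 ≤ π * (1 - q ^ 3) := le_mul_of_one_le_left (sub_nonneg.2 hq3) (by linarith)
  have h7 : π * (-κ - (1 - q ^ 3)) ≤ π * K := by
    have : π * (-κ - (1 - q ^ 3)) = -(κ * π) - π * (1 - q ^ 3) := by ring
    linarith
  exact le_of_mul_le_mul_left h7 pi_pos

theorem KC_cos {a y : ℝ} (ha : 0 ≤ a) (hy : y ∈ Icc a π) : cos y ≤ cos a :=
  cos_le_cos_of_nonneg_of_le_pi ha hy.2 hy.1

theorem KC_two (h2 : 2 ≤ lam) (hl : lam < 4) {k k' s : ℝ} (hk' : 0 ≤ k') (hk : k' ≤ k)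
    (hs : 0 ≤ s) : 0 ≤ k * ee lam 3 s / mm lam 3 - k' * ee lam 4 s / mm lam 4 := by
  have h3 := mm3_mem h2 hl
  have h4 := mm4_mem h2 hl
  have he : ee lam 4 s ≤ ee lam 3 s :=
    ee_le_ee (by linarith) hl (by norm_num) (by norm_num) hs
  have he4 := ee_pos lam 4 s
  have : k' * ee lam 4 s / mm lam 4 ≤ k * ee lam 3 s / mm lam 3 :=
    div_le_div₀ (mul_nonneg (hk'.trans hk) (ee_pos lam 3 s).le)
      (mul_le_mul hk he he4.le (hk'.trans hk)) (by linarith [h3.1]) (by linarith [h3.2, h4.1])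
  linarith

theorem KC_dA (hl : lam < 4) (s : ℝ) :
    HasDerivAt (fun s => 2 * ee lam 3 s / mm lam 3 - 1 * ee lam 4 s / mm lam 4) (-DA lam s) s := by
  have h := (KC_der (j := 3) hl (by norm_num) 2 s).sub (KC_der (j := 4) hl (by norm_num) 1 s)
  have e : -(2 * ee lam 3 s) - -(1 * ee lam 4 s) = -DA lam s := by unfold DA; ring
  rw [e] at h
  exact h

theorem KC_dB (hl : lam < 4) (s : ℝ) :
    HasDerivAt (fun s => (2.44 + nu3 lam) * ee lam 3 s / mm lam 3 - 0.91 * ee lam 4 s / mm lam 4)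
      (-DB lam s) s := by
  have h := (KC_der (j := 3) hl (by norm_num) (2.44 + nu3 lam) s).sub
    (KC_der (j := 4) hl (by norm_num) 0.91 s)
  have e : -((2.44 + nu3 lam) * ee lam 3 s) - -(0.91 * ee lam 4 s) = -DB lam s := by
    unfold DB; ring
  rw [e] at h
  exact h

theorem KC_d2 (hl : lam < 4) (s : ℝ) :
    HasDerivAt (fun s => (0.45 + nu3 lam) * ee lam 3 s / mm lam 3 + 1.3 * ee lam 4 s / mm lam 4 -
      0.65 * ee lam 5 s / mm lam 5) (-D2 lam s) s := by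
  have h := ((KC_der (j := 3) hl (by norm_num) (0.45 + nu3 lam) s).add
    (KC_der (j := 4) hl (by norm_num) 1.3 s)).sub (KC_der (j := 5) hl (by norm_num) 0.65 s)
  have e : -((0.45 + nu3 lam) * ee lam 3 s) + -(1.3 * ee lam 4 s) - -(0.65 * ee lam 5 s) =
      -D2 lam s := by
    unfold D2; ring
  rw [e] at h
  exact h

theorem KC_cA (lam : ℝ) : Continuous (DA lam) :=
  (continuous_const.mul (continuous_ee lam 3)).sub (continuous_ee lam 4)

theorem KC_cB (lam : ℝ) : Continuous (DB lam) :=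
  (continuous_const.mul (continuous_ee lam 3)).sub (continuous_const.mul (continuous_ee lam 4))

theorem KC_c2 (lam : ℝ) : Continuous (D2 lam) :=
  ((continuous_const.mul (continuous_ee lam 3)).add
    (continuous_const.mul (continuous_ee lam 4))).sub (continuous_const.mul (continuous_ee lam 5))

theorem Arc.KC_A (A : Arc ξ p t) (h2 : 2 ≤ lam) (hl : lam < 4) (hq : q ∈ Ioo (0 : ℝ) 1)
    (h0 : ξ 0 = 0) (htc : t ≤ c) (hc : c ≤ π) (hc0 : ξ c = 0) (hY : 2 * π / 3 ≤ c) :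
    -0.345 - (1 - q ^ 3) ≤ KI lam ξ p q := by
  have hπ := pi_pos
  have hcos : cos (2 * π / 3) = -1 / 2 := by
    rw [show 2 * π / 3 = π - π / 3 by ring, cos_pi_sub, cos_pi_div_three]; norm_num
  have h := A.KC_gen h2 hl hq h0 htc hc hc0 (Y := 2 * π / 3) (ya := π / 2) (T := 0.75)
    (by linarith) (by linarith) hY (by norm_num)
    (KC_der (j := 3) hl (by norm_num) (nu3 lam)) (continuous_const.mul (continuous_ee lam 3))
    (KC_dA hl) (KC_cA lam) (fun s hs => KC_two h2 hl (by norm_num) (by norm_num) hs)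
    (fun ρ hρ y hy => Hn h2 hl hq hρ ⟨by linarith [hy.1], hy.2⟩
      (by simpa using KC_cos (by linarith) hy))
    (fun ρ hρ y hy => HA h2 hl hq hρ ⟨by linarith [hy.1], hy.2⟩
      (hcos ▸ KC_cos (by linarith) hy))
  have e : (0.75 : ℝ) * (2 * π / 3 - π / 2) / (2 * π / 3) = 0.1875 := by
    field_simp; norm_num
  rw [e] at h
  simp only [ee_zero, mul_one] at h
  exact KC_fin hq (by linarith [(mm3_mem h2 hl).1])
    (ee_le_one _ _ (by norm_num)) h (KCn_lA h2 hl) (KCn_1A h2 hl) (KCn_2A h2 hl)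
    (by norm_num) (by norm_num)

theorem Arc.KC_B (A : Arc ξ p t) (h2 : 2 ≤ lam) (hl : lam < 4) (hq : q ∈ Ioo (0 : ℝ) 1)
    (h0 : ξ 0 = 0) (htc : t ≤ c) (hc : c ≤ π) (hc0 : ξ c = 0) (hY : 0.6 * π ≤ c) :
    -0.487 - (1 - q ^ 3) ≤ KI lam ξ p q := by
  have hπ := pi_pos
  have h := A.KC_gen h2 hl hq h0 htc hc hc0 (Y := 0.6 * π) (ya := π / 2) (T := 0.9)
    (by linarith) (by linarith) hY (by norm_num)
    (KC_der (j := 3) hl (by norm_num) (nu3 lam)) (continuous_const.mul (continuous_ee lam 3))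
    (KC_dB hl) (KC_cB lam)
    (fun s hs => KC_two h2 hl (by norm_num) (by linarith [(nu3_mem h2 hl).1]) hs)
    (fun ρ hρ y hy => Hn h2 hl hq hρ ⟨by linarith [hy.1], hy.2⟩
      (by simpa using KC_cos (by linarith) hy))
    (fun ρ hρ y hy => HB h2 hl hq hρ ⟨by linarith [hy.1], hy.2⟩
      (by simpa using KC_cos (a := π / 2) (by linarith) ⟨by linarith [hy.1], hy.2⟩))
  have e : (0.9 : ℝ) * (0.6 * π - π / 2) / (0.6 * π) = 0.15 := by
    field_simp; norm_num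
  rw [e] at h
  simp only [ee_zero, mul_one] at h
  exact KC_fin hq (by linarith [(mm3_mem h2 hl).1])
    (ee_le_one _ _ (by norm_num)) h (KCn_lB h2 hl) (KCn_1B h2 hl) (KCn_2B h2 hl)
    (by norm_num) (by norm_num)

theorem Arc.KC_C (A : Arc ξ p t) (h2 : 2 ≤ lam) (hl : lam < 4) (hq : q ∈ Ioo (0 : ℝ) 1)
    (h0 : ξ 0 = 0) (htc : t ≤ c) (hc : c ≤ π) (hc0 : ξ c = 0) (hY : π / 2 ≤ c) :
    -0.508 - (1 - q ^ 3) ≤ KI lam ξ p q := by
  have hπ := pi_pos
  have h := A.KC_gen h2 hl hq h0 htc hc hc0 (Y := π / 2) (ya := π / 3) (T := 1)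
    (by linarith) (by linarith) hY (by norm_num)
    (KC_d2 hl) (KC_c2 lam) (KC_dB hl) (KC_cB lam)
    (fun s hs => KC_two h2 hl (by norm_num) (by linarith [(nu3_mem h2 hl).1]) hs)
    (fun ρ hρ y hy => H2 h2 hl hq hρ ⟨by linarith [hy.1], hy.2⟩
      (cos_pi_div_three ▸ KC_cos (by linarith) hy))
    (fun ρ hρ y hy => HB h2 hl hq hρ ⟨by linarith [hy.1], hy.2⟩
      (by simpa using KC_cos (by linarith) hy))
  have e : (1 : ℝ) * (π / 2 - π / 3) / (π / 2) = 1 / 3 := by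
    field_simp; norm_num
  rw [e] at h
  simp only [ee_zero, mul_one] at h
  refine KC_fin hq (by linarith [(mm3_mem h2 hl).1])
    (ee_le_one _ _ (by norm_num)) h (KCn_lB h2 hl) (KCn_1C h2 hl) (n := 0.606) ?_
    (by norm_num) (by norm_num)
  refine le_of_eq_of_le ?_ (KCn_2C h2 hl)
  ring

end Pool.Agent.L2Q
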