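import Pool.Agent.P.MP_2f6447_an.Q.Bas

/-! Monotonicity of the closed-form bounds and their evaluation. -/

open Set MeasureTheory Filter Topology Real

namespace Pool.Agent.L2Q

open Pool.Agent.L2K

variable {lam q ρ y t a b c m : ℝ} {j : ℕ} {ξ p : ℝ → ℝ}

theorem expn_le (ht : 0 ≤ t) : exp (-t) ≤ 1 / (1 + t + t ^ 2 / 2 + t ^ 3 / 6 + t ^ 4 / 24 +
    t ^ 5 / 120 + t ^ 6 / 720 + t ^ 7 / 5040 + t ^ 8 / 40320 + t ^ 9 / 362880) := by
  have h := Real.sum_le_exp_of_nonneg ht 10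
  simp only [Finset.sum_range_succ, Finset.sum_range_zero, Nat.factorial] at h
  norm_num at h
  rw [Real.exp_neg, ← one_div]
  apply one_div_le_one_div_of_le (by positivity)
  linarith

/-- the basic monotone quotient -/
theorem Num_quot {x z : ℝ} (n : ℕ) (h0 : 0 ≤ x) (hxz : x ≤ z) (h1 : z < 1) :
    x ^ n / (1 - x ^ 2) ≤ z ^ n / (1 - z ^ 2) := by
  have hz : 0 ≤ z := h0.trans hxz
  have h2 : 0 < 1 - z ^ 2 := by nlinarith
  have h3 : 1 - z ^ 2 ≤ 1 - x ^ 2 := by nlinarith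
  exact div_le_div₀ (by positivity) (pow_le_pow_left₀ h0 hxz n) h2 h3

theorem Num_quot0 {x : ℝ} (n : ℕ) (h0 : 0 ≤ x) (h1 : x < 1) : 0 ≤ x ^ n / (1 - x ^ 2) := by
  have h2 : 0 < 1 - x ^ 2 := by nlinarith
  positivity

theorem Num_c03 (hm : 0 < m) : 0 ≤ c03 m := by
  unfold c03; positivity

theorem Num_fE0 {x : ℝ} (h0 : 0 ≤ x) (h1 : x < 1) : 0 ≤ fE x := by
  have h2 : 0 < 1 - x ^ 2 := by nlinarith
  unfold fE; positivity

theorem Num_fO0 {x : ℝ} (h0 : 0 ≤ x) (h1 : x < 1) : 0 ≤ fO x := by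
  have h2 : 0 < 1 - x ^ 2 := by nlinarith
  unfold fO; positivity

theorem Num_gE0 {x : ℝ} (h0 : 0 ≤ x) (h1 : x < 1) : 0 ≤ gE x := by
  have h2 : 0 < 1 - x ^ 2 := by nlinarith
  unfold gE; positivity

theorem Num_gO0 {x : ℝ} (h0 : 0 ≤ x) (h1 : x < 1) : 0 ≤ gO x := by
  have h2 : 0 < 1 - x ^ 2 := by nlinarith
  unfold gO; positivity

theorem Num_f10 {x : ℝ} (hm : 0 < m) (h0 : 0 ≤ x) (h1 : x < 1) : 0 ≤ f1 m x := by
  have h2 : 0 < 1 - x ^ 2 := by nlinarith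
  unfold f1; positivity

theorem Num_f20 {x : ℝ} (hm : 0 < m) (h0 : 0 ≤ x) (h1 : x < 1) : 0 ≤ f2 m x := by
  have h2 : 0 < 1 - x := by linarith
  unfold f2; positivity

theorem Num_fE {x z : ℝ} (h0 : 0 ≤ x) (hxz : x ≤ z) (h1 : z < 1) : fE x ≤ fE z := by
  have h := Num_quot 3 h0 hxz h1
  unfold fE
  rw [mul_div_assoc, mul_div_assoc]
  linarith

theorem Num_fO {x z : ℝ} (h0 : 0 ≤ x) (hxz : x ≤ z) (h1 : z < 1) : fO x ≤ fO z := by
  have h := Num_quot 4 h0 hxz h1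
  have h2 := pow_le_pow_left₀ h0 hxz 2
  unfold fO
  rw [mul_div_assoc, mul_div_assoc]
  linarith

theorem Num_gE {x z : ℝ} (h0 : 0 ≤ x) (hxz : x ≤ z) (h1 : z < 1) : gE x ≤ gE z := by
  have h := Num_quot 3 h0 hxz h1
  unfold gE
  rw [mul_div_assoc, mul_div_assoc]
  linarith

theorem Num_gO {x z : ℝ} (h0 : 0 ≤ x) (hxz : x ≤ z) (h1 : z < 1) : gO x ≤ gO z := by
  have h := Num_quot 1 h0 hxz h1
  have h2 := Num_quot 2 h0 hxz h1
  simp only [pow_one] at h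
  unfold gO
  rw [add_div, add_div, mul_div_assoc, mul_div_assoc, mul_div_assoc, mul_div_assoc]
  linarith

theorem Num_f1 {x z : ℝ} (h0 : 0 ≤ x) (hxz : x ≤ z) (h1 : z < 1) : f1 m x ≤ f1 m z := by
  have h := Num_quot 1 h0 hxz h1
  have h2 := Num_quot 2 h0 hxz h1
  simp only [pow_one] at h
  unfold f1
  have e : ∀ w : ℝ, 2.118 * (w + 2 * w ^ 2) / (1 - w ^ 2) =
      2.118 * (w / (1 - w ^ 2)) + 4.236 * (w ^ 2 / (1 - w ^ 2)) := by
    intro w; ring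
  rw [e, e]
  linarith

theorem Num_f2 {x z : ℝ} (h0 : 0 ≤ x) (hxz : x ≤ z) (h1 : z < 1) : f2 m x ≤ f2 m z := by
  have hz : 0 ≤ z := h0.trans hxz
  have h2 : 0 < 1 - z := by linarith
  have h3 : 1 - z ≤ 1 - x := by linarith
  have h4 : 0 < 1 - x := by linarith
  have a1 : 5 / (1 - x) ≤ 5 / (1 - z) := div_le_div_of_nonneg_left (by norm_num) h2 h3
  have a2 : x / (1 - x) ^ 2 ≤ z / (1 - z) ^ 2 :=
    div_le_div₀ hz hxz (by positivity) (pow_le_pow_left₀ h2.le h3 2)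
  have a3 : x ^ 2 ≤ z ^ 2 := pow_le_pow_left₀ h0 hxz 2
  have a4 : x ^ 2 * (5 / (1 - x) + x / (1 - x) ^ 2) ≤ z ^ 2 * (5 / (1 - z) + z / (1 - z) ^ 2) :=
    mul_le_mul a3 (add_le_add a1 a2) (by positivity) (by positivity)
  unfold f2
  rw [mul_assoc 1.48, mul_assoc 1.48]
  linarith

theorem Num_e1 (ha : 0 < a) : exp (-a) < 1 := Real.exp_lt_one_iff.2 (by linarith)

theorem Num_ea (hab : a ≤ b) : exp (-b) ≤ exp (-a) := Real.exp_le_exp.2 (by linarith)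

theorem Num_em (hm : 0 < m) (hab : a ≤ b) : exp (-(m * b)) ≤ exp (-(m * a)) :=
  Real.exp_le_exp.2 (by nlinarith)

/-- evaluation of a product bound -/
theorem Num_ev {e E s S : ℝ} (he : 0 ≤ e) (hE : e ≤ E) (hs : 0 ≤ s) (hS : s ≤ S) :
    e * s / π ≤ E * S / 3.1415 := by
  have h1 : e * s ≤ E * S := mul_le_mul hE hS hs (he.trans hE)
  have h2 : (3.1415 : ℝ) ≤ π := Real.pi_gt_d4.le
  exact div_le_div₀ ((mul_nonneg he hs).trans h1) h1 (by norm_num) h2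

theorem Num_pi2 : 4 / π ^ 2 ≤ (0.40531 : ℝ) := by
  have h2 : (3.1415 : ℝ) ≤ π := Real.pi_gt_d4.le
  rw [div_le_iff₀ (by positivity)]
  nlinarith

theorem bf_nonneg (hm : 0 < m) (ha : 0 < a) : 0 ≤ bf m a := by
  have h1 := Num_c03 hm
  have h2 := Num_fE0 (exp_pos (-a)).le (Num_e1 ha)
  have h3 := Num_fO0 (exp_pos (-a)).le (Num_e1 ha)
  unfold bf; positivity

theorem bg_nonneg (hm : 0 < m) (ha : 0 < a) : 0 ≤ bg m a := by
  have h1 := Num_c03 hm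
  have h3 := Num_fO0 (exp_pos (-a)).le (Num_e1 ha)
  unfold bg; positivity

theorem bg_le_bf (hm : 0 < m) (ha : 0 < a) : bg m a ≤ bf m a := by
  have _h := hm
  have h2 := Num_fE0 (exp_pos (-a)).le (Num_e1 ha)
  unfold bf bg
  apply div_le_div_of_nonneg_right _ Real.pi_pos.le
  apply mul_le_mul_of_nonneg_left _ (exp_pos _).le
  linarith

theorem Num_bf_shift (ha : 0 < a) (ht : 0 ≤ t) :
    bf m (a + t) ≤ bf m a * exp (-(m * t)) := by
  have hx : exp (-(a + t)) ≤ exp (-a) := Num_ea (by linarith)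
  have h2 := Num_fE (exp_pos _).le hx (Num_e1 ha)
  have h3 := Num_fO (exp_pos _).le hx (Num_e1 ha)
  have e : exp (-(m * (a + t))) = exp (-(m * a)) * exp (-(m * t)) := by
    rw [← Real.exp_add]; congr 1; ring
  unfold bf
  rw [e, div_mul_eq_mul_div]
  apply div_le_div_of_nonneg_right _ Real.pi_pos.le
  rw [mul_right_comm]
  apply mul_le_mul_of_nonneg_right _ (exp_pos _).le
  apply mul_le_mul_of_nonneg_left _ (exp_pos _).le
  linarith

theorem Num_bg_shift (ha : 0 < a) (ht : 0 ≤ t) :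
    bg m (a + t) ≤ bg m a * exp (-(m * t)) := by
  have hx : exp (-(a + t)) ≤ exp (-a) := Num_ea (by linarith)
  have h3 := Num_fO (exp_pos _).le hx (Num_e1 ha)
  have e : exp (-(m * (a + t))) = exp (-(m * a)) * exp (-(m * t)) := by
    rw [← Real.exp_add]; congr 1; ring
  unfold bg
  rw [e, div_mul_eq_mul_div]
  apply div_le_div_of_nonneg_right _ Real.pi_pos.le
  rw [mul_right_comm]
  apply mul_le_mul_of_nonneg_right _ (exp_pos _).le
  apply mul_le_mul_of_nonneg_left _ (exp_pos _).le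
  linarith

theorem bf_anti (hm : 0 < m) (ha : 0 < a) (hab : a ≤ b) : bf m b ≤ bf m a := by
  have h := Num_bf_shift (m := m) ha (sub_nonneg.2 hab)
  rw [add_sub_cancel] at h
  have h1 : exp (-(m * (b - a))) ≤ 1 := Real.exp_le_one_iff.2 (by nlinarith)
  exact h.trans (mul_le_of_le_one_right (bf_nonneg hm ha) h1)

theorem bg_anti (hm : 0 < m) (ha : 0 < a) (hab : a ≤ b) : bg m b ≤ bg m a := by
  have h := Num_bg_shift (m := m) ha (sub_nonneg.2 hab)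
  rw [add_sub_cancel] at h
  have h1 : exp (-(m * (b - a))) ≤ 1 := Real.exp_le_one_iff.2 (by nlinarith)
  exact h.trans (mul_le_of_le_one_right (bg_nonneg hm ha) h1)

theorem bR_shift (hm : 0 < m) (ha : 0 < a) (ht : 0 ≤ t) :
    bR m (a + t) ≤ bR m a * exp (-(m * t)) := by
  have _h := hm
  unfold bR
  rw [add_mul]
  exact add_le_add (Num_bf_shift ha ht) (Num_bg_shift ha ht)

theorem epsE_anti (hm : 0 < m) (ha : 0 < a) (hab : a ≤ b) : epsE m b ≤ epsE m a := by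
  have hx := Num_ea hab
  unfold epsE
  apply mul_le_mul_of_nonneg_left _ (by positivity)
  exact mul_le_mul (Num_em hm hab) (Num_gE (exp_pos _).le hx (Num_e1 ha))
    (Num_gE0 (exp_pos _).le (Num_e1 (ha.trans_le hab))) (exp_pos _).le

theorem epsO_anti (hm : 0 < m) (ha : 0 < a) (hab : a ≤ b) : epsO m b ≤ epsO m a := by
  have hx := Num_ea hab
  unfold epsO
  apply mul_le_mul_of_nonneg_left _ (by positivity)
  exact mul_le_mul (Num_em hm hab) (Num_gO (exp_pos _).le hx (Num_e1 ha))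
    (Num_gO0 (exp_pos _).le (Num_e1 (ha.trans_le hab))) (exp_pos _).le

theorem bf_le {E x : ℝ} (hm : 0 < m) (hE : exp (-(m * a)) ≤ E) (hx : exp (-a) ≤ x) (h1 : x < 1) :
    bf m a ≤ E * (c03 m + fE x + fO x) / 3.1415 := by
  have h0 := (exp_pos (-a)).le
  have h2 := hx.trans_lt h1
  have a1 := Num_c03 hm
  have a2 := Num_fE0 h0 h2
  have a3 := Num_fO0 h0 h2
  have a4 := Num_fE h0 hx h1
  have a5 := Num_fO h0 hx h1
  exact Num_ev (exp_pos _).le hE (by linarith) (by linarith)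

theorem bg_le {E x : ℝ} (hm : 0 < m) (hE : exp (-(m * a)) ≤ E) (hx : exp (-a) ≤ x) (h1 : x < 1) :
    bg m a ≤ E * (c03 m + fO x) / 3.1415 := by
  have h0 := (exp_pos (-a)).le
  have h2 := hx.trans_lt h1
  have a1 := Num_c03 hm
  have a3 := Num_fO0 h0 h2
  have a5 := Num_fO h0 hx h1
  exact Num_ev (exp_pos _).le hE (by linarith) (by linarith)

theorem bR1_le {E x : ℝ} (hm : 0 < m) (hE : exp (-(m * a)) ≤ E) (hx : exp (-a) ≤ x) (h1 : x < 1) :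
    bR1 m a ≤ E * f1 m x / 3.1415 := by
  have h0 := (exp_pos (-a)).le
  exact Num_ev (exp_pos _).le hE (Num_f10 hm h0 (hx.trans_lt h1)) (Num_f1 h0 hx h1)

theorem bR2_le {E x : ℝ} (hm : 0 < m) (hE : exp (-(m * a)) ≤ E) (hx : exp (-a) ≤ x) (h1 : x < 1) :
    bR2 m a ≤ E * f2 m x / 3.1415 := by
  have h0 := (exp_pos (-a)).le
  exact Num_ev (exp_pos _).le hE (Num_f20 hm h0 (hx.trans_lt h1)) (Num_f2 h0 hx h1)

theorem epsE_le {E x : ℝ} (hE : exp (-(m * a)) ≤ E) (hx : exp (-a) ≤ x) (h1 : x < 1) :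
    epsE m a ≤ 0.40531 * (E * gE x) := by
  have h0 := (exp_pos (-a)).le
  have a1 := Num_gE0 h0 (hx.trans_lt h1)
  unfold epsE
  exact mul_le_mul Num_pi2 (mul_le_mul hE (Num_gE h0 hx h1) a1 ((exp_pos _).le.trans hE))
    (mul_nonneg (exp_pos _).le a1) (by norm_num)

theorem epsO_le {E x : ℝ} (hE : exp (-(m * a)) ≤ E) (hx : exp (-a) ≤ x) (h1 : x < 1) :
    epsO m a ≤ 0.40531 * (E * gO x) := by
  have h0 := (exp_pos (-a)).le
  have a1 := Num_gO0 h0 (hx.trans_lt h1)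
  unfold epsO
  exact mul_le_mul Num_pi2 (mul_le_mul hE (Num_gO h0 hx h1) a1 ((exp_pos _).le.trans hE))
    (mul_nonneg (exp_pos _).le a1) (by norm_num)

theorem far_le : bf 2.236 1.035 + bg 2.236 1.82 ≤ 0.046 := by
  have e1 : exp (-((2.236 : ℝ) * 1.035)) ≤ 0.0995 :=
    (expn_le (by norm_num)).trans (by norm_num)
  have e2 : exp (-(1.035 : ℝ)) ≤ 0.356 := (expn_le (by norm_num)).trans (by norm_num)
  have e3 : exp (-((2.236 : ℝ) * 1.82)) ≤ 0.0175 :=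
    (expn_le (by norm_num)).trans (by norm_num)
  have e4 : exp (-(1.82 : ℝ)) ≤ 0.163 := (expn_le (by norm_num)).trans (by norm_num)
  have h1 := bf_le (m := 2.236) (a := 1.035) (by norm_num) e1 e2 (by norm_num)
  have h2 := bg_le (m := 2.236) (a := 1.82) (by norm_num) e3 e4 (by norm_num)
  have h3 : (0.0995 : ℝ) * (c03 2.236 + fE 0.356 + fO 0.356) / 3.1415 ≤ 0.0403 := by
    unfold c03 fE fO; norm_num
  have h4 : (0.0175 : ℝ) * (c03 2.236 + fO 0.163) / 3.1415 ≤ 0.0056 := by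
    unfold c03 fO; norm_num
  linarith

theorem Num_div_sqrt {l2 a0 k : ℝ} (hl : 0 < lam) (h2 : lam ≤ l2) (hk : 0 ≤ k)
    (ha : a0 ^ 2 * l2 ≤ k ^ 2) : a0 ≤ k / √lam := by
  have hs : 0 < √lam := Real.sqrt_pos.2 hl
  rw [le_div_iff₀ hs]
  refine (abs_le_of_sq_le_sq' ?_ hk).2
  rw [mul_pow, Real.sq_sqrt hl.le]
  nlinarith [sq_nonneg a0]

theorem rg_of {l1 l2 a0 b0 mlo M2 mu1 u1 u2 : ℝ} (h1 : l1 ≤ lam) (h2 : lam ≤ l2) (h0 : 2 ≤ l1)
    (hm1 : 2.236 ≤ m) (hm2 : m ^ 2 ≤ 9 - l2) (ha : a0 ^ 2 * l2 ≤ 2.07 ^ 2) (hb : b0 ^ 2 * l2 ≤ 0.5 ^ 2)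
    (hb0 : 0 < b0) (hba : b0 ≤ a0) (hlo0 : 0 ≤ mlo) (hlo : mlo ^ 2 ≤ 4 - l2) (hM : 4 - l1 ≤ M2)
    (hM2 : M2 ≤ 2) (hmu : 1 ≤ mu1) (hmu' : mu1 ^ 2 ≤ u1) (hu1 : u1 ≤ l1 - 1) (hu2 : l2 - 1 ≤ u2) :
    Rg lam m a0 b0 mlo M2 mu1 u1 u2 := by
  have hl : 0 < lam := by linarith
  refine ⟨hm1, ?_, Num_div_sqrt hl h2 (by norm_num) ha, Num_div_sqrt hl h2 (by norm_num) hb, hb0,
    hba, hlo0, ?_, by linarith, hM2, hmu, hmu', by linarith, by linarith⟩
  · unfold mm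
    apply Real.le_sqrt_of_sq_le
    push_cast
    linarith
  · unfold mm
    apply Real.le_sqrt_of_sq_le
    push_cast
    linarith

end Pool.Agent.L2Q
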