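import Pool.Agent.P.MP_2f6447_an.Q.Arc
import Pool.Agent.P.MP_2f6447_an.Q.Wst

/-! Reflection in the midline. fy is an involutive isometry and homeomorphism (fy z = π I + conj z; K/HelmD: `Helm.of_sim`, `Helm.of_conj`, `grad_conj`, `grad_sim`, or fy = rf M I with M = π/2 I and `grad_rf`, `Helm.of_rf`, `measurePreserving_rf`, `integral_comp_rf`).
grad (u ∘ fy) z = conj (grad u (fy z)). deriv (fun y => r (π - y)) y = -deriv r (π - y) (`deriv_comp_const_sub`). `Homeomorph.preimage_closure`; `integral_sub_left_eq_self` for the chord. Import K.HelmD, K.Basic. -/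

open Set MeasureTheory Filter Topology Real
open scoped ComplexConjugate

namespace Pool.Agent.L2Q

open Pool.Agent.L2K

variable {Ω : Set ℂ} {lam nT nB m a b x y : ℝ} {u : ℂ → ℝ} {G : ℂ → ℂ} {l r : ℝ → ℝ} {j : ℕ}

theorem gt_flipY (G : ℂ → ℂ) : gt (fun z => conj (G (fy z))) = gb G := by sorry

theorem gb_flipY (G : ℂ → ℂ) : gb (fun z => conj (G (fy z))) = gt G := by sorry

theorem QD.flipY (h : QD Ω lam u G l r nT nB) : QD (fy ⁻¹' Ω) lam (fun z => u (fy z)) (fun z => conj (G (fy z)))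
    (fun y => l (π - y)) (fun y => r (π - y)) nB nT := by sorry

theorem UU_flipY (lam : ℝ) (r : ℝ → ℝ) : UU lam (fun y => r (π - y)) = UU lam r := by sorry

theorem VV_flipY (lam : ℝ) (r : ℝ → ℝ) (x : ℝ) : VV lam (fun y => r (π - y)) x = -VV lam r x := by sorry

theorem am_flipY (u : ℂ → ℝ) (j : ℕ) (x : ℝ) :
    am (fun z => u (fy z)) j x = (-1) ^ (j + 1) * am u j x := by sorry

theorem xL_flipY (l : ℝ → ℝ) : xL (fun y => l (π - y)) = xL l := by sorry

theorem xR_flipY (r : ℝ → ℝ) : xR (fun y => r (π - y)) = xR r := by sorry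

theorem Sz.flipY (s : Sz l r a b) : Sz (fun y => l (π - y)) (fun y => r (π - y)) a b := by sorry

end Pool.Agent.L2Q
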