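import Pool.Agent.P.MP_2f6447_an.Q.Kb3
import Pool.Agent.P.MP_2f6447_an.Q.Wst
import Pool.Agent.P.MP_2f6447_an.Q.FlipY

/-! Lengths of the segments. Wall.reach with K = 1.61 √lam, 3.346/1.61 ≥ 2.07; top by flipY. √2 ≤ √lam < 2. -/

open Set MeasureTheory Filter Topology Real
open scoped ComplexConjugate

namespace Pool.Agent.L2Q

open Pool.Agent.L2K

variable {Ω : Set ℂ} {lam nT nB m a b x y : ℝ} {u : ℂ → ℝ} {G : ℂ → ℂ} {l r : ℝ → ℝ} {j : ℕ}

theorem QD.len_bot (h : QD Ω lam u G l r nT nB) : 2.07 / √lam ≤ r 0 - l 0 := by sorry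

theorem QD.len_top (h : QD Ω lam u G l r nT nB) : 2.07 / √lam ≤ r π - l π := by sorry

theorem QD.gb_le (h : QD Ω lam u G l r nT nB) (hx : x ∈ Icc (l 0) (r 0)) : gb G x ≤ -1 + 1.61 * √lam * (x - l 0) := by sorry

theorem St.area {xs B d : ℝ} (h : QD Ω lam u G l r nT nB) (S : St lam l r xs B d) : lam * d ≤ 6.103 := by sorry

theorem inv_sqrt_ge (h2 : 2 ≤ lam) (hl : lam < 4) {c : ℝ} (hc : 0 ≤ c) : c / 2 ≤ c / √lam := by sorry

end Pool.Agent.L2Q
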