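import Pool.Agent.P.MP_2f6447_an.Q.Wallf
import Pool.Agent.P.MP_2f6447_an.Q.KC
import Pool.Agent.P.MP_2f6447_an.Q.KB
import Pool.Agent.P.MP_2f6447_an.Q.Calib
import Pool.Agent.P.MP_2f6447_an.Q.Ser3
import Pool.Agent.P.MP_2f6447_an.Q.Num
import Pool.Agent.P.MP_2f6447_an.Q.Flux
import Pool.Agent.P.MP_2f6447_an.Q.Reach
import Pool.Agent.P.MP_2f6447_an.Q.FlipX

/-! The second mode at the outer junctions when the diagonal r π - l 0 is short. x = r 0; r π < r 0, QD.cross gives c; chord set = Ioo 0 c (l y ≤ xL < x). Distances of the left arc: r 0 - l 0 ≥ 2.07/√lam ≥ 1.035, r 0 - l π ≥ 3.64/√lam ≥ 1.82.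
bet_bR: repj, EI_junc, EI_abs. end_bR: c ≥ π/2; suppose ψ = -am 2 ≥ psi; wall_le with KC_A/B/C (c ≥ 2π/3; 0.6π ≤ c ≤ 2π/3; π/2 ≤ c ≤ 0.6π), KB (m = 2.236), far_le: am 1 ≥ κ + 2ψ, κ = 0.609, 0.467, 0.446; flux_end with ser_bet: right side ≤ 2c/π + (4-lam)ψ² + 1.14; End_num.
End_num: the left side is increasing in ψ ≥ 0; at ψ = psi put v = (4-lam)/lam ∈ (0,1], lam = 4/(1+v): (3-v)(κ+2ψ)² - 4vψ² > R(1+v), a polynomial inequality in v (margins ≥ 4 percent).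
tL: apply to h.flipX.flipY (am_flipX, am_flipY). -/

open Set MeasureTheory Filter Topology Real
open scoped ComplexConjugate

namespace Pool.Agent.L2Q

open Pool.Agent.L2K

variable {Ω : Set ℂ} {lam nT nB m a b x y : ℝ} {u : ℂ → ℝ} {G : ℂ → ℂ} {l r : ℝ → ℝ} {j : ℕ}

theorem End_num (h2 : 2 ≤ lam) (hl : lam < 4) {ψ : ℝ} (hψ : psi lam ≤ ψ) :
    3.14 < (lam - 1) * (0.609 + 2 * ψ) ^ 2 - (4 - lam) * ψ ^ 2 ∧
    2.474 < (lam - 1) * (0.467 + 2 * ψ) ^ 2 - (4 - lam) * ψ ^ 2 ∧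
    2.34 < (lam - 1) * (0.446 + 2 * ψ) ^ 2 - (4 - lam) * ψ ^ 2 := by sorry

theorem QD.bet_bR (h : QD Ω lam u G l r nT nB) (hN : r π - l 0 ≤ 0.5 / √lam) (hj : 3 ≤ j) :
    |π * mm lam j * am u j (r 0)| ≤ bet lam j := by sorry

theorem QD.end_bR (h : QD Ω lam u G l r nT nB) (hN : r π - l 0 ≤ 0.5 / √lam) (h1 : r 0 ≤ r (π / 2)) :
    -am u 2 (r 0) ≤ psi lam := by sorry

theorem QD.bet_tL (h : QD Ω lam u G l r nT nB) (hN : r π - l 0 ≤ 0.5 / √lam) (hj : 3 ≤ j) :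
    |π * mm lam j * am u j (l π)| ≤ bet lam j := by sorry

theorem QD.end_tL (h : QD Ω lam u G l r nT nB) (hN : r π - l 0 ≤ 0.5 / √lam) (h1 : l (π / 2) ≤ l π) :
    -am u 2 (l π) ≤ psi lam := by sorry

end Pool.Agent.L2Q
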