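import Pool.Agent.P.MP_2f6447_an.Q.Defs

/-! Closed forms of the Abel sums of the modes `j ≥ 3`. -/

open Set MeasureTheory Filter Topology Real

namespace Pool.Agent.L2Q

open Pool.Agent.L2K

variable {lam q ρ y t a b c m : ℝ} {j : ℕ} {ξ p : ℝ → ℝ}

theorem den_pos (hq : q ∈ Ioo (0 : ℝ) 1) (hc : c ≤ 1) : 0 < 1 - 2 * q * c + q ^ 2 := by
  obtain ⟨h0, h1⟩ := hq
  have h2 : 0 < (1 - q) ^ 2 := pow_pos (by linarith) 2
  nlinarith [mul_nonneg h0.le (sub_nonneg.2 hc)]

/-- the complex geometric series -/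
theorem FG_geo (hq : q ∈ Ioo (0 : ℝ) 1) (y : ℝ) :
    HasSum (fun k : ℕ => ((q : ℂ) * Complex.exp (y * Complex.I)) ^ (k + 3))
      (((q : ℂ) * Complex.exp (y * Complex.I)) ^ 3 *
        (1 - (q : ℂ) * Complex.exp (y * Complex.I))⁻¹) := by
  have hn : ‖(q : ℂ) * Complex.exp (y * Complex.I)‖ < 1 := by
    rw [norm_mul, Complex.norm_exp_ofReal_mul_I, mul_one, Complex.norm_real, Real.norm_eq_abs,
      abs_of_pos hq.1]
    exact hq.2
  have h := (hasSum_geometric_of_norm_lt_one hn).mul_left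
    (((q : ℂ) * Complex.exp (y * Complex.I)) ^ 3)
  have e : (fun k : ℕ => ((q : ℂ) * Complex.exp (y * Complex.I)) ^ (k + 3)) =
      fun k : ℕ => ((q : ℂ) * Complex.exp (y * Complex.I)) ^ 3 *
        ((q : ℂ) * Complex.exp (y * Complex.I)) ^ k := by
    funext k
    rw [pow_add, mul_comm]
  rw [e]
  exact h

theorem FG_pow (q y : ℝ) (n : ℕ) :
    ((q : ℂ) * Complex.exp (y * Complex.I)) ^ n =
      ⟨q ^ n * cos (n * y), q ^ n * sin (n * y)⟩ := by
  rw [mul_pow, ← Complex.exp_nat_mul]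
  have h : (n : ℂ) * (y * Complex.I) = ((n * y : ℝ) : ℂ) * Complex.I := by
    push_cast; ring
  rw [h, ← Complex.ofReal_pow]
  apply Complex.ext
  · simp only [Complex.re_ofReal_mul, Complex.exp_ofReal_mul_I_re]
  · simp only [Complex.im_ofReal_mul, Complex.exp_ofReal_mul_I_im]

theorem FG_inv (hq : q ∈ Ioo (0 : ℝ) 1) (y : ℝ) :
    (1 - (q : ℂ) * Complex.exp (y * Complex.I))⁻¹ =
      ⟨(1 - q * cos y) / (1 - 2 * q * cos y + q ^ 2),
        q * sin y / (1 - 2 * q * cos y + q ^ 2)⟩ := by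
  have hD := (den_pos hq (cos_le_one y)).ne'
  have hs := sin_sq_add_cos_sq y
  apply inv_eq_of_mul_eq_one_right
  apply Complex.ext
  · simp only [Complex.mul_re, Complex.mul_im, Complex.sub_re, Complex.sub_im, Complex.one_re,
      Complex.one_im, Complex.ofReal_re, Complex.ofReal_im, Complex.exp_ofReal_mul_I_re,
      Complex.exp_ofReal_mul_I_im]
    generalize hDe : 1 - 2 * q * cos y + q ^ 2 = E at hD
    field_simp
    linear_combination q ^ 2 * hs + hDe
  · simp only [Complex.mul_re, Complex.mul_im, Complex.sub_re, Complex.sub_im, Complex.one_re,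
      Complex.one_im, Complex.ofReal_re, Complex.ofReal_im, Complex.exp_ofReal_mul_I_re,
      Complex.exp_ofReal_mul_I_im]
    field_simp
    ring

theorem FG_sin3 (y : ℝ) : sin (3 * y) = sin y * (4 * cos y ^ 2 - 1) := by
  rw [sin_three_mul]
  linear_combination (-4 * sin y) * sin_sq_add_cos_sq y

theorem hasSum_Fc (hq : q ∈ Ioo (0 : ℝ) 1) (y : ℝ) :
    HasSum (fun k : ℕ => q ^ (k + 3) * (cos ((k + 3 : ℕ) * y) - (-1) ^ (k + 3)))
      (q ^ 3 * Fr q (cos y)) := by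
  have h1 := Complex.hasSum_re (FG_geo hq y)
  have hn : |(-q)| < 1 := by rw [abs_neg, abs_of_pos hq.1]; exact hq.2
  have h2 := (hasSum_geometric_of_abs_lt_one hn).mul_left ((-q) ^ 3)
  have h3 := h1.sub h2
  have hD := (den_pos hq (cos_le_one y)).ne'
  have hE : (1 + q) ≠ 0 := by have := hq.1; positivity
  have hs := sin_sq_add_cos_sq y
  have e1 : (fun k : ℕ => q ^ (k + 3) * (cos ((k + 3 : ℕ) * y) - (-1) ^ (k + 3))) =
      fun k : ℕ => (((q : ℂ) * Complex.exp (y * Complex.I)) ^ (k + 3)).re -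
        (-q) ^ 3 * (-q) ^ k := by
    funext k
    rw [FG_pow, ← pow_add, add_comm 3 k, neg_pow q]
    ring
  have e2 : q ^ 3 * Fr q (cos y) =
      (((q : ℂ) * Complex.exp (y * Complex.I)) ^ 3 *
        (1 - (q : ℂ) * Complex.exp (y * Complex.I))⁻¹).re - (-q) ^ 3 * (1 - -q)⁻¹ := by
    rw [FG_pow, FG_inv hq]
    simp only [Complex.mul_re, Fr, sub_neg_eq_add]
    rw [show ((3 : ℕ) : ℝ) = 3 by norm_num, cos_three_mul, FG_sin3]
    generalize hDe : 1 - 2 * q * cos y + q ^ 2 = E at hD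
    field_simp
    linear_combination (q ^ 4 * (1 + q) * (4 * cos y ^ 2 - 1)) * hs + q ^ 3 * hDe
  rw [e1, e2]
  exact h3

theorem hasSum_Gc (hq : q ∈ Ioo (0 : ℝ) 1) (y : ℝ) :
    HasSum (fun k : ℕ => q ^ (k + 3) * sin ((k + 3 : ℕ) * y))
      (q ^ 3 * Gr' q (cos y) (sin y)) := by
  have h1 := Complex.hasSum_im (FG_geo hq y)
  have hD := (den_pos hq (cos_le_one y)).ne'
  have e1 : (fun k : ℕ => q ^ (k + 3) * sin ((k + 3 : ℕ) * y)) =
      fun k : ℕ => (((q : ℂ) * Complex.exp (y * Complex.I)) ^ (k + 3)).im := by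
    funext k
    rw [FG_pow]
  have e2 : q ^ 3 * Gr' q (cos y) (sin y) =
      (((q : ℂ) * Complex.exp (y * Complex.I)) ^ 3 *
        (1 - (q : ℂ) * Complex.exp (y * Complex.I))⁻¹).im := by
    rw [FG_pow, FG_inv hq]
    simp only [Complex.mul_im, Gr']
    rw [show ((3 : ℕ) : ℝ) = 3 by norm_num, cos_three_mul, FG_sin3]
    field_simp
    ring
  rw [e1, e2]
  exact h1

end Pool.Agent.L2Q
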