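import Pool.Agent.P.MP_2f6447_an.Q.Bas

/-! Series bounds, part 2. -/

open Set MeasureTheory Filter Topology Real

namespace Pool.Agent.L2Q

open Pool.Agent.L2K

variable {lam q ρ y t a b c m : ℝ} {j : ℕ} {ξ p : ℝ → ℝ}

theorem Ser2_cmp {f g : ℕ → ℝ} {S : ℝ} (h0 : ∀ k, 0 ≤ f k) (h : ∀ k, f k ≤ g k)
    (hg : HasSum g S) : Summable f ∧ ∑' k, f k ≤ S := by
  have hs : Summable f := Summable.of_nonneg_of_le h0 h hg.summable
  exact ⟨hs, hasSum_le h hs.hasSum hg⟩

theorem Ser2_alt {x : ℝ} (h0 : 0 ≤ x) (h1 : x < 1) (s : ℕ) :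
    HasSum (fun k : ℕ => if s ≤ k ∧ k % 2 = s % 2 then x ^ k else 0) (x ^ s / (1 - x ^ 2)) := by
  have hinj : Function.Injective (fun i : ℕ => 2 * i + s) := by
    intro i j h
    simp only at h
    omega
  rw [← hinj.hasSum_iff]
  · have hx : x ^ 2 < 1 := by nlinarith
    have hg := (hasSum_geometric_of_lt_one (sq_nonneg x) hx).mul_left (x ^ s)
    rw [div_eq_mul_inv]
    have he : ((fun k : ℕ => if s ≤ k ∧ k % 2 = s % 2 then x ^ k else 0) ∘ fun i : ℕ => 2 * i + s) =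
        fun i : ℕ => x ^ s * (x ^ 2) ^ i := by
      funext i
      simp only [Function.comp]
      rw [if_pos ⟨by omega, by omega⟩, pow_add, pow_mul, mul_comm]
    rw [he]
    exact hg
  · intro k hk
    rw [if_neg]
    rintro ⟨h1, h2⟩
    exact hk ⟨(k - s) / 2, by simp only; omega⟩

theorem Ser2_lin {x : ℝ} (h0 : 0 ≤ x) (h1 : x < 1) :
    HasSum (fun k : ℕ => if 2 ≤ k then ((k : ℝ) + 3) * x ^ k else 0)
      (x ^ 2 * (5 / (1 - x) + x / (1 - x) ^ 2)) := by
  have hinj : Function.Injective (fun i : ℕ => i + 2) := by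
    intro i j h
    simp only at h
    omega
  rw [← hinj.hasSum_iff]
  · have hn : ‖x‖ < 1 := by rw [Real.norm_eq_abs, abs_of_nonneg h0]; exact h1
    have hg := (((hasSum_geometric_of_lt_one h0 h1).mul_left 5).add
      (hasSum_coe_mul_geometric_of_norm_lt_one hn)).mul_left (x ^ 2)
    have he : ((fun k : ℕ => if 2 ≤ k then ((k : ℝ) + 3) * x ^ k else 0) ∘ fun i : ℕ => i + 2) =
        fun i : ℕ => x ^ 2 * (5 * x ^ i + (i : ℝ) * x ^ i) := by
      funext i
      simp only [Function.comp]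
      rw [if_pos (by omega)]
      push_cast
      ring
    rw [he, div_eq_mul_inv 5]
    exact hg
  · intro k hk
    rw [if_neg]
    intro h1
    exact hk ⟨k - 2, by simp only; omega⟩

theorem Ser2_one (s : ℕ) (c : ℝ) : HasSum (fun k : ℕ => if k = s then c else 0) c :=
  hasSum_ite_eq s c

theorem Ser2_hh3 (hl : lam < 4) (hm : 2.236 ≤ m) (hm' : m ≤ mm lam 3) :
    hh lam 3 ≤ 2 / 3 + 0.2646 / m ^ 2 := by
  have h1 := mm_sq hl (j := 3) (by norm_num)
  have h2 : m ^ 2 ≤ mm lam 3 ^ 2 := by nlinarith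
  have h3 : 0 < m ^ 2 := by positivity
  unfold hh
  rw [← h1]
  have h4 : (0.2646 : ℝ) / mm lam 3 ^ 2 ≤ 0.2646 / m ^ 2 :=
    div_le_div_of_nonneg_left (by norm_num) h3 h2
  have h5 : (0.0882 : ℝ) * ((3 : ℕ) : ℝ) = 0.2646 := by norm_num
  rw [h5]
  have h6 : (2 : ℝ) / ((3 : ℕ) : ℝ) = 2 / 3 := by norm_num
  rw [h6]
  linarith

theorem Ser2_hh3' (hl : lam < 4) : hh lam 3 ≤ 0.72 := by
  unfold hh
  have h4 : (0.0882 : ℝ) * ((3 : ℕ) : ℝ) / (((3 : ℕ) : ℝ) ^ 2 - lam) ≤ 0.053 := by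
    rw [div_le_iff₀ (by push_cast; linarith)]
    push_cast
    linarith
  have h6 : (2 : ℝ) / ((3 : ℕ) : ℝ) ≤ 0.667 := by norm_num
  linarith

theorem Ser2_hh4 (hl : lam < 4) : hh lam 4 ≤ 0.5294 := by
  unfold hh
  have h4 : (0.0882 : ℝ) * ((4 : ℕ) : ℝ) / (((4 : ℕ) : ℝ) ^ 2 - lam) ≤ 0.0294 := by
    rw [div_le_iff₀ (by push_cast; linarith)]
    push_cast
    linarith
  have h6 : (2 : ℝ) / ((4 : ℕ) : ℝ) = 0.5 := by norm_num
  linarith

theorem Ser2_hh5 (hl : lam < 4) (hj : 5 ≤ j) : hh lam j ≤ 2.105 / j := by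
  have h5 : (5 : ℝ) ≤ j := by exact_mod_cast hj
  have hp : (0 : ℝ) < j := by linarith
  have hq : (25 : ℝ) ≤ (j : ℝ) ^ 2 := by nlinarith
  unfold hh
  have h4 : (0.0882 : ℝ) * j / ((j : ℝ) ^ 2 - lam) ≤ 0.105 / j := by
    rw [div_le_div_iff₀ (by linarith) hp]
    nlinarith
  have h6 : (2.105 : ℝ) / j = 2 / j + 0.105 / j := by ring
  linarith

theorem Ser2_hhc (hl : lam < 4) {i : ℕ} (hi : 5 ≤ i) (hj : i ≤ j) : hh lam j ≤ 2.105 / i := by
  have h5 : (5 : ℝ) ≤ i := by exact_mod_cast hi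
  have h6 : (i : ℝ) ≤ j := by exact_mod_cast hj
  exact (Ser2_hh5 hl (hi.trans hj)).trans
    (div_le_div_of_nonneg_left (by norm_num) (by linarith) h6)

theorem Ser2_mm5 (h2 : 2 ≤ lam) (hl : lam < 4) (hj : 5 ≤ j) : (j : ℝ) - 0.418 ≤ mm lam j := by
  obtain ⟨i, rfl⟩ : ∃ i, j = i + 5 := ⟨j - 5, by omega⟩
  have h1 := mm_add (by linarith) hl (j := 5) (by norm_num) i
  have h3 := (mm5_mem h2 hl).1
  push_cast
  linarith

theorem Ser2_od_odd (h : j % 2 = 1) : od j = 1 := by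
  unfold od
  rw [if_pos (Nat.odd_iff.2 h)]

theorem Ser2_od_even (h : j % 2 = 0) : od j = 0 := by
  unfold od
  rw [if_neg (by rw [Nat.odd_iff]; omega)]

theorem Ser2_coef (h2 : 2 ≤ lam) (hl : lam < 4) (hj : 5 ≤ j) :
    ((j : ℝ) ^ 3 - j) / 3 / mm lam j * hh lam j ≤ 0.74 * j := by
  have h5 : (5 : ℝ) ≤ j := by exact_mod_cast hj
  have hp : (0 : ℝ) < j := by linarith
  have h1 := Ser2_mm5 h2 hl hj
  have h3 := Ser2_hh5 hl hj
  have h4 : (0 : ℝ) ≤ ((j : ℝ) ^ 3 - j) / 3 := by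
    have : (j : ℝ) ^ 3 - j = j * ((j - 1) * (j + 1)) := by ring
    rw [this]
    have : (0 : ℝ) ≤ (j : ℝ) - 1 := by linarith
    positivity
  have h6 : ((j : ℝ) ^ 3 - j) / 3 / mm lam j ≤ ((j : ℝ) ^ 3 - j) / 3 / (j - 0.418) :=
    div_le_div_of_nonneg_left h4 (by linarith) h1
  have h7 : (0 : ℝ) ≤ ((j : ℝ) ^ 3 - j) / 3 / (j - 0.418) := div_nonneg h4 (by linarith)
  have h8 := mul_le_mul h6 h3 (hh_pos hl (by omega)).le h7
  refine h8.trans ?_
  have h9 : ((j : ℝ) ^ 3 - j) / 3 / (j - 0.418) * (2.105 / j) =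
      2.105 * ((j : ℝ) ^ 2 - 1) / (3 * (j - 0.418)) := by
    have : (j : ℝ) - 0.418 ≠ 0 := by linarith
    field_simp
  rw [h9, div_le_iff₀ (by linarith)]
  nlinarith [sq_nonneg ((j : ℝ) - 4)]

theorem ser_2 (h2 : 2 ≤ lam) (hl : lam < 4) (hm : 2.236 ≤ m) (hm' : m ≤ mm lam 3) (ha : 0 < a) :
    (Summable fun k : ℕ => (((k + 3 : ℕ) : ℝ) ^ 3 - (k + 3 : ℕ)) / 3 / mm lam (k + 3) *
      ((1 + od (k + 3)) * hh lam (k + 3) * ee lam (k + 3) a)) ∧
    ∑' k : ℕ, (((k + 3 : ℕ) : ℝ) ^ 3 - (k + 3 : ℕ)) / 3 / mm lam (k + 3) *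
      ((1 + od (k + 3)) * hh lam (k + 3) * ee lam (k + 3) a) ≤ π * bR2 m a := by
  have hx0 : 0 ≤ exp (-a) := (exp_pos _).le
  have hx1 : exp (-a) < 1 := Real.exp_lt_one_iff.2 (by linarith)
  have hE : 0 < exp (-(m * a)) := exp_pos _
  have hR : π * bR2 m a = exp (-(m * a)) * f2 m (exp (-a)) := by
    unfold bR2
    field_simp
  have hg := (((Ser2_one 0 (16 / m * (2 / 3 + 0.2646 / m ^ 2))).add
    (Ser2_one 1 (3.06 * exp (-a)))).add ((Ser2_lin hx0 hx1).mul_left 1.48)).mul_left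
      (exp (-(m * a)))
  have hS : exp (-(m * a)) * (16 / m * (2 / 3 + 0.2646 / m ^ 2) + 3.06 * exp (-a) +
      1.48 * (exp (-a) ^ 2 * (5 / (1 - exp (-a)) + exp (-a) / (1 - exp (-a)) ^ 2))) =
      π * bR2 m a := by
    rw [hR]
    unfold f2
    ring
  rw [hS] at hg
  have hnn : ∀ k : ℕ, 0 ≤ (((k + 3 : ℕ) : ℝ) ^ 3 - (k + 3 : ℕ)) / 3 / mm lam (k + 3) := by
    intro k
    have h3 : (3 : ℝ) ≤ ((k + 3 : ℕ) : ℝ) := by exact_mod_cast Nat.le_add_left 3 k
    refine div_nonneg (div_nonneg ?_ (by norm_num)) (mm_nonneg _ _)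
    have : ((k + 3 : ℕ) : ℝ) ^ 3 - (k + 3 : ℕ) =
        (k + 3 : ℕ) * ((((k + 3 : ℕ) : ℝ) - 1) * (((k + 3 : ℕ) : ℝ) + 1)) := by ring
    rw [this]
    have : (0 : ℝ) ≤ ((k + 3 : ℕ) : ℝ) - 1 := by linarith
    positivity
  refine Ser2_cmp (fun k => ?_) (fun k => ?_) hg
  · have h1 := od_nonneg (k + 3)
    have h3 := hh_pos hl (j := k + 3) (by omega)
    have h4 := ee_pos lam (k + 3) a
    exact mul_nonneg (hnn k) (by positivity)
  · have he := ee_le (by linarith) hl hm' ha.le k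
    have key : ∀ C : ℝ, (((k + 3 : ℕ) : ℝ) ^ 3 - (k + 3 : ℕ)) / 3 / mm lam (k + 3) *
        ((1 + od (k + 3)) * hh lam (k + 3)) ≤ C →
        (((k + 3 : ℕ) : ℝ) ^ 3 - (k + 3 : ℕ)) / 3 / mm lam (k + 3) *
          ((1 + od (k + 3)) * hh lam (k + 3) * ee lam (k + 3) a) ≤
            exp (-(m * a)) * (C * exp (-a) ^ k) := by
      intro C hC
      have h1 := od_nonneg (k + 3)
      have h3 := hh_pos hl (j := k + 3) (by omega)
      have h4 := ee_pos lam (k + 3) a
      have h5 : 0 ≤ (((k + 3 : ℕ) : ℝ) ^ 3 - (k + 3 : ℕ)) / 3 / mm lam (k + 3) *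
        ((1 + od (k + 3)) * hh lam (k + 3)) := mul_nonneg (hnn k) (by positivity)
      have h6 := mul_le_mul hC he h4.le (h5.trans hC)
      calc _ = (((k + 3 : ℕ) : ℝ) ^ 3 - (k + 3 : ℕ)) / 3 / mm lam (k + 3) *
            ((1 + od (k + 3)) * hh lam (k + 3)) * ee lam (k + 3) a := by ring
        _ ≤ _ := h6
        _ = _ := by ring
    rcases k with _ | _ | k
    · refine (key (16 / m * (2 / 3 + 0.2646 / m ^ 2)) ?_).trans (le_of_eq (by simp))
      have h1 := Ser2_hh3 hl hm hm'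
      have h3 := hh_pos hl (j := 3) (by norm_num)
      have hm0 : 0 < m := by linarith
      have h4 : (16 : ℝ) / mm lam 3 ≤ 16 / m := div_le_div_of_nonneg_left (by norm_num) hm0 hm'
      have h5 := mul_le_mul h4 h1 h3.le (by positivity)
      rw [Ser2_od_odd (j := 0 + 3) (by norm_num)]
      refine le_trans (le_of_eq ?_) h5
      norm_num
      ring
    · refine (key 3.06 ?_).trans (le_of_eq (by simp))
      have h1 := Ser2_hh4 hl
      have h3 := hh_pos hl (j := 4) (by norm_num)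
      have h4 : (20 : ℝ) / mm lam 4 ≤ 20 / 3.464 :=
        div_le_div_of_nonneg_left (by norm_num) (by norm_num) (mm4_mem h2 hl).1
      have h5 := mul_le_mul h4 h1 h3.le (by norm_num)
      rw [Ser2_od_even (j := 0 + 1 + 3) (by norm_num)]
      refine le_trans (le_of_eq ?_) (h5.trans (by norm_num))
      norm_num
    · refine (key (1.48 * ((k + 1 + 1 + 3 : ℕ) : ℝ)) ?_).trans (le_of_eq ?_)
      · have h1 := Ser2_coef h2 hl (j := k + 1 + 1 + 3) (by omega)
        have h3 := od_le_one (k + 1 + 1 + 3)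
        have h4 := mul_nonneg (hnn (k + 1 + 1)) (hh_pos hl (j := k + 1 + 1 + 3) (by omega)).le
        nlinarith
      · rw [if_neg (by omega), if_neg (by omega), if_pos (by omega)]
        push_cast
        ring

theorem ser_E (h2 : 2 ≤ lam) (hl : lam < 4) (hm : 2.236 ≤ m) (hm' : m ≤ mm lam 3) (ha : 0 < a) :
    (Summable fun k : ℕ => (1 - od (k + 3)) * hh lam (k + 3) ^ 2 * ee lam (k + 3) a) ∧
    4 / π ^ 2 * ∑' k : ℕ, (1 - od (k + 3)) * hh lam (k + 3) ^ 2 * ee lam (k + 3) a ≤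
      epsE m a := by
  have hx0 : 0 ≤ exp (-a) := (exp_pos _).le
  have hx1 : exp (-a) < 1 := Real.exp_lt_one_iff.2 (by linarith)
  have hE : 0 < exp (-(m * a)) := exp_pos _
  have hg := ((Ser2_one 1 (0.281 * exp (-a))).add
    ((Ser2_alt hx0 hx1 3).mul_left 0.125)).mul_left (exp (-(m * a)))
  have hS : exp (-(m * a)) * (0.281 * exp (-a) + 0.125 * (exp (-a) ^ 3 / (1 - exp (-a) ^ 2))) =
      exp (-(m * a)) * gE (exp (-a)) := by
    unfold gE
    ring
  rw [hS] at hg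
  have main : (Summable fun k : ℕ => (1 - od (k + 3)) * hh lam (k + 3) ^ 2 * ee lam (k + 3) a) ∧
      ∑' k : ℕ, (1 - od (k + 3)) * hh lam (k + 3) ^ 2 * ee lam (k + 3) a ≤
        exp (-(m * a)) * gE (exp (-a)) := by
    refine Ser2_cmp (fun k => ?_) (fun k => ?_) hg
    · have h1 : 0 ≤ 1 - od (k + 3) := by linarith [od_le_one (k + 3)]
      have h4 := ee_pos lam (k + 3) a
      positivity
    · have he := ee_le (by linarith) hl hm' ha.le k
      have h4 := ee_pos lam (k + 3) a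
      have h3 := hh_pos hl (j := k + 3) (by omega)
      have key : ∀ C : ℝ, hh lam (k + 3) ^ 2 ≤ C → (1 - 0) * hh lam (k + 3) ^ 2 * ee lam (k + 3) a ≤
          exp (-(m * a)) * (C * exp (-a) ^ k) := by
        intro C hC
        have h6 := mul_le_mul hC he h4.le ((sq_nonneg _).trans hC)
        calc _ = hh lam (k + 3) ^ 2 * ee lam (k + 3) a := by ring
          _ ≤ _ := h6
          _ = _ := by ring
      rcases Nat.mod_two_eq_zero_or_one k with hk | hk
      · rw [Ser2_od_odd (by omega), if_neg (by omega), if_neg (by omega)]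
        simp
      · rw [Ser2_od_even (by omega)]
        by_cases h1 : k = 1
        · subst h1
          refine (key 0.281 ?_).trans (le_of_eq (by simp))
          have := Ser2_hh4 hl
          have h7 : hh lam (1 + 3) = hh lam 4 := rfl
          rw [h7] at h3 ⊢
          nlinarith
        · refine (key 0.125 ?_).trans (le_of_eq ?_)
          · have := Ser2_hhc hl (i := 6) (j := k + 3) (by norm_num) (by omega)
            have h8 : (2.105 : ℝ) / ((6 : ℕ) : ℝ) ≤ 0.351 := by norm_num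
            nlinarith
          · rw [if_neg h1, if_pos ⟨by omega, by omega⟩]
            ring
  refine ⟨main.1, ?_⟩
  unfold epsE
  exact mul_le_mul_of_nonneg_left main.2 (by positivity)

theorem ser_O (h2 : 2 ≤ lam) (hl : lam < 4) (hm : 2.236 ≤ m) (hm' : m ≤ mm lam 3) (ha : 0 < a) :
    (Summable fun k : ℕ => ((1 + od (k + 3)) * hh lam (k + 3)) ^ 2 * ee lam (k + 3) a) ∧
    4 / π ^ 2 * ∑' k : ℕ, ((1 + od (k + 3)) * hh lam (k + 3)) ^ 2 * ee lam (k + 3) a ≤
      epsO m a := by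
  have hx0 : 0 ≤ exp (-a) := (exp_pos _).le
  have hx1 : exp (-a) < 1 := Real.exp_lt_one_iff.2 (by linarith)
  have hE : 0 < exp (-(m * a)) := exp_pos _
  have hg := (((Ser2_one 0 (2.08 : ℝ)).add ((Ser2_alt hx0 hx1 1).mul_left 0.281)).add
    ((Ser2_alt hx0 hx1 2).mul_left 0.712)).mul_left (exp (-(m * a)))
  have hS : exp (-(m * a)) * (2.08 + 0.281 * (exp (-a) ^ 1 / (1 - exp (-a) ^ 2)) +
      0.712 * (exp (-a) ^ 2 / (1 - exp (-a) ^ 2))) = exp (-(m * a)) * gO (exp (-a)) := by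
    unfold gO
    ring
  rw [hS] at hg
  have main : (Summable fun k : ℕ => ((1 + od (k + 3)) * hh lam (k + 3)) ^ 2 * ee lam (k + 3) a) ∧
      ∑' k : ℕ, ((1 + od (k + 3)) * hh lam (k + 3)) ^ 2 * ee lam (k + 3) a ≤
        exp (-(m * a)) * gO (exp (-a)) := by
    refine Ser2_cmp (fun k => ?_) (fun k => ?_) hg
    · have h4 := ee_pos lam (k + 3) a
      positivity
    · have he := ee_le (by linarith) hl hm' ha.le k
      have h4 := ee_pos lam (k + 3) a
      have h3 := hh_pos hl (j := k + 3) (by omega)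
      have key : ∀ C : ℝ, ((1 + od (k + 3)) * hh lam (k + 3)) ^ 2 ≤ C →
          ((1 + od (k + 3)) * hh lam (k + 3)) ^ 2 * ee lam (k + 3) a ≤
          exp (-(m * a)) * (C * exp (-a) ^ k) := by
        intro C hC
        have h6 := mul_le_mul hC he h4.le ((sq_nonneg _).trans hC)
        calc _ ≤ _ := h6
          _ = _ := by ring
      rcases Nat.mod_two_eq_zero_or_one k with hk | hk
      · by_cases h1 : k = 0
        · subst h1
          refine (key 2.08 ?_).trans (le_of_eq (by simp))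
          have := Ser2_hh3' hl
          have h7 : hh lam (0 + 3) = hh lam 3 := rfl
          rw [Ser2_od_odd (by omega)]
          rw [h7] at h3 ⊢
          nlinarith
        · refine (key 0.712 ?_).trans (le_of_eq ?_)
          · have := Ser2_hhc hl (i := 5) (j := k + 3) (by norm_num) (by omega)
            have h8 : (2.105 : ℝ) / ((5 : ℕ) : ℝ) ≤ 0.421 := by norm_num
            rw [Ser2_od_odd (by omega)]
            nlinarith
          · rw [if_neg h1, if_neg (by omega), if_pos ⟨by omega, by omega⟩]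
            ring
      · refine (key 0.281 ?_).trans (le_of_eq ?_)
        · rw [Ser2_od_even (by omega)]
          by_cases h1 : k = 1
          · subst h1
            have := Ser2_hh4 hl
            have h7 : hh lam (1 + 3) = hh lam 4 := rfl
            rw [h7] at h3 ⊢
            nlinarith
          · have := Ser2_hhc hl (i := 6) (j := k + 3) (by norm_num) (by omega)
            have h8 : (2.105 : ℝ) / ((6 : ℕ) : ℝ) ≤ 0.351 := by norm_num
            nlinarith
        · rw [if_neg (by omega), if_pos ⟨by omega, by omega⟩, if_neg (by omega)]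
          ring
  refine ⟨main.1, ?_⟩
  unfold epsO
  exact mul_le_mul_of_nonneg_left main.2 (by positivity)

end Pool.Agent.L2Q
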