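import Pool.Agent.P.MP_2f6447_an.Q.Flux
import Pool.Agent.P.MP_2f6447_an.Q.Branch
import Pool.Agent.P.MP_2f6447_an.Q.Ser2

/-! Bounds for the amplitude. In flux_id the term j ≥ 3 equals (4/π²) EI_L EI_R (repj, am_deriv3, mm_sq). flux_le: EI_prod (b ≤ (x - l 0) + (r π - x) etc.) and ser_E. flux_ge: EI_abs for both arcs with a = d, ee_add, ser_O. -/

open Set MeasureTheory Filter Topology Real
open scoped ComplexConjugate

namespace Pool.Agent.L2Q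

open Pool.Agent.L2K

variable {Ω : Set ℂ} {lam nT nB m a b x y : ℝ} {u : ℂ → ℝ} {G : ℂ → ℂ} {l r : ℝ → ℝ} {j : ℕ}

theorem QD.flux_le (h : QD Ω lam u G l r nT nB) (s : Sz l r a b) (hm : 2.236 ≤ m) (hm' : m ≤ mm lam 3)
    (hx : x ∈ Ioo (xL l) (xR r)) :
    (lam - 1) * UU lam r x ^ 2 + deriv (UU lam r) x ^ 2 ≤
      2 + (4 - lam) * VV lam r x ^ 2 + epsE m b := by sorry

theorem QD.flux_ge (h : QD Ω lam u G l r nT nB) (hm : 2.236 ≤ m) (hm' : m ≤ mm lam 3) {d : ℝ} (hd : 0 < d)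
    (h1 : xL l ≤ x - d) (h2 : x + d ≤ xR r) :
    2 + ((4 - lam) * VV lam r x ^ 2 - deriv (VV lam r) x ^ 2) - epsO m (2 * d) ≤
      (lam - 1) * UU lam r x ^ 2 + deriv (UU lam r) x ^ 2 := by sorry

end Pool.Agent.L2Q
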