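import Pool.Agent.P.MP_2f6447_an.Q.Arc

/-! The potentials along a curve. All series are dominated by `2 q ^ (k + 3)` when `ρ ≥ 0`. -/

open Set MeasureTheory Filter Topology Real

namespace Pool.Agent.L2Q

open Pool.Agent.L2K

variable {lam q ρ y t a b c m : ℝ} {j : ℕ} {ξ p : ℝ → ℝ}

theorem Ftc_sum (hq : q ∈ Ioo (0 : ℝ) 1) : Summable fun k : ℕ => 2 * q ^ (k + 3) := by
  have := (summable_geometric_of_lt_one hq.1.le hq.2).mul_left (2 * q ^ 3)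
  refine this.congr fun k => ?_
  ring

theorem Ftc_mm (h2 : 2 ≤ lam) (hl : lam < 4) (k : ℕ) : 2.236 + (k : ℝ) ≤ mm lam (k + 3) := by
  have e1 := mm_add (lam := lam) (j := 3) (by linarith) hl (by norm_num) k
  have e2 := (mm3_mem h2 hl).1
  linarith

theorem Ftc_bd (hq : q ∈ Ioo (0 : ℝ) 1) (hρ : 0 ≤ ρ) (k : ℕ) {x : ℝ} (hx : |x| ≤ 2) :
    |q ^ (k + 3) * ee lam (k + 3) ρ * x| ≤ 2 * q ^ (k + 3) := by
  have e1 := ee_le_one lam (k + 3) hρ
  have e2 := ee_pos lam (k + 3) ρ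
  have e3 : 0 < q ^ (k + 3) := pow_pos hq.1 _
  rw [abs_mul, abs_mul, abs_of_pos e3, abs_of_pos e2]
  have e4 : ee lam (k + 3) ρ * |x| ≤ 1 * 2 := mul_le_mul e1 hx (abs_nonneg _) zero_le_one
  nlinarith

theorem Ftc_xF {s : ℝ} (hs : |s| ≤ 1) (θ : ℝ) : |cos θ - s| ≤ 2 := by
  have e1 := abs_le.mp (abs_cos_le_one θ)
  have e2 := abs_le.mp hs
  rw [abs_le]
  constructor <;> linarith [e1.1, e1.2, e2.1, e2.2]

theorem Ftc_xP (h2 : 2 ≤ lam) (hl : lam < 4) (k : ℕ) {x : ℝ} (hx : |x| ≤ 2) :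
    |x / mm lam (k + 3)| ≤ 2 := by
  have e1 := Ftc_mm h2 hl k
  have e2 : (0 : ℝ) ≤ k := Nat.cast_nonneg k
  rw [abs_div, abs_of_pos (by linarith : 0 < mm lam (k + 3)), div_le_iff₀ (by linarith)]
  linarith

theorem Ftc_xG (h2 : 2 ≤ lam) (hl : lam < 4) (k : ℕ) (θ : ℝ) :
    |((k + 3 : ℕ) : ℝ) / mm lam (k + 3) * sin θ| ≤ 2 := by
  have e1 := Ftc_mm h2 hl k
  have e2 : (0 : ℝ) ≤ k := Nat.cast_nonneg k
  have e3 : ((k + 3 : ℕ) : ℝ) / mm lam (k + 3) ≤ 2 := by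
    rw [div_le_iff₀ (by linarith)]
    push_cast
    linarith
  have e4 : 0 ≤ ((k + 3 : ℕ) : ℝ) / mm lam (k + 3) := div_nonneg (Nat.cast_nonneg _) (by linarith)
  rw [abs_mul, abs_of_nonneg e4]
  have e5 := abs_sin_le_one θ
  nlinarith [abs_nonneg (sin θ)]

theorem Ftc_neg_one (k : ℕ) : |(-1 : ℝ) ^ k| ≤ 1 := by simp

theorem Ftc_summable (hq : q ∈ Ioo (0 : ℝ) 1) {T : ℕ → ℝ} (hT : ∀ k, |T k| ≤ 2 * q ^ (k + 3)) :
    Summable T :=
  Summable.of_norm_bounded (Ftc_sum hq) hT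

theorem Ftc_hs (hq : q ∈ Ioo (0 : ℝ) 1) (hab : a ≤ b) {T : ℕ → ℝ → ℝ} {w : ℝ → ℝ}
    (hc : ∀ k, ContinuousOn (T k) (Icc a b))
    (hT : ∀ k, ∀ y ∈ Icc a b, |T k y| ≤ 2 * q ^ (k + 3)) (hw : IntervalIntegrable w volume a b) :
    HasSum (fun k => ∫ y in a..b, T k y * w y) (∫ y in a..b, (∑' k, T k y) * w y) := by
  have hI : uIoc a b ⊆ Icc a b := by
    rw [uIoc_of_le hab]
    exact Ioc_subset_Icc_self
  refine intervalIntegral.hasSum_integral_of_dominated_convergence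
    (fun k y => 2 * q ^ (k + 3) * |w y|) (fun k => ?_) (fun k => Eventually.of_forall fun y hy => ?_)
    (Eventually.of_forall fun y _ => (Ftc_sum hq).mul_right _) ?_
    (Eventually.of_forall fun y hy => ?_)
  · have e := hw.continuousOn_mul (g := T k) (by rw [uIcc_of_le hab]; exact hc k)
    exact e.def'.aestronglyMeasurable
  · rw [Real.norm_eq_abs, abs_mul]
    exact mul_le_mul_of_nonneg_right (hT k y (hI hy)) (abs_nonneg _)
  · simp only [tsum_mul_right]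
    exact hw.abs.const_mul _
  · exact (Ftc_summable hq fun k => hT k y (hI hy)).hasSum.mul_right _

theorem Ftc_cE {r : ℝ → ℝ} {S : Set ℝ} (hr : ContinuousOn r S) (q lam : ℝ) (k : ℕ) :
    ContinuousOn (fun y => q ^ (k + 3) * ee lam (k + 3) (r y)) S :=
  continuousOn_const.mul ((continuous_ee lam (k + 3)).comp_continuousOn hr)

theorem contOn_Fh (h2 : 2 ≤ lam) (hl : lam < 4) (hq : q ∈ Ioo (0 : ℝ) 1) {r : ℝ → ℝ} {S : Set ℝ}
    (hr : ContinuousOn r S) (h0 : ∀ y ∈ S, 0 ≤ r y) :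
    ContinuousOn (fun y => Fh lam q (r y) y) S := by
  unfold Fh
  refine continuousOn_tsum (fun k => (Ftc_cE hr q lam k).mul (by fun_prop)) (Ftc_sum hq)
    fun k y hy => ?_
  exact Ftc_bd hq (h0 y hy) k (Ftc_xF (Ftc_neg_one _) _)

theorem contOn_Gh (h2 : 2 ≤ lam) (hl : lam < 4) (hq : q ∈ Ioo (0 : ℝ) 1) {r : ℝ → ℝ} {S : Set ℝ}
    (hr : ContinuousOn r S) (h0 : ∀ y ∈ S, 0 ≤ r y) :
    ContinuousOn (fun y => Gh lam q (r y) y) S := by
  unfold Gh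
  refine continuousOn_tsum (fun k => (Ftc_cE hr q lam k).mul (by fun_prop)) (Ftc_sum hq)
    fun k y hy => ?_
  exact Ftc_bd hq (h0 y hy) k (Ftc_xG h2 hl k _)

theorem Ftc_term (hl : lam < 4) {r r' : ℝ → ℝ} (hab : a ≤ b)
    (hr : ContinuousOn r (Icc a b)) (hd : ∀ y ∈ Ioo a b, HasDerivAt r (r' y) y)
    (hi : IntervalIntegrable r' volume a b) (k : ℕ) (s : ℝ) :
    ∫ y in a..b, q ^ (k + 3) * ee lam (k + 3) (r y) *
        (((k + 3 : ℕ) : ℝ) / mm lam (k + 3) * sin ((k + 3 : ℕ) * y)) * 1 =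
      q ^ (k + 3) * ee lam (k + 3) (r a) * ((cos ((k + 3 : ℕ) * a) - s) / mm lam (k + 3)) -
        q ^ (k + 3) * ee lam (k + 3) (r b) * ((cos ((k + 3 : ℕ) * b) - s) / mm lam (k + 3)) -
        ∫ y in a..b, q ^ (k + 3) * ee lam (k + 3) (r y) * (cos ((k + 3 : ℕ) * y) - s) * r' y := by
  have hm : 0 < mm lam (k + 3) := mm_pos hl (by omega)
  have hE := Ftc_cE hr q lam k
  have i1 : IntervalIntegrable (fun y => q ^ (k + 3) * ee lam (k + 3) (r y) *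
      (((k + 3 : ℕ) : ℝ) / mm lam (k + 3) * sin ((k + 3 : ℕ) * y)) * 1) volume a b := by
    apply ContinuousOn.intervalIntegrable_of_Icc hab
    exact (hE.mul (by fun_prop)).mul continuousOn_const
  have i2 : IntervalIntegrable (fun y => q ^ (k + 3) * ee lam (k + 3) (r y) *
      (cos ((k + 3 : ℕ) * y) - s) * r' y) volume a b := by
    apply hi.continuousOn_mul
    rw [uIcc_of_le hab]
    exact hE.mul (by fun_prop)
  have key := intervalIntegral.integral_eq_sub_of_hasDerivAt_of_le hab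
    (f := fun y => -(q ^ (k + 3) * ee lam (k + 3) (r y) *
      ((cos ((k + 3 : ℕ) * y) - s) / mm lam (k + 3))))
    (f' := fun y => q ^ (k + 3) * ee lam (k + 3) (r y) *
      (((k + 3 : ℕ) : ℝ) / mm lam (k + 3) * sin ((k + 3 : ℕ) * y)) * 1 +
      q ^ (k + 3) * ee lam (k + 3) (r y) * (cos ((k + 3 : ℕ) * y) - s) * r' y)
    (hE.mul (by fun_prop)).neg (fun y hy => by
      have d1 := ((hasDerivAt_ee lam (k + 3) (r y)).comp y (hd y hy)).const_mul (q ^ (k + 3))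
      have d2 : HasDerivAt (fun y : ℝ => ((k + 3 : ℕ) : ℝ) * y) ((k + 3 : ℕ) : ℝ) y := by
        simpa using (hasDerivAt_id y).const_mul ((k + 3 : ℕ) : ℝ)
      have d3 := (d2.cos.sub_const s).div_const (mm lam (k + 3))
      refine (d1.mul d3).neg.congr_deriv ?_
      simp only [Function.comp_apply]
      field_simp
      ring) (i1.add i2)
  rw [intervalIntegral.integral_add i1 i2] at key
  linarith

theorem Ftc_gen (h2 : 2 ≤ lam) (hl : lam < 4) (hq : q ∈ Ioo (0 : ℝ) 1) {r r' : ℝ → ℝ} (hab : a ≤ b)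
    (hr : ContinuousOn r (Icc a b)) (h0 : ∀ y ∈ Icc a b, 0 ≤ r y)
    (hd : ∀ y ∈ Ioo a b, HasDerivAt r (r' y) y) (hi : IntervalIntegrable r' volume a b)
    {s : ℕ → ℝ} (hs : ∀ k, |s k| ≤ 1) :
    ∫ y in a..b, Gh lam q (r y) y =
      (∑' k : ℕ, q ^ (k + 3) * ee lam (k + 3) (r a) *
        ((cos ((k + 3 : ℕ) * a) - s k) / mm lam (k + 3))) -
      (∑' k : ℕ, q ^ (k + 3) * ee lam (k + 3) (r b) *
        ((cos ((k + 3 : ℕ) * b) - s k) / mm lam (k + 3))) -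
      ∫ y in a..b, (∑' k : ℕ, q ^ (k + 3) * ee lam (k + 3) (r y) *
        (cos ((k + 3 : ℕ) * y) - s k)) * r' y := by
  have s1 := Ftc_hs hq hab (w := fun _ => 1)
    (T := fun k y => q ^ (k + 3) * ee lam (k + 3) (r y) *
      (((k + 3 : ℕ) : ℝ) / mm lam (k + 3) * sin ((k + 3 : ℕ) * y)))
    (fun k => (Ftc_cE hr q lam k).mul (by fun_prop))
    (fun k y hy => Ftc_bd hq (h0 y hy) k (Ftc_xG h2 hl k _)) intervalIntegrable_const
  have s2 := Ftc_hs hq hab (w := r')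
    (T := fun k y => q ^ (k + 3) * ee lam (k + 3) (r y) * (cos ((k + 3 : ℕ) * y) - s k))
    (fun k => (Ftc_cE hr q lam k).mul (by fun_prop))
    (fun k y hy => Ftc_bd hq (h0 y hy) k (Ftc_xF (hs k) _)) hi
  have s3 : ∀ y ∈ Icc a b, Summable fun k : ℕ => q ^ (k + 3) * ee lam (k + 3) (r y) *
      ((cos ((k + 3 : ℕ) * y) - s k) / mm lam (k + 3)) := fun y hy =>
    Ftc_summable hq fun k => Ftc_bd hq (h0 y hy) k (Ftc_xP h2 hl k (Ftc_xF (hs k) _))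
  have s4 := ((s3 a ⟨le_rfl, hab⟩).hasSum.sub (s3 b ⟨hab, le_rfl⟩).hasSum).sub s2
  have s5 := s1.congr_fun (fun k => (Ftc_term (q := q) hl hab hr hd hi k (s k)).symm)
  have e := s5.unique s4
  simp only [mul_one] at e
  exact e

theorem ftc_Ph (h2 : 2 ≤ lam) (hl : lam < 4) (hq : q ∈ Ioo (0 : ℝ) 1) {r r' : ℝ → ℝ} (hab : a ≤ b)
    (hr : ContinuousOn r (Icc a b)) (h0 : ∀ y ∈ Icc a b, 0 ≤ r y)
    (hd : ∀ y ∈ Ioo a b, HasDerivAt r (r' y) y) (hi : IntervalIntegrable r' volume a b) :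
    ∫ y in a..b, Gh lam q (r y) y =
      Ph lam q (r a) a - Ph lam q (r b) b - ∫ y in a..b, Fh lam q (r y) y * r' y :=
  Ftc_gen h2 hl hq hab hr h0 hd hi (s := fun k => (-1) ^ (k + 3)) fun _ => Ftc_neg_one _

theorem ftc_P0 (h2 : 2 ≤ lam) (hl : lam < 4) (hq : q ∈ Ioo (0 : ℝ) 1) {r r' : ℝ → ℝ} (hb : 0 ≤ b)
    (hr : ContinuousOn r (Icc 0 b)) (h0 : ∀ y ∈ Icc 0 b, 0 ≤ r y)
    (hd : ∀ y ∈ Ioo 0 b, HasDerivAt r (r' y) y) (hi : IntervalIntegrable r' volume 0 b)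
    (hp : ∀ y ∈ Ioo 0 b, 0 ≤ r' y) : P0 lam q (r b) b ≤ ∫ y in (0 : ℝ)..b, Gh lam q (r y) y := by
  rw [Ftc_gen h2 hl hq hb hr h0 hd hi (s := fun _ => 1) fun _ => by simp]
  have e1 : (∑' k : ℕ, q ^ (k + 3) * ee lam (k + 3) (r b) *
      ((cos ((k + 3 : ℕ) * b) - 1) / mm lam (k + 3))) = -P0 lam q (r b) b := by
    unfold P0
    rw [← tsum_neg]
    exact tsum_congr fun k => by ring
  have e2 : ∫ y in (0 : ℝ)..b, (∑' k : ℕ, q ^ (k + 3) * ee lam (k + 3) (r y) *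
      (cos ((k + 3 : ℕ) * y) - 1)) * r' y ≤ 0 := by
    rw [intervalIntegral.integral_of_le hb, integral_Ioc_eq_integral_Ioo]
    refine setIntegral_nonpos measurableSet_Ioo fun y hy => ?_
    refine mul_nonpos_of_nonpos_of_nonneg (tsum_nonpos fun k => ?_) (hp y hy)
    exact mul_nonpos_of_nonneg_of_nonpos
      (mul_nonneg (pow_pos hq.1 _).le (ee_pos _ _ _).le) (by linarith [cos_le_one ((k + 3 : ℕ) * y)])
  rw [e1]
  simp only [mul_zero, cos_zero, sub_self, zero_div, tsum_zero]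
  linarith

theorem P0_nonneg (h2 : 2 ≤ lam) (hl : lam < 4) (hq : q ∈ Ioo (0 : ℝ) 1) (ρ y : ℝ) :
    0 ≤ P0 lam q ρ y := by
  unfold P0
  refine tsum_nonneg fun k => ?_
  exact mul_nonneg (mul_nonneg (pow_pos hq.1 _).le (ee_pos _ _ _).le)
    (div_nonneg (by linarith [cos_le_one ((k + 3 : ℕ) * y)]) (mm_nonneg _ _))

theorem P0_add_Ph (h2 : 2 ≤ lam) (hl : lam < 4) (hq : q ∈ Ioo (0 : ℝ) 1) (hρ : 0 ≤ ρ) (y : ℝ) :
    2 * q ^ 3 * ee lam 3 ρ / mm lam 3 ≤ P0 lam q ρ y + Ph lam q ρ y := by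
  have s1 : Summable fun k : ℕ => q ^ (k + 3) * ee lam (k + 3) ρ *
      ((1 - cos ((k + 3 : ℕ) * y)) / mm lam (k + 3)) :=
    Ftc_summable hq fun k => Ftc_bd hq hρ k (Ftc_xP h2 hl k (by
      rw [abs_sub_comm]
      exact Ftc_xF (by simp) _))
  have s2 : Summable fun k : ℕ => q ^ (k + 3) * ee lam (k + 3) ρ *
      ((cos ((k + 3 : ℕ) * y) - (-1) ^ (k + 3)) / mm lam (k + 3)) :=
    Ftc_summable hq fun k => Ftc_bd hq hρ k (Ftc_xP h2 hl k (Ftc_xF (Ftc_neg_one _) _))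
  unfold P0 Ph
  rw [← s1.tsum_add s2]
  refine le_trans (le_of_eq ?_) ((s1.add s2).le_tsum 0 fun k _ => ?_)
  · simp only [zero_add]
    ring
  · rw [← mul_add, ← add_div]
    have e := (abs_le.mp (Ftc_neg_one (k + 3))).2
    exact mul_nonneg (mul_nonneg (pow_pos hq.1 _).le (ee_pos _ _ _).le)
      (div_nonneg (by linarith) (mm_nonneg _ _))

theorem Ph_pi (lam q ρ : ℝ) : Ph lam q ρ π = 0 := by
  unfold Ph
  simp only [cos_nat_mul_pi, sub_self, zero_div, mul_zero, tsum_zero]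

theorem Arc.KI_eq (A : Arc ξ p t) (h2 : 2 ≤ lam) (hl : lam < 4) (hq : q ∈ Ioo (0 : ℝ) 1) :
    π * KI lam ξ p q = ∫ y in (0 : ℝ)..π, Gh lam q |ξ y| y * sq1 p y := by
  have s1 := Ftc_hs hq pi_pos.le (w := sq1 p)
    (T := fun k y => q ^ (k + 3) * ee lam (k + 3) |ξ y| *
      (((k + 3 : ℕ) : ℝ) / mm lam (k + 3) * sin ((k + 3 : ℕ) * y)))
    (fun k => (Ftc_cE A.cont.abs q lam k).mul (by fun_prop))
    (fun k y _ => Ftc_bd hq (abs_nonneg _) k (Ftc_xG h2 hl k _)) A.ii_sq1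
  unfold KI Gh
  rw [← s1.tsum_eq, ← mul_assoc, mul_one_div_cancel pi_ne_zero, one_mul]
  refine tsum_congr fun k => ?_
  unfold EI
  rw [← intervalIntegral.integral_const_mul]
  refine intervalIntegral.integral_congr fun y _ => ?_
  ring

end Pool.Agent.L2Q
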