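import Pool.Agent.P.MP_2f6447_an.Q.N1
import Pool.Agent.P.MP_2f6447_an.Q.End

/-! A short diagonal is impossible. x₀ = r π, ψ = psi lam ≥ 0.232, ℓ = 2.07/√lam ≥ 1.035. x₁ = l π if l(π/2) ≤ l π, else -R; x₂ = r 0 if r 0 ≤ r(π/2), else R (QD.bdd; take R' = R + 3; am_zero).
Kinks: if l(π/2) ≤ l π then l(π-η) ≤ l π by convexity (not in the open box). Otherwise l(π-η) ≤ l(π/2) ≤ l η ≤ l 0 for η ∈ (0,π/2) (convexity), so both points are outside Ω, zz = 0, and r 0 - x ≥ ℓ. Symmetric for r η (then r π ≤ r(π-η) ≤ r(π/2) ≤ r η, x - l π ≥ ℓ).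
α = ℓ; β = ℓ if r π ≤ l 0, else 1.57/√lam ≥ 0.785 (the `if` terms are ≤ 0.031, and ≤ 0.074). zz ⟨x₀,η⟩/η → 1 - (0 or gb x₀): h.flipY.slope_bot at r π gives u⟨x₀,π-η⟩/η → 1; if x₀ < l 0 u ⟨x₀,η⟩ = 0 for small η; else slope_bot and gb_le (≤ -1 + 0.805).
N_num: x² = v = (4-lam)/lam ∈ (0,1], mm lam 2/√lam = x; cosh s ≥ 1 + s²/2 + s⁴/24; cosh(0.25x) ≤ 1 + 0.0315 v. -/

open Set MeasureTheory Filter Topology Real
open scoped ComplexConjugate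

namespace Pool.Agent.L2Q

open Pool.Agent.L2K

variable {Ω : Set ℂ} {lam nT nB m a b x y : ℝ} {u : ℂ → ℝ} {G : ℂ → ℂ} {l r : ℝ → ℝ} {j : ℕ}

theorem N_num0 (h2 : 2 ≤ lam) (hl : lam < 4) :
    4 * psi lam * (1 / cosh (mm lam 2 * (2.07 / √lam))) + 0.062 < 1 := by sorry

theorem N_num1 (h2 : 2 ≤ lam) (hl : lam < 4) :
    4 * psi lam * (cosh (mm lam 2 * (0.25 / √lam)) / cosh (mm lam 2 * (1.82 / √lam))) + 0.105 <
      1.195 := by sorry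

theorem QD.not_N (h : QD Ω lam u G l r nT nB) : 0.5 / √lam < r π - l 0 := by sorry

theorem QD.sz0 (h : QD Ω lam u G l r nT nB) : Sz l r (2.07 / √lam) (0.5 / √lam) := by sorry

end Pool.Agent.L2Q
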