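import Pool.Agent.P.MP_2f6447_an.Q.Defs

/-! Numerical hypotheses of the stages. -/

open Set Real

namespace Pool.Agent.L2Q

noncomputable def pp (c0 c1 c2 c3 c4 c5 c6 t : ℝ) : ℝ :=
  c0 + c1 * t + c2 * t ^ 2 + c3 * t ^ 3 + c4 * t ^ 4 + c5 * t ^ 5 + c6 * t ^ 6

/-- mean value of `pp ^ 2 - 1` over `[0, d]` -/
noncomputable def QQ (c0 c1 c2 c3 c4 c5 c6 d : ℝ) : ℝ :=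
  (c0 ^ 2 - 1) +
    (2 * c0 * c1) * d ^ 1 / 2 +
    (2 * c0 * c2 + c1 ^ 2) * d ^ 2 / 3 +
    (2 * c0 * c3 + 2 * c1 * c2) * d ^ 3 / 4 +
    (2 * c0 * c4 + 2 * c1 * c3 + c2 ^ 2) * d ^ 4 / 5 +
    (2 * c0 * c5 + 2 * c1 * c4 + 2 * c2 * c3) * d ^ 5 / 6 +
    (2 * c0 * c6 + 2 * c1 * c5 + 2 * c2 * c4 + c3 ^ 2) * d ^ 6 / 7 +
    (2 * c1 * c6 + 2 * c2 * c5 + 2 * c3 * c4) * d ^ 7 / 8 +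
    (2 * c2 * c6 + 2 * c3 * c5 + c4 ^ 2) * d ^ 8 / 9 +
    (2 * c3 * c6 + 2 * c4 * c5) * d ^ 9 / 10 +
    (2 * c4 * c6 + c5 ^ 2) * d ^ 10 / 11 +
    (2 * c5 * c6) * d ^ 11 / 12 +
    (c6 ^ 2) * d ^ 12 / 13

noncomputable def sp (u t : ℝ) : ℝ := t - u * t ^ 3 / 6 + u ^ 2 * t ^ 5 / 120

noncomputable def e3 (s : ℝ) : ℝ := 1 + s + s ^ 2 / 2 + s ^ 3 / 6

noncomputable def chp (M t : ℝ) : ℝ := 1 + M * t ^ 2 / 2 + M ^ 2 * t ^ 4 / 20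

/-- Bessel-type comparison function -/
noncomputable def ph1 (τ : ℝ) : ℝ :=
  τ / 2 - τ ^ 3 / 16 + τ ^ 5 / 384 - τ ^ 7 / 18432 + τ ^ 9 / 1474560 - τ ^ 11 / 176947200

/-- `V` solves `V'' = m² V` -/
def ExpF (m : ℝ) (V : ℝ → ℝ) : Prop := ∃ α β : ℝ, ∀ x, V x = α * exp (m * x) + β * exp (-(m * x))

/-- numbers for the first stage -/
structure AP (m a0 b0 M2 u1 e0 e ε A0 B0 : ℝ) : Prop where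
  he0 : 0.012 + bf m a0 + bg m b0 ≤ e0
  hee : e0 ≤ e
  he1 : 0.135 + bf m a0 + bg m a0 ≤ e
  he : e < 1
  hε : epsE m b0 ≤ ε
  hA0 : 1 - e ≤ A0
  hA1 : 2 + ε < u1 * A0 ^ 2 - M2 * (A0 - 1 + e) ^ 2 / 4
  hA2 : A0 + e0 + e ≤ 2
  hB0 : 0 ≤ B0
  hB1 : 2 + ε + M2 * (A0 - 1 + e) ^ 2 / 4 ≤ B0 ^ 2

/-- numbers for the bounds on the second mode -/
structure VP (m a0 b0 mlo M2 mu1 u1 d e0 e B0 γ cap B1 : ℝ) : Prop where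
  hab : ∃ a b ε, a ≤ max a0 (2 * d) ∧ b ≤ max b0 (2 * d) ∧ 0 < b ∧ b ≤ a ∧
    0.012 + bf m a + bg m b ≤ e0 ∧ 0.135 + bf m a + bg m a ≤ e ∧ epsE m b ≤ ε ∧
    2 + ε + M2 * min (2 * γ) (cap / 2) ^ 2 ≤ B1 ^ 2
  hee : e0 ≤ e
  hγ0 : 0 ≤ γ
  hcap0 : 0 ≤ cap
  hcap : B0 / mu1 - 1 + e ≤ cap
  hγ : ∃ t1, 0 ≤ t1 ∧ u1 * t1 ^ 2 ≤ 4 ∧
    (∀ t ∈ Icc 0 t1, B0 * sp u1 t - 1 + e ≤ 2 * γ * e3 (mlo * t)) ∧ cap ≤ 2 * γ * e3 (mlo * t1)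
  hB1 : 0 ≤ B1

/-- numbers for a stage that uses `W ≥ 0` -/
structure WP (m M2 mu1 u1 d γ cap B1 D : ℝ) : Prop where
  hd : 0 < d
  ex : ∃ R c0 c1 c2 c3 c4 c5 c6 t1 M E v0 v2 v4 : ℝ, bR m d ≤ R ∧ 0 < t1 ∧ t1 ≤ D ∧
    u1 * t1 ^ 2 ≤ 4 ∧ M2 * t1 ^ 2 ≤ 4 ∧
    (cap ≤ v0 ∧ 0 ≤ v2 ∧ 0 ≤ v4 ∨ 4 * γ ≤ v0 ∧ 2 * γ * M2 ≤ v2 ∧ γ * M2 ^ 2 / 5 ≤ v4) ∧
    (∀ t ∈ Icc 0 t1, B1 * sp u1 t + (v0 + v2 * t ^ 2 + v4 * t ^ 4) + 0.012 +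
      R * (1 - m * t / 3 + (m * t) ^ 2 / 18) ^ 3 ≤ pp c0 c1 c2 c3 c4 c5 c6 t) ∧
    0 ≤ c0 ∧ c0 < 1 ∧ (∀ t ∈ Icc 0 t1, c0 ≤ pp c0 c1 c2 c3 c4 c5 c6 t) ∧
    (∀ t ∈ Icc 0 t1, QQ c0 c1 c2 c3 c4 c5 c6 t < 0) ∧
    t1 * QQ c0 c1 c2 c3 c4 c5 c6 t1 + (D - t1) * (M ^ 2 - 1) < 0 ∧ c0 ≤ M ∧
    exp (-(m * t1)) ≤ E ∧ B1 / mu1 + cap + 0.012 + R * E ≤ M

/-- numbers for the window, the signs and the slope -/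
structure GP (m mlo M2 u2 d γ δ c0 k0 C : ℝ) : Prop where
  hδ : 0 < δ
  hδd : δ < d
  hM : M2 * δ ^ 2 ≤ 4
  hc0 : 0 ≤ c0
  hk0 : 0 < k0
  ex : ∃ γ' Blo sM c1 : ℝ, 0 < mlo ∧ 0 ≤ γ' ∧ γ ≤ γ' * (1 - exp (-(2 * mlo * d))) ∧ 0 < Blo ∧
    Blo ^ 2 + epsO m (2 * d) + 4 * M2 * γ' ^ 2 ≤ 2 ∧ 0 ≤ sM ∧ M2 ≤ sM ^ 2 ∧ u2 * δ ^ 2 ≤ 2 ∧
    4 * γ * chp M2 δ + bR m (d - δ) + bR m (d + δ) < Blo * (1 - u2 * δ ^ 2 / 6) * δ ∧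
    k0 + 4 * γ' * sM * chp M2 δ + bR1 m (d - δ) + bR1 m (d + δ) ≤ Blo * (1 - u2 * δ ^ 2 / 2) ∧
    2 * bg m (d - δ) ≤ Blo * (1 - u2 * δ ^ 2 / 6) * c1 ∧ c1 ≤ δ ∧
    2 * bg m (d - c1) ≤ Blo * (1 - u2 * δ ^ 2 / 6) * c0 ∧ c0 ≤ δ
  hC : 4 * γ * chp M2 δ + bR2 m (d - δ) + bR2 m (d + δ) ≤ C

/-- numbers for the slope condition -/
structure SP (d δ c0 k0 C : ℝ) : Prop where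
  h1 : 2 * δ + c0 + δ < d + δ
  h2 : δ + (δ + c0) / 2 < 3 / 2
  ex : ∃ η, 0 ≤ η ∧ η ≤ 0.2 ∧ (δ + (δ + c0) / 2) ^ 2 ≤ η * (3.1415 - η) ∧
    (δ + (δ + c0) / 2) ^ 2 + 3.1416 * (δ + (δ + c0) / 2) * (1.02 * C * η / k0) < 3.1415 ^ 2 / 4

/-- numbers for the disc condition -/
structure DP (mu1 u2 d δ c0 : ℝ) : Prop where
  ex : ∃ mu2 σ X κ y1 y2 : ℝ, 0 ≤ mu2 ∧ u2 ≤ mu2 ^ 2 ∧ 0 < σ ∧ (δ + c0) / 2 ≤ d ∧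
    2 * σ * (d - (δ + c0) / 2) ≤ 3.1415 ∧
    (3.1416 - 2 * σ * (d - (δ + c0) / 2)) ^ 2 ≤
      4 * (1 + σ ^ 2) * ((d - (δ + c0) / 2) ^ 2 - (δ - c0) ^ 2 / 4) ∧
    (δ + c0) / 2 ≤ X ∧ (δ - c0) ^ 2 / 4 + 3.1416 ^ 2 / 4 ≤ (X - (δ + c0) / 2) ^ 2 ∧
    0 ≤ y1 ∧ y1 < y2 ∧ y2 ≤ π ∧ mu2 * (d + σ * (π - y1)) ≤ π ∧ mu2 * X ≤ π ∧ 0 ≤ κ ∧
    κ ≤ sin (mu1 * d) ∧ κ ≤ sin (mu2 * X) ∧ κ ≤ sin (mu2 * σ * (y2 - y1)) ∧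
    mu2 * σ * (y2 - y1) ≤ π ∧
    (σ + √(1 + σ ^ 2)) * (mu2 * σ * y1 ^ 3 / 6) < κ * (1 + (sin y2 - sin y1) / (y2 - y1))

/-- what the window stage delivers -/
structure G1 (Ω : Set ℂ) (u : ℂ → ℝ) (nT nB xs δ c0 k0 C : ℝ) : Prop where
  hT : |nT - xs| ≤ δ
  hB : |nB - xs| ≤ δ
  hmin : min nT nB - xs ≤ c0
  hmax : -c0 ≤ max nT nB - xs
  hN : ∀ z ∈ Ω, u z = 0 → |z.re - xs| ≤ δ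
  hx : ∀ z : ℂ, z.im ∈ Ioo 0 π → |z.re - xs| ≤ δ → k0 * sin z.im ≤ (L2K.grad u z).re
  hy : ∀ z : ℂ, z.im ∈ Ioo 0 π → |z.re - xs| ≤ δ → u z = 0 →
    |(L2K.grad u z).im| * sin z.im ≤ C * min z.im (π - z.im) ^ 3

end Pool.Agent.L2Q
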