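import Pool.Agent.P.MP_2f6447_an.Q.Bas
import Pool.Agent.P.MP_2f6447_an.Q.Par

/-! The two ordinary differential equations.
sinus_zero: xs = sSup of {x ∈ [x1,x2] | U x ≤ 0}: U xs = 0, U > 0 right of xs; U x = U xs cos(μ(x-xs)) + B sin(μ(x-xs))/μ with B = μ(β cos μxs - α sin μxs) (addition formulas); B > 0 because U > 0 just right of xs.
vmax: with s = exp(m x), V s' ... simplest: if α, β ≥ 0 V is convex; if both ≤ 0 V ≤ 0; else V is monotone. vmax0 is vmax with c = 0 for V - c cosh(m(·-xs)), which is again ExpF.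
vbound: upper bound on [l 0, r π] (JE.bL, JE.tR), lower bound on [l π, r 0] (JE.tL, JE.bR); [xL,xR] lies in both; at these points max 0 (±U - 1 + e) ≤ 2γ exp(m|x-xs|) ≤ 4γ cosh.
vderiv: V = α e^{mξ} + β e^{-mξ}, ξ = x - xs. tR: α ≤ γ + |β| e^{-2md}; bR: -α ≤ γ + |β| e^{-2md}; bL, tL the same for β. So max |α| |β| ≤ γ'. m²V² - V'² = 4m²αβ. -/

open Set MeasureTheory Filter Topology Real
open scoped ComplexConjugate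

namespace Pool.Agent.L2Q

open Pool.Agent.L2K

variable {Ω : Set ℂ} {lam nT nB m a b x y : ℝ} {u : ℂ → ℝ} {G : ℂ → ℂ} {l r : ℝ → ℝ} {j : ℕ}

theorem sinus_zero {U : ℝ → ℝ} {α β μ x₁ x₂ : ℝ} (hμ : 0 < μ)
    (hU : ∀ x, U x = α * cos (μ * x) + β * sin (μ * x)) (h12 : x₁ < x₂) (h1 : U x₁ < 0)
    (h2 : 0 < U x₂) : ∃ xs ∈ Ioo x₁ x₂, ∃ B, 0 < B ∧ ∀ x, U x = B * (sin (μ * (x - xs)) / μ) := by sorry

theorem sinus_energy {U : ℝ → ℝ} {α β μ : ℝ}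
    (hU : ∀ x, U x = α * cos (μ * x) + β * sin (μ * x)) (x : ℝ) :
    μ ^ 2 * U x ^ 2 + deriv U x ^ 2 = μ ^ 2 * (α ^ 2 + β ^ 2) ∧ |U x| ≤ √(α ^ 2 + β ^ 2) := by sorry

theorem vmax {V : ℝ → ℝ} {c x₁ x₂ : ℝ} (hV : ExpF m V) (hc : 0 ≤ c) (h1 : V x₁ ≤ c) (h2 : V x₂ ≤ c)
    (hx : x ∈ Icc x₁ x₂) : V x ≤ c := by sorry

theorem vcap {U V : ℝ → ℝ} {e0 e cap : ℝ} (hV : ExpF m V) (J : JE U V l r e0 e) (hc : 0 ≤ cap)
    (hU : ∀ x, |U x| - 1 + e ≤ cap) (hx : x ∈ Icc (xL l) (xR r)) : 2 * |V x| ≤ cap := by sorry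

theorem vbound {U V : ℝ → ℝ} {e0 e γ xs : ℝ} (hm : 0 ≤ m) (hV : ExpF m V) (J : JE U V l r e0 e)
    (hγ : 0 ≤ γ) (hU : ∀ x, |U x| - 1 + e ≤ 2 * γ * exp (m * |x - xs|))
    (hx : x ∈ Icc (xL l) (xR r)) : |V x| ≤ 2 * γ * cosh (m * (x - xs)) := by sorry

theorem vderiv {U V : ℝ → ℝ} {e0 e γ γ' xs d : ℝ} (hm : 0 < m) (hV : ExpF m V) (J : JE U V l r e0 e)
    (hγ : 0 ≤ γ) (hU : ∀ x, |U x| - 1 + e ≤ 2 * γ * exp (m * |x - xs|)) (hd : 0 < d)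
    (h1 : xL l ≤ xs - d) (h2 : xs + d ≤ xR r) (hγ' : γ ≤ γ' * (1 - exp (-(2 * m * d)))) (x : ℝ) :
    |deriv V x| ≤ 2 * γ' * m * cosh (m * (x - xs)) ∧
      -(4 * m ^ 2 * γ' ^ 2) ≤ m ^ 2 * V x ^ 2 - deriv V x ^ 2 := by sorry

end Pool.Agent.L2Q
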