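import Pool.Agent.P.MP_2f6447_an.Q.Junc
import Pool.Agent.P.MP_2f6447_an.Q.Flux2
import Pool.Agent.P.MP_2f6447_an.Q.Ode
import Pool.Agent.P.MP_2f6447_an.Q.Ncase

/-! First stages. sz_of: both segments contain [xs-d,xs+d], and so on. stageA: Sz a0 b0 from sz0, xL < xR, je, UU_form, A = √(α²+β²), vcap with cap = max 0 (A-1+e), flux_le at the midpoint with sinus_energy: (lam-1)A² ≤ 2 + ε + M2 cap²/4.
A ↦ u1 A² - M2 (A-1+e)²/4 increases for A ≥ 1-e (u1 ≥ 1, M2 ≤ 2), so A < A0; JE.R0, JE.L0 give U xR > 0 > U xL; sinus_zero; B² = energy ≤ B0².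
stageV: je; |U x| ≤ B0 |S1 (x-xs)|; abs_S1_le', S1_le_poly, e3 s ≤ exp s, e3 monotone; vcap, vbound; flux_le at xs (U xs = 0, deriv U xs = B, cosh 0 = 1).
stageJ: d0 = min (xs - xL) (xR - xs) > 0; if d0 < d1, JE.R0 or L0 with |S1 d0| ≤ d0, cosh_le, cosh monotone. -/

open Set MeasureTheory Filter Topology Real
open scoped ComplexConjugate

namespace Pool.Agent.L2Q

open Pool.Agent.L2K

variable {Ω : Set ℂ} {lam nT nB m a b x y : ℝ} {u : ℂ → ℝ} {G : ℂ → ℂ} {l r : ℝ → ℝ} {j : ℕ}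

variable {a0 b0 mlo M2 mu1 u1 u2 xs B d e0 e B0 γ cap B1 δ c0 k0 C : ℝ}


theorem QD.sz_of (h : QD Ω lam u G l r nT nB) (R : Rg lam m a0 b0 mlo M2 mu1 u1 u2) (S : St lam l r xs B d)
    (ha : a ≤ max a0 (2 * d)) (hb : b ≤ max b0 (2 * d)) (h0 : 0 < b) (hba : b ≤ a) :
    Sz l r a b := by sorry

theorem QD.stageA (h : QD Ω lam u G l r nT nB) (R : Rg lam m a0 b0 mlo M2 mu1 u1 u2) {ε A0 : ℝ}
    (P : AP m a0 b0 M2 u1 e0 e ε A0 B0) : ∃ xs B, St lam l r xs B 0 ∧ B ≤ B0 := by sorry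

theorem QD.stageV (h : QD Ω lam u G l r nT nB) (R : Rg lam m a0 b0 mlo M2 mu1 u1 u2)
    (P : VP m a0 b0 mlo M2 mu1 u1 d e0 e B0 γ cap B1) (S : St lam l r xs B d) (hB : B ≤ B0) :
    JE (UU lam r) (VV lam r) l r e0 e ∧ B ≤ B1 ∧
      (∀ x, |UU lam r x| - 1 + e ≤ 2 * γ * exp (mm lam 2 * |x - xs|)) ∧
      ∀ x ∈ Icc (xL l) (xR r), 2 * |VV lam r x| ≤ cap ∧
        |VV lam r x| ≤ 2 * γ * cosh (mm lam 2 * (x - xs)) := by sorry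

theorem QD.stageJ (h : QD Ω lam u G l r nT nB) (R : Rg lam m a0 b0 mlo M2 mu1 u1 u2)
    (P : VP m a0 b0 mlo M2 mu1 u1 d e0 e B0 γ cap B1) (S : St lam l r xs B d) (hB : B ≤ B0)
    {d1 : ℝ} (h0 : 0 ≤ d1) (h1 : M2 * d1 ^ 2 ≤ 4)
    (h2 : B1 * d1 + min cap (4 * γ * chp M2 d1) < 1 - e0) : St lam l r xs B d1 ∧ B ≤ B1 := by sorry

end Pool.Agent.L2Q
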