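import Pool.Agent.P.MP_2f6447_an.Q.Bnd
import Pool.Agent.P.MP_2f6447_an.Q.StA

/-! The window. stageV, vderiv (γ ≤ γ'(1 - exp(-2 mlo d)) ≤ γ'(1 - exp(-2 mm d))), flux_ge at xs give Blo ≤ B. s0 = Blo(1 - u2δ²/6): U(xs+ξ) ≥ s0 ξ for ξ ∈ [0,δ] (S1_ge), odd. bnd_u on x = xs ± δ: ±u ≥ κ sin y, κ > 0.
hB: slope_bot gives gb(xs+δ) ≥ κ > 0 (sin y/y → 1; or ser_uy), Wall.nonpos forces nB < xs+δ; the other three alike (flipY for the top). hN: {u<0} is preconnected, contains ⟨xs-δ,π/2⟩, misses re = xs+δ, so lies in re < xs+δ (`IsPreconnected.intermediate_value` or subset_of_closure); with nod re ≤ xs+δ; symmetric.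
hmin, hmax: gt + gb is ≤ 0 at min nT nB and ≥ 0 at max (Wall signs), continuous, so it vanishes at some c between; bnd_odd with a = d-δ gives s0 (c-xs) ≤ 2 bg so c-xs ≤ c1, again with a = d-c1 gives c-xs ≤ c0; symmetric.
hx: bnd_ux, deriv U = B cos(mu(x-xs)) ≥ Blo(1 - u2δ²/2) (cos_mu_ge), |V'| ≤ 2γ' sM chp. hy: bnd_uy. -/

open Set MeasureTheory Filter Topology Real
open scoped ComplexConjugate

namespace Pool.Agent.L2Q

open Pool.Agent.L2K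

variable {Ω : Set ℂ} {lam nT nB m a b x y : ℝ} {u : ℂ → ℝ} {G : ℂ → ℂ} {l r : ℝ → ℝ} {j : ℕ}

variable {a0 b0 mlo M2 mu1 u1 u2 xs B d e0 e B0 γ cap B1 δ c0 k0 C : ℝ}


theorem QD.g1 (h : QD Ω lam u G l r nT nB) (R : Rg lam m a0 b0 mlo M2 mu1 u1 u2)
    (P : VP m a0 b0 mlo M2 mu1 u1 d e0 e B0 γ cap B1) (S : St lam l r xs B d) (hB : B ≤ B0)
    (Q : GP m mlo M2 u2 d γ δ c0 k0 C) : G1 Ω u nT nB xs δ c0 k0 C := by sorry

end Pool.Agent.L2Q
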