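import Pool.Agent.P.MP_2f6447_an.Q.Geo2
import Pool.Agent.P.MP_2f6447_an.Q.Par

/-! Window, slope condition and derivatives at the ends. M = (nT+nB)/2, |M - xs| ≤ (δ+c0)/2 (min + max = nT + nB), dM = δ + (δ+c0)/2. win: ξ₀ = dM, ξ₁ = d - (δ+c0)/2, mem_of_I.
slope: if ‖z - mid‖ < π/2 Cauchy-Schwarz (`abs_dot_le`). Else (y-π/2)² ≥ π²/4 - dM², so e = min y (π-y) ≤ η (e(π-e) ≤ dM² ≤ η(π-η), both ≤ π/2), sin y = sin e ≥ e(1 - e²/6), X = grad.re ≥ k0 sin y > 0, Y = |grad.im| ≤ τ X, τ = 1.02 C η/k0;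
|dot| ≤ dM X + (π/2) Y and (dM X + (π/2)Y)² < (π²/4)(X²+Y²) because dM² + π dM τ < π²/4. dB: linB along z = ⟨nB,y⟩, y → 0+, with hx: deriv ≥ k0; dT with linT. -/

open Set MeasureTheory Filter Topology Real
open scoped ComplexConjugate

namespace Pool.Agent.L2Q

open Pool.Agent.L2K

variable {Ω : Set ℂ} {lam nT nB m a b x y : ℝ} {u : ℂ → ℝ} {G : ℂ → ℂ} {l r : ℝ → ℝ} {j : ℕ}

variable {a0 b0 mlo M2 mu1 u1 u2 xs B d e0 e B0 γ cap B1 δ c0 k0 C : ℝ}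


theorem QD.g1b (h : QD Ω lam u G l r nT nB) (S : St lam l r xs B d) (g : G1 Ω u nT nB xs δ c0 k0 C) (hδ : 0 < δ)
    (hc : 0 ≤ c0) (hk : 0 < k0) (P : SP d δ c0 k0 C) :
    (∃ ξ₀ ξ₁ : ℝ, 0 ≤ ξ₀ ∧ ξ₀ < ξ₁ ∧ ξ₀ < 3 / 2 ∧
      (∀ z ∈ Ω, u z = 0 → |z.re - (nT + nB) / 2| ≤ ξ₀) ∧
      ∀ z : ℂ, 0 < z.im → z.im < π → |z.re - (nT + nB) / 2| ≤ ξ₁ → z ∈ Ω) ∧
    (∀ z ∈ Ω, u z = 0 → grad u z ≠ 0 → |dot (z - mid nT nB) (grad u z)| < π / 2 * ‖grad u z‖) ∧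
    0 < deriv (gt G) nT ∧ 0 < deriv (gb G) nB := by sorry

end Pool.Agent.L2Q
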