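import Pool.Agent.P.MP_2f6447_an.Q.Arc
import Pool.Agent.P.MP_2f6447_an.Q.Par

/-! The first mode cannot vanish if the arc stays inside an envelope.
WLOG t ≤ y0 (else apply the result to A.flip at π - y0; the integral is invariant). Then: ξ ≥ d (min_le); for y ≥ y0, ξ y ≤ X; for y ≤ y0, ξ y ≤ d + σ(π-y) (tangent at y0, -σ ≤ p y0 ≤ 0 from tangent evaluated at π), and |p| ≤ σ on [t,y0].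
For y ∈ [y1,π]: θ = μ ξ ∈ [μ1 d, max (μ2 X) (π - μ2σ(y-y1))] ⊆ [0,π], sin is concave there (`strictConcaveOn_sin_Icc`), so sin θ ≥ κ min 1 ((y-y1)/(y2-y1)); sq1 ≥ 1; ∫ y1..π of that times sin y is κ(1 + (sin y2 - sin y1)/(y2-y1)).
For y ∈ [0,y1]: -sin θ ≤ ϑ := max (μ2 ξ - π) 0 ≤ μ2σ(y1-y) (θ ≥ 0), ϑ = 0 for y ≥ y0, sin y ≤ y, sq1 ≤ √(1+σ²) + max p 0. ∫ μ2σ(y1-y) y = μ2σ y1³/6. On [0, min t y1]: where ϑ > 0, y ≤ y1 - ϑ/(μ2σ), so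
ϑ y p ≤ D(ξ) p with D s = ϑ(s) (y1 - ϑ(s)/(μ2σ)), primitive Φ = (ϑ² y1/2 - ϑ³/(3μ2σ))/μ2 (C¹), 0 ≤ Φ ≤ σ μ2σ y1³/6 for 0 ≤ ϑ ≤ μ2σ y1 (Arc.ftc_comp).
env: square; the quadratic (1+σ²)η² - (π - 2σ(d-M0))η + (d-M0)² - o²/4 is ≥ 0. -/

open Set MeasureTheory Filter Topology Real
open scoped ComplexConjugate

namespace Pool.Agent.L2Q

open Pool.Agent.L2K

variable {Ω : Set ℂ} {lam nT nB m a b x y : ℝ} {u : ℂ → ℝ} {G : ℂ → ℂ} {l r : ℝ → ℝ} {j : ℕ}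

theorem Arc.g2_pos {ξ p : ℝ → ℝ} {t μ μ1 μ2 d σ X κ y0 y1 y2 : ℝ} (A : Arc ξ p t) (hμ1 : 0 < μ1)
    (h1 : μ1 ≤ μ) (h2 : μ ≤ μ2) (hd : 0 < d) (hd0 : d ≤ ξ 0) (hd1 : d ≤ ξ π) (hy0 : y0 ∈ Ioo 0 π)
    (hX : ξ y0 ≤ X) (he0 : ξ y0 ≤ d + σ * y0) (he1 : ξ y0 ≤ d + σ * (π - y0)) (hσ : 0 < σ)
    (hy1 : 0 ≤ y1) (hy12 : y1 < y2) (hy2 : y2 ≤ π) (ha : μ2 * (d + σ * (π - y1)) ≤ π)
    (hb : μ2 * X ≤ π) (hκ : 0 ≤ κ) (k1 : κ ≤ sin (μ1 * d)) (k2 : κ ≤ sin (μ2 * X))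
    (k3 : κ ≤ sin (μ2 * σ * (y2 - y1))) (k4 : μ2 * σ * (y2 - y1) ≤ π)
    (hf : (σ + √(1 + σ ^ 2)) * (μ2 * σ * y1 ^ 3 / 6) < κ * (1 + (sin y2 - sin y1) / (y2 - y1))) :
    0 < ∫ y in (0 : ℝ)..π, sin (μ * ξ y) * sin y * sq1 p y := by sorry

theorem env {M0 o d σ η : ℝ} (hσ : 0 < σ) (hM : M0 ≤ d) (h1 : 2 * σ * (d - M0) ≤ 3.1415)
    (h2 : (3.1416 - 2 * σ * (d - M0)) ^ 2 ≤ 4 * (1 + σ ^ 2) * ((d - M0) ^ 2 - o ^ 2 / 4))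
    (hη : 0 ≤ η) : M0 + √(o ^ 2 / 4 + η * (π - η)) ≤ d + σ * η := by sorry

end Pool.Agent.L2Q
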