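import Pool.Agent.P.MP_2f6447_an.Q.Volt
import Pool.Agent.P.MP_2f6447_an.Q.Par

/-! Representation of the modes. quad1, quad2: QD.green with φ = S1 (· - x), S2 (· - x) (left side 0). rep1, rep2: volterra and S(max s 0) = S s + S (max (-s) 0) for odd S.
repj: volterra with S = sinh(m·)/m minus 1/(2m) times green for φ = exp(m(· - x)): sinh(m s₊)/m - e^{ms}/(2m) = -e^{-m|s|}/(2m). UU_form, VV_form: addition formulas, linearity (Arc.ii_mul). Mind the casts ((1:ℕ):ℝ), ((2:ℕ):ℝ). -/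

open Set MeasureTheory Filter Topology Real
open scoped ComplexConjugate

namespace Pool.Agent.L2Q

open Pool.Agent.L2K

variable {Ω : Set ℂ} {lam nT nB m a b x y : ℝ} {u : ℂ → ℝ} {G : ℂ → ℂ} {l r : ℝ → ℝ} {j : ℕ}

theorem QD.quad1 (h : QD Ω lam u G l r nT nB) : UU lam l = UU lam r := by sorry

theorem QD.quad2 (h : QD Ω lam u G l r nT nB) : VV lam l = VV lam r := by sorry

theorem QD.rep1 (h : QD Ω lam u G l r nT nB) (x : ℝ) : am u 1 x = UU lam r x +
    2 / π * (∫ y in (0 : ℝ)..π, S1 lam (max (x - r y) 0) * sin y * sq1 (deriv r) y) -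
    2 / π * ∫ y in (0 : ℝ)..π, S1 lam (max (l y - x) 0) * sin y * sq1 (deriv l) y := by sorry

theorem QD.rep2 (h : QD Ω lam u G l r nT nB) (x : ℝ) : am u 2 x = VV lam r x +
    2 / π * (∫ y in (0 : ℝ)..π, S2 lam (max (x - r y) 0) * sin (2 * y) * sq1 (deriv r) y) -
    2 / π * ∫ y in (0 : ℝ)..π, S2 lam (max (l y - x) 0) * sin (2 * y) * sq1 (deriv l) y := by sorry

theorem QD.rep12 (h : QD Ω lam u G l r nT nB) (x : ℝ) : am u 1 x + 2 * am u 2 x = UU lam r x + 2 * VV lam r x +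
    Ret lam (fun y => r y - x) (deriv r) - Ret lam (fun y => x - l y) (fun y => -deriv l y) := by sorry

theorem QD.am1_eq (h : QD Ω lam u G l r nT nB) (hx : x ∈ Icc (xL l) (xR r)) : am u 1 x = UU lam r x := by sorry

theorem QD.am2_eq (h : QD Ω lam u G l r nT nB) (hx : x ∈ Icc (xL l) (xR r)) : am u 2 x = VV lam r x := by sorry

theorem QD.repj (h : QD Ω lam u G l r nT nB) (hj : 2 ≤ j) (x : ℝ) : π * mm lam j * am u j x =
    EI lam j (fun y => x - l y) (fun y => -deriv l y) 0 π -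
      EI lam j (fun y => r y - x) (deriv r) 0 π := by sorry

theorem QD.UU_form (h : QD Ω lam u G l r nT nB) :
    ∃ α β : ℝ, ∀ x, UU lam r x = α * cos (mu lam * x) + β * sin (mu lam * x) := by sorry

theorem QD.VV_form (h : QD Ω lam u G l r nT nB) : ExpF (mm lam 2) (VV lam r) := by sorry

end Pool.Agent.L2Q
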