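import Pool.Agent.P.MP_2f6447_an.Q.G2a
import Pool.Agent.P.MP_2f6447_an.Q.Rep

/-! The disc. Let z = ⟨x,y⟩ be in the closed disc and the open strip: (x-M)² ≤ o²/4 + y(π-y), o = nB - nT. With a = min n - xs ≤ c0, b = max n - xs ≤ δ, a ≤ b: (a+b)/2 + √((b-a)²/4 + Y) ≤ (c0+δ)/2 + √((δ-c0)²/4 + Y) (increasing in a and in b; prove by squaring or 1-Lipschitz of s ↦ √(s²+Y)).
If r y ≤ x: ξ = r - xs, y0 = y, env at η = y and η = π-y, X; g2_pos with μ = mu lam contradicts UU lam r xs = 0 (hU, S1_zero). If x ≤ l y: ξ = xs - l (arcL), UU lam l xs = 0 by quad1, the mirrored inequality (a ↦ -b, b ↦ -a). -/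

open Set MeasureTheory Filter Topology Real
open scoped ComplexConjugate

namespace Pool.Agent.L2Q

open Pool.Agent.L2K

variable {Ω : Set ℂ} {lam nT nB m a b x y : ℝ} {u : ℂ → ℝ} {G : ℂ → ℂ} {l r : ℝ → ℝ} {j : ℕ}

variable {a0 b0 mlo M2 mu1 u1 u2 xs B d e0 e B0 γ cap B1 δ c0 k0 C : ℝ}


theorem QD.g2 (h : QD Ω lam u G l r nT nB) (R : Rg lam m a0 b0 mlo M2 mu1 u1 u2) (S : St lam l r xs B d) (hd : 0 < d)
    (g : G1 Ω u nT nB xs δ c0 k0 C) (hc : c0 ≤ δ) (P : DP mu1 u2 d δ c0) {z : ℂ} (h0 : 0 < z.im)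
    (h1 : z.im < π) (hz : ‖z - mid nT nB‖ ≤ ‖(⟨nT, π⟩ : ℂ) - mid nT nB‖) : z ∈ Ω := by sorry

end Pool.Agent.L2Q
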