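import Pool.Agent.P.MP_2f6447_an.Q.Arc

/-! Geometry of the strip domain. l is strictly convex, r strictly concave on [0,π] (fields convl, concr), so l ≤ xL, xR ≤ r, strictly on (0,π); r - l is concave and positive at both ends.
near_bot at x = r 0: r 0 < r y for small y > 0 (strict concavity and deriv r t = 0 make r strictly increasing on [0,t]). slope_bot: u ⟨x,0⟩ = 0, mean value theorem on [0,y] (`hasDerivAt_im` in K.Basic, eqG), continuity of G at ⟨x,0⟩ within closure Ω.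
u_le_sin: Lipschitz, zero on both walls, min y (π-y) ≤ (π/2) sin y (`Real.mul_le_sin`). Import K.Basic. -/

open Set MeasureTheory Filter Topology Real
open scoped ComplexConjugate

namespace Pool.Agent.L2Q

open Pool.Agent.L2K

variable {Ω : Set ℂ} {lam nT nB m a b x y : ℝ} {u : ℂ → ℝ} {G : ℂ → ℂ} {l r : ℝ → ℝ} {j : ℕ}

theorem QD.l_le (h : QD Ω lam u G l r nT nB) (hy : y ∈ Icc 0 π) : l y ≤ xL l := by sorry

theorem QD.le_r (h : QD Ω lam u G l r nT nB) (hy : y ∈ Icc 0 π) : xR r ≤ r y := by sorry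

theorem QD.l_lt_r (h : QD Ω lam u G l r nT nB) (hy : y ∈ Icc 0 π) : l y < r y := by sorry

theorem QD.mem_of_I (h : QD Ω lam u G l r nT nB) (hx : x ∈ Icc (xL l) (xR r)) (hy : y ∈ Ioo 0 π) :
    (⟨x, y⟩ : ℂ) ∈ Ω := by sorry

theorem QD.isOpen (h : QD Ω lam u G l r nT nB) : IsOpen Ω := by sorry

theorem QD.convex (h : QD Ω lam u G l r nT nB) : Convex ℝ Ω := by sorry

theorem QD.bdd (h : QD Ω lam u G l r nT nB) : ∃ R, 0 < R ∧ (∀ y ∈ Icc 0 π, -R < l y ∧ r y < R) ∧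
    ∀ z : ℂ, R ≤ |z.re| → z ∉ Ω := by sorry

theorem QD.isBounded (h : QD Ω lam u G l r nT nB) : Bornology.IsBounded Ω := by sorry

theorem QD.mem_closure (h : QD Ω lam u G l r nT nB) {z : ℂ} :
    z ∈ closure Ω ↔ z.im ∈ Icc 0 π ∧ l z.im ≤ z.re ∧ z.re ≤ r z.im := by sorry

theorem QD.area_rect (h : QD Ω lam u G l r nT nB) (ha : xL l ≤ a) (hab : a ≤ b) (hb : b ≤ xR r) :
    π * (b - a) ≤ area Ω := by sorry

theorem QD.u_bot (h : QD Ω lam u G l r nT nB) (x : ℝ) : u ⟨x, 0⟩ = 0 := by sorry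

theorem QD.u_top (h : QD Ω lam u G l r nT nB) (x : ℝ) : u ⟨x, π⟩ = 0 := by sorry

theorem QD.cont_slice (h : QD Ω lam u G l r nT nB) (x : ℝ) : Continuous fun y : ℝ => u ⟨x, y⟩ := by sorry

theorem QD.near_bot (h : QD Ω lam u G l r nT nB) (hx : x ∈ Icc (l 0) (r 0)) :
    ∀ᶠ y in 𝓝[>] (0 : ℝ), (⟨x, y⟩ : ℂ) ∈ Ω := by sorry

theorem QD.slope_bot (h : QD Ω lam u G l r nT nB) (hx : x ∈ Icc (l 0) (r 0)) :
    Tendsto (fun y : ℝ => u ⟨x, y⟩ / y) (𝓝[>] 0) (𝓝 (gb G x)) := by sorry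

theorem QD.u_le_sin (h : QD Ω lam u G l r nT nB) : ∃ C, ∀ x, ∀ y ∈ Icc 0 π, |u ⟨x, y⟩| ≤ C * sin y := by sorry

theorem QD.arcR (h : QD Ω lam u G l r nT nB) (x : ℝ) : ∃ t, Arc (fun y => r y - x) (deriv r) t := by sorry

theorem QD.arcL (h : QD Ω lam u G l r nT nB) (x : ℝ) : ∃ t, Arc (fun y => x - l y) (fun y => -deriv l y) t := by sorry

theorem QD.cross (h : QD Ω lam u G l r nT nB) (h1 : r π < r 0) : ∃ t c, Arc r (deriv r) t ∧ t ≤ c ∧ c ∈ Ioo 0 π ∧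
    r c = r 0 ∧ ∀ y ∈ Ioo 0 π, (r 0 < r y ↔ y < c) := by sorry

theorem QD.re_nonpos (h : QD Ω lam u G l r nT nB) {z : ℂ} (hz : z ∈ frontier Ω) : (G z).re ≤ 0 := by sorry

end Pool.Agent.L2Q
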