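import Pool.Agent.P.MP_2f6447_an.Q.Div

/-! Green's identity for ψ z = φ z.re * sin (j z.im). Fix p ∈ Ω, s < 1, u_s z = u (p + s(z-p)) = u (sim ((1-s)p) s z): Helm (lam s²) on the open set U_s = preimage of Ω ⊇ closure Ω (`Helm.of_sim`, convexity: `Convex.combo_interior_closure_mem_interior` or K `Dom.combo_mem`).
div_x for P = u_s ψ_x - ψ (u_s)_x, div_y for Q = u_s ψ_y - ψ (u_s)_y; the sum is ∫_Ω u_s (Δψ + lam s² ψ). grad u_s z = s G(p + s(z-p)). Let s → 1 (sequence, dominated convergence; u and G are bounded and continuous on the compact closure; deriv r, deriv l integrable).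
In the limit u = 0 on the frontier, ψ = 0 on the walls, and on the right arc -ψ G.re + ψ G.im r' = ψ (1 + r'²)/sq1 = ψ sq1 (Gr), on the left arc the same with the opposite sign. Left side: `integral_eq_re_im`, u = 0 off Ω. -/

open Set MeasureTheory Filter Topology Real
open scoped ComplexConjugate

namespace Pool.Agent.L2Q

open Pool.Agent.L2K

variable {Ω : Set ℂ} {lam nT nB m a b x y : ℝ} {u : ℂ → ℝ} {G : ℂ → ℂ} {l r : ℝ → ℝ} {j : ℕ}

theorem QD.green (h : QD Ω lam u G l r nT nB) (j : ℕ) {φ φ1 φ2 : ℝ → ℝ} (h1 : ∀ x, HasDerivAt φ (φ1 x) x)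
    (h2 : ∀ x, HasDerivAt φ1 (φ2 x) x) (hc : Continuous φ2) :
    π / 2 * ∫ x, am u j x * (φ2 x + (lam - (j : ℝ) ^ 2) * φ x) =
      (∫ y in (0 : ℝ)..π, φ (r y) * sin (j * y) * sq1 (deriv r) y) -
        ∫ y in (0 : ℝ)..π, φ (l y) * sin (j * y) * sq1 (deriv l) y := by sorry

theorem QD.continuous_am (h : QD Ω lam u G l r nT nB) (j : ℕ) : Continuous (am u j) := by sorry

theorem QD.am_zero (h : QD Ω lam u G l r nT nB) (hx : ∀ y, (⟨x, y⟩ : ℂ) ∉ Ω) (j : ℕ) : am u j x = 0 := by sorry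

end Pool.Agent.L2Q
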