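import Pool.Agent.P.MP_2f6447_an.Q.FG

/-! Polynomial inequalities for the kernels, part 1. -/

open Set MeasureTheory Filter Topology Real

namespace Pool.Agent.L2Q

open Pool.Agent.L2K

variable {lam q ρ y t a b c m : ℝ} {j : ℕ} {ξ p : ℝ → ℝ}

theorem Poly1_R2 {q c : ℝ} (h0 : 0 ≤ q) (h1 : q ≤ 1) (h2 : -1 ≤ c) (h3 : c ≤ (3 / 5)) :
    0 ≤ (1 + c) * (-(1 - (1 - 2 * c) - (1 - 2 * c) ^ 2) + (2 - 2 * c) * q) +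
      2 * ((1 - 2 * q * c + q ^ 2) * (1 + q)) := by
  have key : ∀ x x' z z' : ℝ, 0 ≤ x → 0 ≤ x' → 0 ≤ z → 0 ≤ z' → 0 ≤
      (125 / 256) * x' ^ 3 * z' ^ 3 + (1475 / 256) * x' ^ 3 * z ^ 1 * z' ^ 2 +
      (335 / 256) * x' ^ 3 * z ^ 2 * z' ^ 1 + (9 / 256) * x' ^ 3 * z ^ 3 +
      (375 / 128) * x ^ 1 * x' ^ 2 * z' ^ 3 + (2775 / 128) * x ^ 1 * x' ^ 2 * z ^ 1 * z' ^ 2 +
      (905 / 128) * x ^ 1 * x' ^ 2 * z ^ 2 * z' ^ 1 + (41 / 128) * x ^ 1 * x' ^ 2 * z ^ 3 +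
      (375 / 64) * x ^ 2 * x' ^ 1 * z' ^ 3 + (925 / 32) * x ^ 2 * x' ^ 1 * z ^ 1 * z' ^ 2 +
      (735 / 64) * x ^ 2 * x' ^ 1 * z ^ 2 * z' ^ 1 + (7 / 16) * x ^ 2 * x' ^ 1 * z ^ 3 +
      (125 / 32) * x ^ 3 * z' ^ 3 + (925 / 64) * x ^ 3 * z ^ 1 * z' ^ 2 +
      (115 / 16) * x ^ 3 * z ^ 2 * z' ^ 1 + (41 / 64) * x ^ 3 * z ^ 3 := by
    intro x x' z z' _ _ _ _
    positivity
  have h := key q (1 - q) (c - -1) ((3 / 5) - c) h0 (by linarith) (by linarith) (by linarith)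
  refine h.trans_eq ?_
  ring

theorem Poly1_P2a {q c : ℝ} (h0 : 0 ≤ q) (h1 : q ≤ 1) (h2 : (3 / 5) ≤ c) (h3 : c ≤ (4 / 5)) :
    0 ≤ (1 + c) * ((1 - 2 * c) ^ 2 - (1 - (1 - 2 * c) - (1 - 2 * c) ^ 2) * q + (2 - 2 * c) * q ^ 2) +
      2 * q * ((1 - 2 * q * c + q ^ 2) * (1 + q)) := by
  have key : ∀ x x' z z' : ℝ, 0 ≤ x → 0 ≤ x' → 0 ≤ z → 0 ≤ z' → 0 ≤
      40 * x' ^ 5 * z' ^ 4 + 325 * x' ^ 5 * z ^ 1 * z' ^ 3 + 915 * x' ^ 5 * z ^ 2 * z' ^ 2 +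
      1035 * x' ^ 5 * z ^ 3 * z' ^ 1 + 405 * x' ^ 5 * z ^ 4 + 290 * x ^ 1 * x' ^ 4 * z' ^ 4 +
      1600 * x ^ 1 * x' ^ 4 * z ^ 1 * z' ^ 3 + 4090 * x ^ 1 * x' ^ 4 * z ^ 2 * z' ^ 2 +
      4660 * x ^ 1 * x' ^ 4 * z ^ 3 * z' ^ 1 + 1880 * x ^ 1 * x' ^ 4 * z ^ 4 +
      1310 * x ^ 2 * x' ^ 3 * z' ^ 4 + 4550 * x ^ 2 * x' ^ 3 * z ^ 1 * z' ^ 3 +
      8060 * x ^ 2 * x' ^ 3 * z ^ 2 * z' ^ 2 + 7990 * x ^ 2 * x' ^ 3 * z ^ 3 * z' ^ 1 +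
      3170 * x ^ 2 * x' ^ 3 * z ^ 4 + 2340 * x ^ 3 * x' ^ 2 * z' ^ 4 +
      5800 * x ^ 3 * x' ^ 2 * z ^ 1 * z' ^ 3 + 5790 * x ^ 3 * x' ^ 2 * z ^ 2 * z' ^ 2 +
      3860 * x ^ 3 * x' ^ 2 * z ^ 3 * z' ^ 1 + 1530 * x ^ 3 * x' ^ 2 * z ^ 4 +
      2960 * x ^ 4 * x' ^ 1 * z' ^ 4 + 7725 * x ^ 4 * x' ^ 1 * z ^ 1 * z' ^ 3 +
      6685 * x ^ 4 * x' ^ 1 * z ^ 2 * z' ^ 2 + 2215 * x ^ 4 * x' ^ 1 * z ^ 3 * z' ^ 1 +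
      295 * x ^ 4 * x' ^ 1 * z ^ 4 + 1680 * x ^ 5 * z' ^ 4 + 5200 * x ^ 5 * z ^ 1 * z' ^ 3 +
      5780 * x ^ 5 * z ^ 2 * z' ^ 2 + 2720 * x ^ 5 * z ^ 3 * z' ^ 1 + 460 * x ^ 5 * z ^ 4 := by
    intro x x' z z' _ _ _ _
    positivity
  have h := key q (1 - q) (c - (3 / 5)) ((4 / 5) - c) h0 (by linarith) (by linarith) (by linarith)
  refine h.trans_eq ?_
  ring

theorem Poly1_P2b {q c : ℝ} (h0 : 0 ≤ q) (h1 : q ≤ 1) (h2 : (4 / 5) ≤ c) (h3 : c ≤ 1) :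
    0 ≤ (1 + c) * ((1 - 2 * c) ^ 2 - (1 - (1 - 2 * c) - (1 - 2 * c) ^ 2) * q + (2 - 2 * c) * q ^ 2) +
      2 * q * ((1 - 2 * q * c + q ^ 2) * (1 + q)) := by
  have key : ∀ x x' z z' : ℝ, 0 ≤ x → 0 ≤ x' → 0 ≤ z → 0 ≤ z' → 0 ≤
      405 * x' ^ 5 * z' ^ 4 + 2205 * x' ^ 5 * z ^ 1 * z' ^ 3 + 4425 * x' ^ 5 * z ^ 2 * z' ^ 2 +
      3875 * x' ^ 5 * z ^ 3 * z' ^ 1 + 1250 * x' ^ 5 * z ^ 4 + 1880 * x ^ 1 * x' ^ 4 * z' ^ 4 +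
      10380 * x ^ 1 * x' ^ 4 * z ^ 1 * z' ^ 3 + 21250 * x ^ 1 * x' ^ 4 * z ^ 2 * z' ^ 2 +
      19000 * x ^ 1 * x' ^ 4 * z ^ 3 * z' ^ 1 + 6250 * x ^ 1 * x' ^ 4 * z ^ 4 +
      3170 * x ^ 2 * x' ^ 3 * z' ^ 4 + 17370 * x ^ 2 * x' ^ 3 * z ^ 1 * z' ^ 3 +
      36200 * x ^ 2 * x' ^ 3 * z ^ 2 * z' ^ 2 + 33250 * x ^ 2 * x' ^ 3 * z ^ 3 * z' ^ 1 +
      11250 * x ^ 2 * x' ^ 3 * z ^ 4 + 1530 * x ^ 3 * x' ^ 2 * z' ^ 4 +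
      8380 * x ^ 3 * x' ^ 2 * z ^ 1 * z' ^ 3 + 19350 * x ^ 3 * x' ^ 2 * z ^ 2 * z' ^ 2 +
      20000 * x ^ 3 * x' ^ 2 * z ^ 3 * z' ^ 1 + 7500 * x ^ 3 * x' ^ 2 * z ^ 4 +
      295 * x ^ 4 * x' ^ 1 * z' ^ 4 + 145 * x ^ 4 * x' ^ 1 * z ^ 1 * z' ^ 3 +
      475 * x ^ 4 * x' ^ 1 * z ^ 2 * z' ^ 2 + 1875 * x ^ 4 * x' ^ 1 * z ^ 3 * z' ^ 1 +
      1250 * x ^ 4 * x' ^ 1 * z ^ 4 + 460 * x ^ 5 * z' ^ 4 + 960 * x ^ 5 * z ^ 1 * z' ^ 3 +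
      500 * x ^ 5 * z ^ 2 * z' ^ 2 := by
    intro x x' z z' _ _ _ _
    positivity
  have h := key q (1 - q) (c - (4 / 5)) (1 - c) h0 (by linarith) (by linarith) (by linarith)
  refine h.trans_eq ?_
  ring

theorem Poly1_P3 {q c : ℝ} (h0 : 0 ≤ q) (h1 : q ≤ 1) (h2 : -1 ≤ c) (h3 : c ≤ 0) :
    0 ≤ 2 * (1 - 2 * c) * ((1 - 2 * q * c + q ^ 2) * (1 + q)) -
      q * ((1 - 2 * c) ^ 2 - (1 - (1 - 2 * c) - (1 - 2 * c) ^ 2) * q + (2 - 2 * c) * q ^ 2) := by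
  have key : ∀ x x' z z' : ℝ, 0 ≤ x → 0 ≤ x' → 0 ≤ z → 0 ≤ z' → 0 ≤
      6 * x' ^ 3 * z' ^ 2 + 8 * x' ^ 3 * z ^ 1 * z' ^ 1 + 2 * x' ^ 3 * z ^ 2 +
      27 * x ^ 1 * x' ^ 2 * z' ^ 2 + 30 * x ^ 1 * x' ^ 2 * z ^ 1 * z' ^ 1 +
      7 * x ^ 1 * x' ^ 2 * z ^ 2 + 43 * x ^ 2 * x' ^ 1 * z' ^ 2 +
      40 * x ^ 2 * x' ^ 1 * z ^ 1 * z' ^ 1 + 9 * x ^ 2 * x' ^ 1 * z ^ 2 + 24 * x ^ 3 * z' ^ 2 +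
      20 * x ^ 3 * z ^ 1 * z' ^ 1 + 4 * x ^ 3 * z ^ 2 := by
    intro x x' z z' _ _ _ _
    positivity
  have h := key q (1 - q) (c - -1) (0 - c) h0 (by linarith) (by linarith) (by linarith)
  refine h.trans_eq ?_
  ring

theorem Poly1_P4 {q c : ℝ} (h0 : 0 ≤ q) (h1 : q ≤ 1) (h2 : -1 ≤ c) (h3 : c ≤ (-1 / 2)) :
    0 ≤ (2 - q) * ((1 - 2 * q * c + q ^ 2) * (1 + q)) -
      (1 + c) * ((1 - 2 * c) ^ 2 - (1 - (1 - 2 * c) - (1 - 2 * c) ^ 2) * q + (2 - 2 * c) * q ^ 2) := by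
  have key : ∀ x x' z z' : ℝ, 0 ≤ x → 0 ≤ x' → 0 ≤ z → 0 ≤ z' → 0 ≤
      16 * x' ^ 4 * z' ^ 3 + 12 * x' ^ 4 * z ^ 1 * z' ^ 2 + 104 * x ^ 1 * x' ^ 3 * z' ^ 3 +
      108 * x ^ 1 * x' ^ 3 * z ^ 1 * z' ^ 2 + 28 * x ^ 1 * x' ^ 3 * z ^ 2 * z' ^ 1 +
      4 * x ^ 1 * x' ^ 3 * z ^ 3 + 240 * x ^ 2 * x' ^ 2 * z' ^ 3 +
      300 * x ^ 2 * x' ^ 2 * z ^ 1 * z' ^ 2 + 112 * x ^ 2 * x' ^ 2 * z ^ 2 * z' ^ 1 +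
      16 * x ^ 2 * x' ^ 2 * z ^ 3 + 224 * x ^ 3 * x' ^ 1 * z' ^ 3 +
      308 * x ^ 3 * x' ^ 1 * z ^ 1 * z' ^ 2 + 132 * x ^ 3 * x' ^ 1 * z ^ 2 * z' ^ 1 +
      20 * x ^ 3 * x' ^ 1 * z ^ 3 + 64 * x ^ 4 * z' ^ 3 + 80 * x ^ 4 * z ^ 1 * z' ^ 2 +
      24 * x ^ 4 * z ^ 2 * z' ^ 1 := by
    intro x x' z z' _ _ _ _
    positivity
  have h := key q (1 - q) (c - -1) ((-1 / 2) - c) h0 (by linarith) (by linarith) (by linarith)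
  refine h.trans_eq ?_
  ring

theorem Poly1_den (hq : q ∈ Ioo (0 : ℝ) 1) (hc : c ≤ 1) :
    0 < (1 - 2 * q * c + q ^ 2) * (1 + q) :=
  mul_pos (den_pos hq hc) (by linarith [hq.1])

theorem P1 (hq : q ∈ Ioo (0 : ℝ) 1) (h1 : -1 ≤ c) (hc : c ≤ 0.19) : 0 ≤ Fr q c := by
  have hd := Poly1_den hq (c := c) (by linarith)
  unfold Fr
  refine div_nonneg (mul_nonneg (by linarith) ?_) hd.le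
  have h2 : 0 ≤ -(1 - (1 - 2 * c) - (1 - 2 * c) ^ 2) := by nlinarith
  have h3 : 0 ≤ -(1 - (1 - 2 * c) - (1 - 2 * c) ^ 2) * q := mul_nonneg h2 hq.1.le
  have h4 : 0 ≤ (2 - 2 * c) * q ^ 2 := mul_nonneg (by linarith) (sq_nonneg q)
  nlinarith [sq_nonneg (1 - 2 * c)]

theorem P2 (hq : q ∈ Ioo (0 : ℝ) 1) (h1 : -1 ≤ c) (hc : c ≤ 1) : -(2 * q) ≤ Fr q c := by
  have hd := Poly1_den hq hc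
  unfold Fr
  rw [le_div_iff₀ hd]
  rcases le_total c (3 / 5) with h | h
  · have h2 := mul_nonneg hq.1.le (Poly1_R2 hq.1.le hq.2.le h1 h)
    have h3 : 0 ≤ (1 + c) * (1 - 2 * c) ^ 2 := mul_nonneg (by linarith) (sq_nonneg _)
    nlinarith
  · rcases le_total c (4 / 5) with h' | h'
    · have h2 := Poly1_P2a hq.1.le hq.2.le h h'
      linarith
    · have h2 := Poly1_P2b hq.1.le hq.2.le h' hc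
      linarith

theorem P3 (hq : q ∈ Ioo (0 : ℝ) 1) (h1 : -1 ≤ c) (hc : c ≤ 0) :
    q * Fr q c ≤ 2 * (1 - 2 * c) * (1 + c) := by
  have hd := Poly1_den hq (c := c) (by linarith)
  unfold Fr
  rw [← mul_div_assoc, div_le_iff₀ hd]
  have h2 := mul_nonneg (show 0 ≤ 1 + c by linarith) (Poly1_P3 hq.1.le hq.2.le h1 hc)
  linarith

theorem P4a (hq : q ∈ Ioo (0 : ℝ) 1) (h1 : -1 ≤ c) (hc : c ≤ -1 / 2) : Fr q c ≤ 2 - q := by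
  have hd := Poly1_den hq (c := c) (by linarith)
  unfold Fr
  rw [div_le_iff₀ hd]
  have h2 := Poly1_P4 hq.1.le hq.2.le h1 hc
  linarith

theorem P4b {s : ℝ} (hq : q ∈ Ioo (0 : ℝ) 1) (hs : 0 ≤ s) (hc : c ≤ -1 / 2) :
    0 ≤ Gr' q c s := by
  have hd := den_pos hq (c := c) (by linarith)
  unfold Gr'
  refine div_nonneg (mul_nonneg hs ?_) hd.le
  have h2 : 0 ≤ q * -c := mul_nonneg hq.1.le (by linarith)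
  nlinarith

theorem P7 {s : ℝ} (hq : q ∈ Ioo (0 : ℝ) 1) (hs : 0 ≤ s) (h : s ^ 2 + c ^ 2 = 1) :
    -Gr' q c s ≤ 1 := by
  have hc2 : c ^ 2 ≤ 1 := by nlinarith [sq_nonneg s]
  have hc : c ≤ 1 := by nlinarith
  have hd := den_pos hq hc
  unfold Gr'
  rw [← neg_div, div_le_one hd]
  rcases le_total 0 (4 * c ^ 2 - 1 - 2 * q * c) with hb | hb
  · have := mul_nonneg hs hb
    linarith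
  · have hs1 : s ≤ 1 - c ^ 2 / 2 := by nlinarith [sq_nonneg (s - 1)]
    have h2 : 0 ≤ (1 - c ^ 2 / 2 - s) * -(4 * c ^ 2 - 1 - 2 * q * c) :=
      mul_nonneg (by linarith) (by linarith)
    have h3 : 0 ≤ c ^ 2 * (2 - (c ^ 2) ^ 2) :=
      mul_nonneg (sq_nonneg c) (by nlinarith [sq_nonneg c])
    nlinarith [sq_nonneg (q - 2 * c + c ^ 3 / 2)]

end Pool.Agent.L2Q
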