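import Pool.Agent.P.MP_2f6447_an.Q.Mix
import Pool.Agent.P.MP_2f6447_an.Q.Poly1

/-! Kernel inequalities for the true decay rates, part 1. -/

open Set MeasureTheory Filter Topology Real

namespace Pool.Agent.L2Q

open Pool.Agent.L2K

variable {lam q ρ y t a b c m : ℝ} {j : ℕ} {ξ p : ℝ → ℝ}

/-- three constants at the places `2, 3, 4` -/
def Hat1_e (e2 e3 e4 : ℝ) (j : ℕ) : ℝ :=
  if j = 2 then e2 else if j = 3 then e3 else if j = 4 then e4 else 0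

/-- the oscillating part of the coefficient sequence -/
noncomputable def Hat1_a (α β y : ℝ) (j : ℕ) : ℝ :=
  if 3 ≤ j then α * (cos (j * y) - (-1) ^ j) + β * sin (j * y) else 0

/-- the coefficient sequence -/
noncomputable def Hat1_b (α β e2 e3 e4 y : ℝ) (j : ℕ) : ℝ := Hat1_a α β y j + Hat1_e e2 e3 e4 j

theorem Hat1_e_sum (e2 e3 e4 : ℝ) (x : ℕ → ℝ) :
    HasSum (fun k => x k * Hat1_e e2 e3 e4 k) (x 2 * e2 + x 3 * e3 + x 4 * e4) := by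
  have h := hasSum_sum_of_ne_finset_zero (L := SummationFilter.unconditional ℕ)
    (f := fun k => x k * Hat1_e e2 e3 e4 k) (s := {2, 3, 4}) (by
      intro k hk
      simp only [Finset.mem_insert, Finset.mem_singleton, not_or] at hk
      simp [Hat1_e, hk.1, hk.2.1, hk.2.2])
  have e : ∑ k ∈ ({2, 3, 4} : Finset ℕ), x k * Hat1_e e2 e3 e4 k =
      x 2 * e2 + x 3 * e3 + x 4 * e4 := by
    simp [Hat1_e]
    ring
  rw [e] at h
  exact h

theorem Hat1_e_le (e2 e3 e4 : ℝ) (k : ℕ) : |Hat1_e e2 e3 e4 k| ≤ |e2| + |e3| + |e4| := by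
  have a2 := abs_nonneg e2
  have a3 := abs_nonneg e3
  have a4 := abs_nonneg e4
  unfold Hat1_e
  split_ifs
  · linarith
  · linarith
  · linarith
  · rw [abs_zero]
    linarith

theorem Hat1_cos_le (y : ℝ) (j : ℕ) : |cos (j * y) - (-1) ^ j| ≤ 2 := by
  have h1 := abs_sub (cos (j * y)) ((-1) ^ j)
  have h2 := abs_cos_le_one (j * y)
  have h3 : |(-1 : ℝ) ^ j| = 1 := by simp
  linarith

theorem Hat1_a_le (α β y : ℝ) (j : ℕ) : |Hat1_a α β y j| ≤ |α| * 2 + |β| := by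
  unfold Hat1_a
  split_ifs
  · have h2 := abs_add_le (α * (cos (j * y) - (-1) ^ j)) (β * sin (j * y))
    rw [abs_mul, abs_mul] at h2
    have h4 := mul_le_mul_of_nonneg_left (Hat1_cos_le y j) (abs_nonneg α)
    have h5 := mul_le_mul_of_nonneg_left (abs_sin_le_one (j * y)) (abs_nonneg β)
    linarith
  · rw [abs_zero]
    positivity

theorem Hat1_split (α β e2 e3 e4 y : ℝ) (x : ℕ → ℝ) {A B : ℝ}
    (hA : HasSum (fun k : ℕ => x (k + 3) * (cos ((k + 3 : ℕ) * y) - (-1) ^ (k + 3))) A)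
    (hB : HasSum (fun k : ℕ => x (k + 3) * sin ((k + 3 : ℕ) * y)) B) :
    ∑' j, x j * Hat1_b α β e2 e3 e4 y j = α * A + β * B + (x 2 * e2 + x 3 * e3 + x 4 * e4) := by
  have h1 : HasSum (fun k : ℕ => x (k + 3) * Hat1_a α β y (k + 3)) (α * A + β * B) := by
    refine ((hA.mul_left α).add (hB.mul_left β)).congr_fun fun k => ?_
    unfold Hat1_a
    rw [if_pos (by omega)]
    ring
  have h2 : HasSum (fun j : ℕ => x j * Hat1_a α β y j) (α * A + β * B) := by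
    refine ((add_left_injective 3).hasSum_iff (f := fun j : ℕ => x j * Hat1_a α β y j)
      fun j hj => ?_).1 h1
    have h3 : ¬ 3 ≤ j := fun a => hj ⟨j - 3, by show j - 3 + 3 = j; omega⟩
    unfold Hat1_a
    rw [if_neg h3, mul_zero]
  rw [← (h2.add (Hat1_e_sum e2 e3 e4 x)).tsum_eq]
  refine tsum_congr fun k => ?_
  unfold Hat1_b
  ring

theorem Hat1_pos {α β e2 e3 e4 : ℝ} (h : ∀ q ∈ Ioo (0 : ℝ) 1,
    0 ≤ q * (α * Fr q (cos y) + β * Gr' q (cos y) (sin y)) + (e2 + e3 * q + e4 * q ^ 2)) :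
    PosS (Hat1_b α β e2 e3 e4 y) := by
  refine ⟨by simp [Hat1_b, Hat1_a, Hat1_e], by simp [Hat1_b, Hat1_a, Hat1_e],
    ⟨|α| * 2 + |β| + (|e2| + |e3| + |e4|), fun j => ?_⟩, fun q hq => ?_⟩
  · have h1 := abs_add_le (Hat1_a α β y j) (Hat1_e e2 e3 e4 j)
    have h2 := Hat1_a_le α β y j
    have h3 := Hat1_e_le e2 e3 e4 j
    unfold Hat1_b
    linarith
  · have h1 := Hat1_split α β e2 e3 e4 y (fun j => q ^ j) (hasSum_Fc hq y) (hasSum_Gc hq y)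
    have h2 := mul_nonneg (pow_pos hq.1 2).le (h q hq)
    refine h2.trans_eq (Eq.trans ?_ (h1.symm.trans (tsum_congr fun k => mul_comm _ _)))
    ring

theorem Hat1_summable (hq : q ∈ Ioo (0 : ℝ) 1) (hρ : 0 ≤ ρ) {x : ℕ → ℝ} {C : ℝ}
    (hx : ∀ k, |x k| ≤ C) : Summable fun k : ℕ => q ^ (k + 3) * ee lam (k + 3) ρ * x k := by
  refine Summable.of_norm_bounded
    ((summable_geometric_of_lt_one hq.1.le hq.2).mul_left C) fun k => ?_
  have h1 := ee_pos lam (k + 3) ρ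
  have h2 := ee_le_one lam (k + 3) hρ
  have h3 : q ^ (k + 3) ≤ q ^ k := pow_le_pow_of_le_one hq.1.le hq.2.le (by omega)
  have h4 : 0 < q ^ (k + 3) := pow_pos hq.1 _
  have h5 : q ^ (k + 3) * ee lam (k + 3) ρ ≤ q ^ k := by nlinarith
  rw [Real.norm_eq_abs, abs_mul, abs_of_pos (mul_pos h4 h1), mul_comm C]
  exact mul_le_mul h5 (hx k) (abs_nonneg _) (pow_pos hq.1 k).le

theorem Hat1_mm (hl : lam < 4) (k : ℕ) :
    1 ≤ mm lam (k + 3) ∧ ((k + 3 : ℕ) : ℝ) ≤ 2 * mm lam (k + 3) := by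
  have h1 : 0 < mm lam (k + 3) := mm_pos hl (by omega)
  have h3 := mm_sq (j := k + 3) hl (by omega)
  have h4 : (3 : ℝ) ≤ ((k + 3 : ℕ) : ℝ) := by exact_mod_cast (by omega : 3 ≤ k + 3)
  have h5 : ((k + 3 : ℕ) : ℝ) ≤ 2 * mm lam (k + 3) := by
    by_contra hn
    nlinarith [not_le.1 hn]
  exact ⟨by linarith, h5⟩

theorem Hat1_inv_le (hl : lam < 4) (k : ℕ) : |(mm lam (k + 3))⁻¹| ≤ 1 := by
  have h1 := (Hat1_mm hl k).1
  rw [abs_of_pos (by positivity)]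
  exact inv_le_one_of_one_le₀ h1

theorem Hat1_nu_le (hl : lam < 4) (k : ℕ) :
    |((k + 3 : ℕ) : ℝ) / mm lam (k + 3) - 1| ≤ 1 := by
  obtain ⟨h1, h5⟩ := Hat1_mm hl k
  have h6 : ((k + 3 : ℕ) : ℝ) / mm lam (k + 3) ≤ 2 := (div_le_iff₀ (by linarith)).2 h5
  have h7 : 0 ≤ ((k + 3 : ℕ) : ℝ) / mm lam (k + 3) := by positivity
  rw [abs_le]
  constructor <;> linarith

/-- the two weighted series converge for every bounded weight -/
theorem Hat1_w (hq : q ∈ Ioo (0 : ℝ) 1) (hρ : 0 ≤ ρ) (w : ℕ → ℝ) (hw : ∀ k, |w (k + 3)| ≤ 1)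
    (y : ℝ) :
    (Summable fun k : ℕ => q ^ (k + 3) * ee lam (k + 3) ρ * w (k + 3) *
      (cos ((k + 3 : ℕ) * y) - (-1) ^ (k + 3))) ∧
    Summable fun k : ℕ => q ^ (k + 3) * ee lam (k + 3) ρ * w (k + 3) * sin ((k + 3 : ℕ) * y) := by
  constructor
  · refine (Hat1_summable (lam := lam) hq hρ (C := 2)
      (x := fun k => w (k + 3) * (cos ((k + 3 : ℕ) * y) - (-1) ^ (k + 3))) fun k => ?_).congr
      fun k => by ring
    rw [abs_mul]
    have := mul_le_mul (hw k) (Hat1_cos_le y (k + 3)) (abs_nonneg _) zero_le_one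
    linarith
  · refine (Hat1_summable (lam := lam) hq hρ (C := 1)
      (x := fun k => w (k + 3) * sin ((k + 3 : ℕ) * y)) fun k => ?_).congr fun k => by ring
    rw [abs_mul]
    exact mul_le_one₀ (hw k) (abs_nonneg _) (abs_sin_le_one _)

theorem Hat1_F (h2 : 2 ≤ lam) (hl : lam < 4) (hq : q ∈ Ioo (0 : ℝ) 1) (hρ : 0 ≤ ρ)
    (α e2 e3 e4 : ℝ) (h : ∀ q ∈ Ioo (0 : ℝ) 1,
      0 ≤ q * (α * Fr q (cos y)) + (e2 + e3 * q + e4 * q ^ 2)) :
    0 ≤ α * Fh lam q ρ y + (q ^ 2 * ee lam 2 ρ * e2 + q ^ 3 * ee lam 3 ρ * e3 +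
      q ^ 4 * ee lam 4 ρ * e4) := by
  have hp : PosS (Hat1_b α 0 e2 e3 e4 y) := Hat1_pos fun q hq => by
    have := h q hq
    linarith
  have h0 := hat0 (by linarith) hl hp hq hρ
  have h1 := Hat1_split α 0 e2 e3 e4 y (fun j => q ^ j * ee lam j ρ)
    (Hat1_summable (lam := lam) hq hρ fun k => Hat1_cos_le y (k + 3)).hasSum
    (Hat1_summable (lam := lam) hq hρ (C := 1) (x := fun k => sin ((k + 3 : ℕ) * y))
      fun k => abs_sin_le_one _).hasSum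
  rw [h1] at h0
  unfold Fh
  linarith

theorem Hat1_P (h2 : 2 ≤ lam) (hl : lam < 4) (hq : q ∈ Ioo (0 : ℝ) 1) (hρ : 0 ≤ ρ)
    (e4 : ℝ) (h : ∀ q ∈ Ioo (0 : ℝ) 1, 0 ≤ Fr q (cos y) + e4 * q) :
    0 ≤ Ph lam q ρ y + e4 * (q ^ 4 * ee lam 4 ρ / mm lam 4) := by
  have hp : PosS (Hat1_b 1 0 0 0 e4 y) := Hat1_pos fun q hq => by
    have := mul_nonneg hq.1.le (h q hq)
    linarith
  have h0 := hat_inv (by linarith) hl hp hq hρ
  obtain ⟨s1, s2⟩ := Hat1_w (lam := lam) hq hρ (fun j => (mm lam j)⁻¹) (Hat1_inv_le hl) y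
  have h1 := Hat1_split 1 0 0 0 e4 y (fun j => q ^ j * ee lam j ρ * (mm lam j)⁻¹)
    s1.hasSum s2.hasSum
  have h3 := h0.trans_eq ((tsum_congr fun k => by ring).trans h1)
  have h4 : Ph lam q ρ y = ∑' k : ℕ, q ^ (k + 3) * ee lam (k + 3) ρ * (mm lam (k + 3))⁻¹ *
      (cos ((k + 3 : ℕ) * y) - (-1) ^ (k + 3)) := by
    unfold Ph
    exact tsum_congr fun k => by ring
  rw [h4, div_eq_mul_inv]
  linarith

theorem Hat1_G (h2 : 2 ≤ lam) (hl : lam < 4) (hq : q ∈ Ioo (0 : ℝ) 1) (hρ : 0 ≤ ρ)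
    (h : ∀ q ∈ Ioo (0 : ℝ) 1, 0 ≤ Gr' q (cos y) (sin y)) : 0 ≤ Gh lam q ρ y := by
  have hp : PosS (Hat1_b 0 1 0 0 0 y) := Hat1_pos fun q hq => by
    have := mul_nonneg hq.1.le (h q hq)
    linarith
  have a0 := hat0 (by linarith) hl hp hq hρ
  have b0 := hat_nu (by linarith) hl hp hq hρ
  have sa := Hat1_summable (lam := lam) hq hρ (C := 1) (x := fun k => sin ((k + 3 : ℕ) * y))
    fun k => abs_sin_le_one _
  have a1 := Hat1_split 0 1 0 0 0 y (fun j => q ^ j * ee lam j ρ)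
    (Hat1_summable (lam := lam) hq hρ fun k => Hat1_cos_le y (k + 3)).hasSum sa.hasSum
  obtain ⟨s1, s2⟩ := Hat1_w (lam := lam) hq hρ (fun j => (j : ℝ) / mm lam j - 1)
    (Hat1_nu_le hl) y
  have b1 := Hat1_split 0 1 0 0 0 y (fun j => q ^ j * ee lam j ρ * ((j : ℝ) / mm lam j - 1))
    s1.hasSum s2.hasSum
  have b3 := b0.trans_eq ((tsum_congr fun k => by ring).trans b1)
  rw [a1] at a0
  have e : Gh lam q ρ y = (∑' k : ℕ, q ^ (k + 3) * ee lam (k + 3) ρ * sin ((k + 3 : ℕ) * y)) +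
      ∑' k : ℕ, q ^ (k + 3) * ee lam (k + 3) ρ * (((k + 3 : ℕ) : ℝ) / mm lam (k + 3) - 1) *
        sin ((k + 3 : ℕ) * y) := by
    rw [← sa.tsum_add s2]
    unfold Gh
    exact tsum_congr fun k => by ring
  rw [e]
  linarith

theorem Fh_nonneg (h2 : 2 ≤ lam) (hl : lam < 4) (hq : q ∈ Ioo (0 : ℝ) 1) (hρ : 0 ≤ ρ)
    (hc : cos y ≤ 0.19) : 0 ≤ Fh lam q ρ y := by
  have h := Hat1_F (y := y) h2 hl hq hρ 1 0 0 0 fun q hq => by
    have := mul_nonneg hq.1.le (P1 hq (neg_one_le_cos y) hc)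
    linarith
  linarith

theorem Ph_nonneg (h2 : 2 ≤ lam) (hl : lam < 4) (hq : q ∈ Ioo (0 : ℝ) 1) (hρ : 0 ≤ ρ)
    (hc : cos y ≤ 0.19) : 0 ≤ Ph lam q ρ y := by
  have h := Hat1_P (y := y) h2 hl hq hρ 0 fun q hq => by
    have := P1 hq (neg_one_le_cos y) hc
    linarith
  linarith

theorem Fh_ge (h2 : 2 ≤ lam) (hl : lam < 4) (hq : q ∈ Ioo (0 : ℝ) 1) (hρ : 0 ≤ ρ) (y : ℝ) :
    -(2 * q ^ 4 * ee lam 4 ρ) ≤ Fh lam q ρ y := by
  have h := Hat1_F (y := y) h2 hl hq hρ 1 0 0 2 fun q hq => by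
    have h1 := P2 hq (neg_one_le_cos y) (cos_le_one y)
    have := mul_nonneg hq.1.le (show 0 ≤ Fr q (cos y) + 2 * q by linarith)
    linarith
  linarith

theorem Ph_ge (h2 : 2 ≤ lam) (hl : lam < 4) (hq : q ∈ Ioo (0 : ℝ) 1) (hρ : 0 ≤ ρ) (y : ℝ) :
    -(2 * q ^ 4 * ee lam 4 ρ / mm lam 4) ≤ Ph lam q ρ y := by
  have h := Hat1_P (y := y) h2 hl hq hρ 2 fun q hq => by
    have h1 := P2 hq (neg_one_le_cos y) (cos_le_one y)
    linarith
  have e : 2 * q ^ 4 * ee lam 4 ρ / mm lam 4 = 2 * (q ^ 4 * ee lam 4 ρ / mm lam 4) := by ring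
  rw [e]
  linarith

theorem Fh_le (h2 : 2 ≤ lam) (hl : lam < 4) (hq : q ∈ Ioo (0 : ℝ) 1) (hρ : 0 ≤ ρ)
    (hc : cos y ≤ 0) : Fh lam q ρ y ≤ 2 * (1 - 2 * cos y) * (1 + cos y) := by
  have h := Hat1_F (y := y) h2 hl hq hρ (-1) (2 * (1 - 2 * cos y) * (1 + cos y)) 0 0
    fun q hq => by
      have := P3 hq (neg_one_le_cos y) hc
      linarith
  have h1 : 0 ≤ 2 * (1 - 2 * cos y) * (1 + cos y) :=
    mul_nonneg (by linarith) (by linarith [neg_one_le_cos y])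
  have h3 : q ^ 2 * ee lam 2 ρ ≤ 1 :=
    mul_le_one₀ (pow_le_one₀ hq.1.le hq.2.le) (ee_pos lam 2 ρ).le (ee_le_one lam 2 hρ)
  have h4 := mul_le_mul_of_nonneg_right h3 h1
  linarith

theorem HA (h2 : 2 ≤ lam) (hl : lam < 4) (hq : q ∈ Ioo (0 : ℝ) 1) (hρ : 0 ≤ ρ) (hy : y ∈ Icc 0 π)
    (hc : cos y ≤ -1 / 2) :
    Fh lam q ρ y ≤ DA lam ρ ∧ Fh lam q ρ y - Gh lam q ρ y ≤ DA lam ρ := by
  have h := Hat1_F (y := y) h2 hl hq hρ (-1) 0 2 (-1) fun q hq => by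
    have h1 := P4a hq (neg_one_le_cos y) hc
    have := mul_nonneg hq.1.le (show 0 ≤ 2 - q - Fr q (cos y) by linarith)
    linarith
  have hG := Hat1_G (y := y) h2 hl hq hρ fun q hq => P4b hq (sin_nonneg_of_mem_Icc hy) hc
  have z0 := (ee_pos lam 4 ρ).le
  have zx := ee_le_ee (j := 4) (by linarith) hl (i := 3) (by omega) (by omega) hρ
  have b0 := hq.1
  have b1 : 0 < 1 - q := by linarith [hq.2]
  have b2 : q ^ 3 ≤ 1 := pow_le_one₀ hq.1.le hq.2.le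
  have b3 : 0 ≤ (1 - q) * (1 - q ^ 3 + q + q ^ 2) :=
    mul_nonneg b1.le (by nlinarith [sq_nonneg q])
  have b4 : 1 - q ^ 4 ≤ 2 * (1 - q ^ 3) := by nlinarith
  have c1 := mul_le_mul_of_nonneg_left b4 z0
  have c2 := mul_le_mul_of_nonneg_right zx (show 0 ≤ 1 - q ^ 3 by linarith)
  have hF : Fh lam q ρ y ≤ DA lam ρ := by
    unfold DA
    nlinarith
  exact ⟨hF, by linarith⟩

end Pool.Agent.L2Q
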