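import Pool.Agent.P.MP_2f6447_an.Q.FG

/-! Polynomial inequalities for the kernels, part 2 (c ≤ 0). -/

open Set MeasureTheory Filter Topology Real

namespace Pool.Agent.L2Q

open Pool.Agent.L2K

variable {lam q ρ y t a b c m : ℝ} {j : ℕ} {ξ p : ℝ → ℝ}

theorem Poly2_bern {q c0 c1 c2 c3 c4 : ℝ} (hq : q ∈ Ioo (0 : ℝ) 1) (h0 : 0 ≤ c0) (h1 : 0 ≤ c1)
    (h2 : 0 ≤ c2) (h3 : 0 ≤ c3) (h4 : 0 ≤ c4) :
    0 ≤ c0 * (1 - q) ^ 4 + c1 * (q * (1 - q) ^ 3) + c2 * (q ^ 2 * (1 - q) ^ 2) +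
      c3 * (q ^ 3 * (1 - q)) + c4 * q ^ 4 := by
  have a1 := hq.1.le
  have a2 : 0 ≤ 1 - q := sub_nonneg.mpr hq.2.le
  positivity

theorem Poly2_E {x : ℝ} (hq : q ∈ Ioo (0 : ℝ) 1) (h0 : 0 ≤ x) :
    (1 - x) * ((1 + 2 * x) ^ 2 + (2 * x + (1 + 2 * x) ^ 2) * q + (2 + 2 * x) * q ^ 2) ≤
      (2.44 - 0.91 * q) * ((1 + 2 * q * x + q ^ 2) * (1 + q)) := by
  have e := Poly2_bern (c0 := 36 / 25 - 3 * x + 4 * x ^ 3)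
    (c1 := 629 / 100 - 303 / 25 * x + 2 * x ^ 2 + 20 * x ^ 3)
    (c2 := 244 / 25 - 153 / 10 * x + 8 * x ^ 2 + 36 * x ^ 3)
    (c3 := 397 / 50 - 403 / 50 * x + 10 * x ^ 2 + 28 * x ^ 3)
    (c4 := 53 / 25 - 47 / 25 * x + 4 * x ^ 2 + 8 * x ^ 3) hq
    (by nlinarith [mul_nonneg h0 (sq_nonneg (x - 1 / 2)), sq_nonneg (x - 1 / 2)])
    (by nlinarith [mul_nonneg h0 (sq_nonneg (x - 2 / 5)), sq_nonneg (x - 2 / 5)])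
    (by nlinarith [mul_nonneg h0 (sq_nonneg (x - 3 / 10)), sq_nonneg (x - 3 / 10)])
    (by nlinarith [mul_nonneg h0 (sq_nonneg (x - 1 / 5)), sq_nonneg (x - 1 / 5)])
    (by nlinarith [mul_nonneg h0 (sq_nonneg (x - 1 / 6)), sq_nonneg (x - 1 / 6)])
  norm_num only at e ⊢
  linarith

theorem Poly2_P {x : ℝ} (hq : q ∈ Ioo (0 : ℝ) 1) (h0 : 0 ≤ x) (h1 : x ≤ 1) :
    (1 - x) * ((1 + 2 * x) ^ 2 + (2 * x + (1 + 2 * x) ^ 2) * q + (2 + 2 * x) * q ^ 2) -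
        (1 - x ^ 2 / 2) * ((4 * x ^ 2 - 1 + 2 * q * x) * (1 + q)) ≤
      (2.44 - 0.91 * q) * ((1 + 2 * q * x + q ^ 2) * (1 + q)) := by
  have hx := mul_nonneg h0 (sub_nonneg.mpr h1)
  have e := Poly2_bern (c0 := 11 / 25 - 3 * x + 9 / 2 * x ^ 2 + 4 * x ^ 3 - 2 * x ^ 4)
    (c1 := 129 / 100 - 253 / 25 * x + 49 / 2 * x ^ 2 + 19 * x ^ 3 - 10 * x ^ 4)
    (c2 := 19 / 25 - 73 / 10 * x + 97 / 2 * x ^ 2 + 32 * x ^ 3 - 18 * x ^ 4)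
    (c3 := 47 / 50 + 97 / 50 * x + 83 / 2 * x ^ 2 + 23 * x ^ 3 - 14 * x ^ 4)
    (c4 := 3 / 25 + 53 / 25 * x + 13 * x ^ 2 + 6 * x ^ 3 - 4 * x ^ 4) hq
    (by nlinarith [mul_nonneg hx (sq_nonneg (x - 13 / 50)),
      mul_nonneg h0 (sq_nonneg (x - 13 / 50)), sq_nonneg (x - 13 / 50)])
    (by nlinarith [mul_nonneg hx (sq_nonneg (x - 7 / 40)),
      mul_nonneg h0 (sq_nonneg (x - 7 / 40)), sq_nonneg (x - 7 / 40)])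
    (by nlinarith [mul_nonneg hx (sq_nonneg (x - 7 / 100)),
      mul_nonneg h0 (sq_nonneg (x - 7 / 100)), sq_nonneg (x - 7 / 100)])
    (by nlinarith [mul_nonneg hx (sq_nonneg x), mul_nonneg h0 (sq_nonneg x), sq_nonneg x])
    (by nlinarith [mul_nonneg hx (sq_nonneg x), mul_nonneg h0 (sq_nonneg x), sq_nonneg x])
  norm_num only at e ⊢
  linarith

theorem Poly2_Fr (q x : ℝ) : Fr q (-x) =
    (1 - x) * ((1 + 2 * x) ^ 2 + (2 * x + (1 + 2 * x) ^ 2) * q + (2 + 2 * x) * q ^ 2) /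
      ((1 + 2 * q * x + q ^ 2) * (1 + q)) := by
  unfold Fr
  congr 1 <;> ring

theorem Poly2_Gr {x : ℝ} (hq : q ∈ Ioo (0 : ℝ) 1) (s : ℝ) : Gr' q (-x) s =
    s * ((4 * x ^ 2 - 1 + 2 * q * x) * (1 + q)) / ((1 + 2 * q * x + q ^ 2) * (1 + q)) := by
  have h : 1 + q ≠ 0 := by linarith [hq.1]
  rw [← mul_assoc, mul_div_mul_right _ _ h]
  unfold Gr'
  congr 1 <;> ring

theorem P5a (hq : q ∈ Ioo (0 : ℝ) 1) (h1 : -1 ≤ c) (hc : c ≤ 0) : Fr q c ≤ 2.44 - 0.91 * q := by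
  obtain ⟨x, rfl⟩ : ∃ x, c = -x := ⟨-c, (neg_neg c).symm⟩
  have h0 : 0 ≤ x := by linarith
  have hq0 := hq.1
  rw [Poly2_Fr, div_le_iff₀ (by positivity)]
  exact Poly2_E hq h0

theorem P5b {s : ℝ} (hq : q ∈ Ioo (0 : ℝ) 1) (hs : 0 ≤ s) (h : s ^ 2 + c ^ 2 = 1) (hc : c ≤ 0) :
    Fr q c - Gr' q c s ≤ 2.44 - 0.91 * q := by
  obtain ⟨x, rfl⟩ : ∃ x, c = -x := ⟨-c, (neg_neg c).symm⟩
  have h0 : 0 ≤ x := by linarith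
  have h1 : x ≤ 1 := by nlinarith [sq_nonneg s]
  have h2 : s ≤ 1 - x ^ 2 / 2 := by nlinarith [sq_nonneg (s - 1)]
  have hq0 := hq.1
  rw [Poly2_Fr, Poly2_Gr hq, ← sub_div, div_le_iff₀ (by positivity)]
  rcases le_total 0 ((4 * x ^ 2 - 1 + 2 * q * x) * (1 + q)) with hB | hB
  · linarith [Poly2_E hq h0, mul_nonneg hs hB]
  · linarith [Poly2_P hq h0 h1, mul_le_mul_of_nonpos_right h2 hB]

theorem P6 {s : ℝ} (hq : q ∈ Ioo (0 : ℝ) 1) (hs : 0 ≤ s) (h : s ^ 2 + c ^ 2 = 1) (hc : c ≤ 0) :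
    0 ≤ Fr q c + Gr' q c s := by
  obtain ⟨x, rfl⟩ : ∃ x, c = -x := ⟨-c, (neg_neg c).symm⟩
  have h0 : 0 ≤ x := by linarith
  have h1 : 0 ≤ 1 - x := by nlinarith [sq_nonneg s]
  have h2 : s ≤ 1 := by nlinarith [sq_nonneg x]
  have hq0 := hq.1
  rw [Poly2_Fr, Poly2_Gr hq, ← add_div]
  refine div_nonneg ?_ (by positivity)
  have hA : 0 ≤ (1 - x) *
      ((1 + 2 * x) ^ 2 + (2 * x + (1 + 2 * x) ^ 2) * q + (2 + 2 * x) * q ^ 2) := by positivity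
  rcases le_total 0 ((4 * x ^ 2 - 1 + 2 * q * x) * (1 + q)) with hB | hB
  · exact add_nonneg hA (mul_nonneg hs hB)
  · have e : 0 ≤ 3 * x + 4 * (x ^ 2 * (1 - x)) +
        (5 * x + 2 * (x * (1 - x)) + 4 * (x ^ 2 * (1 - x))) * q +
        (2 * (1 - x) * (1 + x) + 2 * x) * q ^ 2 := by positivity
    linarith [mul_le_mul_of_nonpos_right h2 hB]

end Pool.Agent.L2Q
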