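import Pool.Agent.P.MP_2f6447_an.Q.FG

/-! Polynomial inequalities for the kernels, part 3 (all c). Clear the positive denominators D = 1 - 2qc + q² (`den_pos`) and 1 + q; what remains is a polynomial inequality in q ∈ [0,1] and (c,s) on the upper half circle.
Robust route: s ≥ 0, c > -1: τ = s/(1+c) (c = (1-τ²)/(1+τ²), s = 2τ/(1+τ²)), or for c ≤ 0 the variable τ' = s/(1-c) ∈ [0,1]; or bound s by AM-GM s ≤ (s0² + 1 - c²)/(2 s0) on pieces of the c range;
then Bernstein expansions on boxes (write a script with python fractions: subdivide until all coefficients are ≥ 0, emit `have : P = ∑ coeff * x^i * (1-x)^(n-i) ... := by ring` and `positivity`). 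
Margins: P8a 0.15 (near q = 1, c = 1 where D → 0: for c ≥ 1/2 note Gr ≥ 0 iff 4c²-1 ≥ 2qc; at q → 1, Fr D (1+q) = (1+c)(2-2c)(..) has the factor 1-c like D); P8b 0.017 at q ≈ 0.23, c ≈ 0.36.
You may split q into [0,0.6], [0.6,0.8], [0.8,1] and replace q^7 by a lower tangent line / low degree bound on each piece. -/

open Set MeasureTheory Filter Topology Real

namespace Pool.Agent.L2Q

open Pool.Agent.L2K

variable {lam q ρ y t a b c m : ℝ} {j : ℕ} {ξ p : ℝ → ℝ}

theorem P8a (hq : q ∈ Ioo (0 : ℝ) 1) (h1 : -1 ≤ c) (hc : c ≤ 1) :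
    -Fr q c ≤ 0.47 + q + 0.55 * q ^ 7 := by sorry

theorem P8b {s : ℝ} (hq : q ∈ Ioo (0 : ℝ) 1) (hs : 0 ≤ s) (h : s ^ 2 + c ^ 2 = 1) :
    -Fr q c - Gr' q c s ≤ 0.47 + q + 0.55 * q ^ 7 := by sorry

end Pool.Agent.L2Q
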