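import Pool.Agent.P.MP_2f6447_an.Q.FG

/-! Polynomial inequalities for the kernels, part 4 (`c ≤ 1 / 2`). -/

open Set MeasureTheory Filter Topology Real

namespace Pool.Agent.L2Q

open Pool.Agent.L2K

variable {lam q ρ y t a b c m : ℝ} {j : ℕ} {ξ p : ℝ → ℝ}

/-- the first inequality with the denominators cleared -/
noncomputable def Poly4_A (q c : ℝ) : ℝ :=
  (1 + c) * ((1 - 2 * c) ^ 2 - (1 - (1 - 2 * c) - (1 - 2 * c) ^ 2) * q + (2 - 2 * c) * q ^ 2) +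
    (9 / 20 + 13 / 10 * q - 13 / 20 * q ^ 2) * (1 - 2 * q * c + q ^ 2) * (1 + q)

/-- the coefficient of `s` -/
noncomputable def Poly4_B (q c : ℝ) : ℝ := (1 + q) * (1 + 2 * q * c - 4 * c ^ 2)

/-- the second inequality with `s ≤ 1 - c ^ 2 / 2` -/
noncomputable def Poly4_P (q c : ℝ) : ℝ := Poly4_A q c - (1 - c ^ 2 / 2) * Poly4_B q c

theorem Poly4_A0 {q c : ℝ} (h1 : 0 ≤ q) (h2 : q ≤ 1) (h3 : (-1) ≤ c) (h4 : c ≤ 1 / 2) :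
    0 ≤ Poly4_A q c := by
  have k : ∀ x X y Y : ℝ, 0 ≤ x → 0 ≤ X → 0 ≤ y → 0 ≤ Y → 0 ≤
      2 / 15 * X ^ 5 * Y ^ 3 + 22 / 5 * X ^ 5 * y * Y ^ 2 + 2 / 5 * X ^ 5 * y ^ 2 * Y +
      2 / 15 * X ^ 5 * y ^ 3 + 196 / 135 * x * X ^ 4 * Y ^ 3 +
      1298 / 45 * x * X ^ 4 * y * Y ^ 2 + 4 * x * X ^ 4 * y ^ 2 * Y +
      82 / 135 * x * X ^ 4 * y ^ 3 + 788 / 135 * x ^ 2 * X ^ 3 * Y ^ 3 +
      3406 / 45 * x ^ 2 * X ^ 3 * y * Y ^ 2 + 76 / 5 * x ^ 2 * X ^ 3 * y ^ 2 * Y +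
      182 / 135 * x ^ 2 * X ^ 3 * y ^ 3 + 488 / 45 * x ^ 3 * X ^ 2 * Y ^ 3 +
      896 / 9 * x ^ 3 * X ^ 2 * y * Y ^ 2 + 1196 / 45 * x ^ 3 * X ^ 2 * y ^ 2 * Y +
      28 / 15 * x ^ 3 * X ^ 2 * y ^ 3 + 1232 / 135 * x ^ 4 * X * Y ^ 3 +
      2944 / 45 * x ^ 4 * X * y * Y ^ 2 + 332 / 15 * x ^ 4 * X * y ^ 2 * Y +
      248 / 135 * x ^ 4 * X * y ^ 3 + 352 / 135 * x ^ 5 * Y ^ 3 + 248 / 15 * x ^ 5 * y * Y ^ 2 +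
      296 / 45 * x ^ 5 * y ^ 2 * Y + 88 / 135 * x ^ 5 * y ^ 3 := by
    intro x X y Y _ _ _ _
    positivity
  refine (k _ _ _ _ (sub_nonneg.2 h1) (sub_nonneg.2 h2) (sub_nonneg.2 h3)
    (sub_nonneg.2 h4)).trans_eq ?_
  unfold Poly4_A
  ring

theorem Poly4_P0 {q c : ℝ} (h1 : 0 ≤ q) (h2 : q ≤ 1) (h3 : (-1) ≤ c) (h4 : c ≤ (-1 / 4)) :
    0 ≤ Poly4_P q c := by
  have k : ∀ x X y Y : ℝ, 0 ≤ x → 0 ≤ X → 0 ≤ y → 0 ≤ Y → 0 ≤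
      832 / 135 * X ^ 5 * Y ^ 4 + 5888 / 135 * X ^ 5 * y * Y ^ 3 +
      296 / 5 * X ^ 5 * y ^ 2 * Y ^ 2 + 3808 / 135 * X ^ 5 * y ^ 3 * Y +
      602 / 135 * X ^ 5 * y ^ 4 + 19072 / 405 * x * X ^ 4 * Y ^ 4 +
      124384 / 405 * x * X ^ 4 * y * Y ^ 3 + 11392 / 27 * x * X ^ 4 * y ^ 2 * Y ^ 2 +
      84316 / 405 * x * X ^ 4 * y ^ 3 * Y + 13888 / 405 * x * X ^ 4 * y ^ 4 +
      58496 / 405 * x ^ 2 * X ^ 3 * Y ^ 4 + 351008 / 405 * x ^ 2 * X ^ 3 * y * Y ^ 3 +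
      162496 / 135 * x ^ 2 * X ^ 3 * y ^ 2 * Y ^ 2 + 249356 / 405 * x ^ 2 * X ^ 3 * y ^ 3 * Y +
      8608 / 81 * x ^ 2 * X ^ 3 * y ^ 4 + 29696 / 135 * x ^ 3 * X ^ 2 * Y ^ 4 +
      32960 / 27 * x ^ 3 * X ^ 2 * y * Y ^ 3 + 25616 / 15 * x ^ 3 * X ^ 2 * y ^ 2 * Y ^ 2 +
      121652 / 135 * x ^ 3 * X ^ 2 * y ^ 3 * Y + 21892 / 135 * x ^ 3 * X ^ 2 * y ^ 4 +
      2432 / 15 * x ^ 4 * X * Y ^ 4 + 114304 / 135 * x ^ 4 * X * y * Y ^ 3 +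
      17896 / 15 * x ^ 4 * X * y ^ 2 * Y ^ 2 + 29156 / 45 * x ^ 4 * X * y ^ 3 * Y +
      3278 / 27 * x ^ 4 * X * y ^ 4 + 5888 / 135 * x ^ 5 * Y ^ 4 +
      29824 / 135 * x ^ 5 * y * Y ^ 3 + 14128 / 45 * x ^ 5 * y ^ 2 * Y ^ 2 +
      23528 / 135 * x ^ 5 * y ^ 3 * Y + 908 / 27 * x ^ 5 * y ^ 4 := by
    intro x X y Y _ _ _ _
    positivity
  refine (k _ _ _ _ (sub_nonneg.2 h1) (sub_nonneg.2 h2) (sub_nonneg.2 h3)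
    (sub_nonneg.2 h4)).trans_eq ?_
  unfold Poly4_P Poly4_A Poly4_B
  ring

theorem Poly4_P1 {q c : ℝ} (h1 : 0 ≤ q) (h2 : q ≤ 1) (h3 : (-1 / 4) ≤ c) (h4 : c ≤ 1 / 8) :
    0 ≤ Poly4_P q c := by
  have k : ∀ x X y Y : ℝ, 0 ≤ x → 0 ≤ X → 0 ≤ y → 0 ≤ Y → 0 ≤
      9632 / 135 * X ^ 5 * Y ^ 4 + 27328 / 135 * X ^ 5 * y * Y ^ 3 +
      2768 / 15 * X ^ 5 * y ^ 2 * Y ^ 2 + 8528 / 135 * X ^ 5 * y ^ 3 * Y +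
      1042 / 135 * X ^ 5 * y ^ 4 + 222208 / 405 * x * X ^ 4 * Y ^ 4 +
      131744 / 81 * x * X ^ 4 * y * Y ^ 3 + 215984 / 135 * x * X ^ 4 * y ^ 2 * Y ^ 2 +
      248536 / 405 * x * X ^ 4 * y ^ 3 * Y + 32236 / 405 * x * X ^ 4 * y ^ 4 +
      137728 / 81 * x ^ 2 * X ^ 3 * Y ^ 4 + 2136992 / 405 * x ^ 2 * X ^ 3 * y * Y ^ 3 +
      756592 / 135 * x ^ 2 * X ^ 3 * y ^ 2 * Y ^ 2 + 979256 / 405 * x ^ 2 * X ^ 3 * y ^ 3 * Y +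
      146492 / 405 * x ^ 2 * X ^ 3 * y ^ 4 + 350272 / 135 * x ^ 3 * X ^ 2 * Y ^ 4 +
      1128416 / 135 * x ^ 3 * X ^ 2 * y * Y ^ 3 + 47088 / 5 * x ^ 3 * X ^ 2 * y ^ 2 * Y ^ 2 +
      596392 / 135 * x ^ 3 * X ^ 2 * y ^ 3 * Y + 19768 / 27 * x ^ 3 * X ^ 2 * y ^ 4 +
      52448 / 27 * x ^ 4 * X * Y ^ 4 + 291232 / 45 * x ^ 4 * X * y * Y ^ 3 +
      115072 / 15 * x ^ 4 * X * y ^ 2 * Y ^ 2 + 521128 / 135 * x ^ 4 * X * y ^ 3 * Y +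
      31502 / 45 * x ^ 4 * X * y ^ 4 + 14528 / 27 * x ^ 5 * Y ^ 4 +
      247616 / 135 * x ^ 5 * y * Y ^ 3 + 101056 / 45 * x ^ 5 * y ^ 2 * Y ^ 2 +
      159088 / 135 * x ^ 5 * y ^ 3 * Y + 30356 / 135 * x ^ 5 * y ^ 4 := by
    intro x X y Y _ _ _ _
    positivity
  refine (k _ _ _ _ (sub_nonneg.2 h1) (sub_nonneg.2 h2) (sub_nonneg.2 h3)
    (sub_nonneg.2 h4)).trans_eq ?_
  unfold Poly4_P Poly4_A Poly4_B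
  ring

theorem Poly4_P2 {q c : ℝ} (h1 : 0 ≤ q) (h2 : q ≤ 1 / 2) (h3 : 1 / 8 ≤ c) (h4 : c ≤ 5 / 16) :
    0 ≤ Poly4_P q c := by
  have k : ∀ x X y Y : ℝ, 0 ≤ x → 0 ≤ X → 0 ≤ y → 0 ≤ Y → 0 ≤
      533504 / 135 * X ^ 5 * Y ^ 4 + 1017856 / 135 * X ^ 5 * y * Y ^ 3 +
      20992 / 5 * X ^ 5 * y ^ 2 * Y ^ 2 + 283136 / 135 * X ^ 5 * y ^ 3 * Y +
      192064 / 135 * X ^ 5 * y ^ 4 + 12253696 / 405 * x * X ^ 4 * Y ^ 4 +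
      25335808 / 405 * x * X ^ 4 * y * Y ^ 3 + 4656896 / 135 * x * X ^ 4 * y ^ 2 * Y ^ 2 +
      2123776 / 405 * x * X ^ 4 * y ^ 3 * Y + 218528 / 81 * x * X ^ 4 * y ^ 4 +
      13085696 / 135 * x ^ 2 * X ^ 3 * Y ^ 4 + 30957056 / 135 * x ^ 2 * X ^ 3 * y * Y ^ 3 +
      7492864 / 45 * x ^ 2 * X ^ 3 * y ^ 2 * Y ^ 2 + 1062016 / 27 * x ^ 2 * X ^ 3 * y ^ 3 * Y +
      599168 / 135 * x ^ 2 * X ^ 3 * y ^ 4 + 20494336 / 135 * x ^ 3 * X ^ 2 * Y ^ 4 +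
      53910016 / 135 * x ^ 3 * X ^ 2 * y * Y ^ 3 +
      15766784 / 45 * x ^ 3 * X ^ 2 * y ^ 2 * Y ^ 2 + 3166592 / 27 * x ^ 3 * X ^ 2 * y ^ 3 * Y +
      1835968 / 135 * x ^ 3 * X ^ 2 * y ^ 4 + 46739456 / 405 * x ^ 4 * X * Y ^ 4 +
      133211648 / 405 * x ^ 4 * X * y * Y ^ 3 + 44183296 / 135 * x ^ 4 * X * y ^ 2 * Y ^ 2 +
      54064256 / 405 * x ^ 4 * X * y ^ 3 * Y + 1561024 / 81 * x ^ 4 * X * y ^ 4 +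
      909824 / 27 * x ^ 5 * Y ^ 4 + 915968 / 9 * x ^ 5 * y * Y ^ 3 +
      989696 / 9 * x ^ 5 * y ^ 2 * Y ^ 2 + 1357952 / 27 * x ^ 5 * y ^ 3 * Y +
      24928 / 3 * x ^ 5 * y ^ 4 := by
    intro x X y Y _ _ _ _
    positivity
  refine (k _ _ _ _ (sub_nonneg.2 h1) (sub_nonneg.2 h2) (sub_nonneg.2 h3)
    (sub_nonneg.2 h4)).trans_eq ?_
  unfold Poly4_P Poly4_A Poly4_B
  ring

theorem Poly4_P3 {q c : ℝ} (h1 : 0 ≤ q) (h2 : q ≤ 1 / 2) (h3 : 5 / 16 ≤ c) (h4 : c ≤ 13 / 32) :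
    0 ≤ Poly4_P q c := by
  have k : ∀ x X y Y : ℝ, 0 ≤ x → 0 ≤ X → 0 ≤ y → 0 ≤ Y → 0 ≤
      3073024 / 135 * X ^ 5 * Y ^ 4 + 16173056 / 135 * X ^ 5 * y * Y ^ 3 +
      3728896 / 15 * X ^ 5 * y ^ 2 * Y ^ 2 + 30962176 / 135 * X ^ 5 * y ^ 3 * Y +
      10493504 / 135 * X ^ 5 * y ^ 4 + 3496448 / 81 * x * X ^ 4 * Y ^ 4 +
      87903232 / 405 * x * X ^ 4 * y * Y ^ 3 + 71812352 / 135 * x * X ^ 4 * y ^ 2 * Y ^ 2 +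
      238302976 / 405 * x * X ^ 4 * y ^ 3 * Y + 93144352 / 405 * x * X ^ 4 * y ^ 4 +
      9586688 / 135 * x ^ 2 * X ^ 3 * Y ^ 4 + 15039488 / 135 * x ^ 2 * X ^ 3 * y * Y ^ 3 +
      9390592 / 45 * x ^ 2 * X ^ 3 * y ^ 2 * Y ^ 2 + 10100992 / 27 * x ^ 2 * X ^ 3 * y ^ 3 * Y +
      27682304 / 135 * x ^ 2 * X ^ 3 * y ^ 4 + 29375488 / 135 * x ^ 3 * X ^ 2 * Y ^ 4 +
      49589248 / 135 * x ^ 3 * X ^ 2 * y * Y ^ 3 + 5261312 / 45 * x ^ 3 * X ^ 2 * y ^ 2 * Y ^ 2 +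
      274688 / 27 * x ^ 3 * X ^ 2 * y ^ 3 * Y + 5690944 / 135 * x ^ 3 * X ^ 2 * y ^ 4 +
      24976384 / 81 * x ^ 4 * X * Y ^ 4 + 316777472 / 405 * x ^ 4 * X * y * Y ^ 3 +
      89930752 / 135 * x ^ 4 * X * y ^ 2 * Y ^ 2 + 90611456 / 405 * x ^ 4 * X * y ^ 3 * Y +
      12533312 / 405 * x ^ 4 * X * y ^ 4 + 398848 / 3 * x ^ 5 * Y ^ 4 +
      10674176 / 27 * x ^ 5 * y * Y ^ 3 + 3816704 / 9 * x ^ 5 * y ^ 2 * Y ^ 2 +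
      1754624 / 9 * x ^ 5 * y ^ 3 * Y + 895712 / 27 * x ^ 5 * y ^ 4 := by
    intro x X y Y _ _ _ _
    positivity
  refine (k _ _ _ _ (sub_nonneg.2 h1) (sub_nonneg.2 h2) (sub_nonneg.2 h3)
    (sub_nonneg.2 h4)).trans_eq ?_
  unfold Poly4_P Poly4_A Poly4_B
  ring

theorem Poly4_P4 {q c : ℝ} (h1 : 0 ≤ q) (h2 : q ≤ 1 / 2) (h3 : 13 / 32 ≤ c) (h4 : c ≤ 1 / 2) :
    0 ≤ Poly4_P q c := by
  have k : ∀ x X y Y : ℝ, 0 ≤ x → 0 ≤ X → 0 ≤ y → 0 ≤ Y → 0 ≤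
      10493504 / 135 * X ^ 5 * Y ^ 4 + 17661952 / 45 * X ^ 5 * y * Y ^ 3 +
      33210368 / 45 * X ^ 5 * y ^ 2 * Y ^ 2 + 82313216 / 135 * X ^ 5 * y ^ 3 * Y +
      8388608 / 45 * X ^ 5 * y ^ 4 + 93144352 / 405 * x * X ^ 4 * Y ^ 4 +
      101370368 / 81 * x * X ^ 4 * y * Y ^ 3 + 340361216 / 135 * x * X ^ 4 * y ^ 2 * Y ^ 2 +
      894828544 / 405 * x * X ^ 4 * y ^ 3 * Y + 287309824 / 405 * x * X ^ 4 * y ^ 4 +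
      27682304 / 135 * x ^ 2 * X ^ 3 * Y ^ 4 + 170953472 / 135 * x ^ 2 * X ^ 3 * y * Y ^ 3 +
      129839104 / 45 * x ^ 2 * X ^ 3 * y ^ 2 * Y ^ 2 +
      377421824 / 135 * x ^ 2 * X ^ 3 * y ^ 3 * Y + 26214400 / 27 * x ^ 2 * X ^ 3 * y ^ 4 +
      5690944 / 135 * x ^ 3 * X ^ 2 * Y ^ 4 + 44154112 / 135 * x ^ 3 * X ^ 2 * y * Y ^ 3 +
      48041984 / 45 * x ^ 3 * X ^ 2 * y ^ 2 * Y ^ 2 +
      179175424 / 135 * x ^ 3 * X ^ 2 * y ^ 3 * Y + 14680064 / 27 * x ^ 3 * X ^ 2 * y ^ 4 +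
      12533312 / 405 * x ^ 4 * X * Y ^ 4 + 1931008 / 81 * x ^ 4 * X * y * Y ^ 3 +
      8974336 / 135 * x ^ 4 * X * y ^ 2 * Y ^ 2 + 76120064 / 405 * x ^ 4 * X * y ^ 3 * Y +
      46137344 / 405 * x ^ 4 * X * y ^ 4 + 895712 / 27 * x ^ 5 * Y ^ 4 +
      1901824 / 27 * x ^ 5 * y * Y ^ 3 + 151552 / 3 * x ^ 5 * y ^ 2 * Y ^ 2 +
      622592 / 27 * x ^ 5 * y ^ 3 * Y + 262144 / 27 * x ^ 5 * y ^ 4 := by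
    intro x X y Y _ _ _ _
    positivity
  refine (k _ _ _ _ (sub_nonneg.2 h1) (sub_nonneg.2 h2) (sub_nonneg.2 h3)
    (sub_nonneg.2 h4)).trans_eq ?_
  unfold Poly4_P Poly4_A Poly4_B
  ring

theorem Poly4_P5 {q c : ℝ} (h1 : 1 / 2 ≤ q) (h2 : q ≤ 1) (h3 : 1 / 8 ≤ c) (h4 : c ≤ 5 / 16) :
    0 ≤ Poly4_P q c := by
  have k : ∀ x X y Y : ℝ, 0 ≤ x → 0 ≤ X → 0 ≤ y → 0 ≤ Y → 0 ≤
      909824 / 27 * X ^ 5 * Y ^ 4 + 915968 / 9 * X ^ 5 * y * Y ^ 3 +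
      989696 / 9 * X ^ 5 * y ^ 2 * Y ^ 2 + 1357952 / 27 * X ^ 5 * y ^ 3 * Y +
      24928 / 3 * X ^ 5 * y ^ 4 + 89734144 / 405 * x * X ^ 4 * Y ^ 4 +
      278973952 / 405 * x * X ^ 4 * y * Y ^ 3 + 104271104 / 135 * x * X ^ 4 * y ^ 2 * Y ^ 2 +
      149628544 / 405 * x * X ^ 4 * y ^ 3 * Y + 5169536 / 81 * x * X ^ 4 * y ^ 4 +
      46692352 / 81 * x ^ 2 * X ^ 3 * Y ^ 4 + 744779264 / 405 * x ^ 2 * X ^ 3 * y * Y ^ 3 +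
      287651584 / 135 * x ^ 2 * X ^ 3 * y ^ 2 * Y ^ 2 +
      429756032 / 405 * x ^ 2 * X ^ 3 * y ^ 3 * Y + 77678144 / 405 * x ^ 2 * X ^ 3 * y ^ 4 +
      99894272 / 135 * x ^ 3 * X ^ 2 * Y ^ 4 + 108657152 / 45 * x ^ 3 * X ^ 2 * y * Y ^ 3 +
      129519872 / 45 * x ^ 3 * X ^ 2 * y ^ 2 * Y ^ 2 +
      200354432 / 135 * x ^ 3 * X ^ 2 * y ^ 3 * Y + 838144 / 3 * x ^ 3 * X ^ 2 * y ^ 4 +
      63049216 / 135 * x ^ 4 * X * Y ^ 4 + 23308288 / 15 * x ^ 4 * X * y * Y ^ 3 +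
      17074432 / 9 * x ^ 4 * X * y ^ 2 * Y ^ 2 + 135958528 / 135 * x ^ 4 * X * y ^ 3 * Y +
      2942816 / 15 * x ^ 4 * X * y ^ 4 + 15542272 / 135 * x ^ 5 * Y ^ 4 +
      52527104 / 135 * x ^ 5 * y * Y ^ 3 + 4357120 / 9 * x ^ 5 * y ^ 2 * Y ^ 2 +
      35485696 / 135 * x ^ 5 * y ^ 3 * Y + 7096448 / 135 * x ^ 5 * y ^ 4 := by
    intro x X y Y _ _ _ _
    positivity
  refine (k _ _ _ _ (sub_nonneg.2 h1) (sub_nonneg.2 h2) (sub_nonneg.2 h3)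
    (sub_nonneg.2 h4)).trans_eq ?_
  unfold Poly4_P Poly4_A Poly4_B
  ring

theorem Poly4_P6 {q c : ℝ} (h1 : 1 / 2 ≤ q) (h2 : q ≤ 3 / 4) (h3 : 5 / 16 ≤ c) (h4 : c ≤ 1 / 2) :
    0 ≤ Poly4_P q c := by
  have k : ∀ x X y Y : ℝ, 0 ≤ x → 0 ≤ X → 0 ≤ y → 0 ≤ Y → 0 ≤
      797696 / 3 * X ^ 5 * Y ^ 4 + 13979648 / 27 * X ^ 5 * y * Y ^ 3 +
      2195456 / 9 * X ^ 5 * y ^ 2 * Y ^ 2 + 131072 / 9 * X ^ 5 * y ^ 3 * Y +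
      524288 / 27 * X ^ 5 * y ^ 4 + 136557056 / 81 * x * X ^ 4 * Y ^ 4 +
      1438683136 / 405 * x * X ^ 4 * y * Y ^ 3 + 271056896 / 135 * x * X ^ 4 * y ^ 2 * Y ^ 2 +
      76546048 / 405 * x * X ^ 4 * y ^ 3 * Y + 12845056 / 405 * x * X ^ 4 * y ^ 4 +
      572591104 / 135 * x ^ 2 * X ^ 3 * Y ^ 4 + 1295494144 / 135 * x ^ 2 * X ^ 3 * y * Y ^ 3 +
      285433856 / 45 * x ^ 2 * X ^ 3 * y ^ 2 * Y ^ 2 +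
      28246016 / 27 * x ^ 2 * X ^ 3 * y ^ 3 * Y + 3407872 / 135 * x ^ 2 * X ^ 3 * y ^ 4 +
      713230336 / 135 * x ^ 3 * X ^ 2 * Y ^ 4 + 343356416 / 27 * x ^ 3 * X ^ 2 * y * Y ^ 3 +
      428515328 / 45 * x ^ 3 * X ^ 2 * y ^ 2 * Y ^ 2 +
      299794432 / 135 * x ^ 3 * X ^ 2 * y ^ 3 * Y + 13238272 / 135 * x ^ 3 * X ^ 2 * y ^ 4 +
      1318012928 / 405 * x ^ 4 * X * Y ^ 4 + 3344841728 / 405 * x ^ 4 * X * y * Y ^ 3 +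
      920584192 / 135 * x ^ 4 * X * y ^ 2 * Y ^ 2 + 160473088 / 81 * x ^ 4 * X * y ^ 3 * Y +
      60391424 / 405 * x ^ 4 * X * y ^ 4 + 792064 * x ^ 5 * Y ^ 4 +
      283712512 / 135 * x ^ 5 * y * Y ^ 3 + 84262912 / 45 * x ^ 5 * y ^ 2 * Y ^ 2 +
      28352512 / 45 * x ^ 5 * y ^ 3 * Y + 8568832 / 135 * x ^ 5 * y ^ 4 := by
    intro x X y Y _ _ _ _
    positivity
  refine (k _ _ _ _ (sub_nonneg.2 h1) (sub_nonneg.2 h2) (sub_nonneg.2 h3)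
    (sub_nonneg.2 h4)).trans_eq ?_
  unfold Poly4_P Poly4_A Poly4_B
  ring

theorem Poly4_P7 {q c : ℝ} (h1 : 3 / 4 ≤ q) (h2 : q ≤ 1) (h3 : 5 / 16 ≤ c) (h4 : c ≤ 1 / 2) :
    0 ≤ Poly4_P q c := by
  have k : ∀ x X y Y : ℝ, 0 ≤ x → 0 ≤ X → 0 ≤ y → 0 ≤ Y → 0 ≤
      792064 * X ^ 5 * Y ^ 4 + 283712512 / 135 * X ^ 5 * y * Y ^ 3 +
      84262912 / 45 * X ^ 5 * y ^ 2 * Y ^ 2 + 28352512 / 45 * X ^ 5 * y ^ 3 * Y +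
      8568832 / 135 * X ^ 5 * y ^ 4 + 1889846272 / 405 * x * X ^ 4 * Y ^ 4 +
      5166533632 / 405 * x * X ^ 4 * y * Y ^ 3 + 1607303168 / 135 * x * X ^ 4 * y ^ 2 * Y ^ 2 +
      349872128 / 81 * x * X ^ 4 * y ^ 3 * Y + 196673536 / 405 * x * X ^ 4 * y ^ 4 +
      4427024384 / 405 * x ^ 2 * X ^ 3 * Y ^ 4 + 12437113856 / 405 * x ^ 2 * X ^ 3 * y * Y ^ 3 +
      4032421888 / 135 * x ^ 2 * X ^ 3 * y ^ 2 * Y ^ 2 +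
      4687364096 / 405 * x ^ 2 * X ^ 3 * y ^ 3 * Y + 584843264 / 405 * x ^ 2 * X ^ 3 * y ^ 4 +
      1716978688 / 135 * x ^ 3 * X ^ 2 * Y ^ 4 + 1647821824 / 45 * x ^ 3 * X ^ 2 * y * Y ^ 3 +
      1662017536 / 45 * x ^ 3 * X ^ 2 * y ^ 2 * Y ^ 2 +
      2043215872 / 135 * x ^ 3 * X ^ 2 * y ^ 3 * Y + 30932992 / 15 * x ^ 3 * X ^ 2 * y ^ 4 +
      991481344 / 135 * x ^ 4 * X * Y ^ 4 + 2917658624 / 135 * x ^ 4 * X * y * Y ^ 3 +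
      1012269056 / 45 * x ^ 4 * X * y ^ 2 * Y ^ 2 + 260833280 / 27 * x ^ 4 * X * y ^ 3 * Y +
      190840832 / 135 * x ^ 4 * X * y ^ 4 + 227086336 / 135 * x ^ 5 * Y ^ 4 +
      227049472 / 45 * x ^ 5 * y * Y ^ 3 + 242745344 / 45 * x ^ 5 * y ^ 2 * Y ^ 2 +
      65011712 / 27 * x ^ 5 * y ^ 3 * Y + 16777216 / 45 * x ^ 5 * y ^ 4 := by
    intro x X y Y _ _ _ _
    positivity
  refine (k _ _ _ _ (sub_nonneg.2 h1) (sub_nonneg.2 h2) (sub_nonneg.2 h3)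
    (sub_nonneg.2 h4)).trans_eq ?_
  unfold Poly4_P Poly4_A Poly4_B
  ring

theorem Poly4_Pall {q c : ℝ} (h1 : 0 ≤ q) (h2 : q ≤ 1) (h3 : -1 ≤ c) (h4 : c ≤ 1 / 2) :
    0 ≤ Poly4_P q c := by
  rcases le_total c (-1 / 4) with a1 | a1
  · exact Poly4_P0 h1 h2 h3 a1
  rcases le_total c (1 / 8) with a2 | a2
  · exact Poly4_P1 h1 h2 a1 a2
  rcases le_total c (5 / 16) with a3 | a3
  · rcases le_total q (1 / 2) with b1 | b1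
    · exact Poly4_P2 h1 b1 a2 a3
    · exact Poly4_P5 b1 h2 a2 a3
  rcases le_total q (1 / 2) with b1 | b1
  · rcases le_total c (13 / 32) with a4 | a4
    · exact Poly4_P3 h1 b1 a3 a4
    · exact Poly4_P4 h1 b1 a4 h4
  rcases le_total q (3 / 4) with b2 | b2
  · exact Poly4_P6 b1 b2 a3 h4
  · exact Poly4_P7 b2 h2 a3 h4

theorem Poly4_main {s : ℝ} (hq : q ∈ Ioo (0 : ℝ) 1) (hc : c ≤ 1 / 2)
    (h : s * Poly4_B q c ≤ Poly4_A q c) :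
    -Fr q c - Gr' q c s ≤ 0.45 + 1.3 * q - 0.65 * q ^ 2 := by
  have hD : 0 < 1 - 2 * q * c + q ^ 2 := den_pos hq (by linarith)
  have h1 : 0 < 1 + q := by linarith [hq.1]
  have e : 0.45 + 1.3 * q - 0.65 * q ^ 2 - (-Fr q c - Gr' q c s) =
      (Poly4_A q c - s * Poly4_B q c) / ((1 - 2 * q * c + q ^ 2) * (1 + q)) := by
    unfold Fr Gr' Poly4_A Poly4_B
    generalize 1 - 2 * q * c + q ^ 2 = D at hD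
    have := hD.ne'
    have := h1.ne'
    field_simp
    ring
  rw [← sub_nonneg, e]
  exact div_nonneg (sub_nonneg.2 h) (mul_pos hD h1).le

theorem P9a (hq : q ∈ Ioo (0 : ℝ) 1) (h1 : -1 ≤ c) (hc : c ≤ 1 / 2) :
    -Fr q c ≤ 0.45 + 1.3 * q - 0.65 * q ^ 2 := by
  have h := Poly4_main (s := 0) hq hc (by
    rw [zero_mul]
    exact Poly4_A0 hq.1.le hq.2.le h1 hc)
  simpa only [Gr', zero_mul, zero_div, sub_zero] using h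

theorem P9b {s : ℝ} (hq : q ∈ Ioo (0 : ℝ) 1) (hs : 0 ≤ s) (h : s ^ 2 + c ^ 2 = 1) (hc : c ≤ 1 / 2) :
    -Fr q c - Gr' q c s ≤ 0.45 + 1.3 * q - 0.65 * q ^ 2 := by
  have h1 : -1 ≤ c := by nlinarith [sq_nonneg s]
  refine Poly4_main hq hc ?_
  have hA := Poly4_A0 hq.1.le hq.2.le h1 hc
  rcases le_total (Poly4_B q c) 0 with hB | hB
  · exact (mul_nonpos_of_nonneg_of_nonpos hs hB).trans hA
  · have hP := Poly4_Pall hq.1.le hq.2.le h1 hc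
    have h2 : s ≤ 1 - c ^ 2 / 2 := by nlinarith [sq_nonneg (s - 1)]
    have h3 := mul_le_mul_of_nonneg_right h2 hB
    unfold Poly4_P at hP
    linarith

end Pool.Agent.L2Q
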