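import Pool.Agent.P.MP_2f6447_an.Q.Hat1
import Pool.Agent.P.MP_2f6447_an.Q.Poly2
import Pool.Agent.P.MP_2f6447_an.Q.Poly3
import Pool.Agent.P.MP_2f6447_an.Q.Poly4

/-! Kernel inequalities for the true decay rates, part 2. -/

open Set MeasureTheory Filter Topology Real

namespace Pool.Agent.L2Q

open Pool.Agent.L2K

variable {lam q ρ y t a b c m : ℝ} {j : ℕ} {ξ p : ℝ → ℝ}

/-- four constants at the places `0, 1, 2, 7` -/
def Hat2_e (e3 e4 e5 e10 : ℝ) (k : ℕ) : ℝ :=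
  if k = 0 then e3 else if k = 1 then e4 else if k = 2 then e5 else if k = 7 then e10 else 0

/-- the coefficient sequence -/
noncomputable def Hat2_b (α β e3 e4 e5 e10 y : ℝ) (j : ℕ) : ℝ :=
  if 3 ≤ j then α * (cos (j * y) - (-1) ^ j) + β * sin (j * y) + Hat2_e e3 e4 e5 e10 (j - 3) else 0

noncomputable def Hat2_G0 (lam q ρ y : ℝ) : ℝ :=
  ∑' k : ℕ, q ^ (k + 3) * ee lam (k + 3) ρ * sin ((k + 3 : ℕ) * y)

noncomputable def Hat2_Gn (lam q ρ y : ℝ) : ℝ :=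
  ∑' k : ℕ, q ^ (k + 3) * ee lam (k + 3) ρ *
    (sin ((k + 3 : ℕ) * y) * (((k + 3 : ℕ) : ℝ) / mm lam (k + 3) - 1))

theorem Hat2_e_sum (e3 e4 e5 e10 : ℝ) (x : ℕ → ℝ) :
    HasSum (fun k => x k * Hat2_e e3 e4 e5 e10 k)
      (x 0 * e3 + x 1 * e4 + x 2 * e5 + x 7 * e10) := by
  have h := hasSum_sum_of_ne_finset_zero (L := SummationFilter.unconditional ℕ)
    (f := fun k => x k * Hat2_e e3 e4 e5 e10 k) (s := {0, 1, 2, 7}) (by
      intro k hk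
      simp only [Finset.mem_insert, Finset.mem_singleton, not_or] at hk
      simp [Hat2_e, hk.1, hk.2.1, hk.2.2.1, hk.2.2.2])
  have e : ∑ k ∈ ({0, 1, 2, 7} : Finset ℕ), x k * Hat2_e e3 e4 e5 e10 k =
      x 0 * e3 + x 1 * e4 + x 2 * e5 + x 7 * e10 := by
    simp [Hat2_e]
    ring
  rw [e] at h
  exact h

theorem Hat2_e_le (e3 e4 e5 e10 : ℝ) (k : ℕ) :
    |Hat2_e e3 e4 e5 e10 k| ≤ |e3| + |e4| + |e5| + |e10| := by
  have a3 := abs_nonneg e3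
  have a4 := abs_nonneg e4
  have a5 := abs_nonneg e5
  have a10 := abs_nonneg e10
  unfold Hat2_e
  split_ifs
  · linarith
  · linarith
  · linarith
  · linarith
  · rw [abs_zero]
    linarith

theorem Hat2_cos_le (y : ℝ) (j : ℕ) : |cos (j * y) - (-1) ^ j| ≤ 2 := by
  have h1 := abs_sub (cos (j * y)) ((-1) ^ j)
  have h2 := abs_cos_le_one (j * y)
  have h3 : |(-1 : ℝ) ^ j| = 1 := by simp
  linarith

theorem Hat2_shift {f : ℕ → ℝ} (h : ∀ j, j < 3 → f j = 0) : ∑' j, f j = ∑' k, f (k + 3) := by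
  refine ((add_left_injective 3).tsum_eq (f := f) fun j hj => ?_).symm
  have h3 : ¬ j < 3 := fun a => hj (h j a)
  exact ⟨j - 3, by show j - 3 + 3 = j; omega⟩

theorem Hat2_b_lt (α β e3 e4 e5 e10 y : ℝ) {j : ℕ} (hj : j < 3) :
    Hat2_b α β e3 e4 e5 e10 y j = 0 := if_neg (by omega)

theorem Hat2_b_add (α β e3 e4 e5 e10 y : ℝ) (k : ℕ) :
    Hat2_b α β e3 e4 e5 e10 y (k + 3) = α * (cos ((k + 3 : ℕ) * y) - (-1) ^ (k + 3)) +
      β * sin ((k + 3 : ℕ) * y) + Hat2_e e3 e4 e5 e10 k := by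
  unfold Hat2_b
  rw [if_pos (by omega), Nat.add_sub_cancel]

theorem Hat2_pos {α β e3 e4 e5 e10 : ℝ} (h : ∀ q ∈ Ioo (0 : ℝ) 1,
    0 ≤ α * Fr q (cos y) + β * Gr' q (cos y) (sin y) + (e3 + e4 * q + e5 * q ^ 2 + e10 * q ^ 7)) :
    PosS (Hat2_b α β e3 e4 e5 e10 y) := by
  refine ⟨Hat2_b_lt _ _ _ _ _ _ _ (by omega), Hat2_b_lt _ _ _ _ _ _ _ (by omega),
    ⟨|α| * 2 + |β| + (|e3| + |e4| + |e5| + |e10|), fun j => ?_⟩, fun q hq => ?_⟩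
  · unfold Hat2_b
    split_ifs
    · have h1 := abs_add_le (α * (cos (j * y) - (-1) ^ j) + β * sin (j * y))
        (Hat2_e e3 e4 e5 e10 (j - 3))
      have h2 := abs_add_le (α * (cos (j * y) - (-1) ^ j)) (β * sin (j * y))
      have h3 := Hat2_e_le e3 e4 e5 e10 (j - 3)
      rw [abs_mul, abs_mul] at h2
      have h4 := mul_le_mul_of_nonneg_left (Hat2_cos_le y j) (abs_nonneg α)
      have h5 := mul_le_mul_of_nonneg_left (abs_sin_le_one (j * y)) (abs_nonneg β)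
      linarith
    · rw [abs_zero]
      positivity
  · rw [Hat2_shift fun j hj => by rw [Hat2_b_lt _ _ _ _ _ _ _ hj, zero_mul]]
    have h1 := (((hasSum_Fc hq y).mul_left α).add ((hasSum_Gc hq y).mul_left β)).add
      (Hat2_e_sum e3 e4 e5 e10 fun k => q ^ (k + 3))
    have e : (fun k : ℕ => Hat2_b α β e3 e4 e5 e10 y (k + 3) * q ^ (k + 3)) = fun k : ℕ =>
        α * (q ^ (k + 3) * (cos ((k + 3 : ℕ) * y) - (-1) ^ (k + 3))) +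
          β * (q ^ (k + 3) * sin ((k + 3 : ℕ) * y)) + q ^ (k + 3) * Hat2_e e3 e4 e5 e10 k := by
      funext k
      rw [Hat2_b_add]
      ring
    rw [e, h1.tsum_eq]
    have h2 := mul_nonneg (pow_pos hq.1 3).le (h q hq)
    refine h2.trans_eq ?_
    ring

theorem Hat2_summable (hq : q ∈ Ioo (0 : ℝ) 1) (hρ : 0 ≤ ρ) {x : ℕ → ℝ} {C : ℝ}
    (hx : ∀ k, |x k| ≤ C) : Summable fun k : ℕ => q ^ (k + 3) * ee lam (k + 3) ρ * x k := by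
  refine Summable.of_norm_bounded
    ((summable_geometric_of_lt_one hq.1.le hq.2).mul_left C) fun k => ?_
  have h1 := ee_pos lam (k + 3) ρ
  have h2 := ee_le_one lam (k + 3) hρ
  have h3 : q ^ (k + 3) ≤ q ^ k := pow_le_pow_of_le_one hq.1.le hq.2.le (by omega)
  have h4 : 0 < q ^ (k + 3) := pow_pos hq.1 _
  have h5 : q ^ (k + 3) * ee lam (k + 3) ρ ≤ q ^ k := by nlinarith
  rw [Real.norm_eq_abs, abs_mul, abs_of_pos (mul_pos h4 h1), mul_comm C]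
  exact mul_le_mul h5 (hx k) (abs_nonneg _) (pow_pos hq.1 k).le

theorem Hat2_nu_le (h2 : 2 ≤ lam) (hl : lam < 4) (k : ℕ) :
    |((k + 3 : ℕ) : ℝ) / mm lam (k + 3) - 1| ≤ 1 := by
  have h1 : 0 < mm lam (k + 3) := mm_pos hl (by omega)
  have h3 := mm_sq (j := k + 3) hl (by omega)
  have h4 : (3 : ℝ) ≤ ((k + 3 : ℕ) : ℝ) := by exact_mod_cast (by omega : 3 ≤ k + 3)
  have h5 : ((k + 3 : ℕ) : ℝ) ≤ 2 * mm lam (k + 3) := by
    by_contra hn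
    nlinarith [not_le.1 hn]
  have h6 : ((k + 3 : ℕ) : ℝ) / mm lam (k + 3) ≤ 2 := (div_le_iff₀ h1).2 h5
  have h7 : 0 ≤ ((k + 3 : ℕ) : ℝ) / mm lam (k + 3) := by positivity
  have _h := h2
  rw [abs_le]
  constructor <;> linarith

theorem Hat2_sum_Gn (h2 : 2 ≤ lam) (hl : lam < 4) (hq : q ∈ Ioo (0 : ℝ) 1) (hρ : 0 ≤ ρ) (y : ℝ) :
    Summable fun k : ℕ => q ^ (k + 3) * ee lam (k + 3) ρ *
      (sin ((k + 3 : ℕ) * y) * (((k + 3 : ℕ) : ℝ) / mm lam (k + 3) - 1)) := by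
  refine Hat2_summable hq hρ (C := 1) fun k => ?_
  rw [abs_mul]
  exact mul_le_one₀ (abs_sin_le_one _) (abs_nonneg _) (Hat2_nu_le h2 hl k)

theorem Hat2_Gh (h2 : 2 ≤ lam) (hl : lam < 4) (hq : q ∈ Ioo (0 : ℝ) 1) (hρ : 0 ≤ ρ) (y : ℝ) :
    Gh lam q ρ y = Hat2_G0 lam q ρ y + Hat2_Gn lam q ρ y := by
  unfold Gh Hat2_G0 Hat2_Gn
  rw [← (Hat2_summable hq hρ (C := 1) fun k => abs_sin_le_one _).tsum_add
    (Hat2_sum_Gn h2 hl hq hρ y)]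
  refine tsum_congr fun k => ?_
  ring

theorem Hat2_gen (h2 : 2 ≤ lam) (hl : lam < 4) (hq : q ∈ Ioo (0 : ℝ) 1) (hρ : 0 ≤ ρ)
    (α β e3 e4 e5 e10 : ℝ) (h : ∀ q ∈ Ioo (0 : ℝ) 1,
    0 ≤ α * Fr q (cos y) + β * Gr' q (cos y) (sin y) + (e3 + e4 * q + e5 * q ^ 2 + e10 * q ^ 7)) :
    0 ≤ α * Fh lam q ρ y + β * Hat2_G0 lam q ρ y + (q ^ 3 * ee lam 3 ρ * e3 +
      q ^ 4 * ee lam 4 ρ * e4 + q ^ 5 * ee lam 5 ρ * e5 + q ^ 10 * ee lam 10 ρ * e10) := by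
  have h0 := hat0 (by linarith) hl (Hat2_pos h) hq hρ
  rw [Hat2_shift fun j hj => by rw [Hat2_b_lt _ _ _ _ _ _ _ hj, mul_zero]] at h0
  have h1 := ((((Hat2_summable (lam := lam) hq hρ
    fun k => Hat2_cos_le y (k + 3)).hasSum.mul_left α).add
    ((Hat2_summable (lam := lam) hq hρ (C := 1) (x := fun k => sin ((k + 3 : ℕ) * y))
      fun k => abs_sin_le_one _).hasSum.mul_left β)).add
    (Hat2_e_sum e3 e4 e5 e10 fun k => q ^ (k + 3) * ee lam (k + 3) ρ)).tsum_eq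
  refine h0.trans_eq ((tsum_congr fun k => ?_).trans h1)
  rw [Hat2_b_add]
  ring

theorem Hat2_nu (h2 : 2 ≤ lam) (hl : lam < 4) (hq : q ∈ Ioo (0 : ℝ) 1) (hρ : 0 ≤ ρ)
    (hy : y ∈ Icc 0 π) : -Hat2_Gn lam q ρ y ≤ nu3 lam * ee lam 3 ρ := by
  have hp : PosS (Hat2_b 0 1 1 0 0 0 y) := Hat2_pos fun q hq => by
    have := P7 hq (sin_nonneg_of_mem_Icc hy) (sin_sq_add_cos_sq y)
    linarith
  have h0 := hat_nu (by linarith) hl hp hq hρ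
  rw [Hat2_shift fun j hj => by rw [Hat2_b_lt _ _ _ _ _ _ _ hj, zero_mul, mul_zero]] at h0
  have h1 := ((Hat2_sum_Gn h2 hl hq hρ y).hasSum.add (Hat2_e_sum 1 0 0 0 fun k =>
    q ^ (k + 3) * ee lam (k + 3) ρ * (((k + 3 : ℕ) : ℝ) / mm lam (k + 3) - 1))).tsum_eq
  have h3 := h0.trans_eq ((tsum_congr fun k => by rw [Hat2_b_add]; ring).trans h1)
  have h4 : 0 ≤ Hat2_Gn lam q ρ y + q ^ 3 * ee lam 3 ρ * nu3 lam := by
    refine h3.trans_eq ?_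
    unfold Hat2_Gn nu3
    norm_num
  have h5 : q ^ 3 ≤ 1 := pow_le_one₀ hq.1.le hq.2.le
  have h6 : 0 ≤ ee lam 3 ρ * nu3 lam :=
    mul_nonneg (ee_pos lam 3 ρ).le (by linarith [(nu3_mem h2 hl).1])
  nlinarith

theorem Hat2_cut {x z u v A B : ℝ} (hz : 0 ≤ z) (hzx : z ≤ x) (hu : u ≤ 1)
    (hv : 1 - v ≤ 2 * (1 - u)) (hB : 0 ≤ B) (hA : 2 * B ≤ A) :
    u * x * A - v * z * B ≤ A * x - B * z := by
  have h1 : 0 ≤ 1 - u := by linarith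
  have h2 : B * z * (1 - v) ≤ B * z * (2 * (1 - u)) :=
    mul_le_mul_of_nonneg_left hv (mul_nonneg hB hz)
  have h3 : 2 * B * z ≤ A * x := mul_le_mul hA hzx hz (by linarith)
  have h4 := mul_le_mul_of_nonneg_right h3 h1
  nlinarith

theorem HB (h2 : 2 ≤ lam) (hl : lam < 4) (hq : q ∈ Ioo (0 : ℝ) 1) (hρ : 0 ≤ ρ) (hy : y ∈ Icc 0 π)
    (hc : cos y ≤ 0) : Fh lam q ρ y ≤ DB lam ρ ∧ Fh lam q ρ y - Gh lam q ρ y ≤ DB lam ρ := by
  have a1 := Hat2_gen (y := y) h2 hl hq hρ (-1) 0 2.44 (-0.91) 0 0 fun q hq => by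
    have := P5a hq (neg_one_le_cos y) hc
    linarith
  have a2 := Hat2_gen (y := y) h2 hl hq hρ (-1) 1 2.44 (-0.91) 0 0 fun q hq => by
    have := P5b hq (sin_nonneg_of_mem_Icc hy) (sin_sq_add_cos_sq y) hc
    linarith
  have a3 := Hat2_nu h2 hl hq hρ hy
  have a4 : 0 ≤ nu3 lam * ee lam 3 ρ :=
    mul_nonneg (by linarith [(nu3_mem h2 hl).1]) (ee_pos lam 3 ρ).le
  have b0 := hq.1
  have b1 : 0 < 1 - q := by linarith [hq.2]
  have b2 : q ^ 3 ≤ 1 := pow_le_one₀ hq.1.le hq.2.le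
  have b3 : 0 ≤ (1 - q) * (1 - q ^ 3 + q + q ^ 2) :=
    mul_nonneg b1.le (by nlinarith [sq_nonneg q])
  have a5 := Hat2_cut (u := q ^ 3) (v := q ^ 4) (A := 2.44) (B := 0.91) (ee_pos lam 4 ρ).le
    (ee_le_ee (j := 4) (by linarith) hl (i := 3) (by omega) (by omega) hρ) b2 (by nlinarith)
    (by norm_num) (by norm_num)
  rw [Hat2_Gh h2 hl hq hρ]
  unfold DB
  constructor <;> linarith

theorem Hn (h2 : 2 ≤ lam) (hl : lam < 4) (hq : q ∈ Ioo (0 : ℝ) 1) (hρ : 0 ≤ ρ) (hy : y ∈ Icc 0 π)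
    (hc : cos y ≤ 0) : -Fh lam q ρ y ≤ nu3 lam * ee lam 3 ρ ∧
      -Fh lam q ρ y - Gh lam q ρ y ≤ nu3 lam * ee lam 3 ρ := by
  have a1 := Hat2_gen (y := y) h2 hl hq hρ 1 0 0 0 0 0 fun q hq => by
    have := P1 hq (neg_one_le_cos y) (hc.trans (by norm_num))
    linarith
  have a2 := Hat2_gen (y := y) h2 hl hq hρ 1 1 0 0 0 0 fun q hq => by
    have := P6 hq (sin_nonneg_of_mem_Icc hy) (sin_sq_add_cos_sq y) hc
    linarith
  have a3 := Hat2_nu h2 hl hq hρ hy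
  have a4 : 0 ≤ nu3 lam * ee lam 3 ρ :=
    mul_nonneg (by linarith [(nu3_mem h2 hl).1]) (ee_pos lam 3 ρ).le
  rw [Hat2_Gh h2 hl hq hρ]
  constructor <;> linarith

theorem Hat2_drop (hq : q ∈ Ioo (0 : ℝ) 1) (lam ρ : ℝ) (j : ℕ) :
    q ^ j * ee lam j ρ ≤ ee lam j ρ :=
  mul_le_of_le_one_left (ee_pos lam j ρ).le (pow_le_one₀ hq.1.le hq.2.le)

theorem H1 (h2 : 2 ≤ lam) (hl : lam < 4) (hq : q ∈ Ioo (0 : ℝ) 1) (hρ : 0 ≤ ρ) (hy : y ∈ Icc 0 π) :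
    -Fh lam q ρ y ≤ D1 lam ρ ∧ -Fh lam q ρ y - Gh lam q ρ y ≤ D1 lam ρ := by
  have a1 := Hat2_gen (y := y) h2 hl hq hρ 1 0 0.47 1 0 0.55 fun q hq => by
    have := P8a hq (neg_one_le_cos y) (cos_le_one y)
    linarith
  have a2 := Hat2_gen (y := y) h2 hl hq hρ 1 1 0.47 1 0 0.55 fun q hq => by
    have := P8b hq (sin_nonneg_of_mem_Icc hy) (sin_sq_add_cos_sq y)
    linarith
  have a3 := Hat2_nu h2 hl hq hρ hy
  have a4 : 0 ≤ nu3 lam * ee lam 3 ρ :=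
    mul_nonneg (by linarith [(nu3_mem h2 hl).1]) (ee_pos lam 3 ρ).le
  have d3 := Hat2_drop hq lam ρ 3
  have d4 := Hat2_drop hq lam ρ 4
  have d10 := Hat2_drop hq lam ρ 10
  rw [Hat2_Gh h2 hl hq hρ]
  unfold D1
  constructor <;> linarith

theorem H2 (h2 : 2 ≤ lam) (hl : lam < 4) (hq : q ∈ Ioo (0 : ℝ) 1) (hρ : 0 ≤ ρ) (hy : y ∈ Icc 0 π)
    (hc : cos y ≤ 1 / 2) :
    -Fh lam q ρ y ≤ D2 lam ρ ∧ -Fh lam q ρ y - Gh lam q ρ y ≤ D2 lam ρ := by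
  have a1 := Hat2_gen (y := y) h2 hl hq hρ 1 0 0.45 1.3 (-0.65) 0 fun q hq => by
    have := P9a hq (neg_one_le_cos y) hc
    linarith
  have a2 := Hat2_gen (y := y) h2 hl hq hρ 1 1 0.45 1.3 (-0.65) 0 fun q hq => by
    have := P9b hq (sin_nonneg_of_mem_Icc hy) (sin_sq_add_cos_sq y) hc
    linarith
  have a3 := Hat2_nu h2 hl hq hρ hy
  have a4 : 0 ≤ nu3 lam * ee lam 3 ρ :=
    mul_nonneg (by linarith [(nu3_mem h2 hl).1]) (ee_pos lam 3 ρ).le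
  have d3 := Hat2_drop hq lam ρ 3
  have b0 := hq.1
  have b1 : 0 < 1 - q := by linarith [hq.2]
  have b2 : q ^ 4 ≤ 1 := pow_le_one₀ hq.1.le hq.2.le
  have b4 : 0 ≤ q + q ^ 2 + q ^ 3 := by positivity
  have b3 : 0 ≤ (1 - q) * (1 - q ^ 4 + (q + q ^ 2 + q ^ 3)) := mul_nonneg b1.le (by linarith)
  have a5 := Hat2_cut (u := q ^ 4) (v := q ^ 5) (A := 1.3) (B := 0.65) (ee_pos lam 5 ρ).le
    (ee_le_ee (j := 5) (by linarith) hl (i := 4) (by omega) (by omega) hρ) b2 (by nlinarith)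
    (by norm_num) (by norm_num)
  rw [Hat2_Gh h2 hl hq hρ]
  unfold D2
  constructor <;> linarith

end Pool.Agent.L2Q
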