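import Pool.Agent.P.MP_2f6447_an.Q.KAc

/-! Lower bounds for the own arc. -/

open Set MeasureTheory Filter Topology Real

namespace Pool.Agent.L2Q

open Pool.Agent.L2K

variable {lam q ρ y t a b c m : ℝ} {j : ℕ} {ξ p : ℝ → ℝ}

theorem KA_red (h2 : 2 ≤ lam) (hl : lam < 4) {z c S B : ℝ} (hz : 0 ≤ z) (hc : 0 ≤ c) (hS : 0 ≤ S)
    (h : S * (2 / 3.464) ≤ B * exp (3.464 * z) + 2 / 2.646 * exp (-((2.646 * c - 3.464) * z))) :
    -B ≤ 2 * ee lam 3 (c * z) / mm lam 3 - S * (2 * ee lam 4 z / mm lam 4) := by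
  obtain ⟨h31, h32⟩ := mm3_mem h2 hl
  obtain ⟨h41, -⟩ := mm4_mem h2 hl
  have hcz : 0 ≤ c * z := mul_nonneg hc hz
  have e3 : exp (-(2.646 * (c * z))) ≤ ee lam 3 (c * z) :=
    exp_le_exp.2 (neg_le_neg (mul_le_mul_of_nonneg_right h32 hcz))
  have e4 : ee lam 4 z ≤ exp (-(3.464 * z)) :=
    exp_le_exp.2 (neg_le_neg (mul_le_mul_of_nonneg_right h41 hz))
  have f3 : 2 * exp (-(2.646 * (c * z))) / 2.646 ≤ 2 * ee lam 3 (c * z) / mm lam 3 :=
    div_le_div₀ (by linarith [ee_pos lam 3 (c * z)]) (by linarith) (by linarith) h32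
  have f4 : 2 * ee lam 4 z / mm lam 4 ≤ 2 * exp (-(3.464 * z)) / 3.464 :=
    div_le_div₀ (by linarith [exp_pos (-(3.464 * z))]) (by linarith) (by norm_num) h41
  have g1 : exp (-(2.646 * (c * z))) =
      exp (-(3.464 * z)) * exp (-((2.646 * c - 3.464) * z)) := by
    rw [← exp_add]; exact congrArg exp (by ring)
  have g2 : exp (-(3.464 * z)) * exp (3.464 * z) = 1 := by
    rw [← exp_add, neg_add_cancel, exp_zero]
  have g3 := mul_le_mul_of_nonneg_left h (exp_pos (-(3.464 * z))).le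
  have g4 := mul_le_mul_of_nonneg_left f4 hS
  rw [g1] at f3
  have g5 : exp (-(3.464 * z)) * (B * exp (3.464 * z) +
      2 / 2.646 * exp (-((2.646 * c - 3.464) * z))) =
      B + 2 * (exp (-(3.464 * z)) * exp (-((2.646 * c - 3.464) * z))) / 2.646 := by
    linear_combination B * g2
  have g6 : exp (-(3.464 * z)) * (S * (2 / 3.464)) = S * (2 * exp (-(3.464 * z)) / 3.464) := by
    ring
  linarith

theorem KA_exp4 {s : ℝ} (hs : 0 ≤ s) : 1 + s + s ^ 2 / 2 + s ^ 3 / 6 + s ^ 4 / 24 ≤ exp s := by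
  have h := Real.sum_le_exp_of_nonneg hs 5
  simp only [Finset.sum_range_succ, Finset.sum_range_zero, Nat.factorial] at h
  norm_num at h
  linarith

theorem KA_sqrt {Y c : ℝ} (hY : 0 ≤ Y) (hc : 0 < c) : √Y ≤ (Y + c ^ 2) / (2 * c) := by
  rw [le_div_iff₀ (by positivity)]
  nlinarith [sq_nonneg (√Y - c), Real.sq_sqrt hY]

theorem KA_tan (s s0 : ℝ) : exp (-s0) * (1 + s0 - s) ≤ exp (-s) := by
  have h : exp (-s) = exp (-s0) * exp (s0 - s) := by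
    rw [← exp_add]; exact congrArg exp (by ring)
  rw [h]
  exact mul_le_mul_of_nonneg_left (by linarith [add_one_le_exp (s0 - s)]) (exp_pos _).le

theorem KA_poly0 {z S X A : ℝ} (hz : 0 ≤ z) (a1 : S ≤ 1 + 0.1612 * z ^ 2)
    (a2 : 1 + 3.464 * z + 5.999 * z ^ 2 + 6.927 * z ^ 3 + 5.999 * z ^ 4 ≤ X)
    (a3 : 0.878 - 0.689 * z ≤ A) : S * (2 / 3.464) ≤ 0.0376 * X + 2 / 2.646 * A := by
  nlinarith [sq_nonneg (z ^ 2 - 0.22), sq_nonneg (z - 0.48), mul_nonneg hz (sq_nonneg (z - 0.48))]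

theorem KA_poly1 {z S X A : ℝ} (hz : 0 ≤ z) (hc : z ≤ 0.08) (a1 : S ≤ 1.0572 + 9.821 * z ^ 2)
    (a2 : 1 + 3.464 * z + 5.999 * z ^ 2 + 6.927 * z ^ 3 + 5.999 * z ^ 4 ≤ X)
    (a3 : 0.7357 - 6.744 * z ≤ A) : S * (2 / 3.464) ≤ 0.424 * X + 2 / 2.646 * A := by
  nlinarith [pow_nonneg hz 3, pow_nonneg hz 4, mul_nonneg hz (sub_nonneg.2 hc)]

theorem KA_poly2 {z S X A : ℝ} (hc : 0.08 ≤ z) (a1 : S ≤ 1.0572 + 9.821 * z ^ 2)
    (a2 : 1 + 3.464 * z + 5.999 * z ^ 2 + 6.927 * z ^ 3 + 5.999 * z ^ 4 ≤ X)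
    (a3 : 0.1991 - 0.9128 * z ≤ A) : S * (2 / 3.464) ≤ 0.424 * X + 2 / 2.646 * A := by
  have hw : 0 ≤ z - 0.08 := sub_nonneg.2 hc
  nlinarith [mul_nonneg hw (sq_nonneg (z - 0.33)), sq_nonneg ((z - 0.08) * (z - 0.33)),
    sq_nonneg (z - 0.33), mul_nonneg hw hw]

theorem KA_exp4' {z : ℝ} (hz : 0 ≤ z) :
    1 + 3.464 * z + 5.999 * z ^ 2 + 6.927 * z ^ 3 + 5.999 * z ^ 4 ≤ exp (3.464 * z) := by
  refine le_trans ?_ (KA_exp4 (s := 3.464 * z) (by positivity))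
  have e : 1 + 3.464 * z + (3.464 * z) ^ 2 / 2 + (3.464 * z) ^ 3 / 6 + (3.464 * z) ^ 4 / 24 =
      1 + 3.464 * z + 3.464 ^ 2 / 2 * z ^ 2 + 3.464 ^ 3 / 6 * z ^ 3 + 3.464 ^ 4 / 24 * z ^ 4 := by
    ring
  rw [e]
  gcongr <;> norm_num

theorem KA_tan' {z k s0 lo hi u v : ℝ} (hz : 0 ≤ z) (hk : 0 ≤ k) (h0 : 0 ≤ s0)
    (h1 : lo ≤ exp (-s0)) (h2 : exp (-s0) ≤ hi) (hu : u ≤ lo * (1 + s0)) (hv : hi * k ≤ v) :
    u - v * z ≤ exp (-(k * z)) := by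
  refine le_trans ?_ (KA_tan (k * z) s0)
  have b1 := mul_le_mul_of_nonneg_right h1 (by linarith : 0 ≤ 1 + s0)
  have b2 := mul_le_mul_of_nonneg_right h2 (mul_nonneg hk hz)
  have b3 := mul_le_mul_of_nonneg_right hv hz
  nlinarith

theorem KA_num0 (h2 : 2 ≤ lam) (hl : lam < 4) {z : ℝ} (hz : 0 ≤ z) :
    -0.0376 ≤ 2 * ee lam 3 (1.7835 * z) / mm lam 3 -
      √(1 + (z / 1.7615) ^ 2) * (2 * ee lam 4 z / mm lam 4) := by
  have a4 : (0.5488 : ℝ) ≤ exp (-0.6) := by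
    have b1 : exp (0.6 : ℝ) ≤ 1.82213 := by
      have := Real.exp_bound' (x := 0.6) (by norm_num) (by norm_num) (n := 7) (by norm_num)
      simp only [Finset.sum_range_succ, Finset.sum_range_zero, Nat.factorial] at this
      norm_num at this ⊢
      linarith
    rw [exp_neg, le_inv_comm₀ (by norm_num) (exp_pos _)]
    exact b1.trans (by norm_num)
  have a5 : exp (-0.6 : ℝ) ≤ 0.5489 := by
    have b2 := Real.sum_le_exp_of_nonneg (x := 0.6) (by norm_num) 7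
    simp only [Finset.sum_range_succ, Finset.sum_range_zero, Nat.factorial] at b2
    rw [exp_neg, inv_le_comm₀ (exp_pos _) (by norm_num)]
    exact le_trans (by norm_num) b2
  refine KA_red h2 hl (B := 0.0376) hz (by norm_num) (sqrt_nonneg _) (KA_poly0 hz ?_ (KA_exp4' hz)
    (KA_tan' hz (by norm_num) (by norm_num) a4 a5 (by norm_num) (by norm_num)))
  refine (KA_sqrt (c := 1) (by positivity) one_pos).trans ?_
  have e : (1 + (z / 1.7615) ^ 2 + 1 ^ 2) / (2 * 1) = 1 + 1 / (2 * 1.7615 ^ 2) * z ^ 2 := by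
    ring
  rw [e]
  gcongr
  norm_num

theorem KA_num1 (h2 : 2 ≤ lam) (hl : lam < 4) {z : ℝ} (hz : 0 ≤ z) :
    -0.424 ≤ 2 * ee lam 3 (8.237 * z) / mm lam 3 -
      √(1 + (z / 0.1907) ^ 2) * (2 * ee lam 4 z / mm lam 4) := by
  have a1 : √(1 + (z / 0.1907) ^ 2) ≤ 1.0572 + 9.821 * z ^ 2 := by
    refine (KA_sqrt (c := 1.4) (by positivity) (by norm_num)).trans ?_
    have e : (1 + (z / 0.1907) ^ 2 + 1.4 ^ 2) / (2 * 1.4) =
        (1 + 1.4 ^ 2) / 2.8 + 1 / (2.8 * 0.1907 ^ 2) * z ^ 2 := by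
      ring
    rw [e]
    gcongr <;> norm_num
  have b1 := Real.exp_neg_one_gt_d9
  have b2 := Real.exp_neg_one_lt_d9
  refine KA_red h2 hl (B := 0.424) hz (by norm_num) (sqrt_nonneg _) ?_
  rcases le_total z 0.08 with hc | hc
  · exact KA_poly1 hz hc a1 (KA_exp4' hz)
      (KA_tan' hz (by norm_num) zero_le_one b1.le b2.le (by norm_num) (by norm_num))
  · have b3 : exp (-3 : ℝ) = exp (-1) ^ 3 := by
      rw [← exp_nat_mul]; exact congrArg exp (by norm_num)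
    have b4 : (0.04978 : ℝ) ≤ exp (-3) := by
      rw [b3]
      exact le_trans (by norm_num) (pow_le_pow_left₀ (by norm_num) b1.le 3)
    have b5 : exp (-3 : ℝ) ≤ 0.04979 := by
      rw [b3]
      exact le_trans (pow_le_pow_left₀ (exp_pos _).le b2.le 3) (by norm_num)
    exact KA_poly2 hc a1 (KA_exp4' hz)
      (KA_tan' hz (by norm_num) (by norm_num) b4 b5 (by norm_num) (by norm_num))

theorem KA_gen (A : Arc ξ p t) (h2 : 2 ≤ lam) (hl : lam < 4) (hq : q ∈ Ioo (0 : ℝ) 1)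
    (h0 : 0 ≤ ξ 0) (h1 : 0 ≤ ξ (π / 2)) {x κ B : ℝ} (hx : x ∈ Icc 0 π) (hκ : 0 < κ)
    (hxκ : κ ≤ x - 1.38) (hξ : 0 ≤ ξ x) (hc : κ + 1.38 ≤ c * κ) (hB : 0 ≤ B)
    (hn : ∀ z, 0 ≤ z → -B ≤ 2 * ee lam 3 (c * z) / mm lam 3 -
      √(1 + (z / κ) ^ 2) * (2 * ee lam 4 z / mm lam 4)) :
    -B ≤ π * (KI lam ξ p q - Ret lam ξ p) := by
  obtain ⟨c1, c2⟩ := A.KA_core h2 hl hq h0 h1
  rcases le_or_gt 1.38 t with ht | ht
  · exact le_trans (by linarith) (mul_nonneg pi_pos.le (c1 ht))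
  refine le_trans ?_ (c2 ht)
  have hπ : (1.38 : ℝ) < π := by linarith [pi_gt_three]
  have hy : (1.38 : ℝ) ∈ Ioo 0 π := ⟨by norm_num, hπ⟩
  have hp : p 1.38 ≤ 0 := A.p_nonpos ⟨ht.le, hπ⟩
  have t1 := A.tangent hy hx
  have t2 := A.tangent hy (Ioo_subset_Icc_self A.tmem)
  have t3 : -p 1.38 * κ ≤ ξ 1.38 := by nlinarith
  have hz : 0 ≤ ξ 1.38 := le_trans (mul_nonneg (by linarith) hκ.le) t3
  have t4 : -p 1.38 ≤ ξ 1.38 / κ := by rwa [le_div_iff₀ hκ]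
  have t5 : ξ t ≤ c * ξ 1.38 := by
    have u1 : ξ t ≤ ξ 1.38 + 1.38 * -p 1.38 := by nlinarith [A.tmem.1]
    refine le_of_mul_le_mul_right ?_ hκ
    nlinarith [mul_le_mul_of_nonneg_right u1 hκ.le, mul_le_mul_of_nonneg_right hc hz]
  have t6 : sq1 p 1.38 ≤ √(1 + (ξ 1.38 / κ) ^ 2) := by
    refine sqrt_le_sqrt ?_
    have := pow_le_pow_left₀ (by linarith) t4 2
    nlinarith
  have m3 := mm_pos hl (j := 3) (by norm_num)
  have m4 := mm_pos hl (j := 4) (by norm_num)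
  have hX : 2 * ee lam 3 (c * ξ 1.38) / mm lam 3 ≤ 2 * ee lam 3 (ξ t) / mm lam 3 :=
    div_le_div_of_nonneg_right (by linarith [ee_anti lam 3 t5]) m3.le
  have hY : 0 ≤ 2 * ee lam 4 (ξ 1.38) / mm lam 4 :=
    div_nonneg (by linarith [ee_pos lam 4 (ξ 1.38)]) m4.le
  have hs : 0 ≤ sq1 p 1.38 := le_trans zero_le_one (one_le_sq1 p _)
  have k1 := hn _ hz
  have k2 := mul_le_mul_of_nonneg_right t6 hY
  have k3 : q * (sq1 p 1.38 * (2 * ee lam 4 (ξ 1.38) / mm lam 4)) ≤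
      sq1 p 1.38 * (2 * ee lam 4 (ξ 1.38) / mm lam 4) :=
    mul_le_of_le_one_left (mul_nonneg hs hY) hq.2.le
  have k4 : -B ≤ 2 * ee lam 3 (ξ t) / mm lam 3 -
      q * (sq1 p 1.38 * (2 * ee lam 4 (ξ 1.38) / mm lam 4)) := by linarith
  have q0 : 0 ≤ q ^ 3 := pow_nonneg hq.1.le 3
  have q1 : q ^ 3 ≤ 1 := pow_le_one₀ hq.1.le hq.2.le
  have k5 := mul_le_mul_of_nonneg_left k4 q0
  have k6 : q ^ 3 * B ≤ B := mul_le_of_le_one_left hB q1
  have k7 : 2 * q ^ 3 * ee lam 3 (ξ t) / mm lam 3 -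
      sq1 p 1.38 * (2 * q ^ 4 * ee lam 4 (ξ 1.38) / mm lam 4) =
      q ^ 3 * (2 * ee lam 3 (ξ t) / mm lam 3 -
        q * (sq1 p 1.38 * (2 * ee lam 4 (ξ 1.38) / mm lam 4))) := by ring
  rw [k7]
  linarith

theorem KA_Ret (A : Arc ξ p t) (lam : ℝ) (h0 : 0 ≤ ξ 0) (h1 : 0 ≤ ξ π) :
    Ret lam ξ p = 0 := by
  unfold Ret
  rw [intervalIntegral.integral_congr (g := fun _ => 0), intervalIntegral.integral_zero, mul_zero]
  intro y hy
  rw [uIcc_of_le pi_pos.le] at hy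
  have h : max (-ξ y) 0 = 0 :=
    max_eq_right (neg_nonpos.2 ((le_min h0 h1).trans (A.min_le hy)))
  simp only [h, S1_zero, S2_zero, zero_mul, mul_zero, add_zero]

theorem Arc.KA0 (A : Arc ξ p t) (h2 : 2 ≤ lam) (hl : lam < 4) (hq : q ∈ Ioo (0 : ℝ) 1)
    (h0 : 0 ≤ ξ 0) (h1 : 0 ≤ ξ π) : -0.012 ≤ KI lam ξ p q := by
  have hπ := pi_gt_d4
  have hm : 0 ≤ ξ (π / 2) :=
    (le_min h0 h1).trans (A.min_le ⟨by linarith, by linarith⟩)
  have h := KA_gen A h2 hl hq h0 hm (x := π) (κ := 1.7615) (B := 0.0376) (c := 1.7835)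
    ⟨pi_pos.le, le_rfl⟩ (by norm_num) (by linarith) h1 (by norm_num) (by norm_num)
    fun z hz => KA_num0 h2 hl hz
  rw [KA_Ret A lam h0 h1, sub_zero] at h
  by_contra hc
  push Not at hc
  nlinarith

theorem Arc.KA1 (A : Arc ξ p t) (h2 : 2 ≤ lam) (hl : lam < 4) (hq : q ∈ Ioo (0 : ℝ) 1)
    (h0 : 0 ≤ ξ 0) (h1 : 0 ≤ ξ (π / 2)) : -0.135 ≤ KI lam ξ p q - Ret lam ξ p := by
  have hπ := pi_gt_d4
  have h := KA_gen A h2 hl hq h0 h1 (x := π / 2) (κ := 0.1907) (B := 0.424) (c := 8.237)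
    ⟨by linarith, by linarith⟩ (by norm_num) (by linarith) h1 (by norm_num) (by norm_num)
    fun z hz => KA_num1 h2 hl hz
  by_contra hc
  push Not at hc
  nlinarith

theorem Arc.Ret_zero (A : Arc ξ p t) (lam : ℝ) (h0 : 0 ≤ ξ 0) (h1 : 0 ≤ ξ π) :
    Ret lam ξ p = 0 := KA_Ret A lam h0 h1

theorem Arc.KAV (A : Arc ξ p t) (hl : lam < 4) (h0 : 0 ≤ ξ 0) (h1 : ξ (π / 2) < 0) :
    0 ≤ ∫ y in (0 : ℝ)..π, S2 lam (ξ y) * sin (2 * y) * sq1 p y := by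
  have hπ := pi_pos
  have ht0 := A.tmem.1
  have ht : t < π / 2 := by
    by_contra hc
    push Not at hc
    have := A.mono (a := 0) ⟨le_rfl, ht0.le⟩ (b := π / 2) ⟨by linarith, hc⟩ (by linarith)
    linarith
  have htip : 0 ≤ ξ t := h0.trans (A.le_tip ⟨le_rfl, hπ.le⟩)
  obtain ⟨c, hc, hc0⟩ : ∃ c ∈ Icc t (π / 2), ξ c = 0 :=
    intermediate_value_Icc' ht.le (A.cont.mono (Icc_subset_Icc ht0.le (by linarith)))
      ⟨h1.le, htip⟩
  have hcI : c ∈ Icc 0 π := ⟨by linarith [hc.1], by linarith [hc.2]⟩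
  have hct : c ∈ Icc t π := ⟨hc.1, hcI.2⟩
  have hf : ContinuousOn (fun y => S2 lam (ξ y) * sin (2 * y)) (Icc 0 π) :=
    ((continuous_S2 lam).comp_continuousOn A.cont).mul (by fun_prop)
  have i1 := A.ii_mul (a := 0) (b := c) ⟨le_rfl, hπ.le⟩ hcI
    (hf.mono (uIcc_subset_Icc ⟨le_rfl, hπ.le⟩ hcI))
  have i2 := A.ii_mul (a := c) (b := π) hcI ⟨hπ.le, le_rfl⟩
    (hf.mono (uIcc_subset_Icc hcI ⟨hπ.le, le_rfl⟩))
  rw [← intervalIntegral.integral_add_adjacent_intervals i1 i2]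
  have s0 : ∀ y, 0 ≤ sq1 p y := fun y => le_trans zero_le_one (one_le_sq1 p y)
  refine add_nonneg (intervalIntegral.integral_nonneg hcI.1 fun y hy => ?_) ?_
  · have hξ : 0 ≤ ξ y := by
      rcases le_total y t with h | h
      · exact h0.trans (A.mono ⟨le_rfl, ht0.le⟩ ⟨hy.1, h⟩ hy.1)
      · exact hc0 ▸ A.anti' ⟨h, hy.2.trans hcI.2⟩ hct hy.2
    refine mul_nonneg (mul_nonneg (hξ.trans (le_S2 hl hξ)) ?_) (s0 y)
    exact sin_nonneg_of_nonneg_of_le_pi (by linarith [hy.1]) (by linarith [hy.2, hc.2])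
  · have hn : ∀ y ∈ Ioo c π, 0 ≤ -S2 lam (ξ y) := by
      intro y hy
      have h : ξ y ≤ 0 := hc0 ▸ A.anti' hct ⟨hc.1.trans hy.1.le, hy.2.le⟩ hy.1.le
      have := S2_mono hl h
      rw [S2_zero] at this
      linarith
    have e : (fun y => S2 lam (ξ y) * sin (2 * y) * sq1 p y) =
        fun y => (-S2 lam (ξ y) * sq1 p y) * -sin (2 * y) := by
      funext y; ring
    rw [e] at i2 ⊢
    refine mw_tail0 (w := fun y => -S2 lam (ξ y) * sq1 p y) (k := fun y => -sin (2 * y)) hcI.2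
      (fun u hu v hv huv => ?_) (fun y hy => mul_nonneg (hn y hy) (s0 y))
      (Continuous.intervalIntegrable (by fun_prop) _ _) i2 fun y _ => ?_
    · have hu' : u ∈ Ico t π := ⟨hc.1.trans hu.1.le, hu.2⟩
      have hv' : v ∈ Ico t π := ⟨hc.1.trans hv.1.le, hv.2⟩
      exact mul_le_mul (neg_le_neg (S2_mono hl
        (A.anti' (Ico_subset_Icc_self hu') (Ico_subset_Icc_self hv') huv)))
        (A.sq1_mono hu' hv' huv) (s0 u) (hn v hv)
    · have hd : ∀ s ∈ uIcc y π, HasDerivAt (fun s => cos (2 * s) / 2) (-sin (2 * s)) s := by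
        intro s _
        have h := (((hasDerivAt_id s).const_mul 2).cos).div_const 2
        refine h.congr_deriv ?_
        simp only [id]
        ring
      rw [intervalIntegral.integral_eq_sub_of_hasDerivAt hd
        (Continuous.intervalIntegrable (by fun_prop) _ _), cos_two_pi]
      linarith [cos_le_one (2 * y)]

end Pool.Agent.L2Q
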