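import Pool.Agent.P.MP_2f6447_an.Q.Wallf
import Pool.Agent.P.MP_2f6447_an.Q.KA
import Pool.Agent.P.MP_2f6447_an.Q.KB
import Pool.Agent.P.MP_2f6447_an.Q.Num
import Pool.Agent.P.MP_2f6447_an.Q.FlipX
import Pool.Agent.P.MP_2f6447_an.Q.FlipY

/-! Junction and point inequalities. j0, j1 at x = r 0 (gb = 1 by wB.right): wall_le, rep12; the left arc lies left of x (l ≤ xL ≤ r 0 by Sz), so its Ret vanishes (Ret_zero) and KB applies with distances r 0 - l 0 ≥ a, r 0 - l π ≥ b (≥ a in j1 since r π < r 0).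
j0: KA0, Ret_zero. j1: if r (π/2) < r 0 KAV, else KA1 with η = 0.135 - Ret. je: apply j0, j1 to h, h.flipY, h.flipX, h.flipX.flipY (UU_flipY, VV_flipY, UU_neg, VV_neg, quad1, quad2); bf, bg ≥ 0.
point_R for gb: wall_le with KA0, KB, am1_eq, am2_eq; for gt flipY; point_L: flipX. -/

open Set MeasureTheory Filter Topology Real
open scoped ComplexConjugate

namespace Pool.Agent.L2Q

open Pool.Agent.L2K

variable {Ω : Set ℂ} {lam nT nB m a b x y : ℝ} {u : ℂ → ℝ} {G : ℂ → ℂ} {l r : ℝ → ℝ} {j : ℕ}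

theorem QD.j0 (h : QD Ω lam u G l r nT nB) (s : Sz l r a b) (hm : 2.236 ≤ m) (hm' : m ≤ mm lam 3) (h1 : r 0 ≤ r π) :
    1 - (0.012 + bf m a + bg m b) ≤ UU lam r (r 0) + 2 * VV lam r (r 0) := by sorry

theorem QD.j1 (h : QD Ω lam u G l r nT nB) (s : Sz l r a b) (hm : 2.236 ≤ m) (hm' : m ≤ mm lam 3) (h1 : r π < r 0) :
    0 ≤ VV lam r (r 0) ∨ 1 - (0.135 + bf m a + bg m a) ≤ UU lam r (r 0) + 2 * VV lam r (r 0) := by sorry

theorem QD.je (h : QD Ω lam u G l r nT nB) (s : Sz l r a b) (hm : 2.236 ≤ m) (hm' : m ≤ mm lam 3) {e0 e : ℝ}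
    (h0 : 0.012 + bf m a + bg m b ≤ e0) (h1 : e0 ≤ e) (h2 : 0.135 + bf m a + bg m a ≤ e) :
    JE (UU lam r) (VV lam r) l r e0 e := by sorry

theorem QD.point_R (h : QD Ω lam u G l r nT nB) (hm : 2.236 ≤ m) (hm' : m ≤ mm lam 3) (hx : x ∈ Icc (xL l) (xR r))
    (ha : 0 < a) (h1 : a ≤ x - xL l) :
    gb G x ≤ UU lam r x + 2 * |VV lam r x| + 0.012 + bR m a ∧
      gt G x ≤ UU lam r x + 2 * |VV lam r x| + 0.012 + bR m a := by sorry

theorem QD.point_L (h : QD Ω lam u G l r nT nB) (hm : 2.236 ≤ m) (hm' : m ≤ mm lam 3) (hx : x ∈ Icc (xL l) (xR r))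
    (ha : 0 < a) (h1 : a ≤ xR r - x) :
    -gb G x ≤ -UU lam r x + 2 * |VV lam r x| + 0.012 + bR m a ∧
      -gt G x ≤ -UU lam r x + 2 * |VV lam r x| + 0.012 + bR m a := by sorry

end Pool.Agent.L2Q
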