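import Pool.Agent.P.MP_2f6447_an.Q.Piece
import Pool.Agent.P.MP_2f6447_an.Q.Hat1

/-! Core of the lower bound for the own arc. -/

open Set MeasureTheory Filter Topology Real

namespace Pool.Agent.L2Q

open Pool.Agent.L2K

variable {lam q ρ y t a b c m : ℝ} {j : ℕ} {ξ p : ℝ → ℝ}

/-- the retarded terms -/
noncomputable def KAc_r (lam : ℝ) (ξ : ℝ → ℝ) (y : ℝ) : ℝ :=
  S1 lam (max (-ξ y) 0) * sin y + 2 * (S2 lam (max (-ξ y) 0) * sin (2 * y))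

/-- the kernel along the arc -/
noncomputable def KAc_k (lam q : ℝ) (ξ : ℝ → ℝ) (y : ℝ) : ℝ :=
  Gh lam q |ξ y| y - 2 * KAc_r lam ξ y

theorem KAc_cos (hy : 1.38 ≤ y) (hπ : y ≤ π) : cos y ≤ 0.19 := by
  have h1 : cos y ≤ cos 1.38 := cos_le_cos_of_nonneg_of_le_pi (by norm_num) hπ hy
  have h2 : cos (1.38 : ℝ) = sin (π / 2 - 1.38) := (sin_pi_div_two_sub _).symm
  have h3 := pi_lt_d4
  have h4 := pi_gt_d2
  have h5 : sin (π / 2 - 1.38) ≤ sin 0.1908 :=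
    sin_le_sin_of_le_of_le_pi_div_two (by linarith) (by linarith) (by linarith)
  have h6 := Real.sin_bound (x := 0.1908) (by rw [abs_of_pos] <;> norm_num)
  rw [abs_of_pos (a := (0.1908 : ℝ)) (by norm_num)] at h6
  have h7 := (abs_le.1 h6).2
  norm_num at h7
  linarith

theorem KAc_ys : (1.38 : ℝ) < π / 2 := by linarith [pi_gt_d2]

theorem KAc_sub (ha : a ∈ Icc 0 π) (hb : b ∈ Icc 0 π) : uIcc a b ⊆ Icc 0 π :=
  uIcc_subset_Icc ha hb

theorem KAc_cont_r (A : Arc ξ p t) (lam : ℝ) : ContinuousOn (KAc_r lam ξ) (Icc 0 π) := by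
  have h1 : ContinuousOn (fun y => max (-ξ y) 0) (Icc 0 π) :=
    ContinuousOn.sup (f := fun y => -ξ y) (g := fun _ => (0 : ℝ)) A.cont.neg continuousOn_const
  have h2 := (continuous_S1 lam).comp_continuousOn h1
  have h3 := (continuous_S2 lam).comp_continuousOn h1
  exact (h2.mul continuous_sin.continuousOn).add (continuousOn_const.mul
    (h3.mul (continuous_sin.comp (continuous_const.mul continuous_id)).continuousOn))

theorem KAc_cont_G (A : Arc ξ p t) (h2 : 2 ≤ lam) (hl : lam < 4) (hq : q ∈ Ioo (0 : ℝ) 1) :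
    ContinuousOn (fun y => Gh lam q |ξ y| y) (Icc 0 π) :=
  contOn_Gh h2 hl hq (r := fun y => |ξ y|) A.cont.abs fun _ _ => abs_nonneg _

theorem KAc_cont (A : Arc ξ p t) (h2 : 2 ≤ lam) (hl : lam < 4) (hq : q ∈ Ioo (0 : ℝ) 1) :
    ContinuousOn (KAc_k lam q ξ) (Icc 0 π) :=
  (KAc_cont_G A h2 hl hq).sub (continuousOn_const.mul (KAc_cont_r A lam))

theorem KAc_ii (A : Arc ξ p t) (h2 : 2 ≤ lam) (hl : lam < 4) (hq : q ∈ Ioo (0 : ℝ) 1)
    (ha : a ∈ Icc 0 π) (hb : b ∈ Icc 0 π) : IntervalIntegrable (KAc_k lam q ξ) volume a b :=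
  ((KAc_cont A h2 hl hq).mono (KAc_sub ha hb)).intervalIntegrable

theorem KAc_ii_sq (A : Arc ξ p t) (h2 : 2 ≤ lam) (hl : lam < 4) (hq : q ∈ Ioo (0 : ℝ) 1)
    (ha : a ∈ Icc 0 π) (hb : b ∈ Icc 0 π) :
    IntervalIntegrable (fun y => KAc_k lam q ξ y * sq1 p y) volume a b :=
  A.ii_mul ha hb ((KAc_cont A h2 hl hq).mono (KAc_sub ha hb))

theorem KAc_total (A : Arc ξ p t) (h2 : 2 ≤ lam) (hl : lam < 4) (hq : q ∈ Ioo (0 : ℝ) 1) :
    π * (KI lam ξ p q - Ret lam ξ p) = ∫ y in (0 : ℝ)..π, KAc_k lam q ξ y * sq1 p y := by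
  have m0 : (0 : ℝ) ∈ Icc 0 π := left_mem_Icc.2 pi_pos.le
  have m1 : π ∈ Icc 0 π := right_mem_Icc.2 pi_pos.le
  have i1 := A.ii_mul m0 m1 ((KAc_cont_G A h2 hl hq).mono (KAc_sub m0 m1))
  have i2 := A.ii_mul m0 m1 ((KAc_cont_r A lam).mono (KAc_sub m0 m1))
  have e1 : π * Ret lam ξ p = 2 * ∫ y in (0 : ℝ)..π, KAc_r lam ξ y * sq1 p y := by
    unfold Ret KAc_r
    have := pi_pos.ne'
    field_simp
  have e2 : (fun y => KAc_k lam q ξ y * sq1 p y) =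
      fun y => Gh lam q |ξ y| y * sq1 p y - 2 * (KAc_r lam ξ y * sq1 p y) := by
    funext y
    unfold KAc_k
    ring
  rw [mul_sub, A.KI_eq h2 hl hq, e1, e2, intervalIntegral.integral_sub i1 (i2.const_mul 2),
    intervalIntegral.integral_const_mul]

theorem KAc_pos (h : 0 ≤ ξ y) : KAc_k lam q ξ y = Gh lam q (ξ y) y := by
  unfold KAc_k KAc_r
  rw [max_eq_right (by linarith), S1_zero, S2_zero, abs_of_nonneg h]
  ring

theorem KAc_neg (h : ξ y ≤ 0) : KAc_k lam q ξ y = Gh lam q (-ξ y) y +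
    (-(2 * (S1 lam (-ξ y) * sin y)) - 4 * (S2 lam (-ξ y) * sin (2 * y))) := by
  unfold KAc_k KAc_r
  rw [max_eq_left (by linarith), abs_of_nonpos h]
  ring

theorem KAc_rise (A : Arc ξ p t) (h2 : 2 ≤ lam) (hl : lam < 4) (hq : q ∈ Ioo (0 : ℝ) 1)
    (h0 : 0 ≤ ξ 0) : P0 lam q (ξ t) t ≤ ∫ y in (0 : ℝ)..t, KAc_k lam q ξ y * sq1 p y := by
  refine (A.rise_ge h2 hl hq h0).trans_eq (intervalIntegral.integral_congr fun y hy => ?_)
  rw [uIcc_of_le A.tmem.1.le] at hy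
  have h1 : 0 ≤ ξ y := h0.trans (A.mono (left_mem_Icc.2 A.tmem.1.le) hy hy.1)
  rw [KAc_pos h1, abs_of_nonneg h1]

theorem KAc_exists (A : Arc ξ p t) (h0 : 0 ≤ ξ 0) (h1 : 0 ≤ ξ (π / 2)) :
    ∃ c, t ≤ c ∧ π / 2 ≤ c ∧ c ≤ π ∧ (∀ y ∈ Icc t c, 0 ≤ ξ y) ∧
      (c = π ∨ (ξ c = 0 ∧ ∀ y ∈ Icc c π, ξ y ≤ 0)) := by
  have ht := A.tmem
  have hπ := pi_pos
  by_cases h : 0 ≤ ξ π
  · exact ⟨π, ht.2.le, by linarith, le_rfl,
      fun y hy => h.trans (A.anti' hy (right_mem_Icc.2 ht.2.le) hy.2), Or.inl rfl⟩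
  · push Not at h
    have hd : max t (π / 2) ≤ π := max_le ht.2.le (by linarith)
    have hd0 : 0 ≤ ξ (max t (π / 2)) := by
      rcases le_total t (π / 2) with h3 | h3
      · rwa [max_eq_right h3]
      · rw [max_eq_left h3]
        exact h0.trans (A.mono (left_mem_Icc.2 ht.1.le) (right_mem_Icc.2 ht.1.le) ht.1.le)
    have hc : ContinuousOn ξ (Icc (max t (π / 2)) π) :=
      A.cont.mono (Icc_subset_Icc_left (ht.1.le.trans (le_max_left _ _)))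
    obtain ⟨c, hc1, hc2⟩ := intermediate_value_Icc' hd hc ⟨h.le, hd0⟩
    have htc : t ≤ c := (le_max_left _ _).trans hc1.1
    refine ⟨c, htc, (le_max_right _ _).trans hc1.1, hc1.2, fun y hy => ?_,
      Or.inr ⟨hc2, fun y hy => ?_⟩⟩
    · rw [← hc2]
      exact A.anti' ⟨hy.1, hy.2.trans hc1.2⟩ ⟨htc, hc1.2⟩ hy.2
    · rw [← hc2]
      exact A.anti' ⟨htc, hc1.2⟩ ⟨htc.trans hy.1, hy.2⟩ hy.1

theorem KAc_parts (A : Arc ξ p t) (h2 : 2 ≤ lam) (hl : lam < 4) (hy : y ∈ Icc 0 π) :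
    ∫ s in y..π, (-(2 * (S1 lam (-ξ s) * sin s)) - 4 * (S2 lam (-ξ s) * sin (2 * s))) =
      -(2 * (S1 lam (-ξ y) * (1 + cos y)) - 4 * (S2 lam (-ξ y) * sin y ^ 2)) -
        ∫ s in y..π, (4 * (cosh (mm lam 2 * -ξ s) * sin s ^ 2) -
          2 * (cos (mu lam * -ξ s) * (1 + cos s))) * p s := by
  have m1 : π ∈ Icc 0 π := right_mem_Icc.2 pi_pos.le
  have hs : Icc y π ⊆ Icc 0 π := Icc_subset_Icc_left hy.1
  have c0 : ContinuousOn (fun s => -ξ s) (Icc y π) := (A.cont.mono hs).neg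
  have c1 : ContinuousOn (fun s => S1 lam (-ξ s)) (Icc y π) :=
    (continuous_S1 lam).comp_continuousOn c0
  have c2 : ContinuousOn (fun s => S2 lam (-ξ s)) (Icc y π) :=
    (continuous_S2 lam).comp_continuousOn c0
  have c3 : ContinuousOn (fun s => -(2 * (S1 lam (-ξ s) * sin s)) -
      4 * (S2 lam (-ξ s) * sin (2 * s))) (Icc y π) := by fun_prop
  have c4 : ContinuousOn (fun s => 4 * (cosh (mm lam 2 * -ξ s) * sin s ^ 2) -
      2 * (cos (mu lam * -ξ s) * (1 + cos s))) (Icc y π) := by fun_prop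
  have i3 : IntervalIntegrable (fun s => -(2 * (S1 lam (-ξ s) * sin s)) -
      4 * (S2 lam (-ξ s) * sin (2 * s))) volume y π :=
    ContinuousOn.intervalIntegrable (by rwa [uIcc_of_le hy.2])
  have i4 := A.ii_mul_p hy m1 (by rw [uIcc_of_le hy.2]; exact c4)
  have key := intervalIntegral.integral_eq_sub_of_hasDerivAt_of_le hy.2
    (f := fun s => 2 * (S1 lam (-ξ s) * (1 + cos s)) - 4 * (S2 lam (-ξ s) * sin s ^ 2))
    (f' := fun s => (-(2 * (S1 lam (-ξ s) * sin s)) - 4 * (S2 lam (-ξ s) * sin (2 * s))) +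
      (4 * (cosh (mm lam 2 * -ξ s) * sin s ^ 2) -
        2 * (cos (mu lam * -ξ s) * (1 + cos s))) * p s)
    (by fun_prop) (fun s hs' => by
      have d0 : HasDerivAt (fun s => -ξ s) (-p s) s :=
        (A.der s ⟨hy.1.trans_lt hs'.1, hs'.2⟩).neg
      have d1 := (hasDerivAt_S1 h2 (-ξ s)).comp s d0
      have d2 := (hasDerivAt_S2 hl (-ξ s)).comp s d0
      have d3 := ((d1.mul ((hasDerivAt_cos s).const_add 1)).const_mul 2).sub
        ((d2.mul ((hasDerivAt_sin s).pow 2)).const_mul 4)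
      refine (d3.congr_deriv ?_).congr_of_eventuallyEq (Eventually.of_forall fun x => rfl)
      simp only [Function.comp_apply, Pi.pow_apply]
      rw [sin_two_mul]
      push_cast
      ring) (i3.add i4)
  rw [intervalIntegral.integral_add i3 i4] at key
  simp only [cos_pi, sin_pi] at key
  linarith

theorem KAc_tail1 (A : Arc ξ p t) (h2 : 2 ≤ lam) (hl : lam < 4) (hq : q ∈ Ioo (0 : ℝ) 1)
    (hty : t ≤ y) (hy : π / 2 ≤ y) (hπ : y ≤ π) (hn : ∀ s ∈ Icc y π, ξ s ≤ 0) :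
    Ph lam q (-ξ y) y ≤ ∫ s in y..π, KAc_k lam q ξ s := by
  have m0 : y ∈ Icc 0 π := ⟨A.tmem.1.le.trans hty, hπ⟩
  have m1 : π ∈ Icc 0 π := right_mem_Icc.2 pi_pos.le
  have hs : Icc y π ⊆ Icc 0 π := Icc_subset_Icc_left m0.1
  have c0 : ContinuousOn (fun s => -ξ s) (Icc y π) := (A.cont.mono hs).neg
  have n0 : ∀ s ∈ Icc y π, 0 ≤ -ξ s := fun s h => neg_nonneg.2 (hn s h)
  have ip : IntervalIntegrable p volume y π := A.ii_p.mono_set (by
    rw [uIcc_of_le hπ, uIcc_of_le pi_pos.le]; exact hs)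
  have f1 := ftc_Ph h2 hl hq (r := fun s => -ξ s) (r' := fun s => -p s) hπ c0 n0
    (fun s h => (A.der s ⟨m0.1.trans_lt h.1, h.2⟩).neg) ip.neg
  have c1 : ContinuousOn (fun s => S1 lam (-ξ s)) (Icc y π) :=
    (continuous_S1 lam).comp_continuousOn c0
  have c2 : ContinuousOn (fun s => S2 lam (-ξ s)) (Icc y π) :=
    (continuous_S2 lam).comp_continuousOn c0
  have c3 : ContinuousOn (fun s => -(2 * (S1 lam (-ξ s) * sin s)) -
      4 * (S2 lam (-ξ s) * sin (2 * s))) (Icc y π) := by fun_prop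
  have c4 : ContinuousOn (fun s => 4 * (cosh (mm lam 2 * -ξ s) * sin s ^ 2) -
      2 * (cos (mu lam * -ξ s) * (1 + cos s))) (Icc y π) := by fun_prop
  have cG := contOn_Gh h2 hl hq c0 n0
  have cF := contOn_Fh h2 hl hq c0 n0
  have i3 : IntervalIntegrable (fun s => -(2 * (S1 lam (-ξ s) * sin s)) -
      4 * (S2 lam (-ξ s) * sin (2 * s))) volume y π :=
    ContinuousOn.intervalIntegrable (by rwa [uIcc_of_le hπ])
  have iG : IntervalIntegrable (fun s => Gh lam q (-ξ s) s) volume y π :=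
    ContinuousOn.intervalIntegrable (by rwa [uIcc_of_le hπ])
  have i4 := A.ii_mul_p m0 m1 (by rw [uIcc_of_le hπ]; exact c4)
  have iF := A.ii_mul_p m0 m1 (by rw [uIcc_of_le hπ]; exact cF)
  have e1 : ∫ s in y..π, KAc_k lam q ξ s = (∫ s in y..π, Gh lam q (-ξ s) s) +
      ∫ s in y..π, (-(2 * (S1 lam (-ξ s) * sin s)) - 4 * (S2 lam (-ξ s) * sin (2 * s))) := by
    rw [← intervalIntegral.integral_add iG i3]
    refine intervalIntegral.integral_congr fun s h => ?_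
    rw [uIcc_of_le hπ] at h
    exact KAc_neg (hn s h)
  have e2 : ∫ s in y..π, Fh lam q (-ξ s) s * -p s = -∫ s in y..π, Fh lam q (-ξ s) s * p s := by
    rw [← intervalIntegral.integral_neg]
    refine intervalIntegral.integral_congr fun s _ => ?_
    ring
  have hcos : ∀ s ∈ Icc y π, cos s ≤ 0 := fun s h =>
    cos_nonpos_of_pi_div_two_le_of_le (hy.trans h.1) (by linarith [h.2, pi_pos])
  have e3 : ∫ s in y..π, (4 * (cosh (mm lam 2 * -ξ s) * sin s ^ 2) -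
      2 * (cos (mu lam * -ξ s) * (1 + cos s))) * p s ≤ ∫ s in y..π, Fh lam q (-ξ s) s * p s := by
    refine intervalIntegral.integral_mono_on_of_le_Ioo hπ i4 iF fun s h => ?_
    have h' : s ∈ Icc y π := Ioo_subset_Icc_self h
    refine mul_le_mul_of_nonpos_right ?_ (A.p_nonpos ⟨hty.trans h.1.le, h.2⟩)
    refine (Fh_le h2 hl hq (n0 s h') (hcos s h')).trans ?_
    have a1 := one_le_cosh (mm lam 2 * -ξ s)
    have a2 := cos_le_one (mu lam * -ξ s)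
    have a3 := neg_one_le_cos s
    have a4 := sin_sq s
    have a5 : sin s ^ 2 ≤ cosh (mm lam 2 * -ξ s) * sin s ^ 2 :=
      le_mul_of_one_le_left (sq_nonneg _) a1
    have a6 : cos (mu lam * -ξ s) * (1 + cos s) ≤ 1 + cos s :=
      mul_le_of_le_one_left (by linarith) a2
    nlinarith
  have e4 : 2 * (S1 lam (-ξ y) * (1 + cos y)) - 4 * (S2 lam (-ξ y) * sin y ^ 2) ≤ 0 := by
    have my : y ∈ Icc y π := left_mem_Icc.2 hπ
    have a0 := n0 y my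
    have a1 : S1 lam (-ξ y) ≤ -ξ y :=
      (le_abs_self _).trans ((abs_S1_le h2 _).trans_eq (abs_of_nonneg a0))
    have a2 := le_S2 hl a0
    have a3 := neg_one_le_cos y
    have a4 := hcos y my
    have a5 : 1 + cos y ≤ sin y ^ 2 := by rw [sin_sq]; nlinarith
    have a6 : S1 lam (-ξ y) * (1 + cos y) ≤ -ξ y * (1 + cos y) :=
      mul_le_mul_of_nonneg_right a1 (by linarith)
    have a7 : -ξ y * (1 + cos y) ≤ S2 lam (-ξ y) * sin y ^ 2 :=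
      mul_le_mul a2 a5 (by linarith) (a0.trans a2)
    have a8 : 0 ≤ -ξ y * (1 + cos y) := mul_nonneg a0 (by linarith)
    linarith
  rw [e1, KAc_parts A h2 hl m0, f1, e2, Ph_pi]
  linarith

theorem KAc_mid (A : Arc ξ p t) (h2 : 2 ≤ lam) (hl : lam < 4) (hq : q ∈ Ioo (0 : ℝ) 1)
    (hta : t ≤ a) (hab : a ≤ b) (hb : b ≤ π) (hn : ∀ s ∈ Icc a b, 0 ≤ ξ s) :
    ∫ s in a..b, KAc_k lam q ξ s =
      Ph lam q (ξ a) a - Ph lam q (ξ b) b - ∫ s in a..b, Fh lam q (ξ s) s * p s := by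
  have ha0 : 0 ≤ a := A.tmem.1.le.trans hta
  have hs : Icc a b ⊆ Icc 0 π := Icc_subset_Icc ha0 hb
  have ip : IntervalIntegrable p volume a b := A.ii_p.mono_set (by
    rw [uIcc_of_le hab, uIcc_of_le pi_pos.le]; exact hs)
  rw [← ftc_Ph h2 hl hq hab (A.cont.mono hs) hn
    (fun s h => A.der s ⟨ha0.trans_lt h.1, h.2.trans_le hb⟩) ip]
  refine intervalIntegral.integral_congr fun s h => ?_
  rw [uIcc_of_le hab] at h
  exact KAc_pos (hn s h)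

theorem KAc_F1 (A : Arc ξ p t) (h2 : 2 ≤ lam) (hl : lam < 4) (hq : q ∈ Ioo (0 : ℝ) 1)
    (hta : t ≤ a) (hab : a ≤ b) (hb : b ≤ π) (hn : ∀ s ∈ Icc a b, 0 ≤ ξ s) (ha : 1.38 ≤ a) :
    ∫ s in a..b, Fh lam q (ξ s) s * p s ≤ 0 := by
  have ha0 : 0 ≤ a := A.tmem.1.le.trans hta
  have hs : Icc a b ⊆ Icc 0 π := Icc_subset_Icc ha0 hb
  have iF := A.ii_mul_p ⟨ha0, hab.trans hb⟩ ⟨ha0.trans hab, hb⟩
    (by rw [uIcc_of_le hab]; exact contOn_Fh h2 hl hq (A.cont.mono hs) hn)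
  have h := intervalIntegral.integral_mono_on_of_le_Ioo hab iF
    (intervalIntegrable_const (c := (0 : ℝ))) fun s h =>
      mul_nonpos_of_nonneg_of_nonpos
        (Fh_nonneg h2 hl hq (hn s (Ioo_subset_Icc_self h))
          (KAc_cos (ha.trans h.1.le) (h.2.le.trans hb)))
        (A.p_nonpos ⟨hta.trans h.1.le, h.2.trans_le hb⟩)
  simpa using h

theorem KAc_F2 (A : Arc ξ p t) (h2 : 2 ≤ lam) (hl : lam < 4) (hq : q ∈ Ioo (0 : ℝ) 1)
    (hta : t ≤ a) (hab : a ≤ b) (hb : b ≤ π) (hn : ∀ s ∈ Icc a b, 0 ≤ ξ s) :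
    ∫ s in a..b, Fh lam q (ξ s) s * p s ≤
      2 * q ^ 4 * ee lam 4 (ξ b) / mm lam 4 - 2 * q ^ 4 * ee lam 4 (ξ a) / mm lam 4 := by
  have ha0 : 0 ≤ a := A.tmem.1.le.trans hta
  have hs : Icc a b ⊆ Icc 0 π := Icc_subset_Icc ha0 hb
  have ma : a ∈ Icc 0 π := ⟨ha0, hab.trans hb⟩
  have mb : b ∈ Icc 0 π := ⟨ha0.trans hab, hb⟩
  have hm : 0 < mm lam 4 := mm_pos hl (by norm_num)
  have iF := A.ii_mul_p ma mb
    (by rw [uIcc_of_le hab]; exact contOn_Fh h2 hl hq (A.cont.mono hs) hn)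
  have cD : Continuous fun s => -(2 * q ^ 4 * ee lam 4 s) :=
    (continuous_const.mul (continuous_ee lam 4)).neg
  have iD := A.ii_mul_p ma mb (f := fun s => -(2 * q ^ 4 * ee lam 4 (ξ s)))
    (by rw [uIcc_of_le hab]; exact cD.comp_continuousOn (A.cont.mono hs))
  have e := A.ftc_comp (Φ := fun s => 2 * q ^ 4 * ee lam 4 s / mm lam 4)
    (D := fun s => -(2 * q ^ 4 * ee lam 4 s)) (fun s => by
      refine (((hasDerivAt_ee lam 4 s).const_mul (2 * q ^ 4)).div_const (mm lam 4)).congr_deriv ?_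
      field_simp) cD ma mb
  rw [← e]
  exact intervalIntegral.integral_mono_on_of_le_Ioo hab iF iD fun s h =>
    mul_le_mul_of_nonpos_right (Fh_ge h2 hl hq (hn s (Ioo_subset_Icc_self h)) s)
      (A.p_nonpos ⟨hta.trans h.1.le, h.2.trans_le hb⟩)

theorem KAc_tails (A : Arc ξ p t) (h2 : 2 ≤ lam) (hl : lam < 4) (hq : q ∈ Ioo (0 : ℝ) 1)
    (h0 : 0 ≤ ξ 0) (h1 : 0 ≤ ξ (π / 2)) :
    (∀ y ∈ Icc t π, 1.38 ≤ y → 0 ≤ ∫ s in y..π, KAc_k lam q ξ s) ∧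
    (1.38 ≤ t → Ph lam q (ξ t) t ≤ ∫ s in t..π, KAc_k lam q ξ s) ∧
    (∀ y ∈ Icc t 1.38, -(2 * q ^ 4 * ee lam 4 (ξ 1.38) / mm lam 4) ≤
      ∫ s in y..π, KAc_k lam q ξ s) ∧
    (t ≤ 1.38 → Ph lam q (ξ t) t - 2 * q ^ 4 * ee lam 4 (ξ 1.38) / mm lam 4 ≤
      ∫ s in t..π, KAc_k lam q ξ s) := by
  obtain ⟨c, htc, hc2, hcπ, hpos, hc⟩ := KAc_exists A h0 h1
  have ht0 := A.tmem.1.le
  have m1 : π ∈ Icc 0 π := right_mem_Icc.2 pi_pos.le
  have hys := KAc_ys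
  have hm : 0 < mm lam 4 := mm_pos hl (by norm_num)
  have tc : Ph lam q (ξ c) c ≤ ∫ s in c..π, KAc_k lam q ξ s := by
    rcases hc with hc | ⟨hc, hn⟩
    · rw [hc, Ph_pi, intervalIntegral.integral_same]
    · have h3 := KAc_tail1 A h2 hl hq htc hc2 hcπ hn
      rw [hc] at h3 ⊢
      rwa [neg_zero] at h3
  have t1 : ∀ y ∈ Icc c π, 0 ≤ ∫ s in y..π, KAc_k lam q ξ s := by
    intro y hy
    rcases hc with hc | ⟨-, hn⟩
    · have h3 : y = π := le_antisymm hy.2 (hc ▸ hy.1)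
      rw [h3, intervalIntegral.integral_same]
    · refine le_trans ?_ (KAc_tail1 A h2 hl hq (htc.trans hy.1) (hc2.trans hy.1) hy.2
        fun s hs => hn s ⟨hy.1.trans hs.1, hs.2⟩)
      exact Ph_nonneg h2 hl hq (neg_nonneg.2 (hn y hy))
        (KAc_cos (by linarith [hy.1]) hy.2)
  have t2 : ∀ y ∈ Icc t c, 1.38 ≤ y → Ph lam q (ξ y) y ≤ ∫ s in y..π, KAc_k lam q ξ s := by
    intro y hy hy'
    have my : y ∈ Icc 0 π := ⟨ht0.trans hy.1, hy.2.trans hcπ⟩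
    have mc : c ∈ Icc 0 π := ⟨ht0.trans htc, hcπ⟩
    have hn : ∀ s ∈ Icc y c, 0 ≤ ξ s := fun s hs => hpos s ⟨hy.1.trans hs.1, hs.2⟩
    have e := intervalIntegral.integral_add_adjacent_intervals (KAc_ii A h2 hl hq my mc)
      (KAc_ii A h2 hl hq mc m1)
    have e1 := KAc_mid A h2 hl hq hy.1 hy.2 hcπ hn
    have e2 := KAc_F1 A h2 hl hq hy.1 hy.2 hcπ hn hy'
    linarith
  have t3 : ∀ y ∈ Icc t 1.38, Ph lam q (ξ y) y + 2 * q ^ 4 * ee lam 4 (ξ y) / mm lam 4 -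
      2 * q ^ 4 * ee lam 4 (ξ 1.38) / mm lam 4 ≤ ∫ s in y..π, KAc_k lam q ξ s := by
    intro y hy
    have hsc : (1.38 : ℝ) ≤ c := by linarith
    have my : y ∈ Icc 0 π := ⟨ht0.trans hy.1, hy.2.trans (hsc.trans hcπ)⟩
    have ms : (1.38 : ℝ) ∈ Icc 0 π := ⟨by norm_num, hsc.trans hcπ⟩
    have hn : ∀ s ∈ Icc y 1.38, 0 ≤ ξ s := fun s hs => hpos s ⟨hy.1.trans hs.1, hs.2.trans hsc⟩
    have e := intervalIntegral.integral_add_adjacent_intervals (KAc_ii A h2 hl hq my ms)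
      (KAc_ii A h2 hl hq ms m1)
    have e1 := KAc_mid A h2 hl hq hy.1 hy.2 ms.2 hn
    have e2 := KAc_F2 A h2 hl hq hy.1 hy.2 ms.2 hn
    have e3 := t2 1.38 ⟨hy.1.trans hy.2, hsc⟩ le_rfl
    linarith
  refine ⟨fun y hy hy' => ?_, fun h => t2 t ⟨le_rfl, htc⟩ h, fun y hy => ?_, fun h => ?_⟩
  · rcases le_total y c with h3 | h3
    · exact (Ph_nonneg h2 hl hq (hpos y ⟨hy.1, h3⟩) (KAc_cos hy' hy.2)).trans
        (t2 y ⟨hy.1, h3⟩ hy')
    · exact t1 y ⟨h3, hy.2⟩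
  · have e1 := t3 y hy
    have e2 := Ph_ge h2 hl hq (hpos y ⟨hy.1, by linarith [hy.2]⟩) y
    linarith
  · have e1 := t3 t ⟨le_rfl, h⟩
    have e2 : 0 ≤ 2 * q ^ 4 * ee lam 4 (ξ t) / mm lam 4 := by
      have := ee_pos lam 4 (ξ t)
      positivity
    linarith

theorem KAc_split (A : Arc ξ p t) (h2 : 2 ≤ lam) (hl : lam < 4) (hq : q ∈ Ioo (0 : ℝ) 1)
    (ha : a ∈ Icc 0 π) (hb : b ∈ Icc 0 π) (s : ℝ) :
    IntervalIntegrable (fun y => (sq1 p y - s) * KAc_k lam q ξ y) volume a b ∧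
    ∫ y in a..b, KAc_k lam q ξ y * sq1 p y =
      s * (∫ y in a..b, KAc_k lam q ξ y) + ∫ y in a..b, (sq1 p y - s) * KAc_k lam q ξ y := by
  have i1 := KAc_ii_sq A h2 hl hq ha hb
  have i2 := (KAc_ii A h2 hl hq ha hb).const_mul s
  have e : (fun y => (sq1 p y - s) * KAc_k lam q ξ y) =
      fun y => KAc_k lam q ξ y * sq1 p y - s * KAc_k lam q ξ y := by
    funext y
    ring
  rw [e]
  refine ⟨i1.sub i2, ?_⟩
  rw [intervalIntegral.integral_sub i1 i2, intervalIntegral.integral_const_mul]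
  ring

theorem KAc_weight (A : Arc ξ p t) (h2 : 2 ≤ lam) (hl : lam < 4) (hq : q ∈ Ioo (0 : ℝ) 1)
    (hta : t ≤ a) (ha : a ≤ π) {s : ℝ} (hs : ∀ y ∈ Ioo a π, s ≤ sq1 p y)
    (hT : ∀ y ∈ Icc a π, 0 ≤ ∫ x in y..π, KAc_k lam q ξ x) :
    s * ∫ y in a..π, KAc_k lam q ξ y ≤ ∫ y in a..π, KAc_k lam q ξ y * sq1 p y := by
  have ma : a ∈ Icc 0 π := ⟨A.tmem.1.le.trans hta, ha⟩
  have m1 : π ∈ Icc 0 π := right_mem_Icc.2 pi_pos.le
  obtain ⟨i1, e1⟩ := KAc_split A h2 hl hq ma m1 s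
  have h3 := mw_tail0 (w := fun y => sq1 p y - s) ha
    (fun x hx y hy hxy => sub_le_sub_right
      (A.sq1_mono ⟨hta.trans hx.1.le, hx.2⟩ ⟨hta.trans hy.1.le, hy.2⟩ hxy) s)
    (fun y hy => sub_nonneg.2 (hs y hy)) (KAc_ii A h2 hl hq ma m1) i1 hT
  linarith

theorem Arc.KA_core (A : Arc ξ p t) (h2 : 2 ≤ lam) (hl : lam < 4) (hq : q ∈ Ioo (0 : ℝ) 1)
    (h0 : 0 ≤ ξ 0) (h1 : 0 ≤ ξ (π / 2)) :
    (1.38 ≤ t → 0 ≤ KI lam ξ p q - Ret lam ξ p) ∧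
    (t < 1.38 → 2 * q ^ 3 * ee lam 3 (ξ t) / mm lam 3 -
      sq1 p 1.38 * (2 * q ^ 4 * ee lam 4 (ξ 1.38) / mm lam 4) ≤
        π * (KI lam ξ p q - Ret lam ξ p)) := by
  obtain ⟨T1, T2, T3, T4⟩ := KAc_tails A h2 hl hq h0 h1
  have ht := A.tmem
  have m0 : (0 : ℝ) ∈ Icc 0 π := left_mem_Icc.2 pi_pos.le
  have m1 : π ∈ Icc 0 π := right_mem_Icc.2 pi_pos.le
  have mt : t ∈ Icc 0 π := Ioo_subset_Icc_self ht
  have e0 := KAc_total A h2 hl hq
  have e1 := intervalIntegral.integral_add_adjacent_intervals (KAc_ii_sq A h2 hl hq m0 mt)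
    (KAc_ii_sq A h2 hl hq mt m1)
  have e2 := KAc_rise A h2 hl hq h0
  have hξ : 0 ≤ ξ t :=
    h0.trans (A.mono (left_mem_Icc.2 ht.1.le) (right_mem_Icc.2 ht.1.le) ht.1.le)
  have e3 := P0_add_Ph h2 hl hq hξ t
  refine ⟨fun h => ?_, fun h => ?_⟩
  · have e4 := KAc_weight A h2 hl hq le_rfl ht.2.le (s := 1) (fun y _ => one_le_sq1 p y)
      fun y hy => T1 y hy (h.trans hy.1)
    have e5 := T2 h
    have e6 : 0 ≤ 2 * q ^ 3 * ee lam 3 (ξ t) / mm lam 3 := by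
      have := ee_pos lam 3 (ξ t)
      have := mm_nonneg lam 3
      have := hq.1
      positivity
    have e7 : 0 ≤ π * (KI lam ξ p q - Ret lam ξ p) := by linarith
    exact (mul_nonneg_iff_of_pos_left pi_pos).1 e7
  · have hsπ : (1.38 : ℝ) < π := by linarith [KAc_ys, pi_pos]
    have ms : (1.38 : ℝ) ∈ Icc 0 π := ⟨by norm_num, hsπ.le⟩
    have e4 := KAc_weight A h2 hl hq h.le hsπ.le (s := sq1 p 1.38)
      (fun y hy => A.sq1_mono ⟨h.le, hsπ⟩ ⟨h.le.trans hy.1.le, hy.2⟩ hy.1.le)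
      fun y hy => T1 y ⟨h.le.trans hy.1, hy.2⟩ hy.1
    have e5 := intervalIntegral.integral_add_adjacent_intervals (KAc_ii_sq A h2 hl hq mt ms)
      (KAc_ii_sq A h2 hl hq ms m1)
    have e6 := intervalIntegral.integral_add_adjacent_intervals (KAc_ii A h2 hl hq mt ms)
      (KAc_ii A h2 hl hq ms m1)
    obtain ⟨-, e7⟩ := KAc_split A h2 hl hq mt ms 1
    have hβ : 0 ≤ 2 * q ^ 4 * ee lam 4 (ξ 1.38) / mm lam 4 := by
      have := ee_pos lam 4 (ξ 1.38)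
      have := mm_nonneg lam 4
      positivity
    have hT := T1 1.38 ⟨h.le, hsπ.le⟩ le_rfl
    have e8 := mw_tail (w := fun y => sq1 p y - 1) (k := KAc_k lam q ξ) (W := sq1 p 1.38 - 1)
      (β := 2 * q ^ 4 * ee lam 4 (ξ 1.38) / mm lam 4 + ∫ s in (1.38 : ℝ)..π, KAc_k lam q ξ s) h.le
      (fun x hx y hy hxy => sub_le_sub_right
        (A.sq1_mono ⟨hx.1.le, hx.2.trans hsπ⟩ ⟨hy.1.le, hy.2.trans hsπ⟩ hxy) 1)
      (fun y hy => ⟨sub_nonneg.2 (one_le_sq1 p y), sub_le_sub_right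
        (A.sq1_mono ⟨hy.1.le, hy.2.trans hsπ⟩ ⟨h.le, hsπ⟩ hy.2.le) 1⟩)
      (sub_nonneg.2 (one_le_sq1 p _)) (KAc_ii A h2 hl hq mt ms) (add_nonneg hβ hT)
      (fun y hy => by
        have my : y ∈ Icc 0 π := ⟨ht.1.le.trans hy.1, hy.2.trans hsπ.le⟩
        have a1 := intervalIntegral.integral_add_adjacent_intervals (KAc_ii A h2 hl hq my ms)
          (KAc_ii A h2 hl hq ms m1)
        have a2 := T3 y hy
        linarith)
    have e9 := T4 h.le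
    linarith

end Pool.Agent.L2Q
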