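import Pool.Agent.P.MP_2f6447_an.Q.Piece
import Pool.Agent.P.MP_2f6447_an.Q.Hat2

/-! General lower bound for an arc that starts at the point and crosses the vertical. -/

open Set MeasureTheory Filter Topology Real

namespace Pool.Agent.L2Q

open Pool.Agent.L2K

variable {lam q ρ y t a b c m : ℝ} {j : ℕ} {ξ p : ℝ → ℝ}

/-- primitive of `-D1` -/
noncomputable def PP1 (lam ρ : ℝ) : ℝ :=
  (0.47 + nu3 lam) * ee lam 3 ρ / mm lam 3 + ee lam 4 ρ / mm lam 4 + 0.55 * ee lam 10 ρ / mm lam 10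

theorem KCg_der (hl : lam < 4) (s : ℝ) : HasDerivAt (PP1 lam) (-D1 lam s) s := by
  have m3 := (mm_pos hl (j := 3) (by norm_num)).ne'
  have m4 := (mm_pos hl (j := 4) (by norm_num)).ne'
  have m10 := (mm_pos hl (j := 10) (by norm_num)).ne'
  have h := ((((hasDerivAt_ee lam 3 s).const_mul (0.47 + nu3 lam)).div_const (mm lam 3)).add
    ((hasDerivAt_ee lam 4 s).div_const (mm lam 4))).add
    (((hasDerivAt_ee lam 10 s).const_mul 0.55).div_const (mm lam 10))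
  refine HasDerivAt.congr_deriv (f := PP1 lam) h ?_
  unfold D1
  field_simp
  ring

theorem KCg_cont (lam : ℝ) : Continuous (D1 lam) := by
  have h3 := continuous_ee lam 3
  have h4 := continuous_ee lam 4
  have h10 := continuous_ee lam 10
  unfold D1
  fun_prop

theorem KCg_nonneg (h2 : 2 ≤ lam) (hl : lam < 4) (s : ℝ) : 0 ≤ PP1 lam s := by
  have m3 := mm_pos hl (j := 3) (by norm_num)
  have m4 := mm_pos hl (j := 4) (by norm_num)
  have m10 := mm_pos hl (j := 10) (by norm_num)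
  have e3 := ee_pos lam 3 s
  have e4 := ee_pos lam 4 s
  have e10 := ee_pos lam 10 s
  have n : 0 < 0.47 + nu3 lam := by linarith [(nu3_mem h2 hl).1]
  unfold PP1
  positivity

theorem KCg_anti (h2 : 2 ≤ lam) (hl : lam < 4) : Antitone (PP1 lam) := by
  intro a b hab
  have m3 := mm_pos hl (j := 3) (by norm_num)
  have m4 := mm_pos hl (j := 4) (by norm_num)
  have m10 := mm_pos hl (j := 10) (by norm_num)
  have e3 := ee_anti lam 3 hab
  have e4 := ee_anti lam 4 hab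
  have e10 := ee_anti lam 10 hab
  have n : 0 < 0.47 + nu3 lam := by linarith [(nu3_mem h2 hl).1]
  unfold PP1
  gcongr

theorem Arc.KC_gen (A : Arc ξ p t) (h2 : 2 ≤ lam) (hl : lam < 4) (hq : q ∈ Ioo (0 : ℝ) 1)
    (h0 : ξ 0 = 0) (htc : t ≤ c) (hc : c ≤ π) (hc0 : ξ c = 0) {Y ya T : ℝ} (hya : 0 < ya)
    (hY : ya ≤ Y) (hYc : Y ≤ c) (hT : 0 < T) {Φa Da Φl Dl : ℝ → ℝ}
    (hΦa : ∀ s, HasDerivAt Φa (-Da s) s) (hDa : Continuous Da)
    (hΦl : ∀ s, HasDerivAt Φl (-Dl s) s) (hDl : Continuous Dl) (hp : ∀ s, 0 ≤ s → 0 ≤ Φl s)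
    (ha : ∀ ρ, 0 ≤ ρ → ∀ y ∈ Icc ya π, -Fh lam q ρ y ≤ Da ρ ∧ -Fh lam q ρ y - Gh lam q ρ y ≤ Da ρ)
    (hb : ∀ ρ, 0 ≤ ρ → ∀ y ∈ Icc Y π, Fh lam q ρ y ≤ Dl ρ ∧ Fh lam q ρ y - Gh lam q ρ y ≤ Dl ρ) :
    -Φl 0 - max (PP1 lam 0 - PP1 lam T - 2 * q ^ 3 * ee lam 3 T / mm lam 3)
      (PP1 lam (T * (Y - ya) / Y) + Φa 0 - Φa (T * (Y - ya) / Y)) ≤ π * KI lam ξ p q := by
  have ht := A.tmem
  have htI : t ∈ Icc 0 π := ⟨ht.1.le, ht.2.le⟩
  have hcI : c ∈ Icc 0 π := ⟨ht.1.le.trans htc, hc⟩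
  have h0I : (0 : ℝ) ∈ Icc 0 π := ⟨le_rfl, pi_pos.le⟩
  have hπI : π ∈ Icc 0 π := ⟨pi_pos.le, le_rfl⟩
  have m3 := mm_pos hl (j := 3) (by norm_num)
  have hq0 := hq.1
  have pos : ∀ y ∈ Icc t c, 0 ≤ ξ y := fun y hy =>
    hc0 ▸ A.anti' ⟨hy.1, hy.2.trans hc⟩ ⟨htc, hc⟩ hy.2
  have neg : ∀ y ∈ Icc c π, 0 ≤ -ξ y := fun y hy => by
    have := A.anti' ⟨htc, hc⟩ ⟨htc.trans hy.1, hy.2⟩ hy.1
    linarith
  have add : ∀ {a b c : ℝ}, a ∈ Icc 0 π → b ∈ Icc 0 π → c ∈ Icc 0 π →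
      (∫ y in a..b, Gh lam q |ξ y| y * sq1 p y) + ∫ y in b..c, Gh lam q |ξ y| y * sq1 p y =
        ∫ y in a..c, Gh lam q |ξ y| y * sq1 p y := fun ha hb hc =>
    intervalIntegral.integral_add_adjacent_intervals (A.ii_Gh h2 hl hq ha hb)
      (A.ii_Gh h2 hl hq hb hc)
  have i1 := A.rise_ge h2 hl hq h0.ge
  have i3 := A.piece_cross h2 hl hq htc hc hc0 hΦl hDl hp fun y hy =>
    hb _ (neg y hy) y ⟨hYc.trans hy.1, hy.2⟩
  have i0 := P0_add_Ph h2 hl hq (pos t ⟨le_rfl, htc⟩) t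
  have fall : ∀ b ∈ Icc t c, Ph lam q (ξ t) t - Ph lam q (ξ b) b - (PP1 lam (ξ b) - PP1 lam (ξ t)) ≤
      ∫ y in t..b, Gh lam q |ξ y| y * sq1 p y := fun b hb =>
    A.piece_fall h2 hl hq le_rfl hb.1 (hb.2.trans hc) (pos b hb) (KCg_der hl) (KCg_cont lam)
      fun y hy => H1 h2 hl hq (pos y ⟨hy.1, hy.2.trans hb.2⟩)
        ⟨ht.1.le.trans hy.1, (hy.2.trans hb.2).trans hc⟩
  rw [A.KI_eq h2 hl hq, ← add h0I htI hπI, ← add htI hcI hπI]
  rcases le_total (ξ t) T with hle | hle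
  · have i2 := fall c ⟨htc, le_rfl⟩
    rw [hc0] at i2
    have a1 := KCg_anti h2 hl hle
    have a2 : 2 * q ^ 3 * ee lam 3 T / mm lam 3 ≤ 2 * q ^ 3 * ee lam 3 (ξ t) / mm lam 3 := by
      have := ee_anti lam 3 hle
      gcongr
    have := le_max_left (PP1 lam 0 - PP1 lam T - 2 * q ^ 3 * ee lam 3 T / mm lam 3)
      (PP1 lam (T * (Y - ya) / Y) + Φa 0 - Φa (T * (Y - ya) / Y))
    linarith
  · have hY0 : 0 < Y := hya.trans_le hY
    set r := T * (Y - ya) / Y with hr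
    have r0 : 0 ≤ r := by
      have : 0 ≤ Y - ya := by linarith
      positivity
    have hm : max t ya ≤ c := max_le htc (hY.trans hYc)
    have key : r ≤ ξ (max t ya) := by
      rcases le_or_gt ya t with h | h
      · rw [max_eq_left h]
        refine le_trans ?_ hle
        rw [hr, div_le_iff₀ hY0]
        nlinarith
      · rw [max_eq_right h.le]
        have hYt : 0 < Y - t := by linarith
        have hξY := pos Y ⟨by linarith, hYc⟩
        have cv := A.concave.2 htI (⟨hY0.le, hYc.trans hc⟩ : Y ∈ Icc 0 π)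
          (show 0 ≤ (Y - ya) / (Y - t) from div_nonneg (by linarith) hYt.le)
          (show 0 ≤ (ya - t) / (Y - t) from div_nonneg (by linarith) hYt.le)
          (by field_simp; ring)
        have e : ((Y - ya) / (Y - t)) • t + ((ya - t) / (Y - t)) • Y = ya := by
          simp only [smul_eq_mul]
          field_simp
          ring
        rw [e] at cv
        simp only [smul_eq_mul] at cv
        refine le_trans ?_ cv
        have b1 : 0 ≤ (ya - t) / (Y - t) * ξ Y := mul_nonneg (div_nonneg (by linarith) hYt.le) hξY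
        have b2 : (Y - ya) / Y ≤ (Y - ya) / (Y - t) :=
          div_le_div_of_nonneg_left (by linarith) hYt (by linarith [ht.1])
        have b3 : 0 ≤ (Y - ya) / Y := div_nonneg (by linarith) hY0.le
        have b4 : r = (Y - ya) / Y * T := by rw [hr]; ring
        have b5 : (Y - ya) / Y * T ≤ (Y - ya) / (Y - t) * ξ t :=
          mul_le_mul b2 hle hT.le (b3.trans b2)
        linarith
    have sub : Icc (max t ya) c ⊆ Icc 0 π :=
      Icc_subset_Icc (ht.1.le.trans (le_max_left _ _)) hc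
    obtain ⟨y1, hy1, e1⟩ := intermediate_value_Icc' hm (A.cont.mono sub)
      (show r ∈ Icc (ξ c) (ξ (max t ya)) from ⟨hc0 ▸ r0, key⟩)
    have ty1 : t ≤ y1 := (le_max_left _ _).trans hy1.1
    have i2 := fall y1 ⟨ty1, hy1.2⟩
    have i4 := A.piece_fall h2 hl hq ty1 hy1.2 hc hc0.ge hΦa hDa fun y hy =>
      ha _ (pos y ⟨ty1.trans hy.1, hy.2⟩) y
        ⟨((le_max_right _ _).trans hy1.1).trans hy.1, hy.2.trans hc⟩
    rw [e1] at i2 i4
    rw [hc0] at i4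
    rw [← add htI (sub hy1) hcI]
    have a1 := KCg_nonneg h2 hl (ξ t)
    have a2 : 0 ≤ 2 * q ^ 3 * ee lam 3 (ξ t) / mm lam 3 := by
      have := ee_pos lam 3 (ξ t)
      positivity
    have := le_max_right (PP1 lam 0 - PP1 lam T - 2 * q ^ 3 * ee lam 3 T / mm lam 3)
      (PP1 lam r + Φa 0 - Φa r)
    linarith

end Pool.Agent.L2Q
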