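import Pool.Agent.P.MP_2f6447_an.Q.KCg

/-! Numbers for KC, for all `lam ∈ [2, 4)`. -/

open Set MeasureTheory Filter Topology Real

namespace Pool.Agent.L2Q

open Pool.Agent.L2K

variable {lam q ρ y t a b c m : ℝ} {j : ℕ} {ξ p : ℝ → ℝ}

/-- Taylor polynomial of `exp (-x)` -/
noncomputable def KCn_P (x : ℝ) : ℝ :=
  1 - x + x ^ 2 / 2 - x ^ 3 / 6 + x ^ 4 / 24 - x ^ 5 / 120

theorem KCn_T {x : ℝ} (h0 : 0 ≤ x) (h1 : x ≤ 1) : |exp (-x) - KCn_P x| ≤ x ^ 6 / 600 := by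
  have h := Real.exp_bound (x := -x) (by rwa [abs_neg, abs_of_nonneg h0]) (n := 6) (by norm_num)
  rw [abs_neg, abs_of_nonneg h0] at h
  have e : ∑ m ∈ Finset.range 6, (-x) ^ m / (m.factorial : ℝ) = KCn_P x := by
    simp only [Finset.sum_range_succ, Finset.sum_range_zero, Nat.factorial, KCn_P]
    push_cast
    ring
  rw [e] at h
  refine h.trans ?_
  have h6 : 0 ≤ x ^ 6 := by positivity
  simp only [Nat.factorial]
  push_cast
  linarith

theorem KCn_four (s : ℝ) : exp (-s) = exp (-(s / 4)) ^ 4 := by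
  rw [← Real.exp_nat_mul]
  congr 1
  push_cast
  ring

theorem KCn_lo {s y : ℝ} (h0 : 0 ≤ s) (h4 : s ≤ 4)
    (hy : y ≤ (KCn_P (s / 4) - (s / 4) ^ 6 / 600) ^ 4) : y ≤ exp (-s) := by
  have a0 : 0 ≤ s / 4 := by linarith
  have a1 : s / 4 ≤ 1 := by linarith
  have h := abs_le.1 (KCn_T a0 a1)
  rw [KCn_four]
  refine hy.trans (pow_le_pow_left₀ ?_ (by linarith [h.1]) 4)
  generalize s / 4 = x at *
  have e : KCn_P x - x ^ 6 / 600 =
      (1 - x) + x ^ 2 * (3 - x) / 6 + x ^ 4 * (25 - 5 * x - x * x) / 600 := by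
    rw [KCn_P]
    ring
  have b1 : 0 ≤ 1 - x := by linarith
  have b2 : 0 ≤ 3 - x := by linarith
  have b3 : 0 ≤ 25 - 5 * x - x * x := by nlinarith
  rw [e]
  positivity

theorem KCn_up {s y : ℝ} (h0 : 0 ≤ s) (h4 : s ≤ 4)
    (hy : (KCn_P (s / 4) + (s / 4) ^ 6 / 600) ^ 4 ≤ y) : exp (-s) ≤ y := by
  have a0 : 0 ≤ s / 4 := by linarith
  have a1 : s / 4 ≤ 1 := by linarith
  have h := abs_le.1 (KCn_T a0 a1)
  rw [KCn_four]
  exact (pow_le_pow_left₀ (exp_pos _).le (by linarith [h.2]) 4).trans hy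

theorem KCn_ge {lo : ℝ} (j : ℕ) (h : lo ^ 2 ≤ (j : ℝ) ^ 2 - lam) : lo ≤ mm lam j :=
  Real.le_sqrt_of_sq_le h

theorem KCn_le {hi : ℝ} (j : ℕ) (h0 : 0 ≤ hi) (h : (j : ℝ) ^ 2 - lam ≤ hi ^ 2) : mm lam j ≤ hi :=
  Real.sqrt_le_iff.2 ⟨h0, h⟩

theorem KCn_A {m lo : ℝ} (T : ℝ) (h0 : 0 < lo) (h : lo ≤ m) :
    (1 - exp (-(m * T))) / m ≤ (1 - exp (-(lo * T))) / lo := by
  have hm : 0 < m := h0.trans_le h
  have a0 : 0 ≤ lo / m := by positivity
  have a1 : 0 ≤ 1 - lo / m := by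
    rw [sub_nonneg, div_le_one hm]
    exact h
  have h1 := convexOn_exp.2 (mem_univ (-(m * T))) (mem_univ 0) a0 a1 (by ring)
  simp only [smul_eq_mul, mul_zero, add_zero, exp_zero, mul_one] at h1
  have e : lo / m * -(m * T) = -(lo * T) := by field_simp
  rw [e] at h1
  rw [le_div_iff₀ h0]
  have e2 : (1 - exp (-(m * T))) / m * lo = lo / m - lo / m * exp (-(m * T)) := by ring
  rw [e2]
  linarith

theorem KCn_B {m lo T : ℝ} (hT : 0 ≤ T) (h0 : 0 < lo) (h : lo ≤ m) :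
    exp (-(m * T)) / m ≤ exp (-(lo * T)) / lo :=
  div_le_div₀ (exp_pos _).le (exp_le_exp.2 (neg_le_neg (mul_le_mul_of_nonneg_right h hT))) h0 h

theorem KCn_Aup {lo T x : ℝ} (h0 : 0 < lo) (h : lo ≤ mm lam j) (hx : x ≤ exp (-(lo * T))) :
    (1 - ee lam j T) / mm lam j ≤ (1 - x) / lo :=
  (KCn_A T h0 h).trans (div_le_div_of_nonneg_right (by linarith) h0.le)

theorem KCn_Alo {hi T x : ℝ} (h0 : 0 < mm lam j) (h : mm lam j ≤ hi) (hx : exp (-(hi * T)) ≤ x) :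
    (1 - x) / hi ≤ (1 - ee lam j T) / mm lam j :=
  (div_le_div_of_nonneg_right (by linarith) (h0.le.trans h)).trans (KCn_A T h0 h)

theorem KCn_Bup {lo T x : ℝ} (hT : 0 ≤ T) (h0 : 0 < lo) (h : lo ≤ mm lam j)
    (hx : exp (-(lo * T)) ≤ x) : ee lam j T / mm lam j ≤ x / lo :=
  (KCn_B hT h0 h).trans (div_le_div_of_nonneg_right hx h0.le)

theorem KCn_Blo {hi T x : ℝ} (hT : 0 ≤ T) (h0 : 0 < mm lam j) (h : mm lam j ≤ hi)
    (hx : x ≤ exp (-(hi * T))) : x / hi ≤ ee lam j T / mm lam j :=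
  (div_le_div_of_nonneg_right hx (h0.le.trans h)).trans (KCn_B hT h0 h)

theorem KCn_A0 (hl : lam < 4) (hj : 2 ≤ j) {T : ℝ} (hT : 0 ≤ T) :
    0 ≤ (1 - ee lam j T) / mm lam j :=
  div_nonneg (sub_nonneg.2 (ee_le_one lam j hT)) (mm_pos hl hj).le

theorem KCn_B0 (hl : lam < 4) (hj : 2 ≤ j) (T : ℝ) : 0 ≤ ee lam j T / mm lam j :=
  div_nonneg (ee_pos lam j T).le (mm_pos hl hj).le

theorem KCn_nu {lo : ℝ} (h0 : 0 < lo) (h : lo ≤ mm lam 3) : nu3 lam ≤ 3 / lo - 1 :=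
  sub_le_sub_right (div_le_div_of_nonneg_left (by norm_num) h0 h) 1

theorem KCn_mul {c n N a A : ℝ} (hn : n ≤ N) (hN : 0 ≤ c + N) (h0 : 0 ≤ a) (ha : a ≤ A) :
    (c + n) * a ≤ (c + N) * A :=
  mul_le_mul (by linarith) ha h0 hN

theorem KCn_one (h2 : 2 ≤ lam) (hl : lam < 4) {T : ℝ} (hT : 0 ≤ T) (lo3 hi3 lo4 x3 y3 x4 : ℝ)
    (p3 : 0 < lo3) (q3 : lo3 ≤ 3) (p4 : 0 < lo4) (h3 : lo3 ≤ mm lam 3) (h3' : mm lam 3 ≤ hi3)
    (h4 : lo4 ≤ mm lam 4) (e3 : x3 ≤ exp (-(lo3 * T))) (e3' : y3 ≤ exp (-(hi3 * T)))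
    (e4 : x4 ≤ exp (-(lo4 * T))) {b : ℝ}
    (hb : (0.47 + (3 / lo3 - 1)) * ((1 - x3) / lo3) + (1 - x4) / lo4 + 0.55 * ((1 - 0) / 9.797) -
      2 * (y3 / hi3) ≤ b) :
    PP1 lam 0 - PP1 lam T - 2 * ee lam 3 T / mm lam 3 ≤ b := by
  have e : PP1 lam 0 - PP1 lam T - 2 * ee lam 3 T / mm lam 3 =
      (0.47 + nu3 lam) * ((1 - ee lam 3 T) / mm lam 3) + (1 - ee lam 4 T) / mm lam 4 +
        0.55 * ((1 - ee lam 10 T) / mm lam 10) - 2 * (ee lam 3 T / mm lam 3) := by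
    simp only [PP1, ee_zero]
    ring
  have n0 : 1 ≤ 3 / lo3 := (one_le_div p3).2 q3
  have a1 := KCn_mul (c := 0.47) (KCn_nu p3 h3) (by linarith) (KCn_A0 hl (by norm_num) hT)
    (KCn_Aup p3 h3 e3)
  have a2 := KCn_Aup p4 h4 e4
  have a3 := KCn_Aup (T := T) (x := 0) (by norm_num) (mm10_mem h2 hl).1 (exp_pos _).le
  have a4 := KCn_Blo hT (mm_pos hl (by norm_num)) h3' e3'
  rw [e]
  linarith

theorem KCn_PP (h2 : 2 ≤ lam) (hl : lam < 4) {T : ℝ} (hT : 0 ≤ T) (x3 x4 x10 : ℝ)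
    (e3 : exp (-(2.236 * T)) ≤ x3) (e4 : exp (-(3.464 * T)) ≤ x4)
    (e10 : exp (-(9.797 * T)) ≤ x10) :
    PP1 lam T ≤ (0.47 + 0.342) * (x3 / 2.236) + x4 / 3.464 + 0.55 * (x10 / 9.797) := by
  have e : PP1 lam T = (0.47 + nu3 lam) * (ee lam 3 T / mm lam 3) + ee lam 4 T / mm lam 4 +
      0.55 * (ee lam 10 T / mm lam 10) := by
    simp only [PP1]
    ring
  have a1 := KCn_mul (c := 0.47) (nu3_mem h2 hl).2 (by norm_num) (KCn_B0 hl (by norm_num) T)
    (KCn_Bup hT (by norm_num) (mm3_mem h2 hl).1 e3)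
  have a2 := KCn_Bup hT (by norm_num) (mm4_mem h2 hl).1 e4
  have a3 := KCn_Bup hT (by norm_num) (mm10_mem h2 hl).1 e10
  rw [e]
  linarith

theorem KCn_nuA (h2 : 2 ≤ lam) (hl : lam < 4) {T : ℝ} (hT : 0 ≤ T) {c : ℝ} (hc : 0 ≤ c) (x3 : ℝ)
    (e3 : x3 ≤ exp (-(2.236 * T))) :
    (c + nu3 lam) * ((1 - ee lam 3 T) / mm lam 3) ≤ (c + 0.342) * ((1 - x3) / 2.236) :=
  KCn_mul (nu3_mem h2 hl).2 (by linarith) (KCn_A0 hl (by norm_num) hT)
    (KCn_Aup (by norm_num) (mm3_mem h2 hl).1 e3)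

theorem KCn_1A (h2 : 2 ≤ lam) (hl : lam < 4) :
    PP1 lam 0 - PP1 lam 0.75 - 2 * ee lam 3 0.75 / mm lam 3 ≤ 0.468 := by
  rcases le_total lam 3 with c1 | c1
  · exact KCn_one h2 hl (by norm_num) 2.449 2.646 3.605 0.1591 0.1371 0.0659 (by norm_num) (by norm_num)
      (by norm_num) (KCn_ge 3 (by push_cast; linarith))
      (KCn_le 3 (by norm_num) (by push_cast; linarith)) (KCn_ge 4 (by push_cast; linarith))
      (KCn_lo (by norm_num) (by norm_num) (by norm_num [KCn_P]))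
      (KCn_lo (by norm_num) (by norm_num) (by norm_num [KCn_P]))
      (KCn_lo (by norm_num) (by norm_num) (by norm_num [KCn_P])) (by norm_num)
  rcases le_total lam 3.7 with c2 | c2
  · exact KCn_one h2 hl (by norm_num) 2.301 2.45 3.506 0.1778 0.1588 0.071 (by norm_num) (by norm_num)
      (by norm_num) (KCn_ge 3 (by push_cast; linarith))
      (KCn_le 3 (by norm_num) (by push_cast; linarith)) (KCn_ge 4 (by push_cast; linarith))
      (KCn_lo (by norm_num) (by norm_num) (by norm_num [KCn_P]))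
      (KCn_lo (by norm_num) (by norm_num) (by norm_num [KCn_P]))
      (KCn_lo (by norm_num) (by norm_num) (by norm_num [KCn_P])) (by norm_num)
  · exact KCn_one h2 hl (by norm_num) 2.236 2.303 3.464 0.1867 0.1773 0.0732 (by norm_num) (by norm_num)
      (by norm_num) (KCn_ge 3 (by push_cast; linarith))
      (KCn_le 3 (by norm_num) (by push_cast; linarith)) (KCn_ge 4 (by push_cast; linarith))
      (KCn_lo (by norm_num) (by norm_num) (by norm_num [KCn_P]))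
      (KCn_lo (by norm_num) (by norm_num) (by norm_num [KCn_P]))
      (KCn_lo (by norm_num) (by norm_num) (by norm_num [KCn_P])) (by norm_num)

theorem KCn_1B (h2 : 2 ≤ lam) (hl : lam < 4) :
    PP1 lam 0 - PP1 lam 0.9 - 2 * ee lam 3 0.9 / mm lam 3 ≤ 0.54 := by
  rcases le_total lam 3 with c1 | c1
  · exact KCn_one h2 hl (by norm_num) 2.449 2.646 3.605 0.1102 0.0922 0.0383 (by norm_num) (by norm_num)
      (by norm_num) (KCn_ge 3 (by push_cast; linarith))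
      (KCn_le 3 (by norm_num) (by push_cast; linarith)) (KCn_ge 4 (by push_cast; linarith))
      (KCn_lo (by norm_num) (by norm_num) (by norm_num [KCn_P]))
      (KCn_lo (by norm_num) (by norm_num) (by norm_num [KCn_P]))
      (KCn_lo (by norm_num) (by norm_num) (by norm_num [KCn_P])) (by norm_num)
  rcases le_total lam 3.7 with c2 | c2
  · exact KCn_one h2 hl (by norm_num) 2.301 2.45 3.506 0.1259 0.11 0.0419 (by norm_num) (by norm_num)
      (by norm_num) (KCn_ge 3 (by push_cast; linarith))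
      (KCn_le 3 (by norm_num) (by push_cast; linarith)) (KCn_ge 4 (by push_cast; linarith))
      (KCn_lo (by norm_num) (by norm_num) (by norm_num [KCn_P]))
      (KCn_lo (by norm_num) (by norm_num) (by norm_num [KCn_P]))
      (KCn_lo (by norm_num) (by norm_num) (by norm_num [KCn_P])) (by norm_num)
  · exact KCn_one h2 hl (by norm_num) 2.236 2.303 3.464 0.1335 0.1255 0.0435 (by norm_num) (by norm_num)
      (by norm_num) (KCn_ge 3 (by push_cast; linarith))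
      (KCn_le 3 (by norm_num) (by push_cast; linarith)) (KCn_ge 4 (by push_cast; linarith))
      (KCn_lo (by norm_num) (by norm_num) (by norm_num [KCn_P]))
      (KCn_lo (by norm_num) (by norm_num) (by norm_num [KCn_P]))
      (KCn_lo (by norm_num) (by norm_num) (by norm_num [KCn_P])) (by norm_num)

theorem KCn_1C (h2 : 2 ≤ lam) (hl : lam < 4) :
    PP1 lam 0 - PP1 lam 1 - 2 * ee lam 3 1 / mm lam 3 ≤ 0.606 := by
  rcases le_total lam 3 with c1 | c1
  · exact KCn_one h2 hl (by norm_num) 2.449 2.646 3.605 0.0862 0.0707 0.0267 (by norm_num) (by norm_num)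
      (by norm_num) (KCn_ge 3 (by push_cast; linarith))
      (KCn_le 3 (by norm_num) (by push_cast; linarith)) (KCn_ge 4 (by push_cast; linarith))
      (KCn_lo (by norm_num) (by norm_num) (by norm_num [KCn_P]))
      (KCn_lo (by norm_num) (by norm_num) (by norm_num [KCn_P]))
      (KCn_lo (by norm_num) (by norm_num) (by norm_num [KCn_P])) (by norm_num)
  rcases le_total lam 3.7 with c2 | c2
  · exact KCn_one h2 hl (by norm_num) 2.301 2.45 3.506 0.1 0.0861 0.0295 (by norm_num) (by norm_num)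
      (by norm_num) (KCn_ge 3 (by push_cast; linarith))
      (KCn_le 3 (by norm_num) (by push_cast; linarith)) (KCn_ge 4 (by push_cast; linarith))
      (KCn_lo (by norm_num) (by norm_num) (by norm_num [KCn_P]))
      (KCn_lo (by norm_num) (by norm_num) (by norm_num [KCn_P]))
      (KCn_lo (by norm_num) (by norm_num) (by norm_num [KCn_P])) (by norm_num)
  · exact KCn_one h2 hl (by norm_num) 2.236 2.303 3.464 0.1067 0.0997 0.0308 (by norm_num) (by norm_num)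
      (by norm_num) (KCn_ge 3 (by push_cast; linarith))
      (KCn_le 3 (by norm_num) (by push_cast; linarith)) (KCn_ge 4 (by push_cast; linarith))
      (KCn_lo (by norm_num) (by norm_num) (by norm_num [KCn_P]))
      (KCn_lo (by norm_num) (by norm_num) (by norm_num [KCn_P]))
      (KCn_lo (by norm_num) (by norm_num) (by norm_num [KCn_P])) (by norm_num)

theorem KCn_2A (h2 : 2 ≤ lam) (hl : lam < 4) :
    PP1 lam 0.1875 + nu3 lam / mm lam 3 - nu3 lam * ee lam 3 0.1875 / mm lam 3 ≤ 0.468 := by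
  have a1 := KCn_PP h2 hl (T := 0.1875) (by norm_num) 0.6579 0.5226 0.1597
    (KCn_up (by norm_num) (by norm_num) (by norm_num [KCn_P]))
    (KCn_up (by norm_num) (by norm_num) (by norm_num [KCn_P]))
    (KCn_up (by norm_num) (by norm_num) (by norm_num [KCn_P]))
  have a2 := KCn_nuA h2 hl (T := 0.1875) (by norm_num) le_rfl 0.6571
    (KCn_lo (by norm_num) (by norm_num) (by norm_num [KCn_P]))
  have e : nu3 lam / mm lam 3 - nu3 lam * ee lam 3 0.1875 / mm lam 3 =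
      (0 + nu3 lam) * ((1 - ee lam 3 0.1875) / mm lam 3) := by ring
  norm_num at a1 a2 e ⊢
  linarith

theorem KCn_2B (h2 : 2 ≤ lam) (hl : lam < 4) :
    PP1 lam 0.15 + nu3 lam / mm lam 3 - nu3 lam * ee lam 3 0.15 / mm lam 3 ≤ 0.54 := by
  have a1 := KCn_PP h2 hl (T := 0.15) (by norm_num) 0.7155 0.5951 0.2306
    (KCn_up (by norm_num) (by norm_num) (by norm_num [KCn_P]))
    (KCn_up (by norm_num) (by norm_num) (by norm_num [KCn_P]))
    (KCn_up (by norm_num) (by norm_num) (by norm_num [KCn_P]))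
  have a2 := KCn_nuA h2 hl (T := 0.15) (by norm_num) le_rfl 0.7146
    (KCn_lo (by norm_num) (by norm_num) (by norm_num [KCn_P]))
  have e : nu3 lam / mm lam 3 - nu3 lam * ee lam 3 0.15 / mm lam 3 =
      (0 + nu3 lam) * ((1 - ee lam 3 0.15) / mm lam 3) := by ring
  norm_num at a1 a2 e ⊢
  linarith

theorem KCn_2C (h2 : 2 ≤ lam) (hl : lam < 4) :
    PP1 lam (1 / 3) + (0.45 + nu3 lam) * (1 - ee lam 3 (1 / 3)) / mm lam 3 +
      1.3 * (1 - ee lam 4 (1 / 3)) / mm lam 4 - 0.65 * (1 - ee lam 5 (1 / 3)) / mm lam 5 ≤ 0.606 := by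
  have a1 := KCn_PP h2 hl (T := 1 / 3) (by norm_num) 0.4749 0.3154 0.0386
    (KCn_up (by norm_num) (by norm_num) (by norm_num [KCn_P]))
    (KCn_up (by norm_num) (by norm_num) (by norm_num [KCn_P]))
    (KCn_up (by norm_num) (by norm_num) (by norm_num [KCn_P]))
  have a2 := KCn_nuA h2 hl (T := 1 / 3) (by norm_num) (c := 0.45) (by norm_num) 0.4743
    (KCn_lo (by norm_num) (by norm_num) (by norm_num [KCn_P]))
  have a3 := KCn_Aup (T := 1 / 3) (x := 0.3149) (by norm_num) (mm4_mem h2 hl).1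
    (KCn_lo (by norm_num) (by norm_num) (by norm_num [KCn_P]))
  have a4 := KCn_Alo (T := 1 / 3) (x := 0.2023) (mm_pos hl (by norm_num)) (mm5_mem h2 hl).2
    (KCn_up (by norm_num) (by norm_num) (by norm_num [KCn_P]))
  rw [mul_div_assoc, mul_div_assoc, mul_div_assoc]
  have b : (0.47 + 0.342) * (0.4749 / 2.236) + 0.3154 / 3.464 + 0.55 * (0.0386 / 9.797) +
      (0.45 + 0.342) * ((1 - 0.4743) / 2.236) + 1.3 * ((1 - 0.3149) / 3.464) -
      0.65 * ((1 - 0.2023) / 4.796) ≤ (0.606 : ℝ) := by norm_num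
  linarith

theorem KCn_lA (h2 : 2 ≤ lam) (hl : lam < 4) : 2 / mm lam 3 - 1 / mm lam 4 ≤ 0.612 := by
  have key : ∀ lo hi : ℝ, 0 < lo → lo ≤ mm lam 3 → mm lam 4 ≤ hi → 2 / lo - 1 / hi ≤ 0.612 →
      2 / mm lam 3 - 1 / mm lam 4 ≤ 0.612 := by
    intro lo hi h0 a1 a2 a3
    have b1 : 2 / mm lam 3 ≤ 2 / lo := div_le_div_of_nonneg_left (by norm_num) h0 a1
    have b2 : 1 / hi ≤ 1 / mm lam 4 :=
      div_le_div_of_nonneg_left (by norm_num) (mm_pos hl (by norm_num)) a2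
    linarith
  rcases le_total lam 3.6 with c | c
  · exact key 2.32 3.742 (by norm_num) (KCn_ge 3 (by push_cast; linarith)) (mm4_mem h2 hl).2
      (by norm_num)
  · exact key 2.236 3.522 (by norm_num) (mm3_mem h2 hl).1
      (KCn_le 4 (by norm_num) (by push_cast; linarith)) (by norm_num)

theorem KCn_lB (h2 : 2 ≤ lam) (hl : lam < 4) :
    (2.44 + nu3 lam) / mm lam 3 - 0.91 / mm lam 4 ≤ 0.986 := by
  have key : ∀ lo hi : ℝ, 0 < lo → lo ≤ mm lam 3 → mm lam 4 ≤ hi →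
      (2.44 + (3 / lo - 1)) / lo - 0.91 / hi ≤ 0.986 →
      (2.44 + nu3 lam) / mm lam 3 - 0.91 / mm lam 4 ≤ 0.986 := by
    intro lo hi h0 a1 a2 a3
    have b0 := KCn_nu h0 a1
    have b3 : 0 ≤ 3 / lo := by positivity
    have b1 : (2.44 + nu3 lam) / mm lam 3 ≤ (2.44 + (3 / lo - 1)) / lo :=
      div_le_div₀ (by linarith) (by linarith) h0 a1
    have b2 : 0.91 / hi ≤ 0.91 / mm lam 4 :=
      div_le_div_of_nonneg_left (by norm_num) (mm_pos hl (by norm_num)) a2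
    linarith
  rcases le_total lam 3.6 with c | c
  · exact key 2.32 3.742 (by norm_num) (KCn_ge 3 (by push_cast; linarith)) (mm4_mem h2 hl).2
      (by norm_num)
  · exact key 2.236 3.522 (by norm_num) (mm3_mem h2 hl).1
      (KCn_le 4 (by norm_num) (by push_cast; linarith)) (by norm_num)

end Pool.Agent.L2Q
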