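import Pool.Agent.P.MP_2f6447_an.Q.Par

/-! The comparison function ph1 (truncated Bessel J₁) and the Wronskian comparison. ph1 τ/τ is a polynomial in s = τ² ∈ [0,12.25], minimum 0.039 at the end (Bernstein expansion or nlinarith on pieces). τ² ph1'' + τ ph1' + (τ²-1) ph1 = -τ^13/176947200 ≤ 0.
ph1_int: exact value 1.18327 (expand, `integral_pow`, or FTC with the explicit primitive). Kb1: φ r = ph1(√lam r), W = r(ψ1 φ - ψ φ'), W' = (φ (r²ψ2 + rψ1 + (lam r²-1)ψ) - ψ (r²φ''+rφ'+(lam r²-1)φ))/r ≥ -δ r φ ≥ -7δ on (0,R], R = 3.5/√lam ≤ 2.5;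
W = 0 on (0,r1], so W ≥ -18δ; (ψ/φ)' = W/(rφ²) ≥ -18δ/(r0 c²), c = min of φ on [r0,R] > 0. -/

open Set MeasureTheory Filter Topology Real
open scoped ComplexConjugate

namespace Pool.Agent.L2Q

open Pool.Agent.L2K

variable {Ω : Set ℂ} {lam nT nB m a b x y : ℝ} {u : ℂ → ℝ} {G : ℂ → ℂ} {l r : ℝ → ℝ} {j : ℕ}

theorem ph1_pos {τ : ℝ} (h0 : 0 < τ) (h1 : τ ≤ 3.5) : 0 < ph1 τ := by sorry

theorem ph1_le {τ : ℝ} (h0 : 0 ≤ τ) (h1 : τ ≤ 3.5) : ph1 τ ≤ τ / 2 := by sorry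

theorem ph1_int : 1.18 ≤ ∫ τ in (0 : ℝ)..3.5, ph1 τ ^ 2 * τ := by sorry

theorem Kb1 (h2 : 2 ≤ lam) (hl : lam < 4) {r0 : ℝ} (h0 : 0 < r0) : ∃ C : ℝ,
    ∀ (ψ ψ1 ψ2 : ℝ → ℝ) (δ r1 : ℝ), 0 ≤ δ → 0 < r1 →
      (∀ s, 0 < s → HasDerivAt ψ (ψ1 s) s ∧ HasDerivAt ψ1 (ψ2 s) s ∧ 0 ≤ ψ s ∧
        -(δ * s ^ 2) ≤ s ^ 2 * ψ2 s + s * ψ1 s + (lam * s ^ 2 - 1) * ψ s) →
      (∀ s ∈ Ioc 0 r1, ψ s = 0) → ∀ s, r0 ≤ s → √lam * s ≤ 3.5 →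
        (ψ r0 / ph1 (√lam * r0) - C * δ) * ph1 (√lam * s) ≤ ψ s := by sorry

end Pool.Agent.L2Q
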