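import Pool.Agent.P.MP_2f6447_an.Q.Defs

/-! Polar coordinates. polar_sin: as `cf_ode` in K/Polar (reuse Polar_param, Polar_dr, Polar_dt; here f is only C² but on the whole plane): r² f_rr + r f_r + f_θθ = r² lap f, two integrations by parts in θ over [0,2π].
polar_l2: Cauchy-Schwarz on [0,π] (g vanishes for θ ∈ [π,2π], ∫ 0..π sin² = π/2), then `Complex.integral_comp_polarCoord_symm` for g²(p + ·) (angles in (-π,π); shift by periodicity) and monotonicity in the radius. -/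

open Set MeasureTheory Filter Topology Real
open scoped ComplexConjugate

namespace Pool.Agent.L2Q

open Pool.Agent.L2K

variable {Ω : Set ℂ} {lam nT nB m a b x y : ℝ} {u : ℂ → ℝ} {G : ℂ → ℂ} {l r : ℝ → ℝ} {j : ℕ}

theorem polar_sin {f : ℂ → ℝ} (hf : ContDiff ℝ 2 f) (p : ℂ) : ∃ ψ1 ψ2 : ℝ → ℝ, ∀ s : ℝ, 0 < s →
    HasDerivAt (fun s : ℝ => ∫ θ in (0 : ℝ)..2 * π, f (p + s * Complex.exp (θ * Complex.I)) * sin θ)
      (ψ1 s) s ∧ HasDerivAt ψ1 (ψ2 s) s ∧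
    s ^ 2 * ψ2 s + s * ψ1 s -
        ∫ θ in (0 : ℝ)..2 * π, f (p + s * Complex.exp (θ * Complex.I)) * sin θ =
      s ^ 2 * ∫ θ in (0 : ℝ)..2 * π, lap f (p + s * Complex.exp (θ * Complex.I)) * sin θ := by sorry

theorem polar_l2 {g : ℂ → ℝ} (hg : Continuous g) (hc : HasCompactSupport g) {p : ℂ}
    (h0 : ∀ z : ℂ, z.im ≤ p.im → g z = 0) {R : ℝ} (hR : 0 ≤ R) :
    ∫ s in (0 : ℝ)..R,
      (∫ θ in (0 : ℝ)..2 * π, g (p + s * Complex.exp (θ * Complex.I)) * sin θ) ^ 2 * s ≤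
      π / 2 * ∫ z, g z ^ 2 := by sorry

end Pool.Agent.L2Q
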