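import Pool.Agent.P.MP_2f6447_an.Q.Kb1
import Pool.Agent.P.MP_2f6447_an.Q.Kb2
import Pool.Agent.P.MP_2f6447_an.Q.Geo2

/-! The slope bound. w = D 1 u is Helm in Ω (`Helm.of_D`), w = G.re there, G.re ≤ 0 on the frontier (re_nonpos). w0 z = if z ∈ Ω then max (G z).re 0 else 0 is continuous with compact support, ∫ w0² ≤ area/2 (isox).
For ε > 0 take `Pool.Agent.L2H.exists_cut` (H/Cut: F, F', F''), f z = F (w0 z): C² on ℂ (0 near points where w0 < ε, F ∘ w near points where w0 > 0), 0 ≤ f ≤ w0, w0 - 2ε ≤ f, lap f + lam f = F''|grad w|² + lam (F - w F') ≥ -2 lam ε, and = 0 on im ≤ 0.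
p = ⟨x,0⟩, ψ_ε as in polar_sin, δ = 4 lam ε (∫ 0..π sin = 2), ψ_ε = 0 for small radius (w0 p = 0). Kb1, ε → 0: ψ0 s ≥ ψ0 r0 ph1(√lam s)/ph1(√lam r0). With g = deriv (gb G) x > 0 (else trivial), linB and the half ball in Ω: ψ0 r0 ≥ (π/2) g r0 - 2η r0, ph1(√lam r0) ≤ √lam r0/2;
η → 0: ψ0 s ≥ π g ph1(√lam s)/√lam for 0 < s ≤ 3.5/√lam. polar_l2, ph1_int (substitute τ = √lam s): π² g² 1.18/lam² ≤ (π/2) area/2 ≤ π 38.34/(4 lam); 38.34/(4·3.1415·1.18) ≤ 1.61². -/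

open Set MeasureTheory Filter Topology Real
open scoped ComplexConjugate

namespace Pool.Agent.L2Q

open Pool.Agent.L2K

variable {Ω : Set ℂ} {lam nT nB m a b x y : ℝ} {u : ℂ → ℝ} {G : ℂ → ℂ} {l r : ℝ → ℝ} {j : ℕ}

theorem QD.K_bot (h : QD Ω lam u G l r nT nB) (hx : x ∈ Ioo (l 0) (r 0)) : deriv (gb G) x ≤ 1.61 * √lam := by sorry

end Pool.Agent.L2Q
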