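import Pool.Agent.P.MP_2f6447_an.Q.Bas

/-! Positive multipliers for power series that are nonnegative on `(0, 1)`. -/

open Set MeasureTheory Filter Topology Real

namespace Pool.Agent.L2Q

open Pool.Agent.L2K

variable {lam q ρ y t a b c m : ℝ} {j : ℕ} {ξ p : ℝ → ℝ}

/-- bounded on `j ≥ 2` and preserving positivity of the power series -/
def Mix_Mul (c : ℕ → ℝ) : Prop :=
  (∃ C, ∀ j, 2 ≤ j → |c j| ≤ C) ∧
    ∀ b, PosS b → ∀ q ∈ Ioo (0 : ℝ) 1, 0 ≤ ∑' j, b j * c j * q ^ j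

theorem Mix_bd {b c : ℕ → ℝ} {B C : ℝ} (h0 : b 0 = 0) (h1 : b 1 = 0) (hB : ∀ j, |b j| ≤ B)
    (hC : ∀ j, 2 ≤ j → |c j| ≤ C) (j : ℕ) : |b j * c j| ≤ B * C := by
  have hB0 : 0 ≤ B := (abs_nonneg _).trans (hB 0)
  have hC0 : 0 ≤ C := (abs_nonneg _).trans (hC 2 le_rfl)
  rcases lt_or_ge j 2 with h | h
  · have : b j = 0 := by
      interval_cases j
      · exact h0
      · exact h1
    rw [this, zero_mul, abs_zero]
    positivity
  · rw [abs_mul]
    exact mul_le_mul (hB j) (hC j h) (abs_nonneg _) hB0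

theorem Mix_Mul.pos {b c : ℕ → ℝ} (hc : Mix_Mul c) (hb : PosS b) : PosS fun j => b j * c j := by
  obtain ⟨C, hC⟩ := hc.1
  obtain ⟨B, hB⟩ := hb.2.2.1
  exact ⟨by simp [hb.1], by simp [hb.2.1], ⟨B * C, Mix_bd hb.1 hb.2.1 hB hC⟩, hc.2 b hb⟩

theorem Mix_nb {b : ℕ → ℝ} {B : ℝ} (hB : ∀ j, |b j| ≤ B) (hq : q ∈ Ioo (0 : ℝ) 1) (j : ℕ) :
    ‖b j * q ^ j‖ ≤ B * q ^ j := by
  have h := pow_nonneg hq.1.le j
  rw [Real.norm_eq_abs, abs_mul, abs_of_nonneg h]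
  exact mul_le_mul_of_nonneg_right (hB j) h

theorem Mix_sum {b : ℕ → ℝ} (hb : PosS b) (hq : q ∈ Ioo (0 : ℝ) 1) :
    Summable fun j => b j * q ^ j := by
  obtain ⟨B, hB⟩ := hb.2.2.1
  exact Summable.of_norm_bounded ((summable_geometric_of_lt_one hq.1.le hq.2).mul_left B)
    (Mix_nb hB hq)

theorem Mix_const (hc : 0 ≤ c) : Mix_Mul fun _ => c := by
  refine ⟨⟨|c|, fun _ _ => le_rfl⟩, fun b hb q hq => ?_⟩
  have e : ∀ j : ℕ, b j * c * q ^ j = c * (b j * q ^ j) := fun j => by ring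
  simp only [e, tsum_mul_left]
  exact mul_nonneg hc (hb.2.2.2 q hq)

theorem Mix_Mul.add {c d : ℕ → ℝ} (hc : Mix_Mul c) (hd : Mix_Mul d) :
    Mix_Mul fun j => c j + d j := by
  obtain ⟨C, hC⟩ := hc.1
  obtain ⟨D, hD⟩ := hd.1
  refine ⟨⟨C + D, fun j hj => (abs_add_le _ _).trans (add_le_add (hC j hj) (hD j hj))⟩,
    fun b hb q hq => ?_⟩
  have e : ∀ j : ℕ, b j * (c j + d j) * q ^ j = b j * c j * q ^ j + b j * d j * q ^ j :=
    fun j => by ring
  simp only [e]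
  rw [(Mix_sum (hc.pos hb) hq).tsum_add (Mix_sum (hd.pos hb) hq)]
  exact add_nonneg (hc.2 b hb q hq) (hd.2 b hb q hq)

theorem Mix_Mul.mul {c d : ℕ → ℝ} (hc : Mix_Mul c) (hd : Mix_Mul d) :
    Mix_Mul fun j => c j * d j := by
  obtain ⟨C, hC⟩ := hc.1
  obtain ⟨D, hD⟩ := hd.1
  refine ⟨⟨C * D, fun j hj => ?_⟩, fun b hb q hq => ?_⟩
  · rw [abs_mul]
    exact mul_le_mul (hC j hj) (hD j hj) (abs_nonneg _) ((abs_nonneg _).trans (hC j hj))
  · have h := hd.2 _ (hc.pos hb) q hq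
    simpa only [mul_assoc] using h

theorem Mix_Mul.pow {c : ℕ → ℝ} (hc : Mix_Mul c) (n : ℕ) : Mix_Mul fun j => c j ^ n := by
  induction n with
  | zero => simpa only [pow_zero] using Mix_const zero_le_one
  | succ n ih => simpa only [pow_succ] using ih.mul hc

theorem Mix_fsum {c : ℕ → ℕ → ℝ} (hc : ∀ n, Mix_Mul (c n)) (N : ℕ) :
    Mix_Mul fun j => ∑ n ∈ Finset.range N, c n j := by
  induction N with
  | zero => simpa only [Finset.sum_range_zero] using Mix_const le_rfl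
  | succ n ih => simpa only [Finset.sum_range_succ] using ih.add (hc n)

theorem Mix_lim {c : ℕ → ℕ → ℝ} {d : ℕ → ℝ} {C : ℝ} (hc : ∀ n, Mix_Mul (c n))
    (hC : ∀ n j, 2 ≤ j → |c n j| ≤ C)
    (hl : ∀ j, 2 ≤ j → Tendsto (fun n => c n j) atTop (𝓝 (d j))) : Mix_Mul d := by
  refine ⟨⟨C, fun j hj => le_of_tendsto' (hl j hj).abs fun n => hC n j hj⟩, fun b hb q hq => ?_⟩
  obtain ⟨B, hB⟩ := hb.2.2.1
  have h : Tendsto (fun n => ∑' j, b j * c n j * q ^ j) atTop (𝓝 (∑' j, b j * d j * q ^ j)) := by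
    refine tendsto_tsum_of_dominated_convergence
      ((summable_geometric_of_lt_one hq.1.le hq.2).mul_left (B * C)) (fun j => ?_)
      (Eventually.of_forall fun n j => Mix_nb (Mix_bd hb.1 hb.2.1 hB (hC n)) hq j)
    rcases lt_or_ge j 2 with h | h
    · have : b j = 0 := by
        interval_cases j
        · exact hb.1
        · exact hb.2.1
      simp only [this, zero_mul]
      exact tendsto_const_nhds
    · exact ((hl j h).const_mul _).mul_const _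
  exact ge_of_tendsto' h fun n => (hc n).2 b hb q hq

theorem Mix_Mul.congr {c d : ℕ → ℝ} (hc : Mix_Mul c) (h : ∀ j, 2 ≤ j → c j = d j) :
    Mix_Mul d := by
  obtain ⟨C, hC⟩ := hc.1
  refine Mix_lim (c := fun _ => c) (fun _ => hc) (fun _ => hC) fun j hj => ?_
  rw [h j hj]
  exact tendsto_const_nhds

theorem Mix_geo {c : ℕ → ℝ} {θ : ℝ} (hc : Mix_Mul c) (hθ : θ < 1) (h0 : ∀ j, 2 ≤ j → 0 ≤ c j)
    (h1 : ∀ j, 2 ≤ j → c j ≤ θ) : Mix_Mul fun j => (1 - c j)⁻¹ := by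
  refine Mix_lim (C := (1 - θ)⁻¹) (fun N => Mix_fsum (fun n => hc.pow n) N) (fun N j hj => ?_)
    fun j hj => (hasSum_geometric_of_lt_one (h0 j hj) ((h1 j hj).trans_lt hθ)).tendsto_sum_nat
  have hs := hasSum_geometric_of_lt_one (h0 j hj) ((h1 j hj).trans_lt hθ)
  have hn : ∀ n, 0 ≤ c j ^ n := fun n => pow_nonneg (h0 j hj) n
  rw [abs_of_nonneg (Finset.sum_nonneg fun n _ => hn n)]
  refine (sum_le_hasSum _ (fun n _ => hn n) hs).trans ?_
  exact inv_anti₀ (by linarith) (by linarith [h1 j hj])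

theorem Mix_dil {s : ℝ} (hs : s ∈ Ioo (0 : ℝ) 1) : Mix_Mul fun j => s ^ j := by
  refine ⟨⟨1, fun j _ => ?_⟩, fun b hb q hq => ?_⟩
  · rw [abs_of_nonneg (pow_nonneg hs.1.le j)]
    exact pow_le_one₀ hs.1.le hs.2.le
  · have h := hb.2.2.2 (s * q) ⟨mul_pos hs.1 hq.1, by nlinarith [hs.1, hs.2, hq.1, hq.2]⟩
    simpa only [mul_pow, mul_assoc] using h

theorem Mix_invgeo {s : ℝ} (hs : s ∈ Ioo (0 : ℝ) 1) :
    Mix_Mul fun j => (∑ i ∈ Finset.range j, s ^ i)⁻¹ := by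
  have h1 := Mix_geo (θ := s) (Mix_dil hs) hs.2 (fun j _ => pow_nonneg hs.1.le j)
    fun j hj => pow_le_of_le_one hs.1.le hs.2.le (by omega)
  have hp : 0 < 1 - s := by linarith [hs.2]
  refine ((Mix_const hp.le).mul h1).congr fun j _ => ?_
  rw [← mul_neg_geom_sum, mul_inv, ← mul_assoc, mul_inv_cancel₀ hp.ne', one_mul]

theorem Mix_invj : Mix_Mul fun j => (j : ℝ)⁻¹ := by
  have hs : ∀ n : ℕ, 1 - 1 / 2 * (1 / ((n : ℝ) + 1)) ∈ Ioo (0 : ℝ) 1 := fun n => by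
    have h0 : (0 : ℝ) ≤ n := Nat.cast_nonneg n
    have h1 : 0 < 1 / ((n : ℝ) + 1) := by positivity
    have h2 : 1 / ((n : ℝ) + 1) ≤ 1 := by rw [div_le_one (by linarith)]; linarith
    constructor <;> linarith
  have ht : Tendsto (fun n : ℕ => 1 - 1 / 2 * (1 / ((n : ℝ) + 1))) atTop (𝓝 1) := by
    have h := (tendsto_one_div_add_atTop_nhds_zero_nat (𝕜 := ℝ)).const_mul (1 / 2)
    have h2 := h.const_sub 1
    simpa only [mul_zero, sub_zero] using h2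
  refine Mix_lim (C := 1) (fun n => Mix_invgeo (hs n)) (fun n j hj => ?_) fun j hj => ?_
  · have h1 : (1 : ℝ) ≤ ∑ i ∈ Finset.range j, (1 - 1 / 2 * (1 / ((n : ℝ) + 1))) ^ i := by
      have h := Finset.single_le_sum (f := fun i => (1 - 1 / 2 * (1 / ((n : ℝ) + 1))) ^ i)
        (fun i _ => pow_nonneg (hs n).1.le i) (Finset.mem_range.2 (show 0 < j by omega))
      simpa only [pow_zero] using h
    rw [abs_of_nonneg (inv_nonneg.2 (by linarith))]
    exact inv_le_one_of_one_le₀ h1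
  · have h := tendsto_finsetSum (Finset.range j) fun i _ => ht.pow i
    simp only [one_pow, Finset.sum_const, Finset.card_range, nsmul_eq_mul, mul_one] at h
    exact h.inv₀ (Nat.cast_ne_zero.2 (by omega))

theorem Mix_expm {c : ℕ → ℝ} {C : ℝ} (hc : Mix_Mul c) (h0 : ∀ j, 2 ≤ j → 0 ≤ c j)
    (h1 : ∀ j, 2 ≤ j → c j ≤ C) : Mix_Mul fun j => exp (c j) := by
  have hm : ∀ n : ℕ, Mix_Mul fun j => c j ^ n / (n.factorial : ℝ) := fun n => by
    have h := (hc.pow n).mul (Mix_const (c := (n.factorial : ℝ)⁻¹) (by positivity))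
    simpa only [div_eq_mul_inv] using h
  refine Mix_lim (C := exp C) (fun N => Mix_fsum hm N) (fun N j hj => ?_) fun j _ => ?_
  · have := h0 j hj
    rw [abs_of_nonneg (Finset.sum_nonneg fun n _ => by positivity)]
    exact (sum_le_exp_of_nonneg this N).trans (exp_le_exp.2 (h1 j hj))
  · rw [Real.exp_eq_exp_ℝ]
    exact (NormedSpace.expSeries_div_hasSum_exp (c j)).tendsto_sum_nat

/-- the iteration for the smaller root -/
noncomputable def Mix_it (lam : ℝ) : ℕ → ℕ → ℝ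
  | 0, _ => 0
  | n + 1, j => (lam + Mix_it lam n j ^ 2) * (1 / 2) * (j : ℝ)⁻¹

theorem Mix_it_mul (h0 : 0 ≤ lam) (n : ℕ) : Mix_Mul (Mix_it lam n) := by
  induction n with
  | zero => exact Mix_const le_rfl
  | succ n ih =>
    exact (((Mix_const h0).add (ih.pow 2)).mul (Mix_const (by norm_num))).mul Mix_invj

theorem Mix_del_le (h0 : 0 ≤ lam) (hl : lam < 4) (hj : 2 ≤ j) : j - mm lam j ≤ 2 - mm lam 2 := by
  have h := mm_add h0 hl le_rfl (j - 2)
  rw [Nat.sub_add_cancel hj, Nat.cast_sub hj] at h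
  push_cast at h
  linarith

theorem Mix_it_bd (h0 : 0 ≤ lam) (hl : lam < 4) (hj : 2 ≤ j) (n : ℕ) :
    0 ≤ Mix_it lam n j ∧ Mix_it lam n j ≤ j - mm lam j ∧
      j - mm lam j - Mix_it lam n j ≤ (j - mm lam j) * ((j - mm lam j) / j) ^ n := by
  have hj2 : (2 : ℝ) ≤ j := by exact_mod_cast hj
  have hjp : (0 : ℝ) < j := by linarith
  have hd : 0 ≤ j - mm lam j := sub_nonneg.2 (mm_le h0 j)
  have hfix : j - mm lam j = (lam + (j - mm lam j) ^ 2) * (1 / 2) * (j : ℝ)⁻¹ := by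
    have := mm_sq hl hj
    field_simp
    nlinarith
  generalize (j : ℝ) - mm lam j = d at hd hfix
  induction n with
  | zero => simp [Mix_it, hd]
  | succ n ih =>
    obtain ⟨i1, i2, i3⟩ := ih
    have hi : 0 ≤ (j : ℝ)⁻¹ := by positivity
    have e : d - Mix_it lam (n + 1) j =
        (d - Mix_it lam n j) * ((d + Mix_it lam n j) * (1 / 2) * (j : ℝ)⁻¹) := by
      rw [Mix_it]
      linear_combination hfix
    have h1 : 0 ≤ d - Mix_it lam n j := sub_nonneg.2 i2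
    have h2 : 0 ≤ (d + Mix_it lam n j) * (1 / 2) * (j : ℝ)⁻¹ := by positivity
    have h3 : (d + Mix_it lam n j) * (1 / 2) * (j : ℝ)⁻¹ ≤ d / j := by
      rw [div_eq_mul_inv d]
      exact mul_le_mul_of_nonneg_right (by linarith) hi
    refine ⟨by rw [Mix_it]; positivity, ?_, ?_⟩
    · have := mul_nonneg h1 h2
      linarith
    · rw [e, pow_succ, ← mul_assoc d]
      exact mul_le_mul i3 h3 h2 (by positivity)

theorem Mix_ratio (h0 : 0 ≤ lam) (hl : lam < 4) (hj : 2 ≤ j) :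
    (j - mm lam j) / j ≤ 1 - mm lam 2 / 2 := by
  have hj2 : (2 : ℝ) ≤ j := by exact_mod_cast hj
  have h1 := Mix_del_le h0 hl hj
  have h2 : mm lam 2 ≤ 2 := by simpa using mm_le h0 2
  rw [div_le_iff₀ (by linarith)]
  nlinarith

theorem Mix_del (h0 : 0 ≤ lam) (hl : lam < 4) : Mix_Mul fun j => j - mm lam j := by
  have hp : 0 < mm lam 2 := mm_pos hl le_rfl
  refine Mix_lim (C := 2) (Mix_it_mul h0) (fun n j hj => ?_) fun j hj => ?_
  · obtain ⟨i1, i2, -⟩ := Mix_it_bd h0 hl hj n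
    rw [abs_of_nonneg i1]
    linarith [Mix_del_le h0 hl hj]
  · have hd : 0 ≤ j - mm lam j := sub_nonneg.2 (mm_le h0 j)
    have hr := Mix_ratio h0 hl hj
    have h1 := (tendsto_pow_atTop_nhds_zero_of_lt_one (r := (j - mm lam j) / j)
      (div_nonneg hd (Nat.cast_nonneg j)) (by linarith)).const_mul (j - mm lam j)
    have h2 := h1.const_sub (j - mm lam j)
    rw [mul_zero, sub_zero] at h2
    refine tendsto_of_tendsto_of_tendsto_of_le_of_le h2 tendsto_const_nhds (fun n => ?_)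
      fun n => (Mix_it_bd h0 hl hj n).2.1
    have := (Mix_it_bd h0 hl hj n).2.2
    linarith

theorem Mix_delj (h0 : 0 ≤ lam) (hl : lam < 4) : Mix_Mul fun j => (j - mm lam j) / j := by
  simpa only [div_eq_mul_inv] using (Mix_del h0 hl).mul Mix_invj

theorem Mix_quot (h0 : 0 ≤ lam) (hl : lam < 4) : Mix_Mul fun j => j / mm lam j := by
  have hp : 0 < mm lam 2 := mm_pos hl le_rfl
  refine (Mix_geo (θ := 1 - mm lam 2 / 2) (Mix_delj h0 hl) (by linarith)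
    (fun j _ => div_nonneg (sub_nonneg.2 (mm_le h0 j)) (Nat.cast_nonneg j))
    fun j hj => Mix_ratio h0 hl hj).congr fun j hj => ?_
  have hj0 : (j : ℝ) ≠ 0 := Nat.cast_ne_zero.2 (by omega)
  have e : 1 - (j - mm lam j) / j = mm lam j / j := by field_simp; ring
  rw [e, inv_div]

theorem mix_exp {b : ℕ → ℝ} (h0 : 0 ≤ lam) (hl : lam < 4) (hb : PosS b) (hρ : 0 ≤ ρ) :
    PosS fun j => b j * exp ((j - mm lam j) * ρ) := by
  refine (Mix_expm (C := 2 * ρ) ((Mix_del h0 hl).mul (Mix_const hρ))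
    (fun j _ => mul_nonneg (sub_nonneg.2 (mm_le h0 j)) hρ) fun j hj => ?_).pos hb
  exact mul_le_mul_of_nonneg_right (by linarith [Mix_del_le h0 hl hj, mm_nonneg lam 2]) hρ

theorem mix_nu {b : ℕ → ℝ} (h0 : 0 ≤ lam) (hl : lam < 4) (hb : PosS b) :
    PosS fun j => b j * (j / mm lam j - 1) := by
  refine (((Mix_delj h0 hl).mul (Mix_quot h0 hl)).congr
    (d := fun j => j / mm lam j - 1) fun j hj => ?_).pos hb
  have hj0 : (j : ℝ) ≠ 0 := Nat.cast_ne_zero.2 (by omega)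
  have hm := (mm_pos hl hj).ne'
  field_simp

theorem mix_inv {b : ℕ → ℝ} (h0 : 0 ≤ lam) (hl : lam < 4) (hb : PosS b) :
    PosS fun j => b j / mm lam j := by
  have h := ((Mix_invj.mul (Mix_quot h0 hl)).congr (d := fun j => (mm lam j)⁻¹) fun j hj => by
    have hj0 : (j : ℝ) ≠ 0 := Nat.cast_ne_zero.2 (by omega)
    have hm := (mm_pos hl hj).ne'
    field_simp).pos hb
  simpa only [div_eq_mul_inv] using h

theorem hat0 {b : ℕ → ℝ} (h0 : 0 ≤ lam) (hl : lam < 4) (hb : PosS b) (hq : q ∈ Ioo (0 : ℝ) 1)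
    (hρ : 0 ≤ ρ) : 0 ≤ ∑' j, q ^ j * ee lam j ρ * b j := by
  have h1 : exp (-ρ) ≤ 1 := exp_le_one_iff.2 (by linarith)
  have h2 := exp_pos (-ρ)
  have h := (mix_exp h0 hl hb hρ).2.2.2 (q * exp (-ρ))
    ⟨mul_pos hq.1 h2, by nlinarith [hq.1, hq.2]⟩
  have e : ∀ j : ℕ, b j * exp ((j - mm lam j) * ρ) * (q * exp (-ρ)) ^ j =
      q ^ j * ee lam j ρ * b j := fun j => by
    have e2 : ee lam j ρ = exp ((j - mm lam j) * ρ) * exp (-ρ) ^ j := by
      rw [← exp_nat_mul, ← exp_add, ee,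
        show (j - mm lam j) * ρ + j * -ρ = -(mm lam j * ρ) by ring]
    rw [e2, mul_pow]
    ring
  simpa only [e] using h

theorem hat_nu {b : ℕ → ℝ} (h0 : 0 ≤ lam) (hl : lam < 4) (hb : PosS b) (hq : q ∈ Ioo (0 : ℝ) 1)
    (hρ : 0 ≤ ρ) : 0 ≤ ∑' j, q ^ j * ee lam j ρ * (b j * (j / mm lam j - 1)) :=
  hat0 h0 hl (mix_nu h0 hl hb) hq hρ

theorem hat_inv {b : ℕ → ℝ} (h0 : 0 ≤ lam) (hl : lam < 4) (hb : PosS b) (hq : q ∈ Ioo (0 : ℝ) 1)
    (hρ : 0 ≤ ρ) : 0 ≤ ∑' j, q ^ j * ee lam j ρ * (b j / mm lam j) :=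
  hat0 h0 hl (mix_inv h0 hl hb) hq hρ

end Pool.Agent.L2Q
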