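import Pool.Agent.P.MP_2f6447_an.Q.Box
import Pool.Agent.P.MP_2f6447_an.Q.Cmpz
import Pool.Agent.P.MP_2f6447_an.Q.Four
import Pool.Agent.P.MP_2f6447_an.Q.Green

/-! Upper bound for zz on a vertical inside the box. On x = x_i: sine_inv (summable by summable_bet and hb), sin(j(π-η)) - sin(jη) = -2 sin(jη) for even j, 0 for odd j, so zz ⟨x_i,η⟩ = -2 am 2 sin 2η + ∑' k (-2 am (2k+4)) sin((2k+4)η).
A k = -2 am u (2k+4) x₁, B k = -2 am u (2k+4) x₂; δ_N = tail sum of |A k| + |B k| → 0; exists_cmp, box_max, N → ∞. -/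

open Set MeasureTheory Filter Topology Real
open scoped ComplexConjugate

namespace Pool.Agent.L2Q

open Pool.Agent.L2K

variable {Ω : Set ℂ} {lam nT nB m a b x y : ℝ} {u : ℂ → ℝ} {G : ℂ → ℂ} {l r : ℝ → ℝ} {j : ℕ}

theorem QD.n1 (h : QD Ω lam u G l r nT nB) {x₁ x₂ x₀ α β ψ : ℝ} (hα : 0.785 ≤ α) (hβ : 0.785 ≤ β) (h1 : α ≤ x₀ - x₁)
    (h2 : β ≤ x₂ - x₀) (hψ : 0.2 ≤ ψ) (ha : -am u 2 x₁ ≤ ψ ∧ -am u 2 x₂ ≤ ψ)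
    (hb : ∀ j, 3 ≤ j → |π * mm lam j * am u j x₁| ≤ bet lam j ∧
      |π * mm lam j * am u j x₂| ≤ bet lam j)
    (hk : ∀ x ∈ Ioo x₁ x₂, ∀ η ∈ Ioo 0 (π / 2), x = l (π - η) ∨ x = r η → zz u ⟨x, η⟩ ≤ 0 ∧
      ((∀ j, am u j x₁ = 0) ∨ 1.035 ≤ x - x₁) ∧ ((∀ j, am u j x₂ = 0) ∨ 1.035 ≤ x₂ - x))
    {η : ℝ} (hη : η ∈ Icc 0 (π / 2)) :
    zz u ⟨x₀, η⟩ ≤ η * (4 * ψ * (cosh (mm lam 2 * (α - β) / 2) / cosh (mm lam 2 * (α + β) / 2)) +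
      (if 1.035 ≤ α then 0.031 else 0.074) + if 1.035 ≤ β then 0.031 else 0.074) := by sorry

end Pool.Agent.L2Q
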