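import Pool.Agent.P.MP_2f6447_an.Q.Ftc
import Pool.Agent.P.MP_2f6447_an.Q.MW

/-! Lower bounds for pieces of the arc integral of `Gh`. -/

open Set MeasureTheory Filter Topology Real

namespace Pool.Agent.L2Q

open Pool.Agent.L2K

variable {lam q ρ y t a b c m : ℝ} {j : ℕ} {ξ p : ℝ → ℝ}

theorem Arc.rise_ge (A : Arc ξ p t) (h2 : 2 ≤ lam) (hl : lam < 4) (hq : q ∈ Ioo (0 : ℝ) 1)
    (h0 : 0 ≤ ξ 0) : P0 lam q (ξ t) t ≤ ∫ y in (0 : ℝ)..t, Gh lam q |ξ y| y * sq1 p y := by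
  have ht := A.tmem
  have ht0 : (0 : ℝ) ∈ Icc 0 π := ⟨le_rfl, pi_pos.le⟩
  have ht1 : t ∈ Icc 0 π := ⟨ht.1.le, ht.2.le⟩
  have hsub : ∀ {b : ℝ}, b ≤ t → Icc 0 b ⊆ Icc 0 π := fun hb => Icc_subset_Icc_right (hb.trans ht.2.le)
  have hnn : ∀ y ∈ Icc 0 t, 0 ≤ ξ y := fun y hy => h0.trans (A.mono ⟨le_rfl, ht.1.le⟩ hy hy.1)
  have hG : ContinuousOn (fun y => Gh lam q (ξ y) y) (uIcc 0 t) := by
    rw [uIcc_of_le ht.1.le]
    exact contOn_Gh h2 hl hq (A.cont.mono (hsub le_rfl)) hnn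
  have hhead : ∀ b ∈ Icc 0 t, P0 lam q (ξ b) b ≤ ∫ y in (0 : ℝ)..b, Gh lam q (ξ y) y := fun b hb =>
    ftc_P0 h2 hl hq (r' := p) hb.1 (A.cont.mono (hsub hb.2))
      (fun y hy => hnn y ⟨hy.1, hy.2.trans hb.2⟩)
      (fun y hy => A.der y ⟨hy.1, (hy.2.trans_le hb.2).trans ht.2⟩)
      (A.ii_p.mono_set (uIcc_subset_uIcc_left (by
        rw [uIcc_of_le pi_pos.le]
        exact ⟨hb.1, hb.2.trans ht.2.le⟩)))
      fun y hy => A.p_nonneg ⟨hy.1, hy.2.le.trans hb.2⟩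
  have i1 := A.ii_mul ht0 ht1 hG
  have i2 : IntervalIntegrable (fun y => Gh lam q (ξ y) y) volume 0 t := hG.intervalIntegrable
  have e : ∀ y, (sq1 p y - 1) * Gh lam q (ξ y) y =
      Gh lam q (ξ y) y * sq1 p y - Gh lam q (ξ y) y := fun y => by ring
  have h1 := mw_head0 (w := fun y => sq1 p y - 1) (k := fun y => Gh lam q (ξ y) y) ht.1.le
    (fun x hx y hy hxy => sub_le_sub_right
      (A.sq1_anti (Ioo_subset_Ioc_self hx) (Ioo_subset_Ioc_self hy) hxy) 1)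
    (fun y _ => sub_nonneg.2 (one_le_sq1 p y)) i2 (by simpa only [e] using i1.sub i2)
    fun y hy => (P0_nonneg h2 hl hq _ _).trans (hhead y hy)
  simp only [e] at h1
  rw [intervalIntegral.integral_sub i1 i2] at h1
  have h3 : ∫ y in (0 : ℝ)..t, Gh lam q |ξ y| y * sq1 p y =
      ∫ y in (0 : ℝ)..t, Gh lam q (ξ y) y * sq1 p y :=
    intervalIntegral.integral_congr fun y hy => by
      rw [uIcc_of_le ht.1.le] at hy
      simp only [abs_of_nonneg (hnn y hy)]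
  rw [h3]
  linarith [hhead t ⟨ht.1.le, le_rfl⟩]

theorem Arc.ii_Gh (A : Arc ξ p t) (h2 : 2 ≤ lam) (hl : lam < 4) (hq : q ∈ Ioo (0 : ℝ) 1)
    (ha : a ∈ Icc 0 π) (hb : b ∈ Icc 0 π) :
    IntervalIntegrable (fun y => Gh lam q |ξ y| y * sq1 p y) volume a b := by
  exact A.ii_mul ha hb (contOn_Gh h2 hl hq (A.cont.mono (uIcc_subset_Icc ha hb)).abs
    fun y _ => abs_nonneg _)

theorem Piece_pt {G E : ℝ} (hp : p y ≤ 0) (h1 : 0 ≤ E) (h2 : 0 ≤ E + G) :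
    G + E * p y ≤ G * sq1 p y := by
  have h3 := one_le_sq1 p y
  have h4 := sq1_le p y
  rw [abs_of_nonpos hp] at h4
  rcases le_total 0 G with h | h
  · nlinarith [mul_nonneg h (sub_nonneg.2 h3), mul_nonneg h1 (neg_nonneg.2 hp)]
  · nlinarith [mul_nonneg (neg_nonneg.2 h) (sub_nonneg.2 h4), mul_nonneg h2 (neg_nonneg.2 hp)]

theorem Arc.piece_fall (A : Arc ξ p t) (h2 : 2 ≤ lam) (hl : lam < 4) (hq : q ∈ Ioo (0 : ℝ) 1)
    (hta : t ≤ a) (hab : a ≤ b) (hb : b ≤ π) (h0 : 0 ≤ ξ b) {Φ D : ℝ → ℝ}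
    (hΦ : ∀ s, HasDerivAt Φ (-D s) s) (hD : Continuous D)
    (h : ∀ y ∈ Icc a b, -Fh lam q (ξ y) y ≤ D (ξ y) ∧
      -Fh lam q (ξ y) y - Gh lam q (ξ y) y ≤ D (ξ y)) :
    Ph lam q (ξ a) a - Ph lam q (ξ b) b - (Φ (ξ b) - Φ (ξ a)) ≤
      ∫ y in a..b, Gh lam q |ξ y| y * sq1 p y := by
  have ht := A.tmem
  have ha0 : a ∈ Icc 0 π := ⟨ht.1.le.trans hta, hab.trans hb⟩
  have hb0 : b ∈ Icc 0 π := ⟨ha0.1.trans hab, hb⟩
  have hsub : Icc a b ⊆ Icc 0 π := Icc_subset_Icc ha0.1 hb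
  have hnn : ∀ y ∈ Icc a b, 0 ≤ ξ y := fun y hy =>
    h0.trans (A.anti' ⟨hta.trans hy.1, hy.2.trans hb⟩ ⟨hta.trans hab, hb⟩ hy.2)
  have hc := A.cont.mono hsub
  have hu := uIcc_of_le hab
  have h1 := ftc_Ph h2 hl hq (r' := p) hab hc hnn
    (fun y hy => A.der y ⟨ha0.1.trans_lt hy.1, hy.2.trans_le hb⟩)
    (A.ii_p.mono_set (by rw [hu, uIcc_of_le pi_pos.le]; exact hsub))
  have h3 := A.ftc_comp (D := fun s => -D s) hΦ hD.neg ha0 hb0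
  have i1 : IntervalIntegrable (fun y => Gh lam q (ξ y) y) volume a b :=
    (hu ▸ contOn_Gh h2 hl hq hc hnn : ContinuousOn _ (uIcc a b)).intervalIntegrable
  have i2 := A.ii_mul_p (f := fun y => Fh lam q (ξ y) y) ha0 hb0 (hu ▸ contOn_Fh h2 hl hq hc hnn)
  have i3 := A.ii_mul_p (f := fun y => -D (ξ y)) ha0 hb0
    (hu ▸ hD.neg.comp_continuousOn hc)
  have h4 := intervalIntegral.integral_mono_on_of_le_Ioo hab ((i1.add i2).sub i3)
    (A.ii_Gh h2 hl hq ha0 hb0) fun y hy => by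
      have hy' := Ioo_subset_Icc_self hy
      rw [abs_of_nonneg (hnn y hy')]
      have := Piece_pt (G := Gh lam q (ξ y) y) (E := Fh lam q (ξ y) y + D (ξ y))
        (A.p_nonpos ⟨hta.trans hy'.1, hy.2.trans_le hb⟩) (by linarith [(h y hy').1])
        (by linarith [(h y hy').2])
      linarith
  rw [intervalIntegral.integral_sub (i1.add i2) i3, intervalIntegral.integral_add i1 i2, h1,
    h3] at h4
  linarith

theorem Arc.piece_cross (A : Arc ξ p t) (h2 : 2 ≤ lam) (hl : lam < 4) (hq : q ∈ Ioo (0 : ℝ) 1)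
    (htc : t ≤ c) (hc : c ≤ π) (h0 : ξ c = 0) {Φ D : ℝ → ℝ}
    (hΦ : ∀ s, HasDerivAt Φ (-D s) s) (hD : Continuous D) (hp : ∀ s, 0 ≤ s → 0 ≤ Φ s)
    (h : ∀ y ∈ Icc c π, Fh lam q (-ξ y) y ≤ D (-ξ y) ∧
      Fh lam q (-ξ y) y - Gh lam q (-ξ y) y ≤ D (-ξ y)) :
    Ph lam q 0 c - Φ 0 ≤ ∫ y in c..π, Gh lam q |ξ y| y * sq1 p y := by
  have ht := A.tmem
  have ha0 : c ∈ Icc 0 π := ⟨ht.1.le.trans htc, hc⟩
  have hb0 : π ∈ Icc 0 π := ⟨pi_pos.le, le_rfl⟩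
  have hsub : Icc c π ⊆ Icc 0 π := Icc_subset_Icc_left ha0.1
  have hnn : ∀ y ∈ Icc c π, 0 ≤ -ξ y := fun y hy => by
    have := A.anti' ⟨htc, hc⟩ ⟨htc.trans hy.1, hy.2⟩ hy.1
    linarith
  have hcx := A.cont.mono hsub
  have hcn : ContinuousOn (fun y => -ξ y) (Icc c π) := hcx.neg
  have hu := uIcc_of_le hc
  have h1 := ftc_Ph h2 hl hq (r := fun y => -ξ y) (r' := fun y => -p y) hc hcn hnn
    (fun y hy => (A.der y ⟨ha0.1.trans_lt hy.1, hy.2⟩).neg)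
    (A.ii_p.mono_set (by rw [hu, uIcc_of_le pi_pos.le]; exact hsub)).neg
  have hΨ : ∀ s, HasDerivAt (fun s => Φ (-s)) (D (-s)) s := fun s => by
    have h5 := (hΦ (-s)).comp s (hasDerivAt_neg' s)
    rw [mul_neg, mul_one, neg_neg] at h5
    exact h5
  have hD' : Continuous fun s => D (-s) := hD.comp continuous_neg
  have h3 := A.ftc_comp hΨ hD' ha0 hb0
  have i1 : IntervalIntegrable (fun y => Gh lam q (-ξ y) y) volume c π :=
    (hu ▸ contOn_Gh h2 hl hq hcn hnn : ContinuousOn _ (uIcc c π)).intervalIntegrable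
  have i2 := A.ii_mul_p (f := fun y => Fh lam q (-ξ y) y) ha0 hb0 (hu ▸ contOn_Fh h2 hl hq hcn hnn)
  have i3 := A.ii_mul_p (f := fun y => D (-ξ y)) ha0 hb0 (hu ▸ hD'.comp_continuousOn hcx)
  have h4 := intervalIntegral.integral_mono_on_of_le_Ioo hc ((i1.sub i2).add i3)
    (A.ii_Gh h2 hl hq ha0 hb0) fun y hy => by
      have hy' := Ioo_subset_Icc_self hy
      rw [abs_of_nonpos (neg_nonneg.1 (hnn y hy'))]
      have := Piece_pt (G := Gh lam q (-ξ y) y) (E := D (-ξ y) - Fh lam q (-ξ y) y)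
        (A.p_nonpos ⟨htc.trans hy'.1, hy.2⟩) (by linarith [(h y hy').1])
        (by linarith [(h y hy').2])
      linarith
  simp only [mul_neg, intervalIntegral.integral_neg, h0, neg_zero, Ph_pi] at h1 h3
  rw [intervalIntegral.integral_add (i1.sub i2) i3, intervalIntegral.integral_sub i1 i2, h1,
    h3] at h4
  linarith [hp _ (hnn π ⟨hc, le_rfl⟩)]

end Pool.Agent.L2Q
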