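import Pool.Agent.P.MP_2f6447_an.Q.Flux
import Pool.Agent.P.MP_2f6447_an.Q.Branch
import Pool.Agent.P.MP_2f6447_an.Q.Ser1
import Pool.Agent.P.MP_2f6447_an.Q.Ser2

/-! Series for u and its gradient on verticals of the common range. For x ∈ (xL,xR) put a = min (x-xL) (xR-x) > 0; repj, am_deriv3 and EI_abs give geometric decay: j³|am j x| and j|deriv (am j) x| are summable (ser_1, ser_2 with m = 2.236).
ser_u: sine_inv. ser_ux: sine_inv for y ↦ (G ⟨x,y⟩).re (continuous on [0,π], zero at the ends by reB, reT; coefficients am_deriv). ser_uy: `hasDerivAt_tsum` in y on (0,π), uniqueness of the derivative (hasDerivAt_im, eqG), extension to the ends by continuity of both sides.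
two_sided: ee (d-ξ) + ee (d+ξ) = 2 ee d cosh(mξ) is monotone in |ξ|. -/

open Set MeasureTheory Filter Topology Real
open scoped ComplexConjugate

namespace Pool.Agent.L2Q

open Pool.Agent.L2K

variable {Ω : Set ℂ} {lam nT nB m a b x y : ℝ} {u : ℂ → ℝ} {G : ℂ → ℂ} {l r : ℝ → ℝ} {j : ℕ}

theorem QD.two_sided (h : QD Ω lam u G l r nT nB) {xs d δ : ℝ} (h1 : xL l ≤ xs - d) (h2 : xs + d ≤ xR r)
    (hx : |x - xs| ≤ δ) (hδ : δ < d) (hj : 2 ≤ j) :
    |EI lam j (fun y => x - l y) (fun y => -deriv l y) 0 π| +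
      |EI lam j (fun y => r y - x) (deriv r) 0 π| ≤
      (1 + od j) * hh lam j * ee lam j (d - δ) + (1 + od j) * hh lam j * ee lam j (d + δ) := by sorry

theorem QD.summable3 (h : QD Ω lam u G l r nT nB) (hx : x ∈ Ioo (xL l) (xR r)) :
    (Summable fun j : ℕ => (j : ℝ) ^ 3 * |am u j x|) ∧
      Summable fun j : ℕ => (j : ℝ) * |deriv (am u j) x| := by sorry

theorem QD.ser_u (h : QD Ω lam u G l r nT nB) (hx : x ∈ Ioo (xL l) (xR r)) (hy : y ∈ Icc 0 π) :
    HasSum (fun j : ℕ => am u j x * sin (j * y)) (u ⟨x, y⟩) := by sorry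

theorem QD.ser_ux (h : QD Ω lam u G l r nT nB) (hx : x ∈ Ioo (xL l) (xR r)) (hy : y ∈ Icc 0 π) :
    HasSum (fun j : ℕ => deriv (am u j) x * sin (j * y)) (G ⟨x, y⟩).re := by sorry

theorem QD.ser_uy (h : QD Ω lam u G l r nT nB) (hx : x ∈ Ioo (xL l) (xR r)) (hy : y ∈ Icc 0 π) :
    HasSum (fun j : ℕ => j * am u j x * cos (j * y)) (G ⟨x, y⟩).im := by sorry

end Pool.Agent.L2Q
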