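import Pool.Agent.P.MP_2f6447_an.Q.StA
import Pool.Agent.P.MP_2f6447_an.Q.Wst

/-! The stage that uses W ≥ 0. d0 = min (xs - xL) (xR - xs) ≥ d. Suppose d0 < D. One of the four junctions is at distance d0 from xs; use Wall.wlem on its segment (wT or wB) with
φ ξ = max c0 (B S1 ξ + min cap (4γ cosh(mm 2 ξ)) + 0.012 + R exp(-m ξ)); point_R at xs+ξ with a = d+ξ, point_L at xs-ξ, bR_shift, stageV; φ 0 = c0 (hp at t = 0); S1_le_poly, cosh_le, exp_neg_le_cube give φ ≤ pp on [0,t1]; abs_S1_le' gives φ ≤ M for ξ ≥ t1; cap_neg. -/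

open Set MeasureTheory Filter Topology Real
open scoped ComplexConjugate

namespace Pool.Agent.L2Q

open Pool.Agent.L2K

variable {Ω : Set ℂ} {lam nT nB m a b x y : ℝ} {u : ℂ → ℝ} {G : ℂ → ℂ} {l r : ℝ → ℝ} {j : ℕ}

variable {a0 b0 mlo M2 mu1 u1 u2 xs B d e0 e B0 γ cap B1 δ c0 k0 C : ℝ}


theorem QD.stageW (h : QD Ω lam u G l r nT nB) (R : Rg lam m a0 b0 mlo M2 mu1 u1 u2)
    (P : VP m a0 b0 mlo M2 mu1 u1 d e0 e B0 γ cap B1) (S : St lam l r xs B d) (hB : B ≤ B0)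
    {D : ℝ} (W : WP m M2 mu1 u1 d γ cap B1 D) : St lam l r xs B D ∧ B ≤ B1 := by sorry

end Pool.Agent.L2Q
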