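import Pool.Agent.P.MP_2f6447_an.Q.Green

/-! Volterra representation. For continuous χ with compact support put φ x' = ∫ t, S (max (x' - t) 0) χ t = ∫ t in -R..x', S (x'-t) χ t. Expand S(x'-t) = S x' C t - C x' S t (true for any pair with S' = C, C' = -κ S, S 0 = 0, C 0 = 1: uniqueness via constancy of suitable Wronskians,
or avoid it by the Leibniz rule) so that φ is C² with φ'' + κ φ = χ. QD.green and Fubini give ∫ χ t (π/2 am t - Λ t) dt = 0, Λ t the right side, continuous in t; take χ = (π/2 am - Λ) * bump to conclude. -/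

open Set MeasureTheory Filter Topology Real
open scoped ComplexConjugate

namespace Pool.Agent.L2Q

open Pool.Agent.L2K

variable {Ω : Set ℂ} {lam nT nB m a b x y : ℝ} {u : ℂ → ℝ} {G : ℂ → ℂ} {l r : ℝ → ℝ} {j : ℕ}

theorem QD.volterra (h : QD Ω lam u G l r nT nB) (j : ℕ) {S C : ℝ → ℝ} (h1 : ∀ t, HasDerivAt S (C t) t)
    (h2 : ∀ t, HasDerivAt C (-((lam - (j : ℝ) ^ 2) * S t)) t) (h3 : S 0 = 0) (h4 : C 0 = 1) (x : ℝ) :
    π / 2 * am u j x =
      (∫ y in (0 : ℝ)..π, S (max (r y - x) 0) * sin (j * y) * sq1 (deriv r) y) -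
        ∫ y in (0 : ℝ)..π, S (max (l y - x) 0) * sin (j * y) * sq1 (deriv l) y := by sorry

end Pool.Agent.L2Q
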