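import Pool.Agent.P.MP_2f6447_an.Q.Rep
import Pool.Agent.P.MP_2f6447_an.Q.Abel

/-! The wall formula. abel for f = u ⟨x,·⟩ (u_le_sin, slope_bot); split off j = 0,1,2 (`Summable.sum_add_tsum_nat_add`; |am| is bounded), repj for j = k+3, summable_KI. wall_le: `le_of_tendsto_of_tendsto`-type argument along 𝓝[<] 1 (eventually q ∈ (0,1)). -/

open Set MeasureTheory Filter Topology Real
open scoped ComplexConjugate

namespace Pool.Agent.L2Q

open Pool.Agent.L2K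

variable {Ω : Set ℂ} {lam nT nB m a b x y : ℝ} {u : ℂ → ℝ} {G : ℂ → ℂ} {l r : ℝ → ℝ} {j : ℕ}

theorem QD.wall_bot (h : QD Ω lam u G l r nT nB) (hx : x ∈ Icc (l 0) (r 0)) :
    Tendsto (fun q : ℝ => q * am u 1 x + 2 * q ^ 2 * am u 2 x -
      KI lam (fun y => r y - x) (deriv r) q + KI lam (fun y => x - l y) (fun y => -deriv l y) q)
      (𝓝[<] 1) (𝓝 (gb G x)) := by sorry

theorem QD.wall_le (h : QD Ω lam u G l r nT nB) (hx : x ∈ Icc (l 0) (r 0)) {η φ : ℝ}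
    (hR : ∀ q ∈ Ioo (0 : ℝ) 1, -η - (1 - q ^ 3) ≤ KI lam (fun y => r y - x) (deriv r) q)
    (hL : ∀ q ∈ Ioo (0 : ℝ) 1, KI lam (fun y => x - l y) (fun y => -deriv l y) q ≤ φ) :
    gb G x ≤ am u 1 x + 2 * am u 2 x + η + φ := by sorry

end Pool.Agent.L2Q
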